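import Pool.Agent.Work.MP_e17eac_co.Bd.B05

/-!
# Nested composition: balance and condition `R` of the step
-/

set_option autoImplicit false

namespace Pool.Agent.Work.MP_e17eac_co.NC

open Finset Pool.Agent.Work.MP_e17eac_co.HL
open scoped Classical

theorem claimBalR (h1 : ClaimSum) (h2 : ClaimNe) (h3 : ClaimLine) (h4 : ClaimSign)
    (h5 : ClaimMisc) : ClaimBalR := by
  intro c p F J hc hp hF a
  obtain ⟨-, -, -, -, hx, hρ0, -, -, -⟩ := h5 c p F J hc hp hF
  obtain ⟨s0, s1, hs⟩ := h2 c p F J hc hp hF a
  have hgt : (step c p F J).g a (ntgt c p F J a) = 0 := Cfg.g_tgt (c := step c p F J) a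
  have hgs : (step c p F J).g a (nsrc c p F J a) = 0 := by
    have hx' : (step c p F J).x ((step c p F J).src a) - (step c p F J).x ((step c p F J).tgt a)
        ≠ 0 := sub_ne_zero.mpr (hx a)
    show (step c p F J).ht a ((step c p F J).x ((step c p F J).src a))
      ((step c p F J).y ((step c p F J).src a)) = 0
    unfold Cfg.ht Cfg.xi
    rw [div_self hx']
    ring
  constructor
  · obtain ⟨α, β, hok, hval⟩ := h3 c p F J hc hp hF a 0 0 (by simpa using hρ0 _)
      (by simpa using hρ0 _)
    have hval' : ∀ w : NV c p F J, (step c p F J).g a w = gw c p F J a.1 α β w := by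
      intro w
      have := hval w
      simpa using this
    have hsg : ∀ w : NV c p F J, sg ((step c p F J).g a w) = sgF c p F J a w := by
      intro w
      by_cases hw1 : w = nsrc c p F J a
      · rw [hw1, s0, hgs, sg_zero]
      by_cases hw2 : w = ntgt c p F J a
      · rw [hw2, s1, hgt, sg_zero]
      have h6 := (h4 c p F J hc hp hF a α β hok w hw1 hw2).1
      rw [hval' w]
      rcases hs w hw1 hw2 with h7 | h7
      · rw [h7] at h6 ⊢
        exact sg_of_pos (by simpa using h6)
      · rw [h7] at h6 ⊢
        exact sg_of_neg (by simpa using h6)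
    have h8 := h1 c p F J hc hp hF a
    rw [← h8]
    exact Finset.sum_congr rfl fun w _ => hsg w
  · intro w hw1 hw2
    have hs' := hs w hw1 hw2
    set s : ℝ := ((sgF c p F J a w : ℤ) : ℝ) with hsdef
    have hs1 : s = 1 ∨ s = -1 := by
      rcases hs' with h | h
      · left; rw [hsdef, h]; norm_num
      · right; rw [hsdef, h]; norm_num
    have hss : s * s = 1 := by rcases hs1 with h | h <;> rw [h] <;> norm_num
    have hsabs : |s| = 1 := by rcases hs1 with h | h <;> rw [h] <;> norm_num
    set A := nρ c p F J (nsrc c p F J a) with hA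
    set B := nρ c p F J (ntgt c p F J a) with hB
    have hA0 : 0 ≤ A := hρ0 _
    have hB0 : 0 ≤ B := hρ0 _
    have sgnabs : ∀ r : ℝ, ∃ t : ℝ, |t| ≤ 1 ∧ t * r = |r| := by
      intro r
      rcases le_total 0 r with h | h
      · exact ⟨1, by norm_num, by rw [abs_of_nonneg h]; ring⟩
      · exact ⟨-1, by norm_num, by rw [abs_of_nonpos h]; ring⟩
    obtain ⟨t1, ht1, ht1'⟩ := sgnabs ((step c p F J).ξ a w)
    obtain ⟨t2, ht2, ht2'⟩ := sgnabs (1 - (step c p F J).ξ a w)
    obtain ⟨α, β, hok, hval⟩ := h3 c p F J hc hp hF a (s * A * t1) (s * B * t2)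
      (by
        rw [abs_mul, abs_mul, hsabs, abs_of_nonneg hA0, one_mul]
        exact mul_le_of_le_one_right hA0 ht1)
      (by
        rw [abs_mul, abs_mul, hsabs, abs_of_nonneg hB0, one_mul]
        exact mul_le_of_le_one_right hB0 ht2)
    have h6 := (h4 c p F J hc hp hF a α β hok w hw1 hw2).2
    rw [← hval w] at h6
    have h7 : s * ((step c p F J).g a w - s * A * t1 * (step c p F J).ξ a w -
        s * B * t2 * (1 - (step c p F J).ξ a w)) =
        s * (step c p F J).g a w - A * |(step c p F J).ξ a w| -
          B * |1 - (step c p F J).ξ a w| := by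
      rw [← ht1', ← ht2']
      linear_combination (-(A * t1 * (step c p F J).ξ a w) -
        B * t2 * (1 - (step c p F J).ξ a w)) * hss
    have h8 : s * (step c p F J).g a w ≤ |(step c p F J).g a w| := by
      calc _ ≤ |s * (step c p F J).g a w| := le_abs_self _
        _ = _ := by rw [abs_mul, hsabs, one_mul]
    have h9 : nρ c p F J w ≤ s * ((step c p F J).g a w - s * A * t1 * (step c p F J).ξ a w -
        s * B * t2 * (1 - (step c p F J).ξ a w)) := h6
    rw [h7] at h9
    linarith

end Pool.Agent.Work.MP_e17eac_co.NC
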