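import Pool.Agent.Work.MP_e17eac_co.Bd.B05

/-!
# Nested composition: vertices that do not belong to the edge
-/

set_option autoImplicit false

namespace Pool.Agent.Work.MP_e17eac_co.NC

open Finset Pool.Agent.Work.MP_e17eac_co.HL
open scoped Classical

section

variable {c : Cfg} {p : Pat} {F J : ℕ}

lemma th_mul_IZ_abs (hp : p.Good) (hF : 1 ≤ F) (h : IZ (HH p F J)) :
    |th p F J * ((h : ℤ) : ℝ)| ≤ 1 / 16 := by
  rw [abs_mul, abs_of_pos (th_pos (J := J) hp hF), ← th_mul_HH (J := J) hp hF]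
  refine mul_le_mul_of_nonneg_left ?_ (th_pos (J := J) hp hF).le
  have h1 := IZ.abs_le h
  have h2 : ((|(h : ℤ)| : ℤ) : ℝ) ≤ (((HH p F J : ℕ) : ℤ) : ℝ) := by exact_mod_cast h1
  simpa [Int.cast_abs] using h2

lemma abs_tau_le (hc : c.Good) (hp : p.Good) (hF : 1 ≤ F) (w : NV c p F J) :
    |tau c p F J w| ≤ c.ρ w.1 / 16 := by
  obtain ⟨v, s, k, hh⟩ := w
  show |tau c p F J (v, s, k, hh)| ≤ c.ρ v / 16
  rw [← Dl_le (F := F) hc v]
  have hD := Dl_nonneg (F := F) hc v
  have hFR : (1 : ℝ) ≤ F := by exact_mod_cast hF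
  have hth := th_pos (J := J) hp hF
  have hth2 := th_le (J := J) hp hF
  have hh1 := abs_le.mp (th_mul_IZ_abs (J := J) hp hF hh)
  have key : ∀ t : ℝ, |t| ≤ 2 * F + 2 → |Dl c F v * t| ≤ (2 * F + 2) * Dl c F v := by
    intro t ht
    rw [abs_mul, abs_of_nonneg hD, mul_comm]
    exact mul_le_mul_of_nonneg_right ht hD
  rcases s with i | b | b
  · rw [tau_inl]
    refine key _ ?_
    have hi : |((i : ℤ) : ℝ)| ≤ F := by
      have h1 := IZ.abs_le i
      have h2 : ((|(i : ℤ)| : ℤ) : ℝ) ≤ ((F : ℤ) : ℝ) := by exact_mod_cast h1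
      simpa [Int.cast_abs] using h2
    rw [abs_le] at hi ⊢
    have hs : |(p.σ k : ℝ)| ≤ 1 := by
      rcases hp.σ_or k with h | h <;> rw [h] <;> norm_num
    rw [abs_le] at hs
    have h3 : -(1 / 16) ≤ th p F J * (p.σ k : ℝ) := by nlinarith [hs.1, hs.2]
    have h4 : th p F J * (p.σ k : ℝ) ≤ 1 / 16 := by nlinarith [hs.1, hs.2]
    constructor <;> nlinarith [hh1.1, hh1.2, hi.1, hi.2]
  · rcases h : c.edgeAt v b with _ | e
    · rw [tau_inr_inl_none h, mul_comm]
      refine key _ ?_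
      rw [abs_of_nonneg (by positivity)]
      linarith
    · rw [tau_inr_inl_some h]
      refine key _ ?_
      have hr1 := rk_pos (J := J) hp hF k
      have hr2 := rk_le (J := J) hp hF k
      have hd := abs_le.mp (hp.δ_le k)
      have hmu := mu_pos (J := J) hp hF
      have e1 : th p F J * (mu p F J * p.δ k) ≤ 1 / 16 := by
        rw [mu]
        nlinarith [hd.1, hd.2, mul_pos hth hth]
      have e2 : -(1 / 16) ≤ th p F J * (mu p F J * p.δ k) := by
        rw [mu]
        nlinarith [hd.1, hd.2, mul_pos hth hth]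
      have e3 : th p F J * rk p F J k * ((hh : ℤ) + mu p F J * p.δ k) =
          rk p F J k * (th p F J * (hh : ℤ) + th p F J * (mu p F J * p.δ k)) := by ring
      rw [e3, abs_le]
      constructor <;> nlinarith [hh1.1, hh1.2]
  · rcases h : c.edgeAt v b with _ | e
    · rw [tau_inr_inr_none h, abs_neg, mul_comm]
      refine key _ ?_
      rw [abs_of_nonneg (by positivity)]
      linarith
    · rw [tau_inr_inr_some h, abs_neg, abs_of_nonneg (by positivity)]

lemma LineOK.bounds (hp : p.Good) (hF : 1 ≤ F) {a : NE c p F J} {α β : ℝ}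
    (h : LineOK c p F J a α β) :
    |α| ≤ F + 1 / 100 ∧ |β * th p F J| ≤ 1 / 16 + 1 / 100 := by
  have hth := th_pos (J := J) hp hF
  have hth2 := th_le (J := J) hp hF
  have hXth := X_mul_th_le (J := J) hp hF
  have hJth := J_mul_th_le (J := J) hp hF
  have hX := X_real_pos hp
  have hi : |((a.2.1 : ℤ) : ℝ)| ≤ F := by
    have h1 := IZ.abs_le a.2.1
    have h2 : ((|(a.2.1 : ℤ)| : ℤ) : ℝ) ≤ ((F : ℤ) : ℝ) := by exact_mod_cast h1
    simpa [Int.cast_abs] using h2
  have hj : |((a.2.2.1 : ℤ) : ℝ)| ≤ J := by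
    have h1 := IZ.abs_le a.2.2.1
    have h2 : ((|(a.2.2.1 : ℤ)| : ℤ) : ℝ) ≤ ((J : ℤ) : ℝ) := by exact_mod_cast h1
    simpa [Int.cast_abs] using h2
  have h1 := h.α_near
  have h2 := h.β_near
  have hmu : mu p F J = th p F J / 40 := rfl
  rw [abs_le] at hi hj h1 h2
  have hmuX : mu p F J * p.X ≤ 1 / 640 := by rw [hmu]; linarith
  have hmuX0 : 0 ≤ mu p F J * p.X := by rw [hmu]; positivity
  refine ⟨?_, ?_⟩
  · rw [abs_le]
    constructor <;> linarith [h1.1, h1.2, hi.1, hi.2]
  · have hβ1 : β ≤ J + 1 / 100 := by linarith [h2.2, hj.2]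
    have hβ2 : -(J + 1 / 100) ≤ β := by linarith [h2.1, hj.1]
    rw [abs_le]
    constructor <;> nlinarith

lemma LineOK.abs_avv_le (hc : c.Good) (hp : p.Good) (hF : 1 ≤ F) {a : NE c p F J} {α β : ℝ}
    (h : LineOK c p F J a α β) : |avv c p F J a.1 α β| ≤ c.ρ (c.tgt a.1) / 32 := by
  obtain ⟨h1, h2⟩ := h.bounds hp hF
  have hD := Dl_nonneg (F := F) hc (c.tgt a.1)
  have e1 : c.ρ (c.tgt a.1) / 32 = ((F : ℝ) + 1) * Dl c F (c.tgt a.1) := by
    have := Dl_le (F := F) hc (c.tgt a.1)
    linarith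
  unfold avv
  rw [abs_neg, abs_mul, abs_of_nonneg hD, e1, mul_comm]
  refine mul_le_mul_of_nonneg_right ?_ hD
  rw [abs_le] at h1 h2 ⊢
  constructor <;> nlinarith [h1.1, h1.2, h2.1, h2.2]

lemma LineOK.abs_auu_le (hc : c.Good) (hp : p.Good) (hF : 1 ≤ F) {a : NE c p F J} {α β : ℝ}
    (h : LineOK c p F J a α β) : |auu c p F J a.1 α β| ≤ c.ρ (c.src a.1) / 32 := by
  obtain ⟨h1, h2⟩ := h.bounds hp hF
  have hD := Dl_nonneg (F := F) hc (c.src a.1)
  have e1 : c.ρ (c.src a.1) / 32 = ((F : ℝ) + 1) * Dl c F (c.src a.1) := by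
    have := Dl_le (F := F) hc (c.src a.1)
    linarith
  unfold auu
  rw [abs_mul, abs_of_nonneg hD, e1, mul_comm]
  refine mul_le_mul_of_nonneg_right ?_ hD
  rw [abs_le] at h1 h2 ⊢
  constructor <;> linarith [h1.1, h1.2, h2.1, h2.2]

/-- The neighbour term at vertices that are not ends of the edge. -/
lemma RR_cases (hp : p.Good) (hF : 1 ≤ F) (w : NV c p F J) :
    RR c p F J w = 0 ∨ ∃ e' : c.E, c.tgt e' = w.1 ∧ nb c p F J w = c.src e' ∧
      |RR c p F J w| ≤ 16 / 15 := by
  obtain ⟨v, s, k, hh⟩ := w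
  rcases s with i | b | b
  · exact Or.inl rfl
  · rcases h : c.edgeAt v b with _ | e
    · exact Or.inl (RR_inr_inl_none h _)
    · exact Or.inr ⟨e, (Cfg.edgeAt_some h).1, nb_inr_inl_some h _, abs_RR_le hp hF _⟩
  · rcases h : c.edgeAt v b with _ | e
    · exact Or.inl (RR_inr_inr_none h _)
    · exact Or.inr ⟨e, (Cfg.edgeAt_some h).1, nb_inr_inr_some h _, abs_RR_le hp hF _⟩

end

theorem claimFar : ClaimFar := by
  intro c p F J hc hp hF a α β hL w hw1 hw2
  have hv := hL.abs_avv_le hc hp hF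
  have hu := hL.abs_auu_le hc hp hF
  set e := a.1 with he
  have hρv := (Cfg.ρ_tgt_pos hc e).le
  have hρu := (hc.ρ_pos e).le
  have hG := Cfg.gl_dev hc e (av := avv c p F J e α β) (au := auu c p F J e α β)
    (by linarith) (by linarith) hw1 hw2
  have htau := abs_tau_le hc hp hF w
  have hρg := Cfg.ρ_le_g hc e hw1 hw2
  have hlam := hc.lam_pos
  have hmain := gl_homog hc hp hF e (avv c p F J e α β) (auu c p F J e α β) w
  have e1 : (1 + c.lam * RR c p F J w) * gw c p F J e α β w =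
      c.gl e (avv c p F J e α β) (auu c p F J e α β) (c.x w.1) (c.y w.1) +
        c.lam * RR c p F J w * c.gl e (avv c p F J e α β) (auu c p F J e α β)
          (c.x (nb c p F J w)) (c.y (nb c p F J w)) + tau c p F J w := hmain
  have hN : |c.lam * RR c p F J w * c.gl e (avv c p F J e α β) (auu c p F J e α β)
          (c.x (nb c p F J w)) (c.y (nb c p F J w))| ≤ 1 / 20 * |c.g e w.1| := by
    rcases RR_cases hp hF w with h0 | ⟨e', h1, h2, h3⟩
    · rw [h0]; simp
    · rw [abs_mul, abs_mul, abs_of_pos hlam, h2]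
      by_cases hy : c.src e' = c.src e
      · rw [hy, Cfg.gl_src hc, abs_neg]
        have h4 : c.lam * c.ρ (c.src e) = c.ρ w.1 := by
          rw [← hy, ← hc.ρ_tgt, h1]
        have h5 : c.lam * |auu c p F J e α β| ≤ c.ρ w.1 / 32 := by
          rw [← h4]; nlinarith
        have h6 : 0 ≤ c.lam * |auu c p F J e α β| := by positivity
        calc c.lam * |RR c p F J w| * |auu c p F J e α β|
            = |RR c p F J w| * (c.lam * |auu c p F J e α β|) := by ring
          _ ≤ 16 / 15 * (c.ρ w.1 / 32) := mul_le_mul h3 h5 h6 (by norm_num)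
          _ ≤ 1 / 20 * |c.g e w.1| := by linarith [abs_nonneg (c.g e w.1)]
      · have hy2 := Cfg.src_ne_tgt hc e' e
        have h4 := Cfg.gl_dev hc e (av := avv c p F J e α β) (au := auu c p F J e α β)
          (by linarith) (by linarith) hy hy2
        have h5 := hc.H e' e (by rw [h1]; exact hw1) (by rw [h1]; exact hw2)
        rw [h1] at h5
        have h6 : |c.gl e (avv c p F J e α β) (auu c p F J e α β) (c.x (c.src e'))
            (c.y (c.src e'))| ≤ 17 / 16 * |c.g e (c.src e')| := by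
          rw [abs_le] at h4
          rcases abs_cases (c.g e (c.src e')) with h7 | h7 <;> rw [abs_le] <;>
            constructor <;> linarith [h4.1, h4.2, h7.1, h7.2]
        have h8 : c.lam * |c.gl e (avv c p F J e α β) (auu c p F J e α β) (c.x (c.src e'))
            (c.y (c.src e'))| ≤ 17 / 16 * (|c.g e w.1| / 32) := by nlinarith
        calc c.lam * |RR c p F J w| * |c.gl e (avv c p F J e α β) (auu c p F J e α β)
              (c.x (c.src e')) (c.y (c.src e'))|
            = |RR c p F J w| * (c.lam * |c.gl e (avv c p F J e α β) (auu c p F J e α β)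
              (c.x (c.src e')) (c.y (c.src e'))|) := by ring
          _ ≤ 16 / 15 * (17 / 16 * (|c.g e w.1| / 32)) :=
              mul_le_mul h3 h8 (by positivity) (by norm_num)
          _ ≤ 1 / 20 * |c.g e w.1| := by linarith [abs_nonneg (c.g e w.1)]
  rw [e1]
  rw [abs_le] at hG htau hN ⊢
  constructor <;> linarith [hG.1, hG.2, htau.1, htau.2, hN.1, hN.2, abs_nonneg (c.g e w.1)]

theorem claimSlot : ClaimSlot := by
  intro c p F J hc hp hF a α β hL e' hne htt w hw hs
  have hv := hL.abs_avv_le hc hp hF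
  have hu := hL.abs_auu_le hc hp hF
  set e := a.1 with he
  have hρv := (Cfg.ρ_tgt_pos hc e).le
  have hρu := (hc.ρ_pos e).le
  have hy1 : c.src e' ≠ c.src e := fun h => hne (hc.edge_inj _ _ h htt)
  have hy2 := Cfg.src_ne_tgt hc e' e
  have hG := Cfg.gl_dev hc e (av := avv c p F J e α β) (au := auu c p F J e α β)
    (by linarith) (by linarith) hy1 hy2
  have htau := abs_tau_le hc hp hF w
  have hρg := Cfg.ρ_le_g hc e hy1 hy2
  have hlam := hc.lam_pos
  have hmain := gl_homog hc hp hF e (avv c p F J e α β) (auu c p F J e α β) w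
  have hedge : c.edgeAt (c.tgt e) (c.slot e') = some e' := by
    rw [← htt]; exact Cfg.edgeAt_tgt hc e'
  have hnb : nb c p F J w = c.src e' ∧ 14 / 15 ≤ |RR c p F J w| := by
    obtain ⟨v, s, k, hh⟩ := w
    simp only at hw hs
    subst hw
    rcases hs with rfl | rfl
    · refine ⟨nb_inr_inl_some hedge _, ?_⟩
      rw [RR_inr_inl_some hedge]
      exact (Rk_ge (J := J) hp hF k).trans (le_abs_self _)
    · refine ⟨nb_inr_inr_some hedge _, ?_⟩
      rw [RR_inr_inr_some hedge]
      norm_num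
  obtain ⟨hnb1, hR⟩ := hnb
  have e1 : (1 + c.lam * RR c p F J w) * gw c p F J e α β w =
      c.gl e (avv c p F J e α β) (auu c p F J e α β) (c.x w.1) (c.y w.1) +
        c.lam * RR c p F J w * c.gl e (avv c p F J e α β) (auu c p F J e α β)
          (c.x (nb c p F J w)) (c.y (nb c p F J w)) + tau c p F J w := hmain
  rw [hnb1, hw, Cfg.gl_tgt] at e1
  rw [hw] at htau
  have hρ2 : c.ρ (c.tgt e) ≤ 15 / 14 * |c.lam * RR c p F J w * c.g e (c.src e')| := by
    have h1 : c.ρ (c.tgt e) = c.lam * c.ρ (c.src e') := by rw [← htt, hc.ρ_tgt]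
    rw [h1, abs_mul, abs_mul, abs_of_pos hlam]
    have h2 : c.lam * c.ρ (c.src e') ≤ c.lam * |c.g e (c.src e')| :=
      mul_le_mul_of_nonneg_left hρg hlam.le
    have h3 : 0 ≤ c.lam * |c.g e (c.src e')| := by positivity
    nlinarith
  have hD : |c.lam * RR c p F J w * (c.gl e (avv c p F J e α β) (auu c p F J e α β)
      (c.x (c.src e')) (c.y (c.src e')) - c.g e (c.src e'))| ≤
      |c.lam * RR c p F J w * c.g e (c.src e')| / 16 := by
    rw [abs_mul, abs_mul (c.lam * RR c p F J w) (c.g e (c.src e')), mul_div_assoc]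
    exact mul_le_mul_of_nonneg_left hG (abs_nonneg _)
  have e2 : (1 + c.lam * RR c p F J w) * gw c p F J e α β w -
      c.lam * RR c p F J w * c.g e (c.src e') =
      -(avv c p F J e α β) + c.lam * RR c p F J w *
        (c.gl e (avv c p F J e α β) (auu c p F J e α β)
          (c.x (c.src e')) (c.y (c.src e')) - c.g e (c.src e')) + tau c p F J w := by
    rw [e1]; ring
  rw [e2]
  rw [abs_le] at hv hD htau ⊢
  constructor <;> linarith [hv.1, hv.2, hD.1, hD.2, htau.1, htau.2,
    abs_nonneg (c.lam * RR c p F J w * c.g e (c.src e'))]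

end Pool.Agent.Work.MP_e17eac_co.NC
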