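import Pool.Agent.Work.MP_e17eac_co.Bd.B05

/-!
# Nested composition: condition `H` of the step (item A8)
-/

set_option autoImplicit false

namespace Pool.Agent.Work.MP_e17eac_co.NC

open Finset Pool.Agent.Work.MP_e17eac_co.HL
open scoped Classical

namespace ItemH

variable {c : Cfg} {p : Pat} {F J : ℕ}

lemma rad_nonneg (hc : c.Good) (hp : p.Good) (hF : 1 ≤ F) (v : c.V) : 0 ≤ rad c p F J v := by
  have h1 := Dl_nonneg (F := F) hc v
  have h2 := th_pos (J := J) hp hF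
  have h3 := mu_pos (J := J) hp hF
  unfold rad; positivity

lemma nr_nonneg (hc : c.Good) (hp : p.Good) (hF : 1 ≤ F) (w : NV c p F J) :
    0 ≤ nρ c p F J w := by
  obtain ⟨v, s, k, h⟩ := w
  rcases s with i | b | b
  · exact le_of_eq (nρ_inl _ _ _).symm
  · rcases he : c.edgeAt v b with _ | e
    · exact le_of_eq (nρ_inr_inl_none he _).symm
    · rw [nρ_inr_inl_some he]
      refine mul_nonneg (rad_nonneg hc hp hF v) ?_
      split_ifs
      · exact (lam'_pos hp hF).le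
      · exact zero_le_one
  · exact le_of_eq (nρ_inr_inr _ _ _).symm

/-- From the homogeneous bounds to the bound for the two points. -/
lemma ratio {L Ds Dt gs gt Q A B : ℝ} (hDs : 29 / 30 ≤ Ds) (hDt0 : 0 < Dt) (hDt : Dt ≤ 31 / 30)
    (hL : 0 ≤ L) (hs : |Ds * gs| ≤ A * Q) (ht : B * Q ≤ |Dt * gt|) (hQ : 0 ≤ Q)
    (hAB : L * (A * (30 / 29)) ≤ B * (30 / 31)) :
    L * |gs| ≤ |gt| := by
  have h1 : |gs| ≤ 30 / 29 * (A * Q) := by
    rw [abs_mul, abs_of_pos (by linarith : 0 < Ds)] at hs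
    have := abs_nonneg gs
    nlinarith
  have h2 : 30 / 31 * (B * Q) ≤ |gt| := by
    rw [abs_mul, abs_of_pos hDt0] at ht
    have := abs_nonneg gt
    nlinarith
  calc L * |gs| ≤ L * (30 / 29 * (A * Q)) := mul_le_mul_of_nonneg_left h1 hL
    _ = (L * (A * (30 / 29))) * Q := by ring
    _ ≤ (B * (30 / 31)) * Q := mul_le_mul_of_nonneg_right hAB hQ
    _ = 30 / 31 * (B * Q) := by ring
    _ ≤ _ := h2

lemma abs_le_of_half {x G : ℝ} (h : |x - G| ≤ 1 / 2 * |G|) : |x| ≤ 3 / 2 * |G| := by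
  have : x = (x - G) + G := by ring
  rw [this]
  refine (abs_add_le _ _).trans ?_
  linarith

lemma le_abs_of_half {x G : ℝ} (h : |x - G| ≤ 1 / 2 * |G|) : 1 / 2 * |G| ≤ |x| := by
  have h1 : |G| ≤ |G - x| + |x| := by
    have := abs_add_le (G - x) x
    rwa [sub_add_cancel] at this
  rw [abs_sub_comm] at h1
  linarith

/-- The column value `κ_k i - j`. -/
lemma m_le (hp : p.Good) (i : IZ F) (j : IZ J) (k : p.K) :
    |p.κ k * (i : ℤ) - (j : ℤ)| ≤ (HH p F J : ℤ) := by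
  have h1 := hp.κ_le k
  have h2 := IZ.abs_le i
  have h3 := IZ.abs_le j
  have h4 : |p.κ k * (i : ℤ)| ≤ (p.X : ℤ) * (F : ℤ) := by
    rw [abs_mul]
    exact mul_le_mul h1 h2 (abs_nonneg _) (by positivity)
  have h5 : (HH p F J : ℤ) = (J : ℤ) + (p.X : ℤ) * (F : ℤ) := by
    unfold HH; push_cast; ring
  rw [h5]
  refine (abs_sub _ _).trans ?_
  linarith

lemma g_le (hp : p.Good) (e0 : p.E) (k : p.K) : |p.g e0 k| ≤ 1 + 4 * (p.X : ℝ) := by
  have h1 := Pat.abs_ξ_le hp e0 k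
  have h2 := Pat.abs_one_sub_ξ_le hp e0 k
  have h3 := hp.δ_le k
  have h4 := hp.δ_le (p.src e0)
  have h5 := hp.δ_le (p.tgt e0)
  have e1 : p.g e0 k = p.δ k - (1 - p.ξ e0 k) * p.δ (p.tgt e0) - p.ξ e0 k * p.δ (p.src e0) := by
    unfold Pat.g; ring
  rw [e1]
  have h6 : |(1 - p.ξ e0 k) * p.δ (p.tgt e0)| ≤ 2 * (p.X : ℝ) * 1 := by
    rw [abs_mul]; exact mul_le_mul h2 h5 (abs_nonneg _) (by positivity)
  have h7 : |p.ξ e0 k * p.δ (p.src e0)| ≤ 2 * (p.X : ℝ) * 1 := by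
    rw [abs_mul]; exact mul_le_mul h1 h4 (abs_nonneg _) (by positivity)
  rw [abs_le] at h3 h6 h7 ⊢
  constructor <;> linarith [h3.1, h3.2, h6.1, h6.2, h7.1, h7.2]

/-- The deviation of the lattice value. -/
lemma col_dev (hp : p.Good) (hF : 1 ≤ F) {a : NE c p F J} {α β : ℝ}
    (hL : LineOK c p F J a α β) (k : p.K) :
    |mu p F J * p.δ k - (α * (p.κ k : ℝ) - β) +
      ((p.κ k * (a.2.1 : ℤ) - (a.2.2.1 : ℤ) : ℤ) : ℝ)| ≤ 1 / 4 := by
  have h1 := hL.col k
  have h2 := g_le hp a.2.2.2 k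
  have hm := mu_pos (J := J) hp hF
  have hX := X_real_pos hp
  have hXt := X_mul_th_le (J := J) hp hF
  have ht := th_le (J := J) hp hF
  rw [th_eq_mu] at hXt ht
  have h3 : mu p F J / (8 * p.X) ≤ mu p F J / 8 := by
    apply div_le_div_of_nonneg_left hm.le (by norm_num)
    linarith
  have h4 : |mu p F J * p.g a.2.2.2 k| ≤ mu p F J * (1 + 4 * (p.X : ℝ)) := by
    rw [abs_mul, abs_of_pos hm]
    exact mul_le_mul_of_nonneg_left h2 hm.le
  have e1 : mu p F J * p.δ k - (α * (p.κ k : ℝ) - β) +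
      ((p.κ k * (a.2.1 : ℤ) - (a.2.2.1 : ℤ) : ℤ) : ℝ) =
      -((α * (p.κ k : ℝ) - β) - (((p.κ k * (a.2.1 : ℤ) - (a.2.2.1 : ℤ) : ℤ) : ℝ) +
        mu p F J * (p.δ k - p.g a.2.2.2 k))) + mu p F J * p.g a.2.2.2 k := by ring
  rw [e1]
  refine (abs_add_le _ _).trans ?_
  rw [abs_neg]
  nlinarith

/-- Upper bound for a lattice point. -/
lemma own_le (hp : p.Good) (hF : 1 ≤ F) {a : NE c p F J} {α β : ℝ}
    (hL : LineOK c p F J a α β) (k : p.K) (h : IZ (HH p F J)) :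
    |(((h : ℤ) : ℝ) + mu p F J * p.δ k) - (α * (p.κ k : ℝ) - β)| ≤ 3 * (HH p F J : ℝ) := by
  have h1 := col_dev hp hF hL k
  have h2 := IZ.abs_le h
  have h3 := m_le (J := J) hp a.2.1 a.2.2.1 k
  have hH := HH_ge_one (J := J) hp hF
  have h4 : |((h : ℤ) : ℝ)| ≤ (HH p F J : ℝ) := by
    have h5 : ((|(h : ℤ)| : ℤ) : ℝ) ≤ ((HH p F J : ℤ) : ℝ) := by exact_mod_cast h2
    simpa [Int.cast_abs] using h5
  have h5 : |((p.κ k * (a.2.1 : ℤ) - (a.2.2.1 : ℤ) : ℤ) : ℝ)| ≤ (HH p F J : ℝ) := by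
    have h6 : ((|p.κ k * (a.2.1 : ℤ) - (a.2.2.1 : ℤ)| : ℤ) : ℝ) ≤ ((HH p F J : ℤ) : ℝ) := by
      exact_mod_cast h3
    rw [Int.cast_abs] at h6
    exact h6
  set m : ℝ := ((p.κ k * (a.2.1 : ℤ) - (a.2.2.1 : ℤ) : ℤ) : ℝ)
  rw [abs_le] at h1 h4 h5 ⊢
  constructor <;> linarith [h1.1, h1.2, h4.1, h4.2, h5.1, h5.2]

/-- Lower bound for a lattice point that is not an end of the edge. -/
lemma own_ge (hp : p.Good) (hF : 1 ≤ F) {a : NE c p F J} {α β : ℝ}
    (hL : LineOK c p F J a α β) (k : p.K) (h : IZ (HH p F J))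
    (hne : (h : ℤ) = p.κ k * (a.2.1 : ℤ) - (a.2.2.1 : ℤ) →
      k ≠ p.src a.2.2.2 ∧ k ≠ p.tgt a.2.2.2) :
    3 / 8 * (mu p F J / p.X) ≤
      |(((h : ℤ) : ℝ) + mu p F J * p.δ k) - (α * (p.κ k : ℝ) - β)| := by
  have hm := mu_pos (J := J) hp hF
  have hX := X_real_pos hp
  have ht := th_le (J := J) hp hF
  rw [th_eq_mu] at ht
  have hmX : mu p F J / p.X ≤ mu p F J := div_le_self hm.le hX
  by_cases hh : (h : ℤ) = p.κ k * (a.2.1 : ℤ) - (a.2.2.1 : ℤ)
  · obtain ⟨h1, h2⟩ := hne hh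
    have h3 := hp.margin a.2.2.2 k h1 h2
    have h4 := hL.col k
    rw [← hh] at h4
    have h5 : mu p F J / (8 * p.X) = 1 / 8 * (mu p F J / p.X) := by field_simp
    rw [h5] at h4
    have h6 : 1 / 2 * (mu p F J / p.X) ≤ |mu p F J * p.g a.2.2.2 k| := by
      rw [abs_mul, abs_of_pos hm]
      have h7 : 1 / 2 * (mu p F J / p.X) * (2 * (p.X : ℝ) * |p.g a.2.2.2 k|) =
          mu p F J * |p.g a.2.2.2 k| := by field_simp
      have h8 : 0 ≤ 1 / 2 * (mu p F J / p.X) := by positivity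
      calc 1 / 2 * (mu p F J / p.X) = 1 / 2 * (mu p F J / p.X) * 1 := by ring
        _ ≤ 1 / 2 * (mu p F J / p.X) * (2 * (p.X : ℝ) * |p.g a.2.2.2 k|) :=
          mul_le_mul_of_nonneg_left h3 h8
        _ = _ := h7
    have e1 : (((h : ℤ) : ℝ) + mu p F J * p.δ k) - (α * (p.κ k : ℝ) - β) =
        mu p F J * p.g a.2.2.2 k - ((α * (p.κ k : ℝ) - β) - (((h : ℤ) : ℝ) +
          mu p F J * (p.δ k - p.g a.2.2.2 k))) := by ring
    rw [e1]
    refine le_trans ?_ (abs_sub_abs_le_abs_sub _ _)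
    linarith
  · have h1 := col_dev hp hF hL k
    have h2 : (1 : ℤ) ≤ |(h : ℤ) - (p.κ k * (a.2.1 : ℤ) - (a.2.2.1 : ℤ))| :=
      Int.one_le_abs (sub_ne_zero.mpr hh)
    have h3 : (1 : ℝ) ≤ |((h : ℤ) : ℝ) - ((p.κ k * (a.2.1 : ℤ) - (a.2.2.1 : ℤ) : ℤ) : ℝ)| := by
      exact_mod_cast h2
    set m : ℝ := ((p.κ k * (a.2.1 : ℤ) - (a.2.2.1 : ℤ) : ℤ) : ℝ)
    have e1 : (((h : ℤ) : ℝ) + mu p F J * p.δ k) - (α * (p.κ k : ℝ) - β) =
        (((h : ℤ) : ℝ) - m) - (-(mu p F J * p.δ k - (α * (p.κ k : ℝ) - β) + m)) := by ring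
    rw [e1]
    refine le_trans ?_ (abs_sub_abs_le_abs_sub _ _)
    rw [abs_neg]
    nlinarith

end ItemH

open ItemH in
theorem claimH (h1 : ClaimFar) (h2 : ClaimSlot) (h3 : ClaimOwn) (h4 : ClaimLine) : ClaimH := by
  intro c p F J hc hp hF a a' hn1 hn2
  obtain ⟨α, β, hL, hw⟩ := h4 c p F J hc hp hF a' 0 0
    (by rw [abs_zero]; exact nr_nonneg hc hp hF _) (by rw [abs_zero]; exact nr_nonneg hc hp hF _)
  have hg : ∀ w : NV c p F J, (step c p F J).g a' w = gw c p F J a'.1 α β w := by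
    intro w
    have := hw w
    linarith
  rw [hg, hg]
  have hl' := lam'_pos (J := J) hp hF
  have hlm := lam'_le_mu (J := J) hp hF
  have hm := mu_pos (J := J) hp hF
  have hX := X_real_pos hp
  have ht := th_le (J := J) hp hF
  have ht0 := th_pos (J := J) hp hF
  rw [th_eq_mu] at ht
  have hlsmall : lam' p F J ≤ 1 / 327680 := by linarith
  -- the two points
  set ws := nsrc c p F J a with hws
  set wt := ntgt c p F J a with hwt
  have hws1 : ws.1 = c.tgt a.1 := rfl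
  have hwt1 : wt.1 = c.tgt a.1 := rfl
  have hsome := Cfg.edgeAt_tgt hc a.1
  have hRs : RR c p F J ws = Rk p F J (p.src a.2.2.2) := RR_inr_inl_some hsome _ _
  have hRt : RR c p F J wt = Rk p F J (p.tgt a.2.2.2) := RR_inr_inl_some hsome _ _
  have hDs := den_ge (J := J) hc hp hF ws
  have hDt := den_le (J := J) hc hp hF wt
  have hDt0 := den_pos (J := J) hc hp hF wt
  by_cases hE : a.1 = a'.1
  · -- the same edge
    have os := h3 c p F J hc hp hF a'.1 α β (p.src a.2.2.2)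
      (toIZ (HH p F J) (p.κ (p.src a.2.2.2) * (a.2.1 : ℤ) - (a.2.2.1 : ℤ)))
    have ot := h3 c p F J hc hp hF a'.1 α β (p.tgt a.2.2.2)
      (toIZ (HH p F J) (p.κ (p.tgt a.2.2.2) * (a.2.1 : ℤ) - (a.2.2.1 : ℤ)))
    have ews : (c.tgt a'.1, Sum.inr (Sum.inl (c.slot a'.1)), (p.src a.2.2.2,
        toIZ (HH p F J) (p.κ (p.src a.2.2.2) * (a.2.1 : ℤ) - (a.2.2.1 : ℤ)))) = ws := by
      rw [hws, ← hE]; rfl
    have ewt : (c.tgt a'.1, Sum.inr (Sum.inl (c.slot a'.1)), (p.tgt a.2.2.2,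
        toIZ (HH p F J) (p.κ (p.tgt a.2.2.2) * (a.2.1 : ℤ) - (a.2.2.1 : ℤ)))) = wt := by
      rw [hwt, ← hE]; rfl
    rw [ews, ← hRs] at os
    rw [ewt, ← hRt] at ot
    have bs := own_le hp hF hL (p.src a.2.2.2)
      (toIZ (HH p F J) (p.κ (p.src a.2.2.2) * (a.2.1 : ℤ) - (a.2.2.1 : ℤ)))
    have bt := own_ge hp hF hL (p.tgt a.2.2.2)
      (toIZ (HH p F J) (p.κ (p.tgt a.2.2.2) * (a.2.1 : ℤ) - (a.2.2.1 : ℤ))) (by
        intro hh
        have heq : toIZ (HH p F J) (p.κ (p.tgt a.2.2.2) * (a.2.1 : ℤ) - (a.2.2.1 : ℤ)) =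
            toIZ (HH p F J) (p.κ (p.tgt a.2.2.2) * (a'.2.1 : ℤ) - (a'.2.2.1 : ℤ)) := by
          apply Subtype.ext
          rw [hh, toIZ_val (m_le hp a'.2.1 a'.2.2.1 _)]
        constructor
        · intro hk
          apply hn1
          rw [hk] at heq
          show lat c p F J a.1 (p.tgt a.2.2.2) _ = lat c p F J a'.1 (p.src a'.2.2.2) _
          unfold lat
          rw [hE, hk, heq]
        · intro hk
          apply hn2
          rw [hk] at heq
          show lat c p F J a.1 (p.tgt a.2.2.2) _ = lat c p F J a'.1 (p.tgt a'.2.2.2) _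
          unfold lat
          rw [hE, hk, heq])
    have hDl := Dl_tgt_pos (F := F) hc a'.1
    have rs := rk_le (J := J) hp hF (p.src a.2.2.2)
    have rs0 := rk_pos (J := J) hp hF (p.src a.2.2.2)
    have rt := rk_ge (J := J) hp hF (p.tgt a.2.2.2)
    have rt0 := rk_pos (J := J) hp hF (p.tgt a.2.2.2)
    have hQ0 : 0 ≤ Dl c F (c.tgt a'.1) * th p F J := by positivity
    have hHH := HH_ge_one (J := J) hp hF
    refine ratio (Q := Dl c F (c.tgt a'.1) * th p F J) (A := 16 / 15 * (3 * (HH p F J : ℝ)))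
      (B := 16 / 17 * (3 / 8 * (mu p F J / p.X))) hDs hDt0 hDt (by positivity) ?_ ?_ hQ0 ?_
    · rw [os, abs_mul, abs_mul, abs_of_nonneg hQ0, abs_of_pos rs0]
      calc _ ≤ Dl c F (c.tgt a'.1) * th p F J * (16 / 15) * (3 * (HH p F J : ℝ)) := by
            apply mul_le_mul _ bs (abs_nonneg _) (by positivity)
            exact mul_le_mul_of_nonneg_left rs hQ0
        _ = _ := by ring
    · rw [ot, abs_mul, abs_mul, abs_of_nonneg hQ0, abs_of_pos rt0]
      calc _ = Dl c F (c.tgt a'.1) * th p F J * (16 / 17) * (3 / 8 * (mu p F J / p.X)) := by ring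
        _ ≤ _ := by
            apply mul_le_mul _ bt (by positivity) (by positivity)
            exact mul_le_mul_of_nonneg_left rt hQ0
    · have hlam : lam' p F J * (512 * (HH p F J : ℝ)) = mu p F J / p.X := by
        have := lam'_mul (J := J) hp hF
        field_simp
        linarith
      have hmX : 0 < mu p F J / p.X := by positivity
      have e1 : 32 * lam' p F J * (16 / 15 * (3 * (HH p F J : ℝ)) * (30 / 29)) =
          (32 * 3 * (16 / 15) * (30 / 29) / 512) * (lam' p F J * (512 * (HH p F J : ℝ))) := by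
        ring
      rw [e1, hlam]
      nlinarith
  · have hsrc : c.tgt a.1 ≠ c.src a'.1 := fun h => Cfg.src_ne_tgt hc a'.1 a.1 h.symm
    by_cases hT : c.tgt a.1 = c.tgt a'.1
    · -- the same target
      have s1 := h2 c p F J hc hp hF a' α β hL a.1 hE hT ws (hws1.trans hT) (Or.inl rfl)
      have s2 := h2 c p F J hc hp hF a' α β hL a.1 hE hT wt (hwt1.trans hT) (Or.inl rfl)
      have u1 := abs_le_of_half s1
      have u2 := le_abs_of_half s2
      rw [hRs, abs_mul (c.lam * Rk p F J (p.src a.2.2.2))] at u1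
      rw [hRt, abs_mul (c.lam * Rk p F J (p.tgt a.2.2.2))] at u2
      have R1 := Rk_le (J := J) hp hF (p.src a.2.2.2)
      have R1' := Rk_ge (J := J) hp hF (p.src a.2.2.2)
      have R2 := Rk_ge (J := J) hp hF (p.tgt a.2.2.2)
      have hlam0 := hc.lam_pos
      have a1 : |c.lam * Rk p F J (p.src a.2.2.2)| ≤ 16 / 15 * c.lam := by
        rw [abs_of_nonneg (mul_nonneg hlam0.le (by linarith))]
        nlinarith
      have a2 : 14 / 15 * c.lam ≤ |c.lam * Rk p F J (p.tgt a.2.2.2)| := by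
        rw [abs_of_nonneg (mul_nonneg hlam0.le (by linarith))]
        nlinarith
      have hG := abs_nonneg (c.g a'.1 (c.src a.1))
      refine ratio (Q := c.lam * |c.g a'.1 (c.src a.1)|) (A := 3 / 2 * (16 / 15))
        (B := 1 / 2 * (14 / 15)) hDs hDt0 hDt (by positivity) ?_ ?_ (by positivity) ?_
      · rw [hRs]
        calc _ ≤ 3 / 2 * (|c.lam * Rk p F J (p.src a.2.2.2)| * |c.g a'.1 (c.src a.1)|) := u1
          _ ≤ 3 / 2 * ((16 / 15 * c.lam) * |c.g a'.1 (c.src a.1)|) := by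
            apply mul_le_mul_of_nonneg_left _ (by norm_num)
            exact mul_le_mul_of_nonneg_right a1 hG
          _ = _ := by ring
      · rw [hRt]
        calc _ = 1 / 2 * ((14 / 15 * c.lam) * |c.g a'.1 (c.src a.1)|) := by ring
          _ ≤ 1 / 2 * (|c.lam * Rk p F J (p.tgt a.2.2.2)| * |c.g a'.1 (c.src a.1)|) := by
            apply mul_le_mul_of_nonneg_left _ (by norm_num)
            exact mul_le_mul_of_nonneg_right a2 hG
          _ ≤ _ := u2
      · nlinarith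
    · -- a far vertex
      have s1 := h1 c p F J hc hp hF a' α β hL ws (by rw [hws1]; exact hsrc)
        (by rw [hws1]; exact hT)
      have s2 := h1 c p F J hc hp hF a' α β hL wt (by rw [hwt1]; exact hsrc)
        (by rw [hwt1]; exact hT)
      rw [hws1] at s1
      rw [hwt1] at s2
      refine ratio (Q := |c.g a'.1 (c.tgt a.1)|) (A := 3 / 2) (B := 1 / 2) hDs hDt0 hDt
        (by positivity) (abs_le_of_half s1) (le_abs_of_half s2) (abs_nonneg _) ?_
      nlinarith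

end Pool.Agent.Work.MP_e17eac_co.NC
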