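import Pool.Agent.Work.MP_e17eac_co.Bd.B05

/-!
# Nested composition: iteration of the step with a fixed pattern
-/

set_option autoImplicit false

namespace Pool.Agent.Work.MP_e17eac_co.NC

open Finset Pool.Agent.Work.MP_e17eac_co.HL
open scoped Classical

lemma Cfg.Meas.mono {c : Cfg} {D r B D' r' B' : ℝ} (h : c.Meas D r B) (hD : D' ≤ D)
    (hr : r' ≤ r) (hB : B ≤ B') : c.Meas D' r' B' where
  D_le e := hD.trans (h.D_le e)
  r_le e := hr.trans (h.r_le e)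
  x_le v := (h.x_le v).trans hB
  y_le v := (h.y_le v).trans hB

lemma exp_card_Q {Q k : ℕ} (hQ : 1 ≤ Q) : 8 + 10 * Q * k + Q ≤ 10 * Q * (k + 1) := by
  have : 10 * Q * (k + 1) = 10 * Q * k + 10 * Q := by ring
  omega

lemma exp_card_V {S Q k : ℕ} (hS : 1 ≤ S) (hQ : 1 ≤ Q) :
    24 + 2 * S + 30 * S * k + 10 * Q * k ^ 2 + 20 * Q * k ≤
      1 + 30 * S * (k + 1) + 10 * Q * (k + 1) ^ 2 := by
  have : 1 + 30 * S * (k + 1) + 10 * Q * (k + 1) ^ 2 =
    1 + 30 * S + 10 * Q + 30 * S * k + 10 * Q * k ^ 2 + 20 * Q * k := by ring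
  omega

lemma exp_lam {S Q k : ℕ} (hS : 1 ≤ S) :
    19 + 3 * (14 + S + 10 * Q * k) ≤ 67 * S + 30 * Q * (k + 1) := by
  have h1 : 3 * (14 + S + 10 * Q * k) = 42 + 3 * S + 30 * Q * k := by ring
  have h2 : 30 * Q * (k + 1) = 30 * Q * k + 30 * Q := by ring
  rw [h1, h2]
  omega

lemma exp_D {S Q k : ℕ} (hS : 1 ≤ S) :
    5 + (14 + S + 10 * Q * k) + (67 * S + 30 * Q * k + (90 * S * k + 20 * Q * k ^ 2)) ≤
      90 * S * (k + 1) + 20 * Q * (k + 1) ^ 2 := by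
  have : 90 * S * (k + 1) + 20 * Q * (k + 1) ^ 2 =
    90 * S + 20 * Q + 90 * S * k + 20 * Q * k ^ 2 + 40 * Q * k := by ring
  have h2 : 10 * Q * k + 30 * Q * k = 40 * Q * k := by ring
  rw [this]
  omega

lemma exp_r {S Q k : ℕ} (hS : 1 ≤ S) :
    5 + 170 * S * k + 40 * Q * k ^ 2 + (44 + 8 * (14 + S + 10 * Q * k)) ≤
      5 + 170 * S * (k + 1) + 40 * Q * (k + 1) ^ 2 := by
  have : 5 + 170 * S * (k + 1) + 40 * Q * (k + 1) ^ 2 =
    5 + 170 * S + 40 * Q + 170 * S * k + 40 * Q * k ^ 2 + 80 * Q * k := by ring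
  have h2 : 8 * (14 + S + 10 * Q * k) = 112 + 8 * S + 80 * Q * k := by ring
  rw [this, h2]
  omega

/-- One step of the iteration. -/
lemma iter_step (h1 : ClaimStep) (h2 : ClaimMeas) (p : Pat) (S Q : ℕ) (hp : p.Good)
    (hS : 1 ≤ S) (hQ : 1 ≤ Q) (hK0 : 0 < Fintype.card p.K) (hQ0 : 0 < Fintype.card p.Q)
    (hK : Fintype.card p.K ≤ 2 ^ S) (hX : p.X ≤ 2 ^ S) (hpQ : Fintype.card p.Q ≤ 2 ^ Q) (k : ℕ)
    (ih : ∃ c : Cfg, c.Good ∧ 0 < Fintype.card c.V ∧ 0 < Fintype.card c.Q ∧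
      Fintype.card c.Q ≤ 2 ^ (10 * Q * k) ∧
      Fintype.card c.V ≤ 2 ^ (1 + 30 * S * k + 10 * Q * k ^ 2) ∧
      1 / 2 ^ (67 * S + 30 * Q * k) ≤ c.lam ∧
      c.Meas (1 / 2 ^ (90 * S * k + 20 * Q * k ^ 2)) (1 / 2 ^ (5 + 170 * S * k + 40 * Q * k ^ 2))
        (2 ^ k) ∧
      (100 ^ (2 * k) : ℝ) * (Fintype.card p.E : ℝ) ^ k * Fintype.card c.V ≤
        2 * (101 ^ (2 * k) : ℝ) * (Fintype.card p.K : ℝ) ^ k * Fintype.card c.E) :
    ∃ c : Cfg, c.Good ∧ 0 < Fintype.card c.V ∧ 0 < Fintype.card c.Q ∧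
      Fintype.card c.Q ≤ 2 ^ (10 * Q * (k + 1)) ∧
      Fintype.card c.V ≤ 2 ^ (1 + 30 * S * (k + 1) + 10 * Q * (k + 1) ^ 2) ∧
      1 / 2 ^ (67 * S + 30 * Q * (k + 1)) ≤ c.lam ∧
      c.Meas (1 / 2 ^ (90 * S * (k + 1) + 20 * Q * (k + 1) ^ 2))
        (1 / 2 ^ (5 + 170 * S * (k + 1) + 40 * Q * (k + 1) ^ 2)) (2 ^ (k + 1)) ∧
      (100 ^ (2 * (k + 1)) : ℝ) * (Fintype.card p.E : ℝ) ^ (k + 1) * Fintype.card c.V ≤
        2 * (101 ^ (2 * (k + 1)) : ℝ) * (Fintype.card p.K : ℝ) ^ (k + 1) * Fintype.card c.E := by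
  obtain ⟨c, hc, hV0, hcQ0, hcQ, hcV, hlam, hmeas, hrate⟩ := ih
  set q := Fintype.card c.Q with hq
  set s := Fintype.card p.K with hs
  set F := 100 * q with hFdef
  set J := 100 * p.X * F with hJdef
  have hX1 := hp.X_pos
  have hF : 1 ≤ F := by omega
  have hgood := h1 c p F J hc hp hF
  obtain ⟨eV, eE, eQ, elam, emeas⟩ := h2 c p F J hc hp hF
  have hH : HH p F J = 10100 * p.X * q := by
    unfold HH
    rw [hJdef, hFdef]; ring
  have hHpos : 1 ≤ HH p F J := by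
    rw [hH]
    exact Nat.succ_le_of_lt (by positivity)
  have hHle : HH p F J ≤ 2 ^ (14 + S + 10 * Q * k) := by
    rw [hH, pow_add, pow_add]
    exact Nat.mul_le_mul (Nat.mul_le_mul (by norm_num) hX) hcQ
  have hHleR : (HH p F J : ℝ) ≤ 2 ^ (14 + S + 10 * Q * k) := by exact_mod_cast hHle
  have hHposR : (1 : ℝ) ≤ HH p F J := by exact_mod_cast hHpos
  refine ⟨step c p F J, hgood, ?_, ?_, ?_, ?_, ?_, ?_, ?_⟩
  · rw [eV]; positivity
  · rw [eQ]; positivity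
  · rw [eQ]
    have e1 : 2 * F + 1 ≤ 2 ^ 8 * q := by rw [hFdef]; omega
    calc (2 * F + 1) * Fintype.card p.Q ≤ (2 ^ 8 * 2 ^ (10 * Q * k)) * 2 ^ Q :=
          Nat.mul_le_mul (e1.trans (Nat.mul_le_mul_left _ hcQ)) hpQ
      _ = 2 ^ (8 + 10 * Q * k + Q) := by rw [pow_add, pow_add]
      _ ≤ 2 ^ (10 * Q * (k + 1)) := Nat.pow_le_pow_right two_pos (exp_card_Q hQ)
  · rw [eV]
    have e1 : 2 * F + 1 + 2 * q ≤ 2 ^ 8 * q := by rw [hFdef]; omega
    have e2 : 2 * HH p F J + 1 ≤ 2 ^ 15 * (p.X * q) := by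
      rw [hH]
      have : 1 ≤ p.X * q := Nat.succ_le_of_lt (by positivity)
      nlinarith
    have f1 : 2 * F + 1 + 2 * q ≤ 2 ^ 8 * 2 ^ (10 * Q * k) :=
      e1.trans (Nat.mul_le_mul_left _ hcQ)
    have f2 : 2 * HH p F J + 1 ≤ 2 ^ 15 * (2 ^ S * 2 ^ (10 * Q * k)) :=
      e2.trans (Nat.mul_le_mul_left _ (Nat.mul_le_mul hX hcQ))
    have f3 := Nat.mul_le_mul (Nat.mul_le_mul hcV f1) (Nat.mul_le_mul hK f2)
    calc Fintype.card c.V * (2 * F + 1 + 2 * q) * (s * (2 * HH p F J + 1))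
        ≤ 2 ^ (1 + 30 * S * k + 10 * Q * k ^ 2) * (2 ^ 8 * 2 ^ (10 * Q * k)) *
          (2 ^ S * (2 ^ 15 * (2 ^ S * 2 ^ (10 * Q * k)))) := f3
      _ = 2 ^ (24 + 2 * S + 30 * S * k + 10 * Q * k ^ 2 + 20 * Q * k) := by
          rw [← pow_add, ← pow_add, ← pow_add, ← pow_add, ← pow_add, ← pow_add]
          congr 1
          ring
      _ ≤ 2 ^ (1 + 30 * S * (k + 1) + 10 * Q * (k + 1) ^ 2) := by
          exact Nat.pow_le_pow_right two_pos (exp_card_V hS hQ)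
  · refine le_trans ?_ elam
    have e3 : (HH p F J : ℝ) ^ 3 ≤ 2 ^ (3 * (14 + S + 10 * Q * k)) := by
      rw [mul_comm 3, pow_mul]
      exact pow_le_pow_left₀ (by positivity) hHleR 3
    have e4 : (2 : ℝ) ^ 19 * (HH p F J : ℝ) ^ 3 ≤ 2 ^ (67 * S + 30 * Q * (k + 1)) := by
      calc (2 : ℝ) ^ 19 * (HH p F J : ℝ) ^ 3 ≤ 2 ^ 19 * 2 ^ (3 * (14 + S + 10 * Q * k)) :=
            mul_le_mul_of_nonneg_left e3 (by positivity)
        _ = 2 ^ (19 + 3 * (14 + S + 10 * Q * k)) := by rw [pow_add]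
        _ ≤ _ := pow_le_pow_right₀ (by norm_num) (exp_lam hS)
    exact one_div_le_one_div_of_le (by positivity) e4
  · have hm := emeas _ _ _ (by positivity) (by positivity) (one_le_pow₀ (by norm_num)) hmeas
    refine hm.mono ?_ ?_ ?_
    · have e5 : (1 : ℝ) / 2 ^ (90 * S * (k + 1) + 20 * Q * (k + 1) ^ 2) ≤
          1 / 2 ^ (90 * S * k + 20 * Q * k ^ 2) * (1 / 2 ^ (67 * S + 30 * Q * k)) /
            (32 * 2 ^ (14 + S + 10 * Q * k)) := by
        rw [one_div_mul_one_div_rev, div_div, ← pow_add]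
        refine one_div_le_one_div_of_le (by positivity) ?_
        have e6 : (32 : ℝ) = 2 ^ 5 := by norm_num
        rw [e6, ← pow_add, ← pow_add]
        refine pow_le_pow_right₀ (by norm_num) ?_
        have := exp_D (Q := Q) (k := k) hS
        omega
      refine e5.trans ?_
      refine div_le_div₀ (by have := hc.lam_pos; positivity) ?_ (by positivity) ?_
      · exact mul_le_mul_of_nonneg_left hlam (by positivity)
      · exact mul_le_mul_of_nonneg_left hHleR (by norm_num)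
    · have e7 : (HH p F J : ℝ) ^ 8 ≤ 2 ^ (8 * (14 + S + 10 * Q * k)) := by
        rw [mul_comm 8, pow_mul]
        exact pow_le_pow_left₀ (by positivity) hHleR 8
      rw [div_div]
      refine one_div_le_one_div_of_le (by positivity) ?_
      calc (2 : ℝ) ^ (5 + 170 * S * k + 40 * Q * k ^ 2) * (2 ^ 44 * (HH p F J : ℝ) ^ 8)
          ≤ 2 ^ (5 + 170 * S * k + 40 * Q * k ^ 2) *
            (2 ^ 44 * 2 ^ (8 * (14 + S + 10 * Q * k))) := by
            refine mul_le_mul_of_nonneg_left ?_ (by positivity)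
            exact mul_le_mul_of_nonneg_left e7 (by positivity)
        _ = 2 ^ (5 + 170 * S * k + 40 * Q * k ^ 2 + (44 + 8 * (14 + S + 10 * Q * k))) := by
            rw [← pow_add, ← pow_add]
        _ ≤ _ := pow_le_pow_right₀ (by norm_num) (exp_r hS)
    · rw [pow_succ]; linarith
  · rw [eV, eE]
    have r1 : (100 : ℝ) * (2 * F + 1 + 2 * q) ≤ 101 * (2 * F + 1) := by
      have : (F : ℝ) = 100 * q := by rw [hFdef]; push_cast; ring
      rw [this]; linarith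
    have r2 : (100 : ℝ) * (2 * (HH p F J : ℝ) + 1) ≤ 101 * (2 * J + 1) := by
      have e8 : (HH p F J : ℝ) = J + p.X * F := by unfold HH; push_cast; ring
      have e9 : (J : ℝ) = 100 * p.X * F := by rw [hJdef]; push_cast; ring
      rw [e8, e9]; linarith
    have r3 : ((100 : ℝ) * (2 * F + 1 + 2 * q)) * (100 * (2 * (HH p F J : ℝ) + 1)) ≤
        (101 * (2 * F + 1)) * (101 * (2 * J + 1)) :=
      mul_le_mul r1 r2 (by positivity) (by positivity)
    have r4 := mul_le_mul hrate r3 (by positivity) (by positivity)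
    have r5 := mul_le_mul_of_nonneg_right r4
      (show (0 : ℝ) ≤ (Fintype.card p.E : ℝ) * (s : ℝ) by positivity)
    push_cast
    calc (100 : ℝ) ^ (2 * (k + 1)) * (Fintype.card p.E : ℝ) ^ (k + 1) *
          (Fintype.card c.V * (2 * F + 1 + 2 * q) * (s * (2 * (HH p F J : ℝ) + 1)))
        = (100 : ℝ) ^ (2 * k) * (Fintype.card p.E : ℝ) ^ k * Fintype.card c.V *
          ((100 : ℝ) * (2 * F + 1 + 2 * q) * (100 * (2 * (HH p F J : ℝ) + 1))) *
          ((Fintype.card p.E : ℝ) * s) := by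
          rw [mul_add 2 k 1, pow_add]; ring
      _ ≤ _ := r5
      _ = _ := by rw [mul_add 2 k 1, pow_add]; ring

theorem claimIter (h1 : ClaimStep) (h2 : ClaimMeas) (h3 : ClaimBaseCfg) : ClaimIter := by
  intro p S Q hp hS hQ hK0 hQ0 hK hX hpQ k
  induction k with
  | zero =>
    obtain ⟨c, hc, hm, hl, hV, hE, hcQ⟩ := h3
    refine ⟨c, hc, ?_, ?_, ?_, ?_, ?_, ?_, ?_⟩
    · rw [hV]; norm_num
    · rw [hcQ]; norm_num
    · rw [hcQ]; simp
    · rw [hV]; simp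
    · rw [hl]
      have : (32 : ℝ) = 2 ^ 5 := by norm_num
      rw [this]
      exact one_div_le_one_div_of_le (by positivity)
        (pow_le_pow_right₀ (by norm_num) (by omega))
    · refine hm.mono ?_ ?_ ?_ <;> norm_num
    · rw [hV, hE]; norm_num
  | succ k ih =>
    exact iter_step h1 h2 p S Q hp hS hQ hK0 hQ0 hK hX hpQ k ih

end Pool.Agent.Work.MP_e17eac_co.NC
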