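import Pool.Agent.Work.MP_e17eac_co.Bd.B05

/-!
# Nested composition: the line through two perturbed lattice points (item A5)
-/

set_option autoImplicit false

namespace Pool.Agent.Work.MP_e17eac_co.NC

open Finset Pool.Agent.Work.MP_e17eac_co.HL
open scoped Classical

section

variable {c : Cfg} {p : Pat} {F J : ℕ}

/-- The lattice rows used by the new edges are within range. -/
lemma abs_row_le (hp : p.Good) (k : p.K) (i : IZ F) (j : IZ J) :
    |p.κ k * (i : ℤ) - (j : ℤ)| ≤ ((HH p F J : ℕ) : ℤ) := by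
  have h1 := IZ.abs_le i
  have h2 := IZ.abs_le j
  have h3 := hp.κ_le k
  have h4 : |p.κ k * (i : ℤ)| ≤ (p.X : ℤ) * F := by
    rw [abs_mul]
    exact mul_le_mul h3 h1 (abs_nonneg _) (Int.natCast_nonneg _)
  have h5 : |p.κ k * (i : ℤ) - (j : ℤ)| ≤ |p.κ k * (i : ℤ)| + |(j : ℤ)| := abs_sub _ _
  unfold HH
  push_cast
  linarith

lemma nx_lat_line (hc : c.Good) (hp : p.Good) (hF : 1 ≤ F) (e : c.E) (k : p.K) (h : ℤ) :
    (1 + c.lam * Rk p F J k) * nx c p F J (lat c p F J e k h) =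
      c.x (c.tgt e) + c.lam * Rk p F J k * c.x (c.src e) := by
  have hd := (den_pos (J := J) hc hp hF (lat c p F J e k h)).ne'
  have he := Cfg.edgeAt_tgt hc e
  have h1 : RR c p F J (lat c p F J e k h) = Rk p F J k := RR_inr_inl_some he k _
  have h2 : nb c p F J (lat c p F J e k h) = c.src e := nb_inr_inl_some he _
  rw [h1] at hd
  unfold nx
  rw [h1, h2]
  have h3 : (lat c p F J e k h).1 = c.tgt e := rfl
  rw [h3]
  field_simp

lemma Rk_add_rk (hp : p.Good) (hF : 1 ≤ F) (k : p.K) : Rk p F J k = 2 - rk p F J k := by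
  have := rk_mul (J := J) hp hF k
  unfold Rk
  linarith

lemma nx_lat_ne (hc : c.Good) (hp : p.Good) (hF : 1 ≤ F) (e : c.E) {k k' : p.K}
    (hk : p.κ k ≠ p.κ k') (h h' : ℤ) :
    nx c p F J (lat c p F J e k h) ≠ nx c p F J (lat c p F J e k' h') := by
  intro heq
  have h1 := nx_lat_line (J := J) hc hp hF e k h
  have h2 := nx_lat_line (J := J) hc hp hF e k' h'
  rw [← heq] at h2
  set z := nx c p F J (lat c p F J e k h)
  have h3 : z ≠ c.x (c.src e) := by
    intro h4
    rw [h4] at h1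
    exact hc.x_ne e (by linarith)
  have h5 : (Rk p F J k - Rk p F J k') * (c.lam * (z - c.x (c.src e))) = 0 := by
    linear_combination h1 - h2
  have h6 : c.lam * (z - c.x (c.src e)) ≠ 0 :=
    mul_ne_zero hc.lam_pos.ne' (sub_ne_zero.mpr h3)
  have h7 : Rk p F J k = Rk p F J k' := by
    rcases mul_eq_zero.mp h5 with h | h
    · linarith
    · exact absurd h h6
  rw [Rk_add_rk hp hF, Rk_add_rk hp hF] at h7
  have h8 : rk p F J k = rk p F J k' := by linarith
  have h9 := rk_mul (J := J) hp hF k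
  have h10 := rk_mul (J := J) hp hF k'
  rw [← h8] at h10
  have h11 : rk p F J k * th p F J * ((p.κ k : ℝ) - p.κ k') = 0 := by
    linear_combination h9 - h10
  have h12 : rk p F J k * th p F J ≠ 0 :=
    mul_ne_zero (rk_pos hp hF k).ne' (th_pos hp hF).ne'
  rcases mul_eq_zero.mp h11 with h | h
  · exact h12 h
  · apply hk
    have : (p.κ k : ℝ) = p.κ k' := by linarith
    exact_mod_cast this

/-- The bound for the rescaled vertical perturbation. -/
lemma hat_bound (hc : c.Good) (hp : p.Good) (hF : 1 ≤ F) (e : c.E) (k : p.K) (t : ℝ)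
    (ht : |t| ≤ rad c p F J (c.tgt e)) :
    |t * (1 + c.lam * Rk p F J k) / (Dl c F (c.tgt e) * th p F J * rk p F J k)| ≤
      mu p F J / (58 * (p.X : ℝ) ^ 2) := by
  have hD := Dl_tgt_pos (F := F) hc e
  have hth := th_pos (J := J) hp hF
  have hmu := mu_pos (J := J) hp hF
  have hr := rk_pos (J := J) hp hF k
  have hr1 := rk_ge (J := J) hp hF k
  have hX := X_real_pos hp
  have hR1 := Rk_ge (J := J) hp hF k
  have hR2 := Rk_le (J := J) hp hF k
  have hl := hc.lam_pos
  have hl2 := hc.lam_le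
  have hden : 1 + c.lam * Rk p F J k ≤ 31 / 30 := by nlinarith
  have hden0 : 0 < 1 + c.lam * Rk p F J k := by nlinarith
  rw [abs_div, abs_mul, abs_of_pos hden0,
    abs_of_pos (show 0 < Dl c F (c.tgt e) * th p F J * rk p F J k by positivity)]
  unfold rad at ht
  rw [div_le_div_iff₀ (by positivity) (by positivity)]
  rw [le_div_iff₀ (by positivity)] at ht
  set D := Dl c F (c.tgt e)
  set θ := th p F J
  set μ := mu p F J
  set r := rk p F J k
  set d := 1 + c.lam * Rk p F J k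
  set X := (p.X : ℝ)
  have hA : 0 < D * θ * μ := by positivity
  calc |t| * d * (58 * X ^ 2) = (|t| * (64 * X ^ 2)) * (58 / 64 * d) := by ring
    _ ≤ (D * θ * μ) * (58 / 64 * d) := by
        apply mul_le_mul_of_nonneg_right ht; positivity
    _ ≤ (D * θ * μ) * r := by
        apply mul_le_mul_of_nonneg_left _ hA.le
        linarith
    _ = μ * (D * θ * r) := by ring

/-- Real estimates for the parameters of the line. -/
lemma line_real {i j κ κ' δ δ' μ X s s' α β : ℝ} (hμ : 0 < μ) (hX : 1 ≤ X)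
    (hκ : 1 ≤ |κ - κ'|) (hκX : |κ| ≤ X) (hδ : |δ| ≤ 1) (hδ' : |δ'| ≤ 1)
    (hs : |s| ≤ μ / (58 * X ^ 2)) (hs' : |s'| ≤ μ / (58 * X ^ 2))
    (hα : α * (κ - κ') = (κ * i - j + μ * δ + s) - (κ' * i - j + μ * δ' + s'))
    (hβ : β = α * κ - (κ * i - j + μ * δ + s)) :
    |α - i| ≤ 4 * μ ∧ |β - j| ≤ 6 * μ * X := by
  have hXX : 1 ≤ X ^ 2 := by nlinarith
  have hsm : μ / (58 * X ^ 2) ≤ μ / 58 := by
    apply div_le_div_of_nonneg_left hμ.le (by norm_num)
    linarith
  have hs1 := hs.trans hsm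
  have hs1' := hs'.trans hsm
  have h1 : (α - i) * (κ - κ') = μ * (δ - δ') + s - s' := by linear_combination hα
  have h2 : |(α - i) * (κ - κ')| ≤ 3 * μ := by
    rw [h1]
    rw [abs_le] at *
    constructor <;> nlinarith
  have h3 : |α - i| ≤ 3 * μ := by
    rw [abs_mul] at h2
    have := abs_nonneg (α - i)
    nlinarith
  refine ⟨by linarith, ?_⟩
  have h4 : β - j = (α - i) * κ - μ * δ - s := by rw [hβ]; ring
  rw [h4]
  have h5 : |(α - i) * κ| ≤ 3 * μ * X := by
    rw [abs_mul]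
    exact mul_le_mul h3 hκX (abs_nonneg _) (by positivity)
  have h6 : |μ * δ| ≤ μ := by
    rw [abs_mul, abs_of_pos hμ]
    nlinarith
  have h7 : μ ≤ μ * X := by nlinarith
  calc |(α - i) * κ - μ * δ - s| ≤ |(α - i) * κ - μ * δ| + |s| := abs_sub _ _
    _ ≤ |(α - i) * κ| + |μ * δ| + |s| := by
        gcongr
        exact abs_sub _ _
    _ ≤ 6 * μ * X := by linarith

end

theorem claimLine (hown : ClaimOwn) : ClaimLine := by
  intro c p F J hc hp hF a tu tv htu htv
  obtain ⟨e, i, j, e0⟩ := a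
  have he := Cfg.edgeAt_tgt hc e
  have hlam' := lam'_pos (J := J) hp hF
  have hlam'2 := lam'_le (J := J) hp hF
  have hμ := mu_pos (J := J) hp hF
  have hθ := th_pos (J := J) hp hF
  have hX := X_real_pos hp
  have hD := Dl_tgt_pos (F := F) hc e
  have hrad : 0 < rad c p F J (c.tgt e) := by unfold rad; positivity
  -- the bounds for tu, tv
  have htu' : |tu| ≤ rad c p F J (c.tgt e) := by
    refine htu.trans (le_of_eq ?_)
    have : nρ c p F J (nsrc c p F J (e, i, j, e0)) = _ := nρ_inr_inl_some he (p.src e0) _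
    rw [this, if_neg (hp.isT_src e0), mul_one]
  have htv' : |tv| ≤ rad c p F J (c.tgt e) := by
    refine htv.trans ?_
    have : nρ c p F J (ntgt c p F J (e, i, j, e0)) = _ := nρ_inr_inl_some he (p.tgt e0) _
    rw [this, if_pos (hp.isT_tgt e0)]
    nlinarith
  set k := p.src e0 with hk
  set k' := p.tgt e0 with hk'
  set s := tu * (1 + c.lam * Rk p F J k) / (Dl c F (c.tgt e) * th p F J * rk p F J k) with hs
  set s' := tv * (1 + c.lam * Rk p F J k') / (Dl c F (c.tgt e) * th p F J * rk p F J k')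
    with hs'
  have hsb : |s| ≤ mu p F J / (58 * (p.X : ℝ) ^ 2) := hat_bound hc hp hF e k tu htu'
  have hsb' : |s'| ≤ mu p F J / (58 * (p.X : ℝ) ^ 2) := hat_bound hc hp hF e k' tv htv'
  have hκne : ((p.κ k : ℝ) - p.κ k') ≠ 0 := Pat.κ_sub_ne hp e0
  set YU : ℝ := (p.κ k : ℝ) * (i : ℤ) - (j : ℤ) + mu p F J * p.δ k + s with hYU
  set YV : ℝ := (p.κ k' : ℝ) * (i : ℤ) - (j : ℤ) + mu p F J * p.δ k' + s' with hYV
  set α : ℝ := (YU - YV) / ((p.κ k : ℝ) - p.κ k') with hα
  set β : ℝ := α * p.κ k - YU with hβ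
  have hα1 : α * ((p.κ k : ℝ) - p.κ k') = YU - YV := by rw [hα]; field_simp
  have hαV : α * (p.κ k' : ℝ) - β = YV := by rw [hβ]; linear_combination (-1 : ℝ) * hα1
  have hαU : α * (p.κ k : ℝ) - β = YU := by rw [hβ]; ring
  obtain ⟨hα2, hβ2⟩ := line_real hμ hX (Pat.one_le_abs_κ_sub hp e0) (Pat.abs_κ_le hp k)
    (hp.δ_le k) (hp.δ_le k') hsb hsb' hα1 hβ
  refine ⟨α, β, ⟨hα2, hβ2, ?_⟩, ?_⟩
  · intro k''
    have hξ := Pat.abs_ξ_le hp e0 k''
    have hξ' := Pat.abs_one_sub_ξ_le hp e0 k''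
    have hξd : p.ξ e0 k'' * ((p.κ k : ℝ) - p.κ k') = (p.κ k'' : ℝ) - p.κ k' :=
      div_mul_cancel₀ _ hκne
    have hg : p.g e0 k'' = p.δ k'' - p.δ k' - p.ξ e0 k'' * (p.δ k - p.δ k') := rfl
    set ξ := p.ξ e0 k'' with hξdef
    have key : (α * (p.κ k'' : ℝ) - β) -
        (((p.κ k'' * (i : ℤ) - (j : ℤ) : ℤ) : ℝ) + mu p F J * (p.δ k'' - p.g e0 k'')) =
        s * ξ + s' * (1 - ξ) := by
      rw [hg]
      push_cast
      have e1 : α * (p.κ k'' : ℝ) - β = YV + ξ * (YU - YV) := by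
        linear_combination hαV - α * hξd + ξ * hα1
      rw [e1, hYU, hYV]
      linear_combination (((i : ℤ) : ℝ)) * hξd
    show |(α * (p.κ k'' : ℝ) - β) -
        (((p.κ k'' * (i : ℤ) - (j : ℤ) : ℤ) : ℝ) + mu p F J * (p.δ k'' - p.g e0 k''))| ≤ _
    rw [key]
    have hX0 : (0 : ℝ) < p.X := by linarith
    calc |s * ξ + s' * (1 - ξ)| ≤ |s| * |ξ| + |s'| * |1 - ξ| := by
          refine (abs_add_le _ _).trans ?_
          rw [abs_mul, abs_mul]
      _ ≤ (mu p F J / (58 * (p.X : ℝ) ^ 2)) * (2 * p.X) +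
          (mu p F J / (58 * (p.X : ℝ) ^ 2)) * (2 * p.X) := by
          gcongr
      _ = (4 / 58) * (mu p F J / p.X) := by field_simp; ring
      _ ≤ (1 / 8) * (mu p F J / p.X) := by
          apply mul_le_mul_of_nonneg_right (by norm_num); positivity
      _ = mu p F J / (8 * p.X) := by field_simp
  · -- values at the two ends
    have hdenk : ∀ q : p.K, 1 + c.lam * Rk p F J q ≠ 0 := by
      intro q
      have h1 := Rk_ge (J := J) hp hF q
      have h2 := hc.lam_pos
      have : 0 < 1 + c.lam * Rk p F J q := by nlinarith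
      exact this.ne'
    have hvU : ((toIZ (HH p F J) (p.κ k * (i : ℤ) - (j : ℤ)) : IZ (HH p F J)) : ℤ) =
        p.κ k * (i : ℤ) - (j : ℤ) := toIZ_val (abs_row_le hp k i j)
    have hvV : ((toIZ (HH p F J) (p.κ k' * (i : ℤ) - (j : ℤ)) : IZ (HH p F J)) : ℤ) =
        p.κ k' * (i : ℤ) - (j : ℤ) := toIZ_val (abs_row_le hp k' i j)
    have hU : gw c p F J e α β (nsrc c p F J (e, i, j, e0)) = -tu := by
      have h1 := hown c p F J hc hp hF e α β k (toIZ (HH p F J) (p.κ k * (i : ℤ) - (j : ℤ)))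
      rw [hvU, hαU] at h1
      have h2 : nsrc c p F J (e, i, j, e0) = (c.tgt e, Sum.inr (Sum.inl (c.slot e)),
        (k, toIZ (HH p F J) (p.κ k * (i : ℤ) - (j : ℤ)))) := rfl
      rw [h2]
      have h3 : Dl c F (c.tgt e) * th p F J * rk p F J k * s =
          tu * (1 + c.lam * Rk p F J k) := by
        have := rk_pos (J := J) hp hF k
        rw [hs]; field_simp
      apply mul_left_cancel₀ (hdenk k)
      rw [h1]
      push_cast
      rw [hYU]
      linear_combination (-1 : ℝ) * h3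
    have hV : gw c p F J e α β (ntgt c p F J (e, i, j, e0)) = -tv := by
      have h1 := hown c p F J hc hp hF e α β k' (toIZ (HH p F J) (p.κ k' * (i : ℤ) - (j : ℤ)))
      rw [hvV, hαV] at h1
      have h2 : ntgt c p F J (e, i, j, e0) = (c.tgt e, Sum.inr (Sum.inl (c.slot e)),
        (k', toIZ (HH p F J) (p.κ k' * (i : ℤ) - (j : ℤ)))) := rfl
      rw [h2]
      have h3 : Dl c F (c.tgt e) * th p F J * rk p F J k' * s' =
          tv * (1 + c.lam * Rk p F J k') := by
        have := rk_pos (J := J) hp hF k'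
        rw [hs']; field_simp
      apply mul_left_cancel₀ (hdenk k')
      rw [h1]
      push_cast
      rw [hYV]
      linear_combination (-1 : ℝ) * h3
    have hne : nx c p F J (nsrc c p F J (e, i, j, e0)) ≠
        nx c p F J (ntgt c p F J (e, i, j, e0)) := nx_lat_ne hc hp hF e (hp.κ_ne e0) _ _
    intro w
    set xU := nx c p F J (nsrc c p F J (e, i, j, e0)) with hxU
    set yU := ny c p F J (nsrc c p F J (e, i, j, e0)) with hyU
    set xV := nx c p F J (ntgt c p F J (e, i, j, e0)) with hxV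
    set yV := ny c p F J (ntgt c p F J (e, i, j, e0)) with hyV
    have hgw : ∀ w : NV c p F J, gw c p F J e α β w =
        ny c p F J w - c.y (c.tgt e) - (nx c p F J w - c.x (c.tgt e)) *
          (c.x (c.src e) - c.x (c.tgt e))⁻¹ * (c.y (c.src e) - c.y (c.tgt e)) -
        (1 - (nx c p F J w - c.x (c.tgt e)) * (c.x (c.src e) - c.x (c.tgt e))⁻¹) *
          avv c p F J e α β - (nx c p F J w - c.x (c.tgt e)) *
          (c.x (c.src e) - c.x (c.tgt e))⁻¹ * auu c p F J e α β := fun _ => rfl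
    rw [hgw] at hU hV
    rw [hgw]
    have hd : xU - xV ≠ 0 := sub_ne_zero.mpr hne
    have hξw : (step c p F J).ξ (e, i, j, e0) w * (xU - xV) = nx c p F J w - xV := by
      show (nx c p F J w - xV) / (xU - xV) * (xU - xV) = _
      field_simp
    have hgs : (step c p F J).g (e, i, j, e0) w = ny c p F J w - yV -
        (step c p F J).ξ (e, i, j, e0) w * (yU - yV) := rfl
    rw [hgs]
    set ξ := (step c p F J).ξ (e, i, j, e0) w
    set I := (c.x (c.src e) - c.x (c.tgt e))⁻¹
    set A := avv c p F J e α β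
    set B := auu c p F J e α β
    set W := nx c p F J w
    rw [← hxU, ← hyU] at hU
    rw [← hxV, ← hyV] at hV
    linear_combination (-ξ) * hU - (1 - ξ) * hV -
      (I * (c.y (c.src e) - c.y (c.tgt e)) - I * A + I * B) * hξw

end Pool.Agent.Work.MP_e17eac_co.NC
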