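import Pool.Agent.Work.MP_e17eac_co.Bd.B05

/-!
# Nested composition: cardinalities and quantitative data of the step (claim A10)
-/

set_option autoImplicit false

namespace Pool.Agent.Work.MP_e17eac_co.NC

open Finset Pool.Agent.Work.MP_e17eac_co.HL
open scoped Classical

namespace Meas

lemma card_IZ (n : ℕ) : Fintype.card (IZ n) = 2 * n + 1 := by
  rw [Fintype.card_coe, Int.card_Icc]
  omega

variable {c : Cfg} {p : Pat} {F J : ℕ}

lemma card_NV : Fintype.card (NV c p F J) =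
    Fintype.card c.V * (2 * F + 1 + 2 * Fintype.card c.Q) *
      (Fintype.card p.K * (2 * HH p F J + 1)) := by
  unfold NV
  rw [Fintype.card_prod, Fintype.card_prod, Fintype.card_prod, Fintype.card_sum, Fintype.card_sum,
    card_IZ, card_IZ]
  ring

lemma card_NE : Fintype.card (NE c p F J) =
    Fintype.card c.E * ((2 * F + 1) * (2 * J + 1)) * Fintype.card p.E := by
  unfold NE
  rw [Fintype.card_prod, Fintype.card_prod, Fintype.card_prod, card_IZ, card_IZ]
  ring

lemma card_NQ : Fintype.card (IZ F × p.Q) = (2 * F + 1) * Fintype.card p.Q := by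
  rw [Fintype.card_prod, card_IZ]

lemma lam'_eq (hp : p.Good) (hF : 1 ≤ F) :
    lam' p F J * (327680 * (HH p F J : ℝ) ^ 2 * p.X) = 1 := by
  have h1 := HH_ge_one (J := J) hp hF
  have h2 := X_real_pos hp
  unfold lam' mu th
  field_simp
  norm_num

lemma lam'_ge (hp : p.Good) (hF : 1 ≤ F) :
    1 ≤ lam' p F J * (327680 * (HH p F J : ℝ) ^ 3) := by
  have h1 := HH_ge_one (J := J) hp hF
  have h2 := X_real_pos hp
  have h3 := lam'_eq (J := J) hp hF
  have h4 := HH_ge_X (p := p) (J := J) hF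
  have h5 := lam'_pos (J := J) hp hF
  calc (1 : ℝ) = lam' p F J * (327680 * (HH p F J : ℝ) ^ 2 * p.X) := h3.symm
    _ ≤ lam' p F J * (327680 * (HH p F J : ℝ) ^ 2 * HH p F J) := by gcongr
    _ = _ := by ring

lemma lam'_ge' (hp : p.Good) (hF : 1 ≤ F) :
    1 / (2 ^ 19 * (HH p F J : ℝ) ^ 3) ≤ lam' p F J := by
  have h1 := HH_ge_one (J := J) hp hF
  have h3 := lam'_ge (J := J) hp hF
  have h5 := lam'_pos (J := J) hp hF
  have h6 : (0 : ℝ) < (HH p F J : ℝ) ^ 3 := by positivity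
  rw [div_le_iff₀ (by positivity)]
  have h7 := mul_pos h5 h6
  nlinarith

/-- Differences of the abscissas of two lattice points. -/
lemma Rk_sub (hp : p.Good) (hF : 1 ≤ F) (k k' : p.K) :
    Rk p F J k - Rk p F J k' =
      th p F J * ((p.κ k : ℝ) - p.κ k') * (rk p F J k * rk p F J k') := by
  have h1 := rk_mul (J := J) hp hF k
  have h2 := rk_mul (J := J) hp hF k'
  unfold Rk
  linear_combination ((p.κ k' : ℝ) * th p F J * rk p F J k') * h1 -
    ((p.κ k : ℝ) * th p F J * rk p F J k) * h2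

lemma frac_sub {x y l R R' : ℝ} (h1 : 1 + l * R ≠ 0) (h2 : 1 + l * R' ≠ 0) :
    (x + l * R * y) / (1 + l * R) - (x + l * R' * y) / (1 + l * R') =
      l * (R - R') * (y - x) / ((1 + l * R) * (1 + l * R')) := by
  field_simp
  ring

lemma D_le (hc : c.Good) (hp : p.Good) (hF : 1 ≤ F) {D : ℝ} (hD : 0 < D)
    (hD' : ∀ e, D ≤ |c.x (c.src e) - c.x (c.tgt e)|) (a : NE c p F J) :
    D * c.lam / (32 * (HH p F J : ℝ)) ≤
      |nx c p F J (nsrc c p F J a) - nx c p F J (ntgt c p F J a)| := by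
  obtain ⟨e, i, j, e₀⟩ := a
  have hH := HH_ge_one (J := J) hp hF
  have hl := hc.lam_pos
  have hth := th_pos (J := J) hp hF
  have hthH := th_mul_HH (J := J) hp hF
  have hed := Cfg.edgeAt_tgt hc e
  set U : NV c p F J := nsrc c p F J (e, i, j, e₀) with hU
  set W : NV c p F J := ntgt c p F J (e, i, j, e₀) with hW
  have hU1 : RR c p F J U = Rk p F J (p.src e₀) := by
    rw [hU]; unfold nsrc lat; exact RR_inr_inl_some hed _ _
  have hW1 : RR c p F J W = Rk p F J (p.tgt e₀) := by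
    rw [hW]; unfold ntgt lat; exact RR_inr_inl_some hed _ _
  have hU2 : nb c p F J U = c.src e := by
    rw [hU]; unfold nsrc lat; exact nb_inr_inl_some hed _
  have hW2 : nb c p F J W = c.src e := by
    rw [hW]; unfold ntgt lat; exact nb_inr_inl_some hed _
  have hU3 : U.1 = c.tgt e := rfl
  have hW3 : W.1 = c.tgt e := rfl
  have dU := den_pos hc hp hF U
  have dW := den_pos hc hp hF W
  have lU := den_le hc hp hF U
  have lW := den_le hc hp hF W
  have key : nx c p F J U - nx c p F J W =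
      c.lam * (th p F J * ((p.κ (p.src e₀) : ℝ) - p.κ (p.tgt e₀)) *
        (rk p F J (p.src e₀) * rk p F J (p.tgt e₀))) * (c.x (c.src e) - c.x (c.tgt e)) /
        ((1 + c.lam * RR c p F J U) * (1 + c.lam * RR c p F J W)) := by
    rw [← Rk_sub hp hF, ← hU1, ← hW1, ← frac_sub dU.ne' dW.ne']
    unfold nx
    rw [hU2, hW2, hU3, hW3]
  rw [key, abs_div, abs_mul, abs_mul, abs_mul, abs_mul, abs_of_pos hl, abs_of_pos hth,
    abs_of_pos (mul_pos dU dW),
    abs_of_pos (mul_pos (rk_pos (J := J) hp hF (p.src e₀)) (rk_pos (J := J) hp hF (p.tgt e₀)))]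
  rw [le_div_iff₀ (mul_pos dU dW)]
  have h1 : (1 + c.lam * RR c p F J U) * (1 + c.lam * RR c p F J W) ≤ 31 / 30 * (31 / 30) :=
    mul_le_mul lU lW dW.le (by norm_num)
  have h2 : (16 / 17 : ℝ) * (16 / 17) ≤ rk p F J (p.src e₀) * rk p F J (p.tgt e₀) :=
    mul_le_mul (rk_ge hp hF _) (rk_ge hp hF _) (by norm_num) (rk_pos hp hF _).le
  have h3 := Pat.one_le_abs_κ_sub hp e₀
  have h4 := hD' e
  have h5 : D * c.lam / (32 * (HH p F J : ℝ)) = c.lam * th p F J * D * (1 / 2) := by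
    unfold th; field_simp; norm_num
  rw [h5]
  have h6 : 0 < c.lam * th p F J := mul_pos hl hth
  have h7 : 0 < c.lam * th p F J * D := mul_pos h6 hD
  calc c.lam * th p F J * D * (1 / 2) *
        ((1 + c.lam * RR c p F J U) * (1 + c.lam * RR c p F J W))
      ≤ c.lam * th p F J * D * (1 / 2) * (31 / 30 * (31 / 30)) := by
        refine mul_le_mul_of_nonneg_left h1 (by positivity)
    _ ≤ c.lam * th p F J * D * (16 / 17 * (16 / 17)) := by
        rw [mul_assoc]
        exact mul_le_mul_of_nonneg_left (by norm_num) h7.le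
    _ = c.lam * (th p F J * 1 * (16 / 17 * (16 / 17))) * D := by ring
    _ ≤ _ := by gcongr

lemma r_le (hc : c.Good) (hp : p.Good) (hF : 1 ≤ F) {r : ℝ} (hr : 0 < r)
    (hr' : ∀ e, r ≤ c.ρ (c.tgt e)) (a : NE c p F J) :
    r / (2 ^ 44 * (HH p F J : ℝ) ^ 8) ≤ nρ c p F J (ntgt c p F J a) := by
  obtain ⟨e, i, j, e₀⟩ := a
  have hH := HH_ge_one (J := J) hp hF
  have hed := Cfg.edgeAt_tgt hc e
  have hX := X_real_pos hp
  have hXH := HH_ge_X (p := p) (J := J) hF
  have hFH : (F : ℝ) ≤ HH p F J := by exact_mod_cast F_le_HH (J := J) hp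
  have h0 : nρ c p F J (ntgt c p F J (e, i, j, e₀)) = rad c p F J (c.tgt e) * lam' p F J := by
    unfold ntgt lat
    rw [nρ_inr_inl_some hed, if_pos (hp.isT_tgt e₀)]
  rw [h0]
  have h1 : rad c p F J (c.tgt e) * (1310720 * ((F : ℝ) + 1) * (HH p F J : ℝ) ^ 2 * p.X ^ 2 * 16)
      = c.ρ (c.tgt e) := by
    unfold rad Dl eta mu th
    have : (F : ℝ) + 1 ≠ 0 := by positivity
    field_simp
    ring
  have hρ := hr' e
  have hρ0 : 0 < c.ρ (c.tgt e) := Cfg.ρ_tgt_pos hc e
  have hrad : 0 ≤ rad c p F J (c.tgt e) := by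
    have := Dl_nonneg (F := F) hc (c.tgt e)
    have := th_pos (J := J) hp hF
    have := mu_pos (J := J) hp hF
    unfold rad; positivity
  have h2 := lam'_ge (J := J) hp hF
  have h2p := lam'_pos (J := J) hp hF
  rw [div_le_iff₀ (by positivity)]
  have h3 : (1310720 * ((F : ℝ) + 1) * (HH p F J : ℝ) ^ 2 * p.X ^ 2 * 16) ≤
      1310720 * (2 * (HH p F J : ℝ)) * (HH p F J : ℝ) ^ 2 * (HH p F J : ℝ) ^ 2 * 16 := by
    have : (F : ℝ) + 1 ≤ 2 * (HH p F J : ℝ) := by linarith
    gcongr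
  have h4 : r ≤ rad c p F J (c.tgt e) *
      (1310720 * (2 * (HH p F J : ℝ)) * (HH p F J : ℝ) ^ 2 * (HH p F J : ℝ) ^ 2 * 16) := by
    calc r ≤ c.ρ (c.tgt e) := hρ
      _ = _ := h1.symm
      _ ≤ _ := mul_le_mul_of_nonneg_left h3 hrad
  have h5 : rad c p F J (c.tgt e) *
      (1310720 * (2 * (HH p F J : ℝ)) * (HH p F J : ℝ) ^ 2 * (HH p F J : ℝ) ^ 2 * 16) * 1 ≤
      rad c p F J (c.tgt e) *
      (1310720 * (2 * (HH p F J : ℝ)) * (HH p F J : ℝ) ^ 2 * (HH p F J : ℝ) ^ 2 * 16) *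
      (lam' p F J * (327680 * (HH p F J : ℝ) ^ 3)) :=
    mul_le_mul_of_nonneg_left h2 (by positivity)
  have h6 : rad c p F J (c.tgt e) *
      (1310720 * (2 * (HH p F J : ℝ)) * (HH p F J : ℝ) ^ 2 * (HH p F J : ℝ) ^ 2 * 16) *
      (lam' p F J * (327680 * (HH p F J : ℝ) ^ 3)) =
      rad c p F J (c.tgt e) * lam' p F J *
        ((1310720 * 2 * 16 * 327680) * (HH p F J : ℝ) ^ 8) := by ring
  have h7 : rad c p F J (c.tgt e) * lam' p F J *
        ((1310720 * 2 * 16 * 327680) * (HH p F J : ℝ) ^ 8) ≤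
      rad c p F J (c.tgt e) * lam' p F J * (2 ^ 44 * (HH p F J : ℝ) ^ 8) := by
    have : (0 : ℝ) ≤ (HH p F J : ℝ) ^ 8 := by positivity
    refine mul_le_mul_of_nonneg_left ?_ (mul_nonneg hrad h2p.le)
    refine mul_le_mul_of_nonneg_right ?_ this
    norm_num
  linarith

lemma abs_IZ_real {n : ℕ} (i : IZ n) : |(((i : ℤ) : ℝ))| ≤ (n : ℝ) := by
  have h := IZ.abs_le i
  have h2 : ((|(i : ℤ)| : ℤ) : ℝ) ≤ ((n : ℤ) : ℝ) := by exact_mod_cast h
  simpa [Int.cast_abs] using h2

lemma abs_σ_le (hp : p.Good) (k : p.K) : |(p.σ k : ℝ)| ≤ 1 := by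
  rcases hp.σ_or k with h | h <;> rw [h] <;> norm_num

lemma tau_le (hc : c.Good) (hp : p.Good) (hF : 1 ≤ F) (w : NV c p F J) :
    |tau c p F J w| ≤ 1 / 16 := by
  obtain ⟨v, s, k, hh⟩ := w
  have hD := Dl_nonneg (F := F) hc v
  have hD2 := Dl_le (F := F) hc v
  have hρ := hc.ρ_le v
  have hth := th_pos (J := J) hp hF
  have hmu := mu_pos (J := J) hp hF
  have hthH := th_mul_HH (J := J) hp hF
  have hth1 := th_le (J := J) hp hF
  have hF0 : (1 : ℝ) ≤ F := by exact_mod_cast hF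
  have hh1 : |th p F J * ((hh : ℤ) : ℝ)| ≤ 1 / 16 := by
    rw [abs_mul, abs_of_pos hth, ← hthH]
    exact mul_le_mul_of_nonneg_left (abs_IZ_real hh) hth.le
  have main : ∀ t : ℝ, |t| ≤ 2 * (F : ℝ) + 2 → |Dl c F v * t| ≤ 1 / 16 := by
    intro t ht
    rw [abs_mul, abs_of_nonneg hD]
    calc Dl c F v * |t| ≤ Dl c F v * (2 * (F : ℝ) + 2) := mul_le_mul_of_nonneg_left ht hD
      _ = c.ρ v / 16 := by rw [mul_comm, hD2]
      _ ≤ _ := by linarith
  rcases s with i | b | b
  · rw [tau_inl]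
    apply main
    have h1 := abs_IZ_real i
    have h2 := abs_σ_le hp k
    have e1 : (((i : ℤ) : ℝ)) + th p F J * (((hh : ℤ) : ℝ) + (p.σ k : ℝ) / 4) =
      ((i : ℤ) : ℝ) + th p F J * ((hh : ℤ) : ℝ) + th p F J * (p.σ k : ℝ) / 4 := by ring
    rw [e1]
    have h3 : |th p F J * (p.σ k : ℝ) / 4| ≤ 1 := by
      rw [abs_div, abs_mul, abs_of_pos hth, abs_of_pos (by norm_num : (0 : ℝ) < 4)]
      have := mul_le_mul_of_nonneg_left h2 hth.le
      linarith
    rw [abs_le] at h1 h3 hh1 ⊢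
    constructor <;> linarith
  · rcases h : c.edgeAt v b with _ | e
    · rw [tau_inr_inl_none h, mul_comm]
      apply main
      rw [abs_le]
      constructor <;> linarith
    · rw [tau_inr_inl_some h]
      apply main
      have h1 := rk_pos (J := J) hp hF k
      have h2 := rk_le (J := J) hp hF k
      have h3 := hp.δ_le k
      have h4 : |th p F J * ((hh : ℤ) : ℝ) * rk p F J k| ≤ 1 / 16 * (16 / 15) := by
        rw [abs_mul, abs_of_pos h1]
        exact mul_le_mul hh1 h2 h1.le (by norm_num)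
      have hmu1 : mu p F J ≤ 1 := by
        have := th_eq_mu (p := p) (F := F) (J := J)
        linarith
      have h5 : |th p F J * rk p F J k * (mu p F J * p.δ k)| ≤ 1 / 16 * (16 / 15) * (1 * 1) := by
        rw [abs_mul, abs_mul, abs_mul, abs_of_pos h1, abs_of_pos hth, abs_of_pos hmu]
        exact mul_le_mul (mul_le_mul hth1 h2 h1.le (by norm_num))
          (mul_le_mul hmu1 h3 (abs_nonneg _) (by norm_num)) (by positivity) (by norm_num)
      have e1 : th p F J * rk p F J k * (((hh : ℤ) : ℝ) + mu p F J * p.δ k) - 1 / 2 =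
        th p F J * ((hh : ℤ) : ℝ) * rk p F J k + th p F J * rk p F J k * (mu p F J * p.δ k)
          - 1 / 2 := by ring
      rw [e1]
      rw [abs_le] at h4 h5 ⊢
      constructor <;> linarith
  · rcases h : c.edgeAt v b with _ | e
    · rw [tau_inr_inr_none h, mul_comm, ← mul_neg]
      apply main
      rw [abs_neg, abs_le]
      constructor <;> linarith
    · rw [tau_inr_inr_some h, mul_comm, ← mul_neg]
      apply main
      rw [abs_neg, abs_le]
      constructor <;> linarith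

lemma lamRR_le (hc : c.Good) (hp : p.Good) (hF : 1 ≤ F) (w : NV c p F J) :
    |c.lam * RR c p F J w| ≤ 1 / 30 := by
  rw [abs_mul, abs_of_pos hc.lam_pos]
  calc c.lam * |RR c p F J w| ≤ 1 / 32 * (16 / 15) :=
        mul_le_mul hc.lam_le (abs_RR_le hp hF w) (abs_nonneg _) (by norm_num)
    _ = 1 / 30 := by norm_num

lemma x_le (hc : c.Good) (hp : p.Good) (hF : 1 ≤ F) {B : ℝ} (hB : 1 ≤ B)
    (hx : ∀ v, |c.x v| ≤ B) (w : NV c p F J) : |nx c p F J w| ≤ 2 * B := by
  have h1 := den_pos hc hp hF w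
  have h2 := den_ge hc hp hF w
  have h3 := lamRR_le hc hp hF w
  unfold nx
  rw [abs_div, abs_of_pos h1, div_le_iff₀ h1]
  have h4 : |c.lam * RR c p F J w * c.x (nb c p F J w)| ≤ 1 / 30 * B := by
    rw [abs_mul]
    exact mul_le_mul h3 (hx _) (abs_nonneg _) (by norm_num)
  have h5 := abs_add_le (c.x w.1) (c.lam * RR c p F J w * c.x (nb c p F J w))
  have h6 := hx w.1
  have h7 : 2 * B * (29 / 30) ≤ 2 * B * (1 + c.lam * RR c p F J w) :=
    mul_le_mul_of_nonneg_left h2 (by linarith)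
  linarith

lemma y_le (hc : c.Good) (hp : p.Good) (hF : 1 ≤ F) {B : ℝ} (hB : 1 ≤ B)
    (hy : ∀ v, |c.y v| ≤ B) (w : NV c p F J) : |ny c p F J w| ≤ 2 * B := by
  have h1 := den_pos hc hp hF w
  have h2 := den_ge hc hp hF w
  have h3 := lamRR_le hc hp hF w
  have ht := tau_le hc hp hF w
  unfold ny
  rw [abs_div, abs_of_pos h1, div_le_iff₀ h1]
  have h4 : |c.lam * RR c p F J w * c.y (nb c p F J w)| ≤ 1 / 30 * B := by
    rw [abs_mul]
    exact mul_le_mul h3 (hy _) (abs_nonneg _) (by norm_num)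
  have h5 := abs_add_le (c.y w.1) (c.lam * RR c p F J w * c.y (nb c p F J w))
  have h8 := abs_add_le (c.y w.1 + c.lam * RR c p F J w * c.y (nb c p F J w)) (tau c p F J w)
  have h6 := hy w.1
  have h7 : 2 * B * (29 / 30) ≤ 2 * B * (1 + c.lam * RR c p F J w) :=
    mul_le_mul_of_nonneg_left h2 (by linarith)
  linarith

end Meas

/-- A10: cardinalities and quantitative data of the step. -/
theorem claimMeas : ClaimMeas := by
  intro c p F J hc hp hF
  refine ⟨Meas.card_NV, Meas.card_NE, Meas.card_NQ, Meas.lam'_ge' hp hF, ?_⟩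
  intro D r B hD hr hB hm
  exact
    { D_le := fun a => Meas.D_le hc hp hF hD hm.D_le a
      r_le := fun a => Meas.r_le hc hp hF hr hm.r_le a
      x_le := fun w => Meas.x_le hc hp hF hB hm.x_le w
      y_le := fun w => Meas.y_le hc hp hF hB hm.y_le w }

end Pool.Agent.Work.MP_e17eac_co.NC
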