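import Pool.Agent.Work.MP_e17eac_co.Bd.B05

/-!
# Nested composition: the remaining fields of `Good` for the step, and the step lemma
-/

set_option autoImplicit false

namespace Pool.Agent.Work.MP_e17eac_co.NC

open Finset Pool.Agent.Work.MP_e17eac_co.HL
open scoped Classical

section Misc

variable {c : Cfg} {p : Pat} {F J : ℕ}

lemma abs_sub_le_HH (hp : p.Good) (k : p.K) (i : IZ F) (j : IZ J) :
    |p.κ k * (i : ℤ) - (j : ℤ)| ≤ ((HH p F J : ℕ) : ℤ) := by
  have h1 := hp.κ_le k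
  have h2 := i.abs_le
  have h3 := j.abs_le
  have h4 : |p.κ k * (i : ℤ)| ≤ (p.X : ℤ) * F := by
    rw [abs_mul]
    exact mul_le_mul h1 h2 (abs_nonneg _) (by positivity)
  have h5 : ((HH p F J : ℕ) : ℤ) = J + p.X * F := by
    unfold HH
    push_cast
    ring
  rw [h5]
  refine (abs_sub _ _).trans ?_
  linarith

lemma sum_σ_step (hp : p.Good) : ∑ v : NV c p F J, p.σ v.2.2.1 = 0 := by
  rw [Fintype.sum_prod_type]
  refine Finset.sum_eq_zero fun v _ => ?_
  rw [Fintype.sum_prod_type]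
  refine Finset.sum_eq_zero fun s _ => ?_
  rw [Fintype.sum_prod_type_right]
  refine Finset.sum_eq_zero fun h _ => ?_
  exact hp.σ_sum

lemma nsrc_fst (a : NE c p F J) : (nsrc c p F J a).1 = c.tgt a.1 := rfl

lemma lat_eq {e e' : c.E} {k k' : p.K} {h h' : ℤ} (hc : c.Good)
    (h1 : |h| ≤ ((HH p F J : ℕ) : ℤ)) (h2 : |h'| ≤ ((HH p F J : ℕ) : ℤ))
    (heq : lat c p F J e k h = lat c p F J e' k' h') : e = e' ∧ k = k' ∧ h = h' := by
  unfold lat at heq
  rw [Prod.mk.injEq, Prod.mk.injEq, Prod.mk.injEq, Sum.inr.injEq, Sum.inl.injEq] at heq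
  obtain ⟨ht, hs, hk, hh⟩ := heq
  refine ⟨hc.slot_inj _ _ ht hs, hk, ?_⟩
  rw [← toIZ_val h1, ← toIZ_val h2, hh]

lemma nρ_nonneg' (hc : c.Good) (hp : p.Good) (hF : 1 ≤ F) (v : NV c p F J) :
    0 ≤ nρ c p F J v ∧ nρ c p F J v ≤ 1 := by
  have hX := X_real_pos hp
  have hth := th_pos (J := J) hp hF
  have hthl := th_le (J := J) hp hF
  have hmu := mu_pos (J := J) hp hF
  have hmul : mu p F J ≤ 1 := by
    have h := th_eq_mu (p := p) (F := F) (J := J)
    linarith
  have hl := lam'_pos (J := J) hp hF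
  have hll := lam'_le (J := J) hp hF
  obtain ⟨v, s, k, hh⟩ := v
  rcases s with i | b | b
  · rw [nρ_inl]
    exact ⟨le_refl _, zero_le_one⟩
  · rcases h : c.edgeAt v b with _ | e
    · rw [nρ_inr_inl_none h]
      exact ⟨le_refl _, zero_le_one⟩
    · rw [nρ_inr_inl_some h]
      have hD := Dl_nonneg (F := F) hc v
      have hD1 : Dl c F v ≤ 1 := by
        unfold Dl
        have h1 := eta_le (F := F)
        have h2 := eta_pos (F := F)
        have h3 := hc.ρ_le v
        have h4 := hc.ρ_nonneg v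
        nlinarith
      have hr0 : 0 ≤ rad c p F J v := by
        unfold rad
        positivity
      have hr1 : rad c p F J v ≤ 1 := by
        unfold rad
        rw [div_le_one (by positivity)]
        have h1 : Dl c F v * th p F J ≤ 1 * 1 := mul_le_mul hD1 (by linarith) hth.le zero_le_one
        have h2 : Dl c F v * th p F J * mu p F J ≤ 1 * 1 * 1 :=
          mul_le_mul h1 hmul hmu.le (by norm_num)
        have h3 : (1 : ℝ) ≤ (p.X : ℝ) ^ 2 := one_le_pow₀ hX
        linarith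
      have hi0 : 0 ≤ (if p.isT k then lam' p F J else 1) := by
        split_ifs
        · exact hl.le
        · exact zero_le_one
      have hi1 : (if p.isT k then lam' p F J else 1) ≤ 1 := by
        split_ifs
        · linarith
        · exact le_refl _
      exact ⟨mul_nonneg hr0 hi0, mul_le_one₀ hr1 hi0 hi1⟩
  · rw [nρ_inr_inr]
    exact ⟨le_refl _, zero_le_one⟩

lemma rad_tgt_pos (hc : c.Good) (hp : p.Good) (hF : 1 ≤ F) (e : c.E) :
    0 < rad c p F J (c.tgt e) := by
  have hX := X_real_pos hp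
  have hth := th_pos (J := J) hp hF
  have hmu := mu_pos (J := J) hp hF
  have hD := Dl_tgt_pos (F := F) hc e
  unfold rad
  positivity

lemma nρ_lat (hc : c.Good) (e : c.E) (k : p.K) (h : ℤ) :
    nρ c p F J (lat c p F J e k h) =
      rad c p F J (c.tgt e) * (if p.isT k then lam' p F J else 1) := by
  unfold lat
  rw [nρ_inr_inl_some (Cfg.edgeAt_tgt hc e)]

lemma nx_lat (hc : c.Good) (e : c.E) (k : p.K) (h : ℤ) :
    nx c p F J (lat c p F J e k h) =
      (c.x (c.tgt e) + c.lam * Rk p F J k * c.x (c.src e)) / (1 + c.lam * Rk p F J k) := by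
  unfold nx lat
  rw [RR_inr_inl_some (Cfg.edgeAt_tgt hc e), nb_inr_inl_some (Cfg.edgeAt_tgt hc e)]

lemma Rk_sub (hp : p.Good) (hF : 1 ≤ F) (k k' : p.K) :
    Rk p F J k - Rk p F J k' =
      th p F J * ((p.κ k : ℝ) - p.κ k') * (rk p F J k * rk p F J k') := by
  have h1 := rk_mul (J := J) hp hF k
  have h2 := rk_mul (J := J) hp hF k'
  unfold Rk
  linear_combination (p.κ k : ℝ) * th p F J * rk p F J k * (-h2)
    + (p.κ k' : ℝ) * th p F J * rk p F J k' * h1

end Misc

theorem claimMisc : ClaimMisc := by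
  intro c p F J hc hp hF
  refine ⟨fun v => hp.σ_or _, sum_σ_step hp, ?_, ?_, ?_, fun v => (nρ_nonneg' hc hp hF v).1,
    fun v => (nρ_nonneg' hc hp hF v).2, ?_, ?_⟩
  · rintro ⟨e, i, j, e0⟩ ⟨e', i', j', e0'⟩ h hs
    obtain ⟨h1, h2, h3⟩ := lat_eq hc (abs_sub_le_HH hp _ _ _) (abs_sub_le_HH hp _ _ _) h
    simp only at h1 h2 h3 hs
    rw [Prod.mk.injEq] at hs
    obtain ⟨hi, hs⟩ := hs
    have h4 := hp.slot_inj _ _ h2 hs
    subst h1 hi h4
    have hj : (j : ℤ) = (j' : ℤ) := by linarith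
    have hj' : j = j' := Subtype.ext hj
    rw [hj']
  · rintro ⟨e, i, j, e0⟩ ⟨e', i', j', e0'⟩ h h'
    obtain ⟨h1, h2, h3⟩ := lat_eq hc (abs_sub_le_HH hp _ _ _) (abs_sub_le_HH hp _ _ _) h
    obtain ⟨-, h5, h6⟩ := lat_eq hc (abs_sub_le_HH hp _ _ _) (abs_sub_le_HH hp _ _ _) h'
    simp only at h1 h2 h3 h5 h6
    have h4 := hp.edge_inj _ _ h2 h5
    subst h1 h4
    have hk := hp.κ_ne e0
    have hi : (i : ℤ) = (i' : ℤ) := by
      have h7 : (p.κ (p.src e0) - p.κ (p.tgt e0)) * ((i : ℤ) - (i' : ℤ)) = 0 := by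
        linear_combination h3 - h6
      rcases mul_eq_zero.mp h7 with h8 | h8
      · exact absurd (sub_eq_zero.mp h8) hk
      · exact sub_eq_zero.mp h8
    have hj : (j : ℤ) = (j' : ℤ) := by
      rw [hi] at h3
      linarith
    have hi' : i = i' := Subtype.ext hi
    have hj' : j = j' := Subtype.ext hj
    rw [hi', hj']
  · rintro ⟨e, i, j, e0⟩ h
    unfold nsrc ntgt at h
    rw [nx_lat hc, nx_lat hc] at h
    simp only at h
    have hd1 : 1 + c.lam * Rk p F J (p.src e0) ≠ 0 := by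
      have h1 := Rk_ge (J := J) hp hF (p.src e0)
      have h2 := hc.lam_pos
      positivity
    have hd2 : 1 + c.lam * Rk p F J (p.tgt e0) ≠ 0 := by
      have h1 := Rk_ge (J := J) hp hF (p.tgt e0)
      have h2 := hc.lam_pos
      positivity
    rw [div_eq_div_iff hd1 hd2] at h
    have h1 : c.lam * (Rk p F J (p.src e0) - Rk p F J (p.tgt e0)) *
        (c.x (c.src e) - c.x (c.tgt e)) = 0 := by
      linear_combination h
    rw [Rk_sub hp hF] at h1
    have h2 := hc.lam_pos.ne'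
    have h3 := Cfg.dx_ne hc e
    have h4 := (th_pos (J := J) hp hF).ne'
    have h5 := Pat.κ_sub_ne hp e0
    have h6 := (rk_pos (J := J) hp hF (p.src e0)).ne'
    have h7 := (rk_pos (J := J) hp hF (p.tgt e0)).ne'
    exact (mul_ne_zero (mul_ne_zero h2 (mul_ne_zero (mul_ne_zero h4 h5)
      (mul_ne_zero h6 h7))) h3) h1
  · rintro ⟨e, i, j, e0⟩
    unfold nsrc
    rw [nρ_lat hc]
    simp only
    rw [if_neg (hp.isT_src e0), mul_one]
    exact rad_tgt_pos hc hp hF e
  · rintro ⟨e, i, j, e0⟩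
    unfold nsrc ntgt
    rw [nρ_lat hc, nρ_lat hc]
    simp only
    rw [if_neg (hp.isT_src e0), if_pos (hp.isT_tgt e0)]
    ring

theorem claimStep (h1 : ClaimBalR) (h2 : ClaimH) (h3 : ClaimMisc) : ClaimStep := by
  intro c p F J hc hp hF
  obtain ⟨m1, m2, m3, m4, m5, m6, m7, m8, m9⟩ := h3 c p F J hc hp hF
  exact
    { σ_or := m1
      σ_sum := m2
      slot_inj := m3
      edge_inj := m4
      isT_src := fun a => hp.isT_src a.2.2.2
      isT_tgt := fun a => hp.isT_tgt a.2.2.2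
      x_ne := m5
      ρ_nonneg := m6
      ρ_le := m7
      ρ_pos := m8
      lam_pos := lam'_pos hp hF
      lam_le := lam'_le hp hF
      ρ_tgt := m9
      bal := fun a => (h1 c p F J hc hp hF a).1
      R := fun a => (h1 c p F J hc hp hF a).2
      H := fun a a' => h2 c p F J hc hp hF a a' }

end Pool.Agent.Work.MP_e17eac_co.NC
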