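import Pool.Agent.Work.MP_e17eac_co.Bd.B05

/-!
# Nested composition: the signs vanish exactly at the two ends (item A1')
-/

set_option autoImplicit false

namespace Pool.Agent.Work.MP_e17eac_co.NC

open Finset Pool.Agent.Work.MP_e17eac_co.HL
open scoped Classical

lemma sg_pm_of_ne {r : ℝ} (h : r ≠ 0) : sg r = 1 ∨ sg r = -1 := by
  rcases lt_or_gt_of_ne h with h | h
  · exact Or.inr (sg_of_neg h)
  · exact Or.inl (sg_of_pos h)

lemma neg_sg_pm_of_ne {r : ℝ} (h : r ≠ 0) : -sg r = 1 ∨ -sg r = -1 := by
  rcases sg_pm_of_ne h with h | h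
  · right; rw [h]
  · left; rw [h]; norm_num

lemma sign_pm_of_ne {z : ℤ} (h : z ≠ 0) : Int.sign z = 1 ∨ Int.sign z = -1 := by
  rcases lt_or_gt_of_ne h with h | h
  · exact Or.inr (Int.sign_eq_neg_one_of_neg h)
  · exact Or.inl (Int.sign_eq_one_of_pos h)

section

variable {c : Cfg} {p : Pat} {F J : ℕ}

lemma height_le (hp : p.Good) (i : IZ F) (j : IZ J) (k : p.K) :
    |p.κ k * (i : ℤ) - (j : ℤ)| ≤ ((HH p F J : ℕ) : ℤ) := by
  have h1 := IZ.abs_le i
  have h2 := IZ.abs_le j
  have h3 := hp.κ_le k
  have h4 : |p.κ k * (i : ℤ)| ≤ (p.X : ℤ) * (F : ℤ) := by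
    rw [abs_mul]
    exact mul_le_mul h3 h1 (abs_nonneg _) (by positivity)
  have h5 : |p.κ k * (i : ℤ) - (j : ℤ)| ≤ |p.κ k * (i : ℤ)| + |(j : ℤ)| := abs_sub _ _
  have h6 : ((HH p F J : ℕ) : ℤ) = (J : ℤ) + (p.X : ℤ) * (F : ℤ) := by
    unfold HH; push_cast; ring
  rw [h6]
  linarith

lemma height_val (hp : p.Good) (i : IZ F) (j : IZ J) (k : p.K) :
    ((toIZ (HH p F J) (p.κ k * (i : ℤ) - (j : ℤ)) : IZ (HH p F J)) : ℤ) =
      p.κ k * (i : ℤ) - (j : ℤ) :=
  toIZ_val (height_le hp i j k)

lemma pg_ne (hp : p.Good) (e : p.E) {k : p.K} (h1 : k ≠ p.src e) (h2 : k ≠ p.tgt e) :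
    p.g e k ≠ 0 := by
  intro h
  have := hp.margin e k h1 h2
  rw [h] at this
  simp at this
  linarith

lemma cg_ne (hc : c.Good) (e : c.E) {z : c.V} (h1 : z ≠ c.src e) (h2 : z ≠ c.tgt e) :
    c.g e z ≠ 0 := by
  have := Cfg.g_pos_of hc e h1 h2
  exact abs_pos.mp this

lemma sgF_lat (hc : c.Good) (a : NE c p F J) (k : p.K) (h : IZ (HH p F J)) :
    sgF c p F J a (c.tgt a.1, Sum.inr (Sum.inl (c.slot a.1)), (k, h)) =
      (if (h : ℤ) = p.κ k * (a.2.1 : ℤ) - (a.2.2.1 : ℤ) then sg (p.g a.2.2.2 k)
        else Int.sign ((h : ℤ) - (p.κ k * (a.2.1 : ℤ) - (a.2.2.1 : ℤ)))) := by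
  have h1 : c.tgt a.1 ≠ c.src a.1 := (Cfg.src_ne_tgt hc a.1 a.1).symm
  unfold sgF
  simp only [if_neg h1, if_true, Cfg.edgeAt_tgt hc a.1]

end

/-- Item A1'. -/
theorem claimNe : ClaimNe := by
  intro c p F J hc hp hF a
  refine ⟨?_, ?_, ?_⟩
  · show sgF c p F J a (c.tgt a.1, Sum.inr (Sum.inl (c.slot a.1)),
      (p.src a.2.2.2, toIZ (HH p F J) (p.κ (p.src a.2.2.2) * (a.2.1 : ℤ) - (a.2.2.1 : ℤ)))) = 0
    rw [sgF_lat hc, if_pos (height_val hp _ _ _), Pat.g_src hp, sg_zero]
  · show sgF c p F J a (c.tgt a.1, Sum.inr (Sum.inl (c.slot a.1)),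
      (p.tgt a.2.2.2, toIZ (HH p F J) (p.κ (p.tgt a.2.2.2) * (a.2.1 : ℤ) - (a.2.2.1 : ℤ)))) = 0
    rw [sgF_lat hc, if_pos (height_val hp _ _ _), Pat.g_tgt, sg_zero]
  · rintro ⟨v, s, ⟨k, h⟩⟩ hw1 hw2
    by_cases hvs : v = c.src a.1
    · unfold sgF
      simp only [if_pos hvs]
      rcases s with i' | b | b
      · simp only
        split_ifs with h1 h2
        · exact hp.σ_or k
        · exact sign_pm_of_ne (sub_ne_zero.mpr h2)
        · exact sign_pm_of_ne (sub_ne_zero.mpr h1)
      · exact Or.inl rfl
      · exact Or.inr rfl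
    · by_cases hvt : v = c.tgt a.1
      · unfold sgF
        simp only [if_neg hvs, if_pos hvt]
        rcases s with i' | b | b
        · simp only
          split_ifs
          · exact Or.inl rfl
          · exact Or.inr rfl
        · simp only
          cases he : c.edgeAt v b with
          | none => exact Or.inl rfl
          | some e' =>
            simp only
            obtain ⟨ht, hs⟩ := Cfg.edgeAt_some he
            split_ifs with h1 h2
            · apply sg_pm_of_ne
              apply pg_ne hp
              · intro hk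
                apply hw1
                subst h1
                subst hk
                show (v, Sum.inr (Sum.inl b), (_, h)) = (_, Sum.inr (Sum.inl _), (_, _))
                rw [← hvt, ← hs]
                refine Prod.ext rfl (Prod.ext rfl (Prod.ext rfl (Subtype.ext ?_)))
                show (h : ℤ) = _
                rw [h2]
                exact (height_val hp _ _ _).symm
              · intro hk
                apply hw2
                subst h1
                subst hk
                show (v, Sum.inr (Sum.inl b), (_, h)) = (_, Sum.inr (Sum.inl _), (_, _))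
                rw [← hvt, ← hs]
                refine Prod.ext rfl (Prod.ext rfl (Prod.ext rfl (Subtype.ext ?_)))
                show (h : ℤ) = _
                rw [h2]
                exact (height_val hp _ _ _).symm
            · exact sign_pm_of_ne (sub_ne_zero.mpr h2)
            · apply sg_pm_of_ne
              apply cg_ne hc
              · intro hh
                exact h1 (hc.edge_inj _ _ hh (ht.trans hvt))
              · exact Cfg.src_ne_tgt hc _ _
        · simp only
          cases he : c.edgeAt v b with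
          | none => exact Or.inr rfl
          | some e' =>
            simp only
            obtain ⟨ht, hs⟩ := Cfg.edgeAt_some he
            split_ifs with h1
            · exact Or.inr rfl
            · apply neg_sg_pm_of_ne
              apply cg_ne hc
              · intro hh
                exact h1 (hc.edge_inj _ _ hh (ht.trans hvt))
              · exact Cfg.src_ne_tgt hc _ _
      · unfold sgF
        simp only [if_neg hvs, if_neg hvt]
        exact sg_pm_of_ne (cg_ne hc _ hvs hvt)

end Pool.Agent.Work.MP_e17eac_co.NC
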