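import Pool.Agent.Work.MP_e17eac_co.Bd.B05

/-!
# Nested composition: the points of the groups of the two ends of an edge (item A4)
-/

set_option autoImplicit false

namespace Pool.Agent.Work.MP_e17eac_co.NC

open Finset Pool.Agent.Work.MP_e17eac_co.HL
open scoped Classical

section Near

variable {c : Cfg} {p : Pat} {F J : ℕ}

lemma near_bounds (hp : p.Good) (hF : 1 ≤ F) {a : NE c p F J} {α β : ℝ}
    (hL : LineOK c p F J a α β) :
    |(α - ((a.2.1 : ℤ) : ℝ)) + (β - ((a.2.2.1 : ℤ) : ℝ)) * th p F J| ≤ th p F J / 8 ∧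
    |α| ≤ (F : ℝ) + 1 / 64 ∧ |β * th p F J| ≤ 5 / 64 ∧
    |((a.2.2.1 : ℤ) : ℝ) * th p F J| ≤ 1 / 16 := by
  obtain ⟨e, i, j, e0⟩ := a
  have h1 := hL.α_near
  have h2 := hL.β_near
  simp only at h1 h2 ⊢
  have ht := th_pos (J := J) hp hF
  have ht1 := th_le (J := J) hp hF
  have hm := th_eq_mu (p := p) (F := F) (J := J)
  have hm0 := mu_pos (J := J) hp hF
  have hX := X_mul_th_le (J := J) hp hF
  have hJ := J_mul_th_le (J := J) hp hF
  have hi : |((i : ℤ) : ℝ)| ≤ (F : ℝ) := by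
    have := IZ.abs_le i
    have h3 : ((|(i : ℤ)| : ℤ) : ℝ) ≤ ((F : ℤ) : ℝ) := by exact_mod_cast this
    simpa [Int.cast_abs] using h3
  have hj : |((j : ℤ) : ℝ)| ≤ (J : ℝ) := by
    have := IZ.abs_le j
    have h3 : ((|(j : ℤ)| : ℤ) : ℝ) ≤ ((J : ℤ) : ℝ) := by exact_mod_cast this
    simpa [Int.cast_abs] using h3
  have hjt : |((j : ℤ) : ℝ) * th p F J| ≤ 1 / 16 := by
    rw [abs_mul, abs_of_pos ht]
    exact (mul_le_mul_of_nonneg_right hj ht.le).trans hJ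
  have hB : |(β - ((j : ℤ) : ℝ)) * th p F J| ≤ 6 / 16 * mu p F J := by
    rw [abs_mul, abs_of_pos ht]
    calc |β - ((j : ℤ) : ℝ)| * th p F J ≤ 6 * mu p F J * p.X * th p F J :=
          mul_le_mul_of_nonneg_right h2 ht.le
      _ = 6 * mu p F J * (p.X * th p F J) := by ring
      _ ≤ 6 * mu p F J * (1 / 16) := mul_le_mul_of_nonneg_left hX (by positivity)
      _ = _ := by ring
  have hmu : mu p F J ≤ 1 / 640 := by linarith
  refine ⟨?_, ?_, ?_, hjt⟩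
  · refine (abs_add_le _ _).trans ?_
    linarith
  · have : α = (α - ((i : ℤ) : ℝ)) + ((i : ℤ) : ℝ) := by ring
    rw [this]
    refine (abs_add_le _ _).trans ?_
    linarith
  · have : β * th p F J = (β - ((j : ℤ) : ℝ)) * th p F J + ((j : ℤ) : ℝ) * th p F J := by ring
    rw [this]
    refine (abs_add_le _ _).trans ?_
    linarith

lemma h_th_le (hp : p.Good) (hF : 1 ≤ F) (h : IZ (HH p F J)) :
    |((h : ℤ) : ℝ) * th p F J| ≤ 1 / 16 := by
  have ht := th_pos (J := J) hp hF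
  have hh : |((h : ℤ) : ℝ)| ≤ (HH p F J : ℝ) := by
    have := IZ.abs_le h
    have h3 : ((|(h : ℤ)| : ℤ) : ℝ) ≤ ((HH p F J : ℤ) : ℝ) := by exact_mod_cast this
    simpa [Int.cast_abs] using h3
  rw [abs_mul, abs_of_pos ht]
  have h4 := th_mul_HH (J := J) hp hF
  calc _ ≤ (HH p F J : ℝ) * th p F J := mul_le_mul_of_nonneg_right hh ht.le
    _ = _ := by linarith

/-- Value of the height for vertices with `RR = 0`. -/
lemma gw_RR_zero (hc : c.Good) (hp : p.Good) (hF : 1 ≤ F) (e : c.E) (α β : ℝ)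
    (w : NV c p F J) (hR : RR c p F J w = 0) :
    gw c p F J e α β w = c.gl e (avv c p F J e α β) (auu c p F J e α β) (c.x w.1) (c.y w.1) +
      tau c p F J w := by
  have h := gl_homog hc hp hF e (avv c p F J e α β) (auu c p F J e α β) w
  rw [hR] at h
  unfold gw
  linear_combination h

lemma gw_src_zero (hc : c.Good) (hp : p.Good) (hF : 1 ≤ F) (e : c.E) (α β : ℝ)
    (s : IZ F ⊕ (c.Q ⊕ c.Q)) (t : p.K × IZ (HH p F J))
    (hR : RR c p F J (c.src e, s, t) = 0) :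
    gw c p F J e α β (c.src e, s, t) = -(Dl c F (c.src e) * (α + β * th p F J)) +
      tau c p F J (c.src e, s, t) := by
  rw [gw_RR_zero hc hp hF e α β _ hR]
  simp only
  rw [Cfg.gl_src hc]
  rfl

lemma gw_tgt_zero (hc : c.Good) (hp : p.Good) (hF : 1 ≤ F) (e : c.E) (α β : ℝ)
    (s : IZ F ⊕ (c.Q ⊕ c.Q)) (t : p.K × IZ (HH p F J))
    (hR : RR c p F J (c.tgt e, s, t) = 0) :
    gw c p F J e α β (c.tgt e, s, t) =
      Dl c F (c.tgt e) * (α + 1 / 2 + β * (2 * th p F J)) +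
      tau c p F J (c.tgt e, s, t) := by
  rw [gw_RR_zero hc hp hF e α β _ hR]
  simp only
  rw [Cfg.gl_tgt]
  unfold avv
  ring

lemma sigma_abs (hp : p.Good) (k : p.K) : |(p.σ k : ℝ)| = 1 := by
  rcases hp.σ_or k with h | h <;> rw [h] <;> norm_num

lemma int_sign_cases {z : ℤ} (hz : z ≠ 0) :
    (Int.sign z = 1 ∧ (1 : ℝ) ≤ (z : ℝ)) ∨ (Int.sign z = -1 ∧ (z : ℝ) ≤ -1) := by
  rcases lt_or_gt_of_ne hz with h | h
  · right
    refine ⟨Int.sign_eq_neg_one_of_neg h, ?_⟩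
    have : z ≤ -1 := by omega
    exact_mod_cast this
  · left
    refine ⟨Int.sign_eq_one_of_pos h, ?_⟩
    have : 1 ≤ z := by omega
    exact_mod_cast this

lemma near_src_copy (hc : c.Good) (hp : p.Good) (hF : 1 ≤ F) {a : NE c p F J} {α β : ℝ}
    (hL : LineOK c p F J a α β) (i' : IZ F) (k : p.K) (h : IZ (HH p F J)) :
    0 < sgF c p F J a (c.src a.1, Sum.inl i', (k, h)) *
      gw c p F J a.1 α β (c.src a.1, Sum.inl i', (k, h)) := by
  obtain ⟨e, i, j, e0⟩ := a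
  obtain ⟨b1, b2, b3, b4⟩ := near_bounds hp hF hL
  have b5 := h_th_le hp hF h
  simp only at b1 b2 b3 b4 ⊢
  rw [gw_src_zero hc hp hF e α β _ _ (RR_inl _ _ _), tau_inl]
  have ht := th_pos (J := J) hp hF
  have ht1 := th_le (J := J) hp hF
  have hD := Dl_src_pos (F := F) hc e
  have hs := sigma_abs hp k
  set D := Dl c F (c.src e)
  set θ := th p F J
  have e1 : -(D * (α + β * θ)) + D * (((i' : ℤ) : ℝ) + θ * (((h : ℤ) : ℝ) + (p.σ k : ℝ) / 4)) =
      D * ((((i' : ℤ) : ℝ) - ((i : ℤ) : ℝ)) + (((h : ℤ) : ℝ) - ((j : ℤ) : ℝ)) * θ +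
        θ * (p.σ k : ℝ) / 4 - ((α - ((i : ℤ) : ℝ)) + (β - ((j : ℤ) : ℝ)) * θ)) := by ring
  rw [e1]
  set W := (α - ((i : ℤ) : ℝ)) + (β - ((j : ℤ) : ℝ)) * θ
  have key : ∀ s : ℤ, 0 < (s : ℝ) * ((((i' : ℤ) : ℝ) - ((i : ℤ) : ℝ)) +
        (((h : ℤ) : ℝ) - ((j : ℤ) : ℝ)) * θ + θ * (p.σ k : ℝ) / 4 - W) →
      0 < (s : ℝ) * (D * ((((i' : ℤ) : ℝ) - ((i : ℤ) : ℝ)) +
        (((h : ℤ) : ℝ) - ((j : ℤ) : ℝ)) * θ + θ * (p.σ k : ℝ) / 4 - W)) := by
    intro s hs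
    rw [mul_left_comm]
    exact mul_pos hD hs
  unfold sgF
  simp only [if_true]
  apply key
  rw [abs_le] at b1 b4 b5
  have hsg : |θ * (p.σ k : ℝ) / 4| ≤ θ / 4 := by
    rw [abs_div, abs_mul, hs, abs_of_pos ht]; norm_num
  rw [abs_le] at hsg
  split_ifs with h1 h2
  · -- i' = i, h = j
    rw [h1, h2]
    rcases hp.σ_or k with h3 | h3
    · rw [h3]; push_cast; linarith [b1.1, b1.2]
    · rw [h3]; push_cast; linarith [b1.1, b1.2]
  · rw [h1]
    have h4 : ((h : ℤ) - (j : ℤ)) ≠ 0 := sub_ne_zero.mpr h2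
    rcases int_sign_cases h4 with ⟨h5, h6⟩ | ⟨h5, h6⟩
    · rw [h5]
      push_cast at h6 ⊢
      have : θ ≤ (((h : ℤ) : ℝ) - ((j : ℤ) : ℝ)) * θ := by nlinarith
      linarith [b1.1, b1.2, hsg.1, hsg.2]
    · rw [h5]
      push_cast at h6 ⊢
      have : (((h : ℤ) : ℝ) - ((j : ℤ) : ℝ)) * θ ≤ -θ := by nlinarith
      linarith [b1.1, b1.2, hsg.1, hsg.2]
  · have h4 : ((i' : ℤ) - (i : ℤ)) ≠ 0 := sub_ne_zero.mpr h1
    rcases int_sign_cases h4 with ⟨h5, h6⟩ | ⟨h5, h6⟩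
    · rw [h5]
      push_cast at h6 ⊢
      linarith [b1.1, b1.2, hsg.1, hsg.2, b5.1, b5.2, b4.1, b4.2]
    · rw [h5]
      push_cast at h6 ⊢
      linarith [b1.1, b1.2, hsg.1, hsg.2, b5.1, b5.2, b4.1, b4.2]

lemma near_src_slot (hc : c.Good) (hp : p.Good) (hF : 1 ≤ F) {a : NE c p F J} {α β : ℝ}
    (hL : LineOK c p F J a α β) (b : c.Q) (t : p.K × IZ (HH p F J)) :
    (0 < sgF c p F J a (c.src a.1, Sum.inr (Sum.inl b), t) *
      gw c p F J a.1 α β (c.src a.1, Sum.inr (Sum.inl b), t)) ∧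
    (0 < sgF c p F J a (c.src a.1, Sum.inr (Sum.inr b), t) *
      gw c p F J a.1 α β (c.src a.1, Sum.inr (Sum.inr b), t)) := by
  obtain ⟨e, i, j, e0⟩ := a
  obtain ⟨b1, b2, b3, b4⟩ := near_bounds hp hF hL
  simp only at b1 b2 b3 b4 ⊢
  have hn := Cfg.edgeAt_src hc e b
  rw [gw_src_zero hc hp hF e α β _ _ (RR_inr_inl_none hn _), tau_inr_inl_none hn,
    gw_src_zero hc hp hF e α β _ _ (RR_inr_inr_none hn _), tau_inr_inr_none hn]
  have hD := Dl_src_pos (F := F) hc e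
  set D := Dl c F (c.src e)
  set θ := th p F J
  rw [abs_le] at b2 b3
  obtain ⟨k, h⟩ := t
  unfold sgF
  simp only [if_true]
  constructor
  · have : ((1 : ℤ) : ℝ) * (-(D * (α + β * θ)) + ((F : ℝ) + 2) * D) =
        D * (((F : ℝ) + 2) - α - β * θ) := by push_cast; ring
    rw [this]
    exact mul_pos hD (by linarith [b2.1, b2.2, b3.1, b3.2])
  · have : ((-1 : ℤ) : ℝ) * (-(D * (α + β * θ)) + -(((F : ℝ) + 2) * D)) =
        D * (((F : ℝ) + 2) + α + β * θ) := by push_cast; ring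
    rw [this]
    exact mul_pos hD (by linarith [b2.1, b2.2, b3.1, b3.2])

lemma near_tgt_copy (hc : c.Good) (hp : p.Good) (hF : 1 ≤ F) {a : NE c p F J} {α β : ℝ}
    (hL : LineOK c p F J a α β) (i' : IZ F) (k : p.K) (h : IZ (HH p F J)) :
    0 < sgF c p F J a (c.tgt a.1, Sum.inl i', (k, h)) *
      gw c p F J a.1 α β (c.tgt a.1, Sum.inl i', (k, h)) := by
  obtain ⟨e, i, j, e0⟩ := a
  obtain ⟨b1, b2, b3, b4⟩ := near_bounds hp hF hL
  have hα := hL.α_near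
  have b5 := h_th_le hp hF h
  simp only at b1 b2 b3 b4 hα ⊢
  rw [gw_tgt_zero hc hp hF e α β _ _ (RR_inl _ _ _), tau_inl]
  have ht := th_pos (J := J) hp hF
  have ht1 := th_le (J := J) hp hF
  have hm := th_eq_mu (p := p) (F := F) (J := J)
  have hD := Dl_tgt_pos (F := F) hc e
  have hs := sigma_abs hp k
  have hne : c.tgt e ≠ c.src e := fun h => Cfg.src_ne_tgt hc e e h.symm
  set D := Dl c F (c.tgt e)
  set θ := th p F J
  rw [abs_le] at b1 b3 b4 b5 hα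
  have hsg : |θ * (p.σ k : ℝ) / 4| ≤ θ / 4 := by
    rw [abs_div, abs_mul, hs, abs_of_pos ht]; norm_num
  rw [abs_le] at hsg
  have e1 : D * (α + 1 / 2 + β * (2 * θ)) +
      D * (((i' : ℤ) : ℝ) + θ * (((h : ℤ) : ℝ) + (p.σ k : ℝ) / 4)) =
      D * ((((i' : ℤ) : ℝ) + ((i : ℤ) : ℝ)) + 1 / 2 + (α - ((i : ℤ) : ℝ)) + 2 * (β * θ) +
        ((h : ℤ) : ℝ) * θ + θ * (p.σ k : ℝ) / 4) := by ring
  rw [e1]
  unfold sgF
  simp only [if_true, if_neg hne]
  split_ifs with h1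
  · have h2 : (0 : ℝ) ≤ ((i' : ℤ) : ℝ) + ((i : ℤ) : ℝ) := by exact_mod_cast h1
    push_cast
    rw [one_mul]
    exact mul_pos hD (by linarith [b3.1, b5.1, hα.1, hsg.1])
  · have h2 : ((i' : ℤ) : ℝ) + ((i : ℤ) : ℝ) ≤ -1 := by
      have : (i' : ℤ) + (i : ℤ) ≤ -1 := by omega
      exact_mod_cast this
    push_cast
    rw [neg_one_mul, neg_pos]
    exact mul_neg_of_pos_of_neg hD (by linarith [b3.2, b5.2, hα.2, hsg.2])

lemma near_tgt_pad (hc : c.Good) (hp : p.Good) (hF : 1 ≤ F) {a : NE c p F J} {α β : ℝ}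
    (hL : LineOK c p F J a α β) (b : c.Q) (t : p.K × IZ (HH p F J))
    (hn : c.edgeAt (c.tgt a.1) b = none) :
    0 < sgF c p F J a (c.tgt a.1, Sum.inr (Sum.inl b), t) *
      gw c p F J a.1 α β (c.tgt a.1, Sum.inr (Sum.inl b), t) ∧
    0 < sgF c p F J a (c.tgt a.1, Sum.inr (Sum.inr b), t) *
      gw c p F J a.1 α β (c.tgt a.1, Sum.inr (Sum.inr b), t) := by
  obtain ⟨e, i, j, e0⟩ := a
  obtain ⟨b1, b2, b3, b4⟩ := near_bounds hp hF hL
  simp only at b1 b2 b3 b4 hn ⊢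
  rw [gw_tgt_zero hc hp hF e α β _ _ (RR_inr_inl_none hn _), tau_inr_inl_none hn,
    gw_tgt_zero hc hp hF e α β _ _ (RR_inr_inr_none hn _), tau_inr_inr_none hn]
  have hD := Dl_tgt_pos (F := F) hc e
  have hne : c.tgt e ≠ c.src e := fun h => Cfg.src_ne_tgt hc e e h.symm
  set D := Dl c F (c.tgt e)
  set θ := th p F J
  rw [abs_le] at b2 b3
  obtain ⟨k, h⟩ := t
  unfold sgF
  simp only [if_true, if_neg hne, hn]
  constructor
  · have : ((1 : ℤ) : ℝ) * (D * (α + 1 / 2 + β * (2 * θ)) + ((F : ℝ) + 2) * D) =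
        D * (((F : ℝ) + 2) + α + 1 / 2 + 2 * (β * θ)) := by push_cast; ring
    rw [this]
    exact mul_pos hD (by linarith [b2.1, b2.2, b3.1, b3.2])
  · have : ((-1 : ℤ) : ℝ) * (D * (α + 1 / 2 + β * (2 * θ)) + -(((F : ℝ) + 2) * D)) =
        D * (((F : ℝ) + 2) - α - 1 / 2 - 2 * (β * θ)) := by push_cast; ring
    rw [this]
    exact mul_pos hD (by linarith [b2.1, b2.2, b3.1, b3.2])

lemma near_tgt_mirror (hc : c.Good) (hp : p.Good) (hF : 1 ≤ F) {a : NE c p F J} {α β : ℝ}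
    (hL : LineOK c p F J a α β) (t : p.K × IZ (HH p F J)) :
    gw c p F J a.1 α β (c.tgt a.1, Sum.inr (Sum.inr (c.slot a.1)), t) < 0 := by
  obtain ⟨e, i, j, e0⟩ := a
  obtain ⟨b1, b2, b3, b4⟩ := near_bounds hp hF hL
  simp only at b1 b2 b3 b4 ⊢
  have hsome := Cfg.edgeAt_tgt hc e
  have h := gl_homog hc hp hF e (avv c p F J e α β) (auu c p F J e α β)
    (c.tgt e, Sum.inr (Sum.inr (c.slot e)), t)
  rw [nb_inr_inr_some hsome, RR_inr_inr_some hsome, tau_inr_inr_some hsome] at h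
  simp only at h
  rw [Cfg.gl_tgt, Cfg.gl_src hc] at h
  have hD := Dl_tgt_pos (F := F) hc e
  have hDt := Dl_tgt (F := F) hc e
  rw [abs_le] at b2 b3
  have hl := hc.lam_le
  have hl0 := hc.lam_pos
  have h2 : (1 + c.lam * -1) * gw c p F J e α β (c.tgt e, Sum.inr (Sum.inr (c.slot e)), t) =
      Dl c F (c.tgt e) * (2 * α + 1 / 2 + 3 * (β * th p F J) - (2 * (F : ℝ) + 2)) := by
    unfold gw
    rw [h]
    unfold avv auu
    rw [hDt]
    ring
  have h3 : (1 + c.lam * -1) * gw c p F J e α β (c.tgt e, Sum.inr (Sum.inr (c.slot e)), t) < 0 := by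
    rw [h2]
    exact mul_neg_of_pos_of_neg hD (by linarith [b2.1, b2.2, b3.1, b3.2])
  by_contra hcon
  rw [not_lt] at hcon
  have h4 : (0 : ℝ) ≤ 1 + c.lam * -1 := by linarith
  exact absurd (mul_nonneg h4 hcon) (not_le.mpr h3)

end Near

theorem claimNear : ClaimNear := by
  intro c p F J hc hp hF a α β hL
  refine ⟨?_, ?_, ?_, ?_⟩
  · rintro (i' | b | b) ⟨k, h⟩
    · exact near_src_copy hc hp hF hL i' k h
    · exact (near_src_slot hc hp hF hL b (k, h)).1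
    · exact (near_src_slot hc hp hF hL b (k, h)).2
  · rintro i' ⟨k, h⟩
    exact near_tgt_copy hc hp hF hL i' k h
  · intro b t hn
    exact near_tgt_pad hc hp hF hL b t hn
  · intro t
    exact near_tgt_mirror hc hp hF hL t

end Pool.Agent.Work.MP_e17eac_co.NC
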