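import Pool.Agent.Work.MP_e17eac_co.Bd.B05

/-!
# Nested composition: rounding a configuration to an integer pattern
-/

set_option autoImplicit false

namespace Pool.Agent.Work.MP_e17eac_co.NC

open Finset Pool.Agent.Work.MP_e17eac_co.HL
open scoped Classical

namespace Round

/-- The error of the relative abscissa. -/
lemma quot_err {N D B a b e1 e2 : ℝ} (hD : 0 < D) (hD1 : D ≤ 1) (hB : 1 ≤ B)
    (hND : 32 ≤ N * D) (hN : 0 < N) (hb : N * D ≤ |b|) (ha : |a| ≤ 2 * N * B)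
    (he1 : |e1| ≤ 1) (he2 : |e2| ≤ 1) :
    b + e2 ≠ 0 ∧ |a / b - (a + e1) / (b + e2)| ≤ 6 * B / (N * D ^ 2) := by
  have hβ : 32 ≤ |b| := hND.trans hb
  have hb0 : b ≠ 0 := by
    intro h; rw [h, abs_zero] at hβ; linarith
  have hbe : |b| / 2 ≤ |b + e2| := by
    have h1 : |b| ≤ |b + e2| + |e2| := by
      calc |b| = |(b + e2) - e2| := by ring_nf
        _ ≤ |b + e2| + |e2| := abs_sub _ _
    linarith
  have hbe0 : b + e2 ≠ 0 := by
    intro h; rw [h, abs_zero] at hbe; linarith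
  refine ⟨hbe0, ?_⟩
  have hβp : 0 < |b| := by linarith
  have h1 : a / b - (a + e1) / (b + e2) = (a * e2 - b * e1) / (b * (b + e2)) := by
    field_simp
    ring
  rw [h1, abs_div, abs_mul b]
  have h2 : |a * e2 - b * e1| ≤ |a| + |b| := by
    calc |a * e2 - b * e1| ≤ |a * e2| + |b * e1| := abs_sub _ _
      _ = |a| * |e2| + |b| * |e1| := by rw [abs_mul, abs_mul]
      _ ≤ |a| * 1 + |b| * 1 := by gcongr
      _ = |a| + |b| := by ring
  have h3 : |a * e2 - b * e1| / (|b| * |b + e2|) ≤ (|a| + |b|) / (|b| * (|b| / 2)) := by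
    gcongr
  refine h3.trans ?_
  rw [div_le_div_iff₀ (by positivity) (by positivity)]
  have h4 : (N * D) ^ 2 ≤ |b| ^ 2 := by
    apply pow_le_pow_left₀ (by positivity) hb
  have h5 : (N * D) * (D * |b|) ≤ |b| * |b| := by
    apply mul_le_mul hb _ (by positivity) hβp.le
    calc D * |b| ≤ 1 * |b| := by gcongr
      _ = |b| := one_mul _
  have h6 : |a| * (2 * (N * D ^ 2)) ≤ (2 * N * B) * (2 * (N * D ^ 2)) := by
    gcongr
  have h7 : B * (N * D) ^ 2 ≤ B * |b| ^ 2 := by gcongr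
  have h8 : |b| ^ 2 ≤ B * |b| ^ 2 := by
    have : (0 : ℝ) ≤ |b| ^ 2 := by positivity
    nlinarith
  nlinarith

/-- The rounded pattern. -/
noncomputable def pat (c : Cfg) (N : ℕ) (B : ℝ) (X : ℕ) : Pat where
  K := c.V
  E := c.E
  Q := c.Q
  κ := fun z => (Fintype.card c.V : ℤ) * round ((N : ℝ) * c.x z) -
    ∑ w, round ((N : ℝ) * c.x w)
  δ := fun z => c.y z / B
  σ := c.σ
  isT := c.isT
  src := c.src
  tgt := c.tgt
  slot := c.slot
  X := X

variable {c : Cfg} {N : ℕ} {B : ℝ} {X : ℕ}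

lemma κ_sub (z v : c.V) : ((pat c N B X).κ z : ℝ) - (pat c N B X).κ v =
    (Fintype.card c.V : ℝ) * ((round ((N : ℝ) * c.x z) : ℝ) - round ((N : ℝ) * c.x v)) := by
  show (((Fintype.card c.V : ℤ) * round ((N : ℝ) * c.x z) -
    ∑ w, round ((N : ℝ) * c.x w) : ℤ) : ℝ) - (((Fintype.card c.V : ℤ) *
      round ((N : ℝ) * c.x v) - ∑ w, round ((N : ℝ) * c.x w) : ℤ) : ℝ) = _
  push_cast
  ring

lemma round_err (a : ℝ) : |(round a : ℝ) - a| ≤ 1 / 2 := by
  rw [abs_sub_comm]; exact abs_sub_round a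

lemma round_sub (z v : c.V) : ∃ e : ℝ, |e| ≤ 1 ∧
    (round ((N : ℝ) * c.x z) : ℝ) - round ((N : ℝ) * c.x v) =
      (N : ℝ) * (c.x z - c.x v) + e := by
  refine ⟨((round ((N : ℝ) * c.x z) : ℝ) - (N : ℝ) * c.x z) -
    ((round ((N : ℝ) * c.x v) : ℝ) - (N : ℝ) * c.x v), ?_, by ring⟩
  calc _ ≤ |(round ((N : ℝ) * c.x z) : ℝ) - (N : ℝ) * c.x z| +
        |(round ((N : ℝ) * c.x v) : ℝ) - (N : ℝ) * c.x v| := abs_sub _ _
    _ ≤ 1 / 2 + 1 / 2 := add_le_add (round_err _) (round_err _)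
    _ = 1 := by norm_num

lemma sum_κ : ∑ z, (pat c N B X).κ z = 0 := by
  show ∑ z : c.V, ((Fintype.card c.V : ℤ) * round ((N : ℝ) * c.x z) -
    ∑ w, round ((N : ℝ) * c.x w)) = 0
  rw [Finset.sum_sub_distrib, ← Finset.mul_sum, Finset.sum_const, Finset.card_univ,
    nsmul_eq_mul]
  simp

lemma abs_κ_le (hx : ∀ v, |c.x v| ≤ B) (hN : (1 : ℝ) ≤ N * B) (z : c.V) :
    |((pat c N B X).κ z : ℝ)| ≤ 3 * Fintype.card c.V * N * B := by
  have h1 : ((pat c N B X).κ z : ℝ) = ∑ w : c.V,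
      ((round ((N : ℝ) * c.x z) : ℝ) - round ((N : ℝ) * c.x w)) := by
    show (((Fintype.card c.V : ℤ) * round ((N : ℝ) * c.x z) -
      ∑ w, round ((N : ℝ) * c.x w) : ℤ) : ℝ) = _
    rw [Finset.sum_sub_distrib, Finset.sum_const, Finset.card_univ, nsmul_eq_mul]
    push_cast
    ring
  rw [h1]
  calc |∑ w : c.V, ((round ((N : ℝ) * c.x z) : ℝ) - round ((N : ℝ) * c.x w))|
      ≤ ∑ w : c.V, |(round ((N : ℝ) * c.x z) : ℝ) - round ((N : ℝ) * c.x w)| :=
        Finset.abs_sum_le_sum_abs _ _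
    _ ≤ ∑ _w : c.V, (3 * N * B : ℝ) := by
        apply Finset.sum_le_sum
        intro w _
        obtain ⟨e, he, heq⟩ := round_sub (c := c) (N := N) z w
        rw [heq]
        have h2 : |c.x z - c.x w| ≤ 2 * B := by
          calc |c.x z - c.x w| ≤ |c.x z| + |c.x w| := abs_sub _ _
            _ ≤ 2 * B := by linarith [hx z, hx w]
        calc |(N : ℝ) * (c.x z - c.x w) + e| ≤ |(N : ℝ) * (c.x z - c.x w)| + |e| :=
              abs_add_le _ _
          _ = N * |c.x z - c.x w| + |e| := by rw [abs_mul, Nat.abs_cast]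
          _ ≤ N * (2 * B) + 1 := by gcongr
          _ ≤ 3 * N * B := by linarith
    _ = 3 * Fintype.card c.V * N * B := by
        rw [Finset.sum_const, Finset.card_univ, nsmul_eq_mul]; ring

/-- The signs do not change. -/
lemma g_close {D r : ℝ} (_hc : c.Good) (hV : 0 < Fintype.card c.V) (hD : 0 < D) (hD1 : D ≤ 1)
    (hr : 0 < r) (hr1 : r ≤ 1) (hB : 1 ≤ B) (hm : c.Meas D r B)
    (hN : 32 * B ^ 2 / (D ^ 2 * r) ≤ N) (e : c.E) :
    (pat c N B X).κ (c.src e) ≠ (pat c N B X).κ (c.tgt e) ∧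
    ∀ z, |B * (pat c N B X).g e z - c.g e z| ≤ r / 2 := by
  have hN' : 32 * B ^ 2 ≤ N * (D ^ 2 * r) := by
    rwa [div_le_iff₀ (by positivity)] at hN
  have hB2 : B ≤ B ^ 2 := by nlinarith
  have hNp : (0 : ℝ) < N := by
    by_contra h
    have : (N : ℝ) * (D ^ 2 * r) ≤ 0 :=
      mul_nonpos_of_nonpos_of_nonneg (not_lt.mp h) (by positivity)
    nlinarith
  have hD2 : D ^ 2 * r ≤ D := by
    calc D ^ 2 * r ≤ D ^ 2 * 1 := by gcongr
      _ = D * D := by ring
      _ ≤ 1 * D := by gcongr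
      _ = D := one_mul _
  have hND : 32 ≤ (N : ℝ) * D := by
    calc (32 : ℝ) ≤ 32 * B ^ 2 := by nlinarith
      _ ≤ N * (D ^ 2 * r) := hN'
      _ ≤ N * D := by gcongr
  have hn : (0 : ℝ) < Fintype.card c.V := by exact_mod_cast hV
  obtain ⟨e2, he2, heq2⟩ := round_sub (c := c) (N := N) (c.src e) (c.tgt e)
  have hb : (N : ℝ) * D ≤ |(N : ℝ) * (c.x (c.src e) - c.x (c.tgt e))| := by
    rw [abs_mul, Nat.abs_cast]
    exact mul_le_mul_of_nonneg_left (hm.D_le e) hNp.le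
  have hxb : ∀ z, |(N : ℝ) * (c.x z - c.x (c.tgt e))| ≤ 2 * N * B := by
    intro z
    rw [abs_mul, Nat.abs_cast]
    have h2 : |c.x z - c.x (c.tgt e)| ≤ 2 * B := by
      calc |c.x z - c.x (c.tgt e)| ≤ |c.x z| + |c.x (c.tgt e)| := abs_sub _ _
        _ ≤ 2 * B := by linarith [hm.x_le z, hm.x_le (c.tgt e)]
    calc (N : ℝ) * |c.x z - c.x (c.tgt e)| ≤ N * (2 * B) := by gcongr
      _ = 2 * N * B := by ring
  have hne : (pat c N B X).κ (c.src e) ≠ (pat c N B X).κ (c.tgt e) := by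
    intro h
    have h1 := κ_sub (c := c) (N := N) (B := B) (X := X) (c.src e) (c.tgt e)
    rw [h, sub_self, heq2] at h1
    have h3 := (quot_err hD hD1 hB hND hNp hb (hxb (c.src e)) he2 he2).1
    rcases mul_eq_zero.mp h1.symm with h4 | h4
    · exact hn.ne' h4
    · exact h3 h4
  refine ⟨hne, fun z => ?_⟩
  obtain ⟨e1, he1, heq1⟩ := round_sub (c := c) (N := N) z (c.tgt e)
  have hq := quot_err hD hD1 hB hND hNp hb (hxb z) he1 he2
  have hξp : (pat c N B X).ξ e z = ((N : ℝ) * (c.x z - c.x (c.tgt e)) + e1) /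
      ((N : ℝ) * (c.x (c.src e) - c.x (c.tgt e)) + e2) := by
    show (((pat c N B X).κ z : ℝ) - (pat c N B X).κ (c.tgt e)) /
      (((pat c N B X).κ (c.src e) : ℝ) - (pat c N B X).κ (c.tgt e)) = _
    rw [κ_sub, κ_sub, heq1, heq2, mul_div_mul_left _ _ hn.ne']
  have hξc : c.ξ e z = ((N : ℝ) * (c.x z - c.x (c.tgt e))) /
      ((N : ℝ) * (c.x (c.src e) - c.x (c.tgt e))) := by
    rw [mul_div_mul_left _ _ hNp.ne']
    rfl
  have hBp : 0 < B := by linarith
  have hg : B * (pat c N B X).g e z - c.g e z =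
      (c.ξ e z - (pat c N B X).ξ e z) * (c.y (c.src e) - c.y (c.tgt e)) := by
    show B * (c.y z / B - c.y (c.tgt e) / B - (pat c N B X).ξ e z *
      (c.y (c.src e) / B - c.y (c.tgt e) / B)) -
      (c.y z - c.y (c.tgt e) - c.ξ e z * (c.y (c.src e) - c.y (c.tgt e))) = _
    field_simp
    ring
  rw [hg, abs_mul, hξc, hξp]
  have hy : |c.y (c.src e) - c.y (c.tgt e)| ≤ 2 * B := by
    calc |c.y (c.src e) - c.y (c.tgt e)| ≤ |c.y (c.src e)| + |c.y (c.tgt e)| := abs_sub _ _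
      _ ≤ 2 * B := by linarith [hm.y_le (c.src e), hm.y_le (c.tgt e)]
  calc _ ≤ (6 * B / (N * D ^ 2)) * (2 * B) :=
        mul_le_mul hq.2 hy (abs_nonneg _) (by positivity)
    _ = 12 * B ^ 2 / (N * D ^ 2) := by ring
    _ ≤ r / 2 := by
        rw [div_le_div_iff₀ (by positivity) (by norm_num)]
        nlinarith

lemma g_ge {D r : ℝ} (hc : c.Good) (hm : c.Meas D r B) (e : c.E) {z : c.V}
    (h1 : z ≠ c.src e) (h2 : z ≠ c.tgt e) : r ≤ |c.g e z| := by
  have h3 := hc.R e z h1 h2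
  have h4 := hm.r_le e
  have h5 := hc.ρ_nonneg z
  have h6 := hc.ρ_pos e
  have h7 : c.ρ (c.tgt e) ≤ c.ρ (c.src e) := by
    rw [hc.ρ_tgt]
    have := hc.lam_le
    nlinarith
  have h8 : 0 < c.ρ (c.tgt e) := Cfg.ρ_tgt_pos hc e
  have h9 : (1 : ℝ) ≤ |c.ξ e z| + |1 - c.ξ e z| := by
    calc (1 : ℝ) = |c.ξ e z + (1 - c.ξ e z)| := by norm_num
      _ ≤ _ := abs_add_le _ _
  have h10 : c.ρ (c.tgt e) * |c.ξ e z| ≤ c.ρ (c.src e) * |c.ξ e z| :=
    mul_le_mul_of_nonneg_right h7 (abs_nonneg _)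
  have h11 : c.ρ (c.tgt e) * 1 ≤ c.ρ (c.tgt e) * (|c.ξ e z| + |1 - c.ξ e z|) :=
    mul_le_mul_of_nonneg_left h9 h8.le
  linarith

lemma sg_eq_of_close {B r a b : ℝ} (hB : 0 < B) (hr : 0 < r) (h : |B * a - b| ≤ r / 2)
    (hb : r ≤ |b|) : sg a = sg b ∧ r ≤ 2 * (B * |a|) := by
  rw [abs_le] at h
  rcases le_abs.mp hb with h1 | h1
  · have h2 : r / 2 ≤ B * a := by linarith
    have h3 : 0 < a := by
      by_contra h4
      nlinarith [mul_nonpos_of_nonneg_of_nonpos hB.le (not_lt.mp h4)]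
    rw [sg_of_pos h3, sg_of_pos (by linarith), abs_of_pos h3]
    exact ⟨rfl, by linarith⟩
  · have h2 : B * a ≤ -(r / 2) := by linarith
    have h3 : a < 0 := by
      by_contra h4
      nlinarith [mul_nonneg hB.le (not_lt.mp h4)]
    rw [sg_of_neg h3, sg_of_neg (by linarith), abs_of_neg h3]
    exact ⟨rfl, by linarith⟩

end Round

open Round in
/-- Rounding a configuration to an integer pattern. -/
theorem claimRound : ClaimRound := by
  intro c hc hV D r B hD hD1 hr hr1 hB hm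
  obtain ⟨N, hN1, hN2⟩ : ∃ N : ℕ, 32 * B ^ 2 / (D ^ 2 * r) ≤ N ∧
      (N : ℝ) < 32 * B ^ 2 / (D ^ 2 * r) + 1 :=
    ⟨⌈32 * B ^ 2 / (D ^ 2 * r)⌉₊, Nat.le_ceil _, Nat.ceil_lt_add_one (by positivity)⟩
  have hn : (1 : ℝ) ≤ Fintype.card c.V := by exact_mod_cast hV
  have hq : (1 : ℝ) ≤ B ^ 2 / (D ^ 2 * r) := by
    rw [le_div_iff₀ (by positivity)]
    have h1 : D ^ 2 * r ≤ 1 * 1 := by
      apply mul_le_mul _ hr1 hr.le zero_le_one
      exact pow_le_one₀ hD.le hD1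
    nlinarith
  have h32 : 32 * B ^ 2 / (D ^ 2 * r) = 32 * (B ^ 2 / (D ^ 2 * r)) := by ring
  have hN3 : (32 : ℝ) ≤ N := by rw [h32] at hN1; linarith
  have hN4 : (N : ℝ) ≤ 33 * (B ^ 2 / (D ^ 2 * r)) := by rw [h32] at hN2; linarith
  obtain ⟨X, hX1, hX2⟩ : ∃ X : ℕ, 3 * Fintype.card c.V * N * B ≤ X ∧
      (X : ℝ) < 3 * Fintype.card c.V * N * B + 1 :=
    ⟨⌈3 * (Fintype.card c.V : ℝ) * N * B⌉₊, Nat.le_ceil _,
      Nat.ceil_lt_add_one (by positivity)⟩
  have hNB : (1 : ℝ) ≤ N * B := by nlinarith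
  have hnNB : (1 : ℝ) ≤ Fintype.card c.V * N * B := by
    rw [mul_assoc]; nlinarith
  have hBp : 0 < B := by linarith
  have hBr : B / r ≤ X := by
    refine le_trans ?_ hX1
    have h1 : B / r ≤ B * (B ^ 2 / (D ^ 2 * r)) := by
      have h2 : 1 / r ≤ B ^ 2 / (D ^ 2 * r) := by
        rw [div_le_div_iff₀ hr (by positivity)]
        have h3 : D ^ 2 ≤ B ^ 2 := by
          apply pow_le_pow_left₀ hD.le; linarith
        nlinarith
      calc B / r = B * (1 / r) := by ring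
        _ ≤ _ := by gcongr
    have h4 : B ^ 2 / (D ^ 2 * r) ≤ N := by rw [h32] at hN1; linarith
    calc B / r ≤ B * (B ^ 2 / (D ^ 2 * r)) := h1
      _ ≤ B * N := by gcongr
      _ ≤ 3 * Fintype.card c.V * N * B := by nlinarith [mul_pos hBp (by linarith : (0:ℝ) < N)]
  have hclose := fun e => g_close (X := X) hc hV hD hD1 hr hr1 hB hm hN1 e
  have hsg : ∀ e z, z ≠ c.src e → z ≠ c.tgt e →
      sg ((pat c N B X).g e z) = sg (c.g e z) ∧ r ≤ 2 * (B * |(pat c N B X).g e z|) :=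
    fun e z h1 h2 => sg_eq_of_close hBp hr ((hclose e).2 z) (g_ge hc hm e h1 h2)
  refine ⟨pat c N B X, ?_, rfl, rfl, rfl, ?_⟩
  · refine
      { X_pos := ?_
        σ_or := hc.σ_or
        σ_sum := hc.σ_sum
        slot_inj := hc.slot_inj
        edge_inj := hc.edge_inj
        isT_src := hc.isT_src
        isT_tgt := hc.isT_tgt
        κ_ne := fun e => (hclose e).1
        κ_le := ?_
        κ_sum := sum_κ
        δ_le := ?_
        bal := ?_
        margin := ?_ }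
    · show 1 ≤ X
      have : (1 : ℝ) ≤ X := by linarith
      exact_mod_cast this
    · intro k
      have h1 : |((pat c N B X).κ k : ℝ)| ≤ (X : ℝ) :=
        (abs_κ_le hm.x_le hNB k).trans hX1
      show |(pat c N B X).κ k| ≤ (X : ℤ)
      exact_mod_cast h1
    · intro k
      show |c.y k / B| ≤ 1
      rw [abs_div, abs_of_pos hBp, div_le_one hBp]
      exact hm.y_le k
    · intro e
      rw [← hc.bal e]
      apply Finset.sum_congr rfl
      intro z _
      by_cases h1 : z = c.src e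
      · have h2 : (pat c N B X).g e z = 0 := by
          have h3 : ((pat c N B X).κ (c.src e) : ℝ) - (pat c N B X).κ (c.tgt e) ≠ 0 := by
            rw [sub_ne_zero]; exact_mod_cast (hclose e).1
          have h4 : (pat c N B X).ξ e (c.src e) = 1 := div_self h3
          rw [h1]
          show (pat c N B X).δ (c.src e) - (pat c N B X).δ (c.tgt e) -
            (pat c N B X).ξ e (c.src e) *
              ((pat c N B X).δ (c.src e) - (pat c N B X).δ (c.tgt e)) = 0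
          rw [h4]; ring
        rw [h2, h1, Cfg.g_src hc]
      · by_cases h2 : z = c.tgt e
        · have h3 : (pat c N B X).g e z = 0 := by
            rw [h2]; exact Pat.g_tgt (p := pat c N B X) e
          rw [h3, h2, Cfg.g_tgt]
        · exact (hsg e z h1 h2).1
    · intro e z h1 h2
      have h3 := (hsg e z h1 h2).2
      have h4 : (1 : ℝ) ≤ X * r / B := by
        rw [le_div_iff₀ hBp, one_mul]
        rwa [div_le_iff₀ hr] at hBr
      show 1 ≤ 2 * (X : ℝ) * |(pat c N B X).g e z|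
      calc (1 : ℝ) ≤ X * r / B := h4
        _ ≤ X * (2 * (B * |(pat c N B X).g e z|)) / B := by gcongr
        _ = 2 * (X : ℝ) * |(pat c N B X).g e z| := by field_simp
  · show (X : ℝ) ≤ 2 ^ 9 * Fintype.card c.V * B ^ 3 / (D ^ 2 * r)
    calc (X : ℝ) ≤ 4 * (Fintype.card c.V * N * B) := by linarith
      _ ≤ 4 * (Fintype.card c.V * (33 * (B ^ 2 / (D ^ 2 * r))) * B) := by gcongr
      _ = 132 * (Fintype.card c.V * B ^ 3 / (D ^ 2 * r)) := by ring
      _ ≤ 512 * (Fintype.card c.V * B ^ 3 / (D ^ 2 * r)) := by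
          apply mul_le_mul_of_nonneg_right (by norm_num) (by positivity)
      _ = 2 ^ 9 * Fintype.card c.V * B ^ 3 / (D ^ 2 * r) := by ring

end Pool.Agent.Work.MP_e17eac_co.NC
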