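import Pool.Agent.Work.MP_e17eac_co.Bd.B05

/-!
# Nested composition: the key identity (A3) and the sign function (A6)
-/

set_option autoImplicit false

namespace Pool.Agent.Work.MP_e17eac_co.NC

open Finset Pool.Agent.Work.MP_e17eac_co.HL
open scoped Classical

/-- A3: the key identity for lattice points. -/
theorem claimOwn : ClaimOwn := by
  intro c p F J hc hp hF e α β k h
  have hsome := Cfg.edgeAt_tgt hc e
  unfold gw
  have key := gl_homog hc hp hF e (avv c p F J e α β) (auu c p F J e α β)
    (c.tgt e, Sum.inr (Sum.inl (c.slot e)), (k, h))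
  rw [RR_inr_inl_some hsome, nb_inr_inl_some hsome, tau_inr_inl_some hsome, Cfg.gl_tgt,
    Cfg.gl_src hc] at key
  rw [key]
  unfold avv auu
  rw [Dl_tgt hc]
  have hr := rk_mul (J := J) hp hF k
  unfold Rk
  linear_combination (-(c.lam * Dl c F (c.src e) * β * th p F J)) * hr

section SignLemmas

lemma sg_pos' {r : ℝ} (h : 0 < r) : sg r = 1 := by
  unfold sg; rw [if_pos h]

lemma sg_neg' {r : ℝ} (h : r < 0) : sg r = -1 := by
  unfold sg; rw [if_neg (by linarith), if_pos h]

/-- The sign test. -/
lemma sign_test {d G A : ℝ} (hd : 0 < d) (hd2 : d ≤ 31 / 30) (hA : 0 < |A|)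
    (h : |d * G - A| ≤ 1 / 2 * |A|) :
    0 < (sg A : ℝ) * G ∧ 15 / 31 * |A| ≤ (sg A : ℝ) * G := by
  have h' := abs_le.mp h
  rcases lt_trichotomy A 0 with h0 | h0 | h0
  · rw [sg_neg' h0, abs_of_neg h0] at *
    have h1 : -A / 2 ≤ d * (-G) := by linarith [h'.2]
    have hG : 0 < -G := by
      by_contra hcon
      push Not at hcon
      have : d * (-G) ≤ 0 := mul_nonpos_of_nonneg_of_nonpos hd.le hcon
      linarith
    have h2 : d * (-G) ≤ 31 / 30 * (-G) := mul_le_mul_of_nonneg_right hd2 hG.le
    push_cast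
    constructor
    · linarith
    · linarith
  · rw [h0] at hA; simp at hA
  · rw [sg_pos' h0, abs_of_pos h0] at *
    have h1 : A / 2 ≤ d * G := by linarith [h'.1]
    have hG : 0 < G := by
      by_contra hcon
      push Not at hcon
      have : d * G ≤ 0 := mul_nonpos_of_nonneg_of_nonpos hd.le hcon
      linarith
    have h2 : d * G ≤ 31 / 30 * G := mul_le_mul_of_nonneg_right hd2 hG.le
    push_cast
    constructor
    · linarith
    · linarith

end SignLemmas

section SgVals

variable {c : Cfg} {p : Pat} {F J : ℕ} {a : NE c p F J}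

lemma sgF_far {v : c.V} (h1 : v ≠ c.src a.1) (h2 : v ≠ c.tgt a.1) (s : IZ F ⊕ (c.Q ⊕ c.Q))
    (k : p.K) (h : IZ (HH p F J)) :
    sgF c p F J a (v, s, (k, h)) = sg (c.g a.1 v) := by
  simp only [sgF, if_neg h1, if_neg h2]

lemma sgF_tgt_inl_some (hc : c.Good) {b : c.Q} {e' : c.E} (hb : c.edgeAt (c.tgt a.1) b = some e')
    (k : p.K) (h : IZ (HH p F J)) :
    sgF c p F J a (c.tgt a.1, Sum.inr (Sum.inl b), (k, h)) =
      if e' = a.1 then
        (if (h : ℤ) = p.κ k * (a.2.1 : ℤ) - (a.2.2.1 : ℤ) then sg (p.g a.2.2.2 k)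
          else Int.sign ((h : ℤ) - (p.κ k * (a.2.1 : ℤ) - (a.2.2.1 : ℤ))))
      else sg (c.g a.1 (c.src e')) := by
  simp only [sgF, if_neg (Cfg.src_ne_tgt hc a.1 a.1).symm, if_true, hb]

lemma sgF_tgt_inr_some (hc : c.Good) {b : c.Q} {e' : c.E} (hb : c.edgeAt (c.tgt a.1) b = some e')
    (k : p.K) (h : IZ (HH p F J)) :
    sgF c p F J a (c.tgt a.1, Sum.inr (Sum.inr b), (k, h)) =
      if e' = a.1 then -1 else - sg (c.g a.1 (c.src e')) := by
  simp only [sgF, if_neg (Cfg.src_ne_tgt hc a.1 a.1).symm, if_true, hb]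

lemma rad_nonneg (hc : c.Good) (hp : p.Good) (hF : 1 ≤ F) (v : c.V) : 0 ≤ rad c p F J v := by
  unfold rad
  have h1 := Dl_nonneg (F := F) hc v
  have h2 := th_pos (J := J) hp hF
  have h3 := mu_pos (J := J) hp hF
  have h4 := X_real_pos hp
  positivity

lemma rad_mul (hp : p.Good) (v : c.V) :
    64 * (p.X : ℝ) ^ 2 * rad c p F J v = Dl c F v * th p F J * mu p F J := by
  unfold rad
  have h4 := X_real_pos hp
  field_simp

lemma rad_le (hc : c.Good) (hp : p.Good) (hF : 1 ≤ F) (v : c.V) :
    rad c p F J v ≤ c.ρ v / 4 := by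
  have h1 := Dl_nonneg (F := F) hc v
  have h2 := th_pos (J := J) hp hF
  have h2' := th_le (J := J) hp hF
  have h3 := mu_pos (J := J) hp hF
  have h3' : mu p F J ≤ 1 := by
    have := th_eq_mu (p := p) (F := F) (J := J)
    linarith
  have h4 := X_real_pos hp
  have h5 := rad_nonneg (J := J) hc hp hF v
  have h6 := rad_mul (F := F) (J := J) (c := c) hp v
  have h7 : Dl c F v ≤ c.ρ v / 32 := by
    unfold Dl
    have := mul_le_mul_of_nonneg_right (eta_le (F := F)) (hc.ρ_nonneg v)
    linarith
  have h8 : Dl c F v * th p F J * mu p F J ≤ Dl c F v := by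
    have : th p F J * mu p F J ≤ 1 := by nlinarith
    calc Dl c F v * th p F J * mu p F J = Dl c F v * (th p F J * mu p F J) := by ring
      _ ≤ Dl c F v * 1 := mul_le_mul_of_nonneg_left this h1
      _ = Dl c F v := mul_one _
  have h9 : rad c p F J v ≤ 64 * (p.X : ℝ) ^ 2 * rad c p F J v := by
    have : (1 : ℝ) ≤ 64 * (p.X : ℝ) ^ 2 := by nlinarith
    nlinarith
  have h10 := hc.ρ_nonneg v
  linarith

lemma nρ_le_rad (hc : c.Good) (hp : p.Good) (hF : 1 ≤ F) (w : NV c p F J) :
    nρ c p F J w ≤ rad c p F J w.1 := by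
  obtain ⟨v, s, k, h⟩ := w
  have h0 := rad_nonneg (J := J) hc hp hF v
  rcases s with i | b | b
  · rw [nρ_inl]; exact h0
  · rcases hb : c.edgeAt v b with _ | e
    · rw [nρ_inr_inl_none hb]; exact h0
    · rw [nρ_inr_inl_some hb]
      show rad c p F J v * _ ≤ rad c p F J v
      have h1 := lam'_le (J := J) hp hF
      split_ifs
      · nlinarith
      · linarith
  · rw [nρ_inr_inr]; exact h0

/-- The own slot: the lattice column. -/
lemma own_column (hc : c.Good) (hp : p.Good) (hF : 1 ≤ F) {α β : ℝ} (hL : LineOK c p F J a α β)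
    (k : p.K) (h : IZ (HH p F J)) (hk : (h : ℤ) = p.κ k * (a.2.1 : ℤ) - (a.2.2.1 : ℤ) →
      k ≠ p.src a.2.2.2 ∧ k ≠ p.tgt a.2.2.2) :
    3 * mu p F J / (8 * p.X) ≤
      ((if (h : ℤ) = p.κ k * (a.2.1 : ℤ) - (a.2.2.1 : ℤ) then sg (p.g a.2.2.2 k)
          else Int.sign ((h : ℤ) - (p.κ k * (a.2.1 : ℤ) - (a.2.2.1 : ℤ))) : ℤ) : ℝ) *
        (((h : ℤ) + mu p F J * p.δ k) - (α * (p.κ k : ℝ) - β)) := by
  have hX := X_real_pos hp
  have hmu := mu_pos (J := J) hp hF
  have hXth := X_mul_th_le (J := J) hp hF
  rw [th_eq_mu] at hXth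
  have hmu' : mu p F J ≤ 1 / 640 := by nlinarith
  have hdiv : 3 * mu p F J / (8 * (p.X : ℝ)) ≤ 3 * mu p F J / 8 := by
    apply div_le_div_of_nonneg_left (by positivity) (by norm_num) (by linarith)
  have hcol := hL.col k
  set m : ℤ := p.κ k * (a.2.1 : ℤ) - (a.2.2.1 : ℤ) with hm
  by_cases h0 : (h : ℤ) = m
  · rw [if_pos h0]
    obtain ⟨hk1, hk2⟩ := hk h0
    have hg := hp.margin a.2.2.2 k hk1 hk2
    have hgpos : 1 / (2 * (p.X : ℝ)) ≤ |p.g a.2.2.2 k| := by
      rw [div_le_iff₀ (by positivity)]
      linarith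
    have h0' : ((h : ℤ) : ℝ) = (m : ℝ) := by exact_mod_cast h0
    have hc1 := abs_le.mp hcol
    have e1 : mu p F J / (8 * (p.X : ℝ)) = mu p F J * (1 / (2 * (p.X : ℝ))) / 4 := by
      field_simp; norm_num
    have e2 : 3 * mu p F J / (8 * (p.X : ℝ)) = 3 * (mu p F J * (1 / (2 * (p.X : ℝ)))) / 4 := by
      field_simp; norm_num
    rw [e1] at hc1
    rw [e2]
    have hq : mu p F J * (1 / (2 * (p.X : ℝ))) ≤ mu p F J * |p.g a.2.2.2 k| :=
      mul_le_mul_of_nonneg_left hgpos hmu.le
    have hgp : 0 < |p.g a.2.2.2 k| := lt_of_lt_of_le (by positivity) hgpos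
    set T := mu p F J * (1 / (2 * (p.X : ℝ))) with hT
    rcases lt_trichotomy (p.g a.2.2.2 k) 0 with h1 | h1 | h1
    · rw [sg_neg' h1]
      rw [abs_of_neg h1] at hq
      push_cast
      nlinarith [hc1.1, hc1.2]
    · rw [h1] at hgp; simp at hgp
    · rw [sg_pos' h1]
      rw [abs_of_pos h1] at hq
      push_cast
      nlinarith [hc1.1, hc1.2]
  · rw [if_neg h0]
    have hκ := abs_le.mp (Pat.abs_κ_le hp k)
    have hα := hL.α_near
    have hβ := hL.β_near
    have hd := abs_le.mp (hp.δ_le k)
    have e3 : α * (p.κ k : ℝ) - β = (m : ℝ) + ((α - ((a.2.1 : ℤ) : ℝ)) * (p.κ k : ℝ)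
        - (β - ((a.2.2.1 : ℤ) : ℝ))) := by
      rw [hm]; push_cast; ring
    have e4 : |(α - ((a.2.1 : ℤ) : ℝ)) * (p.κ k : ℝ)| ≤ 4 * mu p F J * p.X := by
      rw [abs_mul]
      exact mul_le_mul hα (Pat.abs_κ_le hp k) (abs_nonneg _) (by positivity)
    have e5 := abs_le.mp e4
    have e6 := abs_le.mp hβ
    have e7 : mu p F J * |p.δ k| ≤ mu p F J := by
      have := mul_le_mul_of_nonneg_left (hp.δ_le k) hmu.le
      linarith
    have e8 : |mu p F J * p.δ k| ≤ mu p F J := by
      rw [abs_mul, abs_of_pos hmu]; exact e7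
    have e9 := abs_le.mp e8
    rcases lt_or_gt_of_ne h0 with h1 | h1
    · have h2 : ((h : ℤ) - m).sign = -1 := Int.sign_eq_neg_one_of_neg (by omega)
      rw [h2]
      have h3 : ((h : ℤ) : ℝ) + 1 ≤ (m : ℝ) := by exact_mod_cast h1
      push_cast
      rw [e3]
      nlinarith [e5.1, e5.2, e6.1, e6.2, e9.1, e9.2]
    · have h2 : ((h : ℤ) - m).sign = 1 := Int.sign_eq_one_of_pos (by omega)
      rw [h2]
      have h3 : (m : ℝ) + 1 ≤ ((h : ℤ) : ℝ) := by exact_mod_cast h1
      push_cast
      rw [e3]
      nlinarith [e5.1, e5.2, e6.1, e6.2, e9.1, e9.2]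

end SgVals

/-- A6: the sign function is correct, with margin. -/
theorem claimSign (h1 : ClaimFar) (h2 : ClaimSlot) (h3 : ClaimNear) : ClaimSign := by
  intro c p F J hc hp hF a α β hL w hws hwt
  obtain ⟨v, s, k, h⟩ := w
  obtain ⟨n1, n2, n3, n4⟩ := h3 c p F J hc hp hF a α β hL
  by_cases hvs : v = c.src a.1
  · -- the source
    subst hvs
    have hpos := n1 s (k, h)
    refine ⟨hpos, ?_⟩
    have hz : nρ c p F J (c.src a.1, s, (k, h)) = 0 := by
      rcases s with i | b | b
      · rfl
      · exact nρ_inr_inl_none (Cfg.edgeAt_src hc a.1 b) _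
      · rfl
    rw [hz]
    exact hpos.le
  by_cases hvt : v = c.tgt a.1
  · subst hvt
    rcases s with i | b | b
    · have hpos := n2 i (k, h)
      exact ⟨hpos, by rw [nρ_inl]; exact hpos.le⟩
    · rcases hb : c.edgeAt (c.tgt a.1) b with _ | e'
      · have hpos := (n3 b (k, h) hb).1
        exact ⟨hpos, by rw [nρ_inr_inl_none hb]; exact hpos.le⟩
      · obtain ⟨ht, hsl⟩ := Cfg.edgeAt_some hb
        by_cases he : e' = a.1
        · -- own slot
          subst he
          subst hsl
          rw [sgF_tgt_inl_some hc hb, if_pos rfl, nρ_inr_inl_some hb]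
          have hown := claimOwn c p F J hc hp hF a.1 α β k h
          have hcol := own_column hc hp hF hL k h (by
            intro hh
            constructor
            · intro hk
              apply hws
              unfold nsrc lat
              subst hk
              refine Prod.ext rfl (Prod.ext rfl (Prod.ext rfl ?_))
              apply Subtype.ext
              show (h : ℤ) = ((toIZ (HH p F J) _ : IZ _) : ℤ)
              rw [toIZ_val, hh]
              rw [← hh]
              exact IZ.abs_le h
            · intro hk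
              apply hwt
              unfold ntgt lat
              subst hk
              refine Prod.ext rfl (Prod.ext rfl (Prod.ext rfl ?_))
              apply Subtype.ext
              show (h : ℤ) = ((toIZ (HH p F J) _ : IZ _) : ℤ)
              rw [toIZ_val, hh]
              rw [← hh]
              exact IZ.abs_le h)
          set S : ℤ := (if (h : ℤ) = p.κ k * (a.2.1 : ℤ) - (a.2.2.1 : ℤ) then sg (p.g a.2.2.2 k)
            else Int.sign ((h : ℤ) - (p.κ k * (a.2.1 : ℤ) - (a.2.2.1 : ℤ)))) with hS
          set G := gw c p F J a.1 α β (c.tgt a.1, Sum.inr (Sum.inl (c.slot a.1)), (k, h)) with hG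
          have hX := X_real_pos hp
          have hmu := mu_pos (J := J) hp hF
          have hth := th_pos (J := J) hp hF
          have hrk := rk_ge (J := J) hp hF k
          have hD := Dl_tgt_pos (F := F) hc a.1
          have hR1 := Rk_ge (J := J) hp hF k
          have hR2 := Rk_le (J := J) hp hF k
          have hl1 := hc.lam_pos
          have hl2 := hc.lam_le
          have hden : 1 + c.lam * Rk p F J k ≤ 31 / 30 := by nlinarith
          have hdenp : 0 < 1 + c.lam * Rk p F J k := by nlinarith
          have hrad := rad_mul (F := F) (J := J) (c := c) hp (c.tgt a.1)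
          have hrad0 := rad_nonneg (J := J) hc hp hF (c.tgt a.1)
          have hfac : 0 < Dl c F (c.tgt a.1) * th p F J * rk p F J k :=
            mul_pos (mul_pos hD hth) (by linarith)
          have k1 : Dl c F (c.tgt a.1) * th p F J * rk p F J k * (3 * mu p F J / (8 * p.X)) ≤
              (1 + c.lam * Rk p F J k) * ((S : ℝ) * G) := by
            calc _ ≤ Dl c F (c.tgt a.1) * th p F J * rk p F J k *
                ((S : ℝ) * (((h : ℤ) + mu p F J * p.δ k) - (α * (p.κ k : ℝ) - β))) :=
                  mul_le_mul_of_nonneg_left hcol hfac.le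
              _ = (S : ℝ) * ((1 + c.lam * Rk p F J k) * G) := by rw [hown]; ring
              _ = _ := by ring
          have k2 : 0 < Dl c F (c.tgt a.1) * th p F J * rk p F J k *
              (3 * mu p F J / (8 * p.X)) := by positivity
          have k3 : 0 < (S : ℝ) * G := by
            by_contra hcon
            push Not at hcon
            have := mul_nonpos_of_nonneg_of_nonpos hdenp.le hcon
            linarith
          refine ⟨k3, ?_⟩
          have k4 : (1 + c.lam * Rk p F J k) * ((S : ℝ) * G) ≤ 31 / 30 * ((S : ℝ) * G) :=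
            mul_le_mul_of_nonneg_right hden k3.le
          have k5 : rad c p F J (c.tgt a.1) * (if p.isT k then lam' p F J else 1) ≤
              rad c p F J (c.tgt a.1) := by
            have h1 := lam'_le (J := J) hp hF
            split_ifs
            · nlinarith
            · linarith
          refine k5.trans ?_
          -- compare
          have k6 : rad c p F J (c.tgt a.1) * (64 * (p.X : ℝ) ^ 2) =
              Dl c F (c.tgt a.1) * th p F J * mu p F J := by linarith
          have k7 : Dl c F (c.tgt a.1) * th p F J * rk p F J k * (3 * mu p F J / (8 * p.X)) =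
              (Dl c F (c.tgt a.1) * th p F J * mu p F J) * (rk p F J k * (3 / (8 * p.X))) := by
            ring
          rw [k7, ← k6] at k1
          have k8 : rad c p F J (c.tgt a.1) * (64 * (p.X : ℝ) ^ 2) *
              (rk p F J k * (3 / (8 * p.X))) =
              rad c p F J (c.tgt a.1) * (24 * p.X * rk p F J k) := by
            have : (p.X : ℝ) ≠ 0 := by positivity
            field_simp
            ring
          rw [k8] at k1
          have k9 : (31 / 30 : ℝ) ≤ 24 * p.X * rk p F J k := by nlinarith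
          have k10 : rad c p F J (c.tgt a.1) * (31 / 30) ≤
              rad c p F J (c.tgt a.1) * (24 * p.X * rk p F J k) :=
            mul_le_mul_of_nonneg_left k9 hrad0
          linarith
        · -- other slot, lattice
          have hsrc1 : c.src e' ≠ c.src a.1 := fun hh => he (hc.edge_inj _ _ hh ht)
          have hsrc2 : c.src e' ≠ c.tgt a.1 := Cfg.src_ne_tgt hc e' a.1
          have hgpos := Cfg.g_pos_of hc a.1 hsrc1 hsrc2
          have hρg := Cfg.ρ_le_g hc a.1 hsrc1 hsrc2
          have hS := h2 c p F J hc hp hF a α β hL e' he ht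
            (c.tgt a.1, Sum.inr (Sum.inl b), (k, h)) rfl (Or.inl (by rw [hsl]))
          rw [RR_inr_inl_some hb] at hS
          rw [sgF_tgt_inl_some hc hb, if_neg he]
          have hR1 := Rk_ge (J := J) hp hF k
          have hR2 := Rk_le (J := J) hp hF k
          have hl1 := hc.lam_pos
          have hl2 := hc.lam_le
          have hlr : 0 < c.lam * Rk p F J k := by positivity
          have hden : 1 + c.lam * Rk p F J k ≤ 31 / 30 := by nlinarith
          have hApos : 0 < |c.lam * Rk p F J k * c.g a.1 (c.src e')| := by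
            rw [abs_mul, abs_of_pos hlr]; positivity
          have hst := sign_test (by linarith) hden hApos hS
          have hsgA : sg (c.lam * Rk p F J k * c.g a.1 (c.src e')) = sg (c.g a.1 (c.src e')) := by
            rcases lt_trichotomy (c.g a.1 (c.src e')) 0 with h5 | h5 | h5
            · rw [sg_neg' h5, sg_neg' (mul_neg_of_pos_of_neg hlr h5)]
            · rw [h5] at hgpos; simp at hgpos
            · rw [sg_pos' h5, sg_pos' (mul_pos hlr h5)]
          rw [hsgA] at hst
          refine ⟨hst.1, le_trans ?_ hst.2⟩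
          refine (nρ_le_rad hc hp hF _).trans ((rad_le hc hp hF _).trans ?_)
          show c.ρ (c.tgt a.1) / 4 ≤ _
          rw [abs_mul, abs_of_pos hlr]
          have hρt : c.ρ (c.tgt a.1) = c.lam * c.ρ (c.src e') := by rw [← ht, hc.ρ_tgt]
          rw [hρt]
          have h6 : c.lam * c.ρ (c.src e') ≤ c.lam * |c.g a.1 (c.src e')| :=
            mul_le_mul_of_nonneg_left hρg hl1.le
          have h7 : c.lam * (14 / 15) * |c.g a.1 (c.src e')| ≤
              c.lam * Rk p F J k * |c.g a.1 (c.src e')| := by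
            apply mul_le_mul_of_nonneg_right _ hgpos.le
            exact mul_le_mul_of_nonneg_left hR1 hl1.le
          have h8 : 0 < c.lam * |c.g a.1 (c.src e')| := by positivity
          nlinarith
    · rcases hb : c.edgeAt (c.tgt a.1) b with _ | e'
      · have hpos := (n3 b (k, h) hb).2
        exact ⟨hpos, by rw [nρ_inr_inr]; exact hpos.le⟩
      · obtain ⟨ht, hsl⟩ := Cfg.edgeAt_some hb
        by_cases he : e' = a.1
        · subst he
          subst hsl
          rw [sgF_tgt_inr_some hc hb, if_pos rfl, nρ_inr_inr]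
          have hneg := n4 (k, h)
          push_cast
          constructor
          · linarith
          · linarith
        · have hsrc1 : c.src e' ≠ c.src a.1 := fun hh => he (hc.edge_inj _ _ hh ht)
          have hsrc2 : c.src e' ≠ c.tgt a.1 := Cfg.src_ne_tgt hc e' a.1
          have hgpos := Cfg.g_pos_of hc a.1 hsrc1 hsrc2
          have hS := h2 c p F J hc hp hF a α β hL e' he ht
            (c.tgt a.1, Sum.inr (Sum.inr b), (k, h)) rfl (Or.inr (by rw [hsl]))
          rw [RR_inr_inr_some hb] at hS
          rw [sgF_tgt_inr_some hc hb, if_neg he]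
          have hl1 := hc.lam_pos
          have hl2 := hc.lam_le
          have hlr : c.lam * (-1) < 0 := by linarith
          have hApos : 0 < |c.lam * (-1) * c.g a.1 (c.src e')| := by
            rw [abs_mul, abs_of_neg hlr]
            exact mul_pos (by linarith) hgpos
          have hst := sign_test (by linarith) (by linarith) hApos hS
          have hsgA : sg (c.lam * (-1) * c.g a.1 (c.src e')) = -sg (c.g a.1 (c.src e')) := by
            rcases lt_trichotomy (c.g a.1 (c.src e')) 0 with h5 | h5 | h5
            · rw [sg_neg' h5, sg_pos' (mul_pos_of_neg_of_neg hlr h5)]; rfl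
            · rw [h5] at hgpos; simp at hgpos
            · rw [sg_pos' h5, sg_neg' (mul_neg_of_neg_of_pos hlr h5)]
          rw [hsgA] at hst
          refine ⟨hst.1, ?_⟩
          rw [nρ_inr_inr]
          exact hst.1.le
  · -- far
    have hg := Cfg.g_pos_of hc a.1 hvs hvt
    have hf := h1 c p F J hc hp hF a α β hL (v, s, (k, h)) hvs hvt
    rw [sgF_far hvs hvt]
    have hst := sign_test (den_pos hc hp hF _) (den_le hc hp hF _) hg hf
    refine ⟨hst.1, le_trans ?_ hst.2⟩
    refine (nρ_le_rad hc hp hF _).trans ((rad_le hc hp hF _).trans ?_)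
    have := Cfg.ρ_le_g hc a.1 hvs hvt
    show c.ρ v / 4 ≤ 15 / 31 * |c.g a.1 v|
    have h0 := hc.ρ_nonneg v
    linarith

end Pool.Agent.Work.MP_e17eac_co.NC
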