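import Pool.Agent.Work.MP_e17eac_co.Bd.B05

/-!
# Nested composition: the signs add up to zero (item A1)
-/

set_option autoImplicit false

namespace Pool.Agent.Work.MP_e17eac_co.NC

open Finset Pool.Agent.Work.MP_e17eac_co.HL
open scoped Classical

lemma sum_sign_IZ (n : ℕ) (m : ℤ) (hm : |m| ≤ (n : ℤ)) :
    ∑ h : IZ n, Int.sign ((h : ℤ) - m) = -2 * m := by
  rw [abs_le] at hm
  rw [Finset.sum_coe_sort (Finset.Icc (-(n : ℤ)) (n : ℤ)) (fun h => Int.sign (h - m))]
  have h1 : ∀ h : ℤ, Int.sign (h - m) =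
      (if m + 1 ≤ h then 1 else 0) - (if h ≤ m - 1 then 1 else 0) := by
    intro h
    rcases lt_trichotomy h m with h2 | h2 | h2
    · rw [Int.sign_eq_neg_one_of_neg (by omega), if_neg (by omega), if_pos (by omega)]
      norm_num
    · rw [h2, sub_self, if_neg (by omega), if_neg (by omega)]
      norm_num
    · rw [Int.sign_eq_one_of_pos (by omega), if_pos (by omega), if_neg (by omega)]
      norm_num
  rw [Finset.sum_congr rfl (fun h _ => h1 h), Finset.sum_sub_distrib, Finset.sum_boole,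
    Finset.sum_boole]
  have h3 : (Finset.Icc (-(n : ℤ)) n).filter (fun h => m + 1 ≤ h) = Finset.Icc (m + 1) n := by
    ext h; simp only [Finset.mem_filter, Finset.mem_Icc]; omega
  have h4 : (Finset.Icc (-(n : ℤ)) n).filter (fun h => h ≤ m - 1) =
      Finset.Icc (-(n : ℤ)) (m - 1) := by
    ext h; simp only [Finset.mem_filter, Finset.mem_Icc]; omega
  rw [h3, h4, Int.card_Icc, Int.card_Icc]
  rw [Int.toNat_of_nonneg (by omega), Int.toNat_of_nonneg (by omega)]
  ring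

lemma sum_step_IZ (n : ℕ) (m : ℤ) (hm : |m| ≤ (n : ℤ)) :
    ∑ h : IZ n, (if 0 ≤ (h : ℤ) + m then (1 : ℤ) else -1) = 2 * m + 1 := by
  rw [abs_le] at hm
  rw [Finset.sum_coe_sort (Finset.Icc (-(n : ℤ)) (n : ℤ))
    (fun h => (if 0 ≤ h + m then (1 : ℤ) else -1))]
  have h1 : ∀ h : ℤ, (if 0 ≤ h + m then (1 : ℤ) else -1) =
      (if -m ≤ h then 1 else 0) - (if h ≤ -m - 1 then 1 else 0) := by
    intro h
    rcases lt_or_ge h (-m) with h2 | h2
    · rw [if_neg (by omega), if_neg (by omega), if_pos (by omega)]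
      norm_num
    · rw [if_pos (by omega), if_pos (by omega), if_neg (by omega)]
      norm_num
  rw [Finset.sum_congr rfl (fun h _ => h1 h), Finset.sum_sub_distrib, Finset.sum_boole,
    Finset.sum_boole]
  have h3 : (Finset.Icc (-(n : ℤ)) n).filter (fun h => -m ≤ h) = Finset.Icc (-m) n := by
    ext h; simp only [Finset.mem_filter, Finset.mem_Icc]; omega
  have h4 : (Finset.Icc (-(n : ℤ)) n).filter (fun h => h ≤ -m - 1) =
      Finset.Icc (-(n : ℤ)) (-m - 1) := by
    ext h; simp only [Finset.mem_filter, Finset.mem_Icc]; omega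
  rw [h3, h4, Int.card_Icc, Int.card_Icc]
  rw [Int.toNat_of_nonneg (by omega), Int.toNat_of_nonneg (by omega)]
  ring

lemma sum_ite_IZ (n : ℕ) (m s : ℤ) (hm : |m| ≤ (n : ℤ)) :
    ∑ h : IZ n, (if (h : ℤ) = m then s else Int.sign ((h : ℤ) - m)) = s - 2 * m := by
  have hm' := abs_le.mp hm
  have h1 : ∀ h : IZ n, (if (h : ℤ) = m then s else Int.sign ((h : ℤ) - m)) =
      (if h = (⟨m, Finset.mem_Icc.mpr hm'⟩ : IZ n) then s else 0) +
        Int.sign ((h : ℤ) - m) := by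
    intro h
    by_cases h2 : (h : ℤ) = m
    · have h3 : h = (⟨m, Finset.mem_Icc.mpr hm'⟩ : IZ n) := Subtype.ext h2
      rw [if_pos h2, if_pos h3, h2, sub_self, Int.sign_zero, add_zero]
    · have h3 : ¬ h = (⟨m, Finset.mem_Icc.mpr hm'⟩ : IZ n) := by
        intro h4
        exact h2 (congrArg Subtype.val h4)
      rw [if_neg h2, if_neg h3, zero_add]
  rw [Finset.sum_congr rfl (fun h _ => h1 h), Finset.sum_add_distrib, sum_sign_IZ n m hm,
    Finset.sum_ite_eq' Finset.univ]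
  simp only [Finset.mem_univ, if_true]
  ring

section Main

variable {c : Cfg} {p : Pat} {F J : ℕ}

lemma sgF_other (a : NE c p F J) {v : c.V} (h1 : v ≠ c.src a.1) (h2 : v ≠ c.tgt a.1)
    (s : IZ F ⊕ (c.Q ⊕ c.Q)) (t : p.K × IZ (HH p F J)) :
    sgF c p F J a (v, s, t) = sg (c.g a.1 v) := by
  obtain ⟨k, h⟩ := t
  simp only [sgF, if_neg h1, if_neg h2]

lemma sgF_src_inl (a : NE c p F J) (i' : IZ F) (k : p.K) (h : IZ (HH p F J)) :
    sgF c p F J a (c.src a.1, Sum.inl i', (k, h)) =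
      if (i' : ℤ) = (a.2.1 : ℤ) then
          (if (h : ℤ) = (a.2.2.1 : ℤ) then p.σ k else Int.sign ((h : ℤ) - (a.2.2.1 : ℤ)))
          else Int.sign ((i' : ℤ) - (a.2.1 : ℤ)) := by
  simp only [sgF, if_true]

lemma sgF_src_inr_inl (a : NE c p F J) (b : c.Q) (t : p.K × IZ (HH p F J)) :
    sgF c p F J a (c.src a.1, Sum.inr (Sum.inl b), t) = 1 := by
  obtain ⟨k, h⟩ := t
  simp only [sgF, if_true]

lemma sgF_src_inr_inr (a : NE c p F J) (b : c.Q) (t : p.K × IZ (HH p F J)) :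
    sgF c p F J a (c.src a.1, Sum.inr (Sum.inr b), t) = -1 := by
  obtain ⟨k, h⟩ := t
  simp only [sgF, if_true]

lemma sgF_tgt_inl (hc : c.Good) (a : NE c p F J) (i' : IZ F) (t : p.K × IZ (HH p F J)) :
    sgF c p F J a (c.tgt a.1, Sum.inl i', t) =
      if 0 ≤ (i' : ℤ) + (a.2.1 : ℤ) then 1 else -1 := by
  obtain ⟨k, h⟩ := t
  have h1 : c.tgt a.1 ≠ c.src a.1 := (Cfg.src_ne_tgt hc _ _).symm
  simp only [sgF, if_neg h1, if_true]

lemma sgF_tgt_inr_inl_none (hc : c.Good) (a : NE c p F J) {b : c.Q}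
    (hb : c.edgeAt (c.tgt a.1) b = none) (t : p.K × IZ (HH p F J)) :
    sgF c p F J a (c.tgt a.1, Sum.inr (Sum.inl b), t) = 1 := by
  obtain ⟨k, h⟩ := t
  have h1 : c.tgt a.1 ≠ c.src a.1 := (Cfg.src_ne_tgt hc _ _).symm
  simp only [sgF, if_neg h1, if_true, hb]

lemma sgF_tgt_inr_inr_none (hc : c.Good) (a : NE c p F J) {b : c.Q}
    (hb : c.edgeAt (c.tgt a.1) b = none) (t : p.K × IZ (HH p F J)) :
    sgF c p F J a (c.tgt a.1, Sum.inr (Sum.inr b), t) = -1 := by
  obtain ⟨k, h⟩ := t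
  have h1 : c.tgt a.1 ≠ c.src a.1 := (Cfg.src_ne_tgt hc _ _).symm
  simp only [sgF, if_neg h1, if_true, hb]

lemma sgF_tgt_inr_inl_other (hc : c.Good) (a : NE c p F J) {b : c.Q} {e' : c.E}
    (hb : c.edgeAt (c.tgt a.1) b = some e') (he : e' ≠ a.1) (t : p.K × IZ (HH p F J)) :
    sgF c p F J a (c.tgt a.1, Sum.inr (Sum.inl b), t) = sg (c.g a.1 (c.src e')) := by
  obtain ⟨k, h⟩ := t
  have h1 : c.tgt a.1 ≠ c.src a.1 := (Cfg.src_ne_tgt hc _ _).symm
  simp only [sgF, if_neg h1, if_true, hb, if_neg he]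

lemma sgF_tgt_inr_inr_other (hc : c.Good) (a : NE c p F J) {b : c.Q} {e' : c.E}
    (hb : c.edgeAt (c.tgt a.1) b = some e') (he : e' ≠ a.1) (t : p.K × IZ (HH p F J)) :
    sgF c p F J a (c.tgt a.1, Sum.inr (Sum.inr b), t) = - sg (c.g a.1 (c.src e')) := by
  obtain ⟨k, h⟩ := t
  have h1 : c.tgt a.1 ≠ c.src a.1 := (Cfg.src_ne_tgt hc _ _).symm
  simp only [sgF, if_neg h1, if_true, hb, if_neg he]

lemma sgF_tgt_inr_inl_own (hc : c.Good) (a : NE c p F J) {b : c.Q}
    (hb : c.edgeAt (c.tgt a.1) b = some a.1) (k : p.K) (h : IZ (HH p F J)) :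
    sgF c p F J a (c.tgt a.1, Sum.inr (Sum.inl b), (k, h)) =
      if (h : ℤ) = p.κ k * (a.2.1 : ℤ) - (a.2.2.1 : ℤ) then sg (p.g a.2.2.2 k)
              else Int.sign ((h : ℤ) - (p.κ k * (a.2.1 : ℤ) - (a.2.2.1 : ℤ))) := by
  have h1 : c.tgt a.1 ≠ c.src a.1 := (Cfg.src_ne_tgt hc _ _).symm
  simp only [sgF, if_neg h1, if_true, hb]

lemma sgF_tgt_inr_inr_own (hc : c.Good) (a : NE c p F J) {b : c.Q}
    (hb : c.edgeAt (c.tgt a.1) b = some a.1) (t : p.K × IZ (HH p F J)) :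
    sgF c p F J a (c.tgt a.1, Sum.inr (Sum.inr b), t) = -1 := by
  obtain ⟨k, h⟩ := t
  have h1 : c.tgt a.1 ≠ c.src a.1 := (Cfg.src_ne_tgt hc _ _).symm
  simp only [sgF, if_neg h1, if_true, hb]

/-- The sum over the group of the source. -/
lemma sum_src (hp : p.Good) (a : NE c p F J) :
    ∑ s : IZ F ⊕ (c.Q ⊕ c.Q), ∑ t : p.K × IZ (HH p F J), sgF c p F J a (c.src a.1, s, t) =
      -2 * (a.2.1 : ℤ) * (Fintype.card (p.K × IZ (HH p F J)) : ℤ) -
        2 * (a.2.2.1 : ℤ) * (Fintype.card p.K : ℤ) := by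
  rw [Fintype.sum_sum_type, Fintype.sum_sum_type]
  have hJ : |(a.2.2.1 : ℤ)| ≤ (HH p F J : ℤ) :=
    (IZ.abs_le _).trans (by exact_mod_cast J_le_HH)
  have e1 : ∀ b : c.Q, ∑ t : p.K × IZ (HH p F J),
      sgF c p F J a (c.src a.1, Sum.inr (Sum.inl b), t) =
        (Fintype.card (p.K × IZ (HH p F J)) : ℤ) := by
    intro b
    rw [Finset.sum_congr rfl (fun t _ => sgF_src_inr_inl a b t)]
    simp
  have e2 : ∀ b : c.Q, ∑ t : p.K × IZ (HH p F J),
      sgF c p F J a (c.src a.1, Sum.inr (Sum.inr b), t) =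
        -(Fintype.card (p.K × IZ (HH p F J)) : ℤ) := by
    intro b
    rw [Finset.sum_congr rfl (fun t _ => sgF_src_inr_inr a b t)]
    simp
  rw [Finset.sum_congr rfl (fun b _ => e1 b), Finset.sum_congr rfl (fun b _ => e2 b)]
  have e3 : ∀ i' : IZ F, ∑ t : p.K × IZ (HH p F J),
      sgF c p F J a (c.src a.1, Sum.inl i', t) =
        (if i' = a.2.1 then -2 * (a.2.2.1 : ℤ) * (Fintype.card p.K : ℤ) else 0) +
          Int.sign ((i' : ℤ) - (a.2.1 : ℤ)) * (Fintype.card (p.K × IZ (HH p F J)) : ℤ) := by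
    intro i'
    rw [Fintype.sum_prod_type]
    by_cases hi : i' = a.2.1
    · rw [if_pos hi, hi, sub_self, Int.sign_zero, zero_mul, add_zero]
      have e4 : ∀ k : p.K, ∑ h : IZ (HH p F J),
          sgF c p F J a (c.src a.1, Sum.inl a.2.1, (k, h)) = p.σ k - 2 * (a.2.2.1 : ℤ) := by
        intro k
        rw [← sum_ite_IZ (HH p F J) (a.2.2.1 : ℤ) (p.σ k) hJ]
        refine Finset.sum_congr rfl (fun h _ => ?_)
        rw [sgF_src_inl, if_pos rfl]
      rw [Finset.sum_congr rfl (fun k _ => e4 k), Finset.sum_sub_distrib, hp.σ_sum]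
      simp only [Finset.sum_const, Finset.card_univ, nsmul_eq_mul]
      ring
    · have hi' : ¬ (i' : ℤ) = (a.2.1 : ℤ) := fun h => hi (Subtype.ext h)
      rw [if_neg hi, zero_add]
      have e4 : ∀ k : p.K, ∑ h : IZ (HH p F J),
          sgF c p F J a (c.src a.1, Sum.inl i', (k, h)) =
            Int.sign ((i' : ℤ) - (a.2.1 : ℤ)) * (Fintype.card (IZ (HH p F J)) : ℤ) := by
        intro k
        rw [Finset.sum_congr rfl (fun h _ => by rw [sgF_src_inl, if_neg hi'])]
        simp only [Finset.sum_const, Finset.card_univ, nsmul_eq_mul]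
        ring
      rw [Finset.sum_congr rfl (fun k _ => e4 k), Fintype.card_prod]
      simp only [Finset.sum_const, Finset.card_univ, nsmul_eq_mul]
      push_cast
      ring
  rw [Finset.sum_congr rfl (fun i' _ => e3 i'), Finset.sum_add_distrib, ← Finset.sum_mul,
    sum_sign_IZ F _ (IZ.abs_le _), Finset.sum_ite_eq' Finset.univ]
  simp only [Finset.mem_univ, if_true, Finset.sum_const, Finset.card_univ, nsmul_eq_mul]
  ring

/-- The sum over the group of the target. -/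
lemma sum_tgt (hc : c.Good) (hp : p.Good) (a : NE c p F J) :
    ∑ s : IZ F ⊕ (c.Q ⊕ c.Q), ∑ t : p.K × IZ (HH p F J), sgF c p F J a (c.tgt a.1, s, t) =
      2 * (a.2.1 : ℤ) * (Fintype.card (p.K × IZ (HH p F J)) : ℤ) +
        2 * (a.2.2.1 : ℤ) * (Fintype.card p.K : ℤ) := by
  rw [Fintype.sum_sum_type, Fintype.sum_sum_type, ← Finset.sum_add_distrib]
  have e0 : ∀ i' : IZ F, ∑ t : p.K × IZ (HH p F J),
      sgF c p F J a (c.tgt a.1, Sum.inl i', t) =
        (if 0 ≤ (i' : ℤ) + (a.2.1 : ℤ) then 1 else -1) *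
          (Fintype.card (p.K × IZ (HH p F J)) : ℤ) := by
    intro i'
    rw [Finset.sum_congr rfl (fun t _ => sgF_tgt_inl hc a i' t)]
    simp only [Finset.sum_const, Finset.card_univ, nsmul_eq_mul]
    ring
  have e1 : ∀ b : c.Q,
      (∑ t : p.K × IZ (HH p F J), sgF c p F J a (c.tgt a.1, Sum.inr (Sum.inl b), t)) +
        ∑ t : p.K × IZ (HH p F J), sgF c p F J a (c.tgt a.1, Sum.inr (Sum.inr b), t) =
      if b = c.slot a.1 then
        2 * (a.2.2.1 : ℤ) * (Fintype.card p.K : ℤ) - (Fintype.card (p.K × IZ (HH p F J)) : ℤ)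
      else 0 := by
    intro b
    by_cases hb : b = c.slot a.1
    · rw [if_pos hb]
      have hb2 : c.edgeAt (c.tgt a.1) b = some a.1 := by rw [hb]; exact Cfg.edgeAt_tgt hc a.1
      rw [Finset.sum_congr rfl (fun t _ => sgF_tgt_inr_inr_own hc a hb2 t),
        Fintype.sum_prod_type]
      have e4 : ∀ k : p.K, ∑ h : IZ (HH p F J),
          sgF c p F J a (c.tgt a.1, Sum.inr (Sum.inl b), (k, h)) =
            sg (p.g a.2.2.2 k) - 2 * (p.κ k * (a.2.1 : ℤ) - (a.2.2.1 : ℤ)) := by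
        intro k
        have hm : |p.κ k * (a.2.1 : ℤ) - (a.2.2.1 : ℤ)| ≤ (HH p F J : ℤ) := by
          have h1 := hp.κ_le k
          have h2 := IZ.abs_le a.2.1
          have h3 := IZ.abs_le a.2.2.1
          have h4 : |p.κ k * (a.2.1 : ℤ)| ≤ (p.X : ℤ) * (F : ℤ) := by
            rw [abs_mul]
            exact mul_le_mul h1 h2 (abs_nonneg _) (by positivity)
          have h5 : (HH p F J : ℤ) = (J : ℤ) + (p.X : ℤ) * (F : ℤ) := by
            unfold HH; push_cast; ring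
          rw [h5]
          calc |p.κ k * (a.2.1 : ℤ) - (a.2.2.1 : ℤ)|
              ≤ |p.κ k * (a.2.1 : ℤ)| + |(a.2.2.1 : ℤ)| := abs_sub _ _
            _ ≤ _ := by linarith
        rw [← sum_ite_IZ (HH p F J) _ (sg (p.g a.2.2.2 k)) hm]
        exact Finset.sum_congr rfl (fun h _ => sgF_tgt_inr_inl_own hc a hb2 k h)
      rw [Finset.sum_congr rfl (fun k _ => e4 k), Finset.sum_sub_distrib, hp.bal,
        ← Finset.mul_sum, Finset.sum_sub_distrib, ← Finset.sum_mul, hp.κ_sum]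
      simp only [Finset.sum_const, Finset.card_univ, nsmul_eq_mul]
      ring
    · rw [if_neg hb]
      rcases h : c.edgeAt (c.tgt a.1) b with _ | e'
      · rw [Finset.sum_congr rfl (fun t _ => sgF_tgt_inr_inl_none hc a h t),
          Finset.sum_congr rfl (fun t _ => sgF_tgt_inr_inr_none hc a h t)]
        simp
      · have he : e' ≠ a.1 := by
          intro h2
          apply hb
          rw [← h2]
          exact (Cfg.edgeAt_some h).2.symm
        rw [Finset.sum_congr rfl (fun t _ => sgF_tgt_inr_inl_other hc a h he t),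
          Finset.sum_congr rfl (fun t _ => sgF_tgt_inr_inr_other hc a h he t),
          ← Finset.sum_add_distrib]
        simp
  rw [Finset.sum_congr rfl (fun i' _ => e0 i'), Finset.sum_congr rfl (fun b _ => e1 b),
    ← Finset.sum_mul, sum_step_IZ F _ (IZ.abs_le _), Finset.sum_ite_eq' Finset.univ]
  simp only [Finset.mem_univ, if_true]
  ring

end Main

/-- A1 (combinatorial): the signs add up to zero. -/
theorem claimSum : ClaimSum := by
  intro c p F J hc hp hF a
  rw [Fintype.sum_prod_type]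
  have h0 : ∀ v : c.V, ∑ st : (IZ F ⊕ (c.Q ⊕ c.Q)) × (p.K × IZ (HH p F J)),
      sgF c p F J a (v, st) =
        (Fintype.card ((IZ F ⊕ (c.Q ⊕ c.Q)) × (p.K × IZ (HH p F J))) : ℤ) * sg (c.g a.1 v) +
        ((if v = c.src a.1 then
          (-2 * (a.2.1 : ℤ) * (Fintype.card (p.K × IZ (HH p F J)) : ℤ) -
            2 * (a.2.2.1 : ℤ) * (Fintype.card p.K : ℤ)) else 0) +
        (if v = c.tgt a.1 then
          (2 * (a.2.1 : ℤ) * (Fintype.card (p.K × IZ (HH p F J)) : ℤ) +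
            2 * (a.2.2.1 : ℤ) * (Fintype.card p.K : ℤ)) else 0)) := by
    intro v
    have hst : c.src a.1 ≠ c.tgt a.1 := Cfg.src_ne_tgt hc _ _
    by_cases h1 : v = c.src a.1
    · rw [if_pos h1, h1, if_neg hst, Cfg.g_src hc, sg_zero, Fintype.sum_prod_type, sum_src hp a]
      ring
    · by_cases h2 : v = c.tgt a.1
      · rw [if_neg h1, if_pos h2, h2, Cfg.g_tgt, sg_zero, Fintype.sum_prod_type,
          sum_tgt hc hp a]
        ring
      · rw [if_neg h1, if_neg h2,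
          Finset.sum_congr rfl (fun st _ => sgF_other a h1 h2 st.1 st.2)]
        simp only [Finset.sum_const, Finset.card_univ, nsmul_eq_mul, add_zero]
  rw [Finset.sum_congr rfl (fun v _ => h0 v), Finset.sum_add_distrib, ← Finset.mul_sum, hc.bal,
    Finset.sum_add_distrib, Finset.sum_ite_eq' Finset.univ, Finset.sum_ite_eq' Finset.univ]
  simp only [Finset.mem_univ, if_true]
  ring

end Pool.Agent.Work.MP_e17eac_co.NC
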