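import Mathlib

set_option autoImplicit false

namespace Pool.Agent.Work.MP_e17eac_co

open Finset

/-- Twice the signed area of the triangle `p q r`: positive when `r` lies to the left of the
directed line from `p` to `q`, negative when it lies to the right. -/
def side (p q r : ℝ × ℝ) : ℝ := (q.1 - p.1) * (r.2 - p.2) - (q.2 - p.2) * (r.1 - p.1)

/-- `(p, q)` is a pair of distinct points of `P` whose directed line has exactly `k` points of `P`
strictly to its left and the remaining `|P| - 2 - k` points strictly to its right. -/
def IsKEdge (P : Finset (ℝ × ℝ)) (k : ℕ) (p q : ℝ × ℝ) : Prop :=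
  p ∈ P ∧ q ∈ P ∧ p ≠ q ∧ (P.filter fun r => 0 < side p q r).card = k ∧
    (P.filter fun r => side p q r < 0).card + k + 2 = P.card

end Pool.Agent.Work.MP_e17eac_co
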