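import Pool.Agent.Work.MP_e17eac_co.Bd.B05

/-!
# The new lower bound for halving lines: the final statement from items C, D, E1
-/

set_option autoImplicit false

namespace Pool.Agent.Work.MP_e17eac_co.HL

open Finset

private lemma hlf_exists_q {n : ℕ} (hn : 2 ^ (13 * 8 ^ 3) ≤ n) :
    ∃ q : ℕ, 8 ≤ q ∧ 2 ^ (13 * q ^ 3) ≤ n ∧ n < 2 ^ (13 * (q + 1) ^ 3) := by
  have hn0 : n ≠ 0 := (lt_of_lt_of_le (pow_pos (by norm_num) _) hn).ne'
  have hlog : 13 * 8 ^ 3 ≤ Nat.log 2 n := (Nat.le_log_iff_pow_le (by norm_num) hn0).2 hn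
  set L := Nat.log 2 n with hL
  have hlt : n < 2 ^ (L + 1) := Nat.lt_pow_succ_log_self (by norm_num) n
  have hle : 2 ^ L ≤ n := Nat.pow_log_le_self 2 hn0
  have h8 : 8 ≤ L := by omega
  -- the greatest `q ≤ L` with `13 q ^ 3 ≤ L`
  refine ⟨Nat.findGreatest (fun q => 13 * q ^ 3 ≤ L) L, ?_, ?_, ?_⟩
  · exact Nat.le_findGreatest h8 hlog
  · have h1 : 13 * (Nat.findGreatest (fun q => 13 * q ^ 3 ≤ L) L) ^ 3 ≤ L :=
      Nat.findGreatest_spec (P := fun q => 13 * q ^ 3 ≤ L) h8 hlog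
    exact (Nat.pow_le_pow_right (by norm_num) h1).trans hle
  · set q := Nat.findGreatest (fun q => 13 * q ^ 3 ≤ L) L with hq
    have h2 : L < 13 * (q + 1) ^ 3 := by
      by_contra hc
      rw [not_lt] at hc
      have h3 : q + 1 ≤ L := by
        have h4 : (q + 1) * 1 ≤ (q + 1) * (13 * (q + 1) ^ 2) :=
          Nat.mul_le_mul_left _ (Nat.mul_pos (by norm_num) (by positivity))
        have h5 : (q + 1) * (13 * (q + 1) ^ 2) = 13 * (q + 1) ^ 3 := by ring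
        omega
      have h6 : q + 1 ≤ q := Nat.le_findGreatest (P := fun q => 13 * q ^ 3 ≤ L) h3 hc
      omega
    exact lt_of_lt_of_le hlt (Nat.pow_le_pow_right (by norm_num) h2)

private lemma hlf_log_le {n q : ℕ} (hq : 8 ≤ q) (hn0 : 0 < n) (hn : n < 2 ^ (13 * (q + 1) ^ 3)) :
    Real.log n ≤ 27 * (q : ℝ) ^ 3 := by
  have h1 : (n : ℝ) ≤ 2 ^ (13 * (q + 1) ^ 3) := by exact_mod_cast hn.le
  have h2 : Real.log n ≤ ((13 * (q + 1) ^ 3 : ℕ) : ℝ) * Real.log 2 := by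
    rw [← Real.log_pow]
    exact Real.log_le_log (by exact_mod_cast hn0) h1
  have h3 : Real.log 2 ≤ 1 := by
    have := Real.log_two_lt_d9
    linarith
  have hq' : (8 : ℝ) ≤ q := by exact_mod_cast hq
  have h4 : (13 : ℝ) * ((q : ℝ) + 1) ^ 3 ≤ 27 * (q : ℝ) ^ 3 := by
    have h5 : (q : ℝ) + 1 ≤ 9 / 8 * q := by linarith
    have h6 : ((q : ℝ) + 1) ^ 3 ≤ (9 / 8 * q) ^ 3 := pow_le_pow_left₀ (by linarith) h5 3
    have h7 : (0 : ℝ) ≤ (q : ℝ) ^ 3 := by positivity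
    have h8 : (9 / 8 * (q : ℝ)) ^ 3 = 729 / 512 * (q : ℝ) ^ 3 := by ring
    rw [h8] at h6
    linarith
  calc Real.log n ≤ ((13 * (q + 1) ^ 3 : ℕ) : ℝ) * Real.log 2 := h2
    _ ≤ ((13 * (q + 1) ^ 3 : ℕ) : ℝ) * 1 := by
        apply mul_le_mul_of_nonneg_left h3
        positivity
    _ = 13 * ((q : ℝ) + 1) ^ 3 := by push_cast; ring
    _ ≤ 27 * (q : ℝ) ^ 3 := h4

private lemma hlf_rpow_le {x q : ℝ} (hx : 0 ≤ x) (hq : 0 ≤ q) (h : x ≤ 27 * q ^ 3) :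
    x ^ (2 / 3 : ℝ) ≤ 9 * q ^ 2 := by
  have h1 : x ^ (2 / 3 : ℝ) ≤ (27 * q ^ 3) ^ (2 / 3 : ℝ) :=
    Real.rpow_le_rpow hx h (by norm_num)
  have h2 : (27 * q ^ 3 : ℝ) = (3 * q) ^ (3 : ℝ) := by
    rw [show (3 : ℝ) = ((3 : ℕ) : ℝ) by norm_num, Real.rpow_natCast]
    push_cast
    ring
  have h3 : ((3 * q) ^ (3 : ℝ)) ^ (2 / 3 : ℝ) = 9 * q ^ 2 := by
    rw [← Real.rpow_mul (by positivity)]
    have : (3 : ℝ) * (2 / 3) = ((2 : ℕ) : ℝ) := by norm_num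
    rw [this, Real.rpow_natCast]
    ring
  rw [h2, h3] at h1
  exact h1

private lemma hlf_exp_le {n q : ℕ} (hq : 8 ≤ q) (hn0 : 0 < n)
    (hn : n < 2 ^ (13 * (q + 1) ^ 3)) :
    Real.exp (1 / 36 * Real.log n ^ (2 / 3 : ℝ)) * 2 ^ (3 * q + 3) ≤ 2 ^ (q ^ 2) := by
  have hq' : (8 : ℝ) ≤ q := by exact_mod_cast hq
  have h1 := hlf_rpow_le (Real.log_natCast_nonneg n) (by positivity : (0 : ℝ) ≤ q)
    (hlf_log_le hq hn0 hn)
  have h2 : (1 / 2 : ℝ) ≤ Real.log 2 := by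
    have := Real.log_two_gt_d9
    linarith
  have e : ∀ k : ℕ, (2 : ℝ) ^ k = Real.exp ((k : ℝ) * Real.log 2) := by
    intro k
    rw [mul_comm, Real.exp_mul, Real.exp_log (by norm_num), Real.rpow_natCast]
  rw [e, e, ← Real.exp_add]
  apply Real.exp_le_exp.2
  push_cast
  have h3 : (q : ℝ) ^ 2 ≥ 6 * q + 6 := by
    have h7 : (8 : ℝ) * q ≤ q * q := mul_le_mul_of_nonneg_right hq' (by linarith)
    have h8 : (q : ℝ) ^ 2 = q * q := by ring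
    rw [h8]
    linarith
  have h4 : (3 * (q : ℝ) + 3) ≤ (q : ℝ) ^ 2 / 2 := by linarith
  have h5 : (3 * (q : ℝ) + 3) * Real.log 2 ≤ (q : ℝ) ^ 2 / 2 * Real.log 2 :=
    mul_le_mul_of_nonneg_right h4 (by linarith)
  have h6 : (q : ℝ) ^ 2 / 2 * (1 / 2) ≤ (q : ℝ) ^ 2 / 2 * Real.log 2 :=
    mul_le_mul_of_nonneg_left h2 (by positivity)
  have e1 : (q : ℝ) ^ 2 / 2 * (1 / 2) = 1 / 36 * (9 * (q : ℝ) ^ 2) := by ring
  have e2 : (q : ℝ) ^ 2 / 2 * Real.log 2 + (q : ℝ) ^ 2 / 2 * Real.log 2 =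
    (q : ℝ) ^ 2 * Real.log 2 := by ring
  linarith

/-- Item E2. -/
theorem claimFinal (h1 : ClaimSparse) (h2 : ClaimPad) (h3 : ClaimPoints) : ClaimFinal := by
  refine ⟨1 / 36, by norm_num, 2 ^ (13 * 8 ^ 3), ?_⟩
  intro n hn hev
  obtain ⟨q, hq8, hqle, hqlt⟩ := hlf_exists_q hn
  have hn0 : 0 < n := lt_of_lt_of_le (pow_pos (by norm_num) _) hqle
  obtain ⟨N, M, hR, hNev, hN0, hNle, hNM⟩ := h1 q (by omega)
  have hNn : N ≤ n := hNle.trans hqle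
  set a := n / N with ha
  have hdm : N * a + n % N = n := Nat.div_add_mod n N
  have hmod : n % N < N := Nat.mod_lt _ hN0
  have ha1 : 1 ≤ a := Nat.div_pos hNn hN0
  have hmev : Even (n % N) := by
    have h4 : Even (N * a) := hNev.mul_right a
    obtain ⟨k, hk⟩ := h4
    obtain ⟨l, hl⟩ := hev
    exact ⟨l - k, by omega⟩
  obtain ⟨b, hb⟩ := hmev
  have hR2 : Realizable n (a * M) := by
    have h4 := h2 N M a b hR
    have h5 : a * N + 2 * b = n := by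
      rw [mul_comm a N, two_mul, ← hb]
      exact hdm
    rwa [h5] at h4
  obtain ⟨P, hPc, hPg, hPf, hPM⟩ := h3 n (a * M) hR2
  refine ⟨P, hPc, hPg, hPf, ?_⟩
  have h6 : n ≤ 2 * (N * a) := by
    have : N * 1 ≤ N * a := Nat.mul_le_mul_left _ ha1
    omega
  have h7 : n * 2 ^ (q ^ 2) ≤ a * M * 2 ^ (3 * q + 3) := by
    calc n * 2 ^ (q ^ 2) ≤ 2 * (N * a) * 2 ^ (q ^ 2) := Nat.mul_le_mul_right _ h6
      _ = 2 * a * (N * 2 ^ (q ^ 2)) := by ring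
      _ ≤ 2 * a * (2 ^ (3 * q + 2) * M) := Nat.mul_le_mul_left _ hNM
      _ = a * M * 2 ^ (3 * q + 3) := by ring
  have h8 : (n : ℝ) * 2 ^ (q ^ 2) ≤ (a * M : ℕ) * 2 ^ (3 * q + 3) := by exact_mod_cast h7
  have h9 := hlf_exp_le hq8 hn0 hqlt
  have h10 : (n : ℝ) * Real.exp (1 / 36 * Real.log n ^ (2 / 3 : ℝ)) * 2 ^ (3 * q + 3) ≤
      (a * M : ℕ) * 2 ^ (3 * q + 3) := by
    refine le_trans ?_ h8
    rw [mul_assoc]
    exact mul_le_mul_of_nonneg_left h9 (by positivity)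
  have h11 : (n : ℝ) * Real.exp (1 / 36 * Real.log n ^ (2 / 3 : ℝ)) ≤ (a * M : ℕ) :=
    le_of_mul_le_mul_right h10 (by positivity)
  refine h11.trans ?_
  exact_mod_cast hPM

end Pool.Agent.Work.MP_e17eac_co.HL
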