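import Pool.Agent.Work.MP_e17eac_co.Bd.B05

/-!
# Parallel copies and padding
-/

set_option autoImplicit false

namespace Pool.Agent.Work.MP_e17eac_co.HL

open Finset Filter Topology

/-- The shift of the copy number `p`. -/
private noncomputable def padS (a : ℕ) (p : Fin a) : ℝ := 2 * (p : ℕ) - (a - 1)

private lemma padS_rev (a : ℕ) (p : Fin a) : padS a p.rev = - padS a p := by
  unfold padS
  have h : ((p.rev : Fin a) : ℕ) + ((p : ℕ) + 1) = a := by
    rw [Fin.val_rev]
    have := p.isLt
    omega
  have h2 : (((p.rev : Fin a) : ℕ) : ℝ) + ((p : ℕ) + 1) = a := by exact_mod_cast h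
  linarith

private lemma padS_inj {a : ℕ} {p q : Fin a} (h : padS a p = padS a q) : p = q := by
  unfold padS at h
  have : ((p : ℕ) : ℝ) = ((q : ℕ) : ℝ) := by linarith
  exact Fin.ext (by exact_mod_cast this)

/-- The slopes of the new lines. -/
private noncomputable def padM {ι : Type} (a b : ℕ) (m : ι → ℝ) :
    (ι × Fin a) ⊕ (Fin b ⊕ Fin b) → ℝ
  | .inl z => m z.1
  | .inr _ => 0

/-- The intercepts of the new lines. -/
private noncomputable def padC {ι : Type} (a b : ℕ) (c : ι → ℝ) (H ε : ℝ) :
    (ι × Fin a) ⊕ (Fin b ⊕ Fin b) → ℝ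
  | .inl z => c z.1 + ε * padS a z.2
  | .inr (.inl _) => H
  | .inr (.inr _) => -H

private lemma pad_sum (a : ℕ) (p : Fin a) :
    ∑ q, (sg (padS a q - padS a p) + sg (padS a q + padS a p)) = 0 := by
  rw [Finset.sum_add_distrib]
  have h : ∑ q, sg (padS a q + padS a p) = ∑ q, sg (padS a (Fin.rev q) + padS a p) :=
    (Equiv.sum_comp Fin.revPerm (fun q => sg (padS a q + padS a p))).symm
  rw [h, ← Finset.sum_add_distrib]
  refine Finset.sum_eq_zero fun q _ => ?_
  rw [padS_rev, show -padS a q + padS a p = -(padS a q - padS a p) by ring, sg_neg]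
  ring

private theorem pad_bal {ι : Type} [Fintype ι] {m c : ι → ℝ} {i j : ι} {x H : ℝ} (a b : ℕ)
    (h : IsBal m c i j x) (hm : m i ≠ m j) (hH : |m i * x + c i| < H) (p : Fin a) :
    ∀ᶠ ε in 𝓝[>] (0 : ℝ), IsBal (padM a b m) (padC a b c H ε) (.inl (i, p)) (.inl (j, p.rev))
      (x + ε * (2 * padS a p / (m j - m i))) := by
  classical
  have hd : m j - m i ≠ 0 := sub_ne_zero.2 hm.symm
  set τ : ℝ := 2 * padS a p / (m j - m i) with hτ
  have hτ2 : (m j - m i) * τ = 2 * padS a p := by
    rw [hτ, mul_div_cancel₀ _ hd]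
  have hij : m j * x + c j = m i * x + c i := (h.zero_iff j).2 (Or.inr rfl)
  -- signs for the other old lines
  have hk : ∀ z : ι × Fin a, ∀ᶠ ε in 𝓝[>] (0 : ℝ), z.1 ≠ i → z.1 ≠ j →
      sg (m z.1 * (x + ε * τ) + (c z.1 + ε * padS a z.2) -
        (m i * (x + ε * τ) + (c i + ε * padS a p))) = sg (m z.1 * x + c z.1 - (m i * x + c i)) := by
    intro z
    by_cases hz : m z.1 * x + c z.1 - (m i * x + c i) = 0
    · have h4 := (h.zero_iff z.1).1 (sub_eq_zero.1 hz)
      refine Eventually.of_forall fun t h1 h2 => ?_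
      rcases h4 with h4 | h4
      · exact absurd h4 h1
      · exact absurd h4 h2
    · have h5 : Tendsto (fun ε : ℝ => m z.1 * (x + ε * τ) + (c z.1 + ε * padS a z.2) -
          (m i * (x + ε * τ) + (c i + ε * padS a p))) (𝓝[>] 0)
          (𝓝 (m z.1 * x + c z.1 - (m i * x + c i))) := by
        have hc : Continuous fun ε : ℝ => m z.1 * (x + ε * τ) + (c z.1 + ε * padS a z.2) -
          (m i * (x + ε * τ) + (c i + ε * padS a p)) := by fun_prop
        have h6 := hc.tendsto 0
        simp only [zero_mul, add_zero] at h6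
        exact h6.mono_left nhdsWithin_le_nhds
      filter_upwards [eventually_sg_eq h5 hz] with t ht _ _
      exact ht
  have hfar : ∀ᶠ ε in 𝓝[>] (0 : ℝ), |m i * (x + ε * τ) + (c i + ε * padS a p)| < H := by
    have hc : Continuous fun ε : ℝ => |m i * (x + ε * τ) + (c i + ε * padS a p)| := by fun_prop
    have h6 := hc.tendsto 0
    simp only [zero_mul, add_zero] at h6
    exact (h6.mono_left nhdsWithin_le_nhds).eventually (gt_mem_nhds hH)
  filter_upwards [eventually_all.2 hk, hfar, self_mem_nhdsWithin] with ε he hf h0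
  have hε : (0 : ℝ) < ε := h0
  -- the signs of all the differences
  have s1 : ∀ q : Fin a, sg (m i * (x + ε * τ) + (c i + ε * padS a q) -
      (m i * (x + ε * τ) + (c i + ε * padS a p))) = sg (padS a q - padS a p) := by
    intro q
    rw [← sg_mul_pos hε (r := padS a q - padS a p)]
    congr 1
    ring
  have s2 : ∀ q : Fin a, sg (m j * (x + ε * τ) + (c j + ε * padS a q) -
      (m i * (x + ε * τ) + (c i + ε * padS a p))) = sg (padS a q + padS a p) := by
    intro q
    rw [← sg_mul_pos hε (r := padS a q + padS a p)]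
    congr 1
    have : m j * (x + ε * τ) + (c j + ε * padS a q) - (m i * (x + ε * τ) + (c i + ε * padS a p)) =
      (m j * x + c j - (m i * x + c i)) + ε * ((m j - m i) * τ + padS a q - padS a p) := by ring
    rw [this, hτ2, hij]
    ring
  have s3 : sg (0 * (x + ε * τ) + H - (m i * (x + ε * τ) + (c i + ε * padS a p))) = 1 := by
    apply sg_of_pos
    have := (abs_lt.1 hf).2
    linarith
  have s4 : sg (0 * (x + ε * τ) + -H - (m i * (x + ε * τ) + (c i + ε * padS a p))) = -1 := by
    apply sg_of_neg
    have := (abs_lt.1 hf).1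
    linarith
  refine ⟨?_, ?_, ?_⟩
  · intro hh
    exact h.ne (congrArg Prod.fst (Sum.inl_injective hh))
  · rintro (⟨k, q⟩ | (q | q))
    · show m k * (x + ε * τ) + (c k + ε * padS a q) = m i * (x + ε * τ) + (c i + ε * padS a p) ↔ _
      rw [← sub_eq_zero, ← sg_eq_zero]
      by_cases h1 : k = i
      · subst h1
        rw [s1 q, sg_eq_zero, sub_eq_zero]
        constructor
        · intro hh
          left
          rw [padS_inj hh]
        · rintro (hh | hh)
          · have h2 := congrArg Prod.snd (Sum.inl_injective hh)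
            simp only at h2
            rw [h2]
          · exact absurd (congrArg Prod.fst (Sum.inl_injective hh)) h.ne
      · by_cases h2 : k = j
        · subst h2
          rw [s2 q, sg_eq_zero]
          constructor
          · intro hh
            right
            have h3 : padS a q = padS a p.rev := by
              rw [padS_rev]
              linarith
            rw [padS_inj h3]
          · rintro (hh | hh)
            · exact absurd (congrArg Prod.fst (Sum.inl_injective hh)) h1
            · have h3 := congrArg Prod.snd (Sum.inl_injective hh)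
              simp only at h3
              rw [h3, padS_rev]
              ring
        · have h3 := he (k, q) h1 h2
          simp only at h3
          rw [h3, sg_eq_zero, sub_eq_zero, h.zero_iff]
          constructor
          · rintro (hh | hh)
            · exact absurd hh h1
            · exact absurd hh h2
          · rintro (hh | hh)
            · exact absurd (congrArg Prod.fst (Sum.inl_injective hh)) h1
            · exact absurd (congrArg Prod.fst (Sum.inl_injective hh)) h2
    · show 0 * (x + ε * τ) + H = m i * (x + ε * τ) + (c i + ε * padS a p) ↔ _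
      rw [← sub_eq_zero, ← sg_eq_zero, s3]
      simp
    · show 0 * (x + ε * τ) + -H = m i * (x + ε * τ) + (c i + ε * padS a p) ↔ _
      rw [← sub_eq_zero, ← sg_eq_zero, s4]
      simp
  · rw [Fintype.sum_sum_type, Fintype.sum_sum_type, Fintype.sum_prod_type]
    have e1 : ∀ (k : ι) (q : Fin a), sg (padM a b m (Sum.inl (k, q)) * (x + ε * τ) +
        padC a b c H ε (Sum.inl (k, q)) - (padM a b m (Sum.inl (i, p)) * (x + ε * τ) +
        padC a b c H ε (Sum.inl (i, p)))) = sg (m k * (x + ε * τ) + (c k + ε * padS a q) -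
      (m i * (x + ε * τ) + (c i + ε * padS a p))) := fun _ _ => rfl
    have e2 : ∀ q : Fin b, sg (padM a b m (Sum.inr (Sum.inl q)) * (x + ε * τ) +
        padC a b c H ε (Sum.inr (Sum.inl q)) - (padM a b m (Sum.inl (i, p)) * (x + ε * τ) +
        padC a b c H ε (Sum.inl (i, p)))) = 1 := fun _ => s3
    have e3 : ∀ q : Fin b, sg (padM a b m (Sum.inr (Sum.inr q)) * (x + ε * τ) +
        padC a b c H ε (Sum.inr (Sum.inr q)) - (padM a b m (Sum.inl (i, p)) * (x + ε * τ) +
        padC a b c H ε (Sum.inl (i, p)))) = -1 := fun _ => s4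
    simp only [e1, e2, e3]
    have e4 : ∀ k : ι, ∑ q, sg (m k * (x + ε * τ) + (c k + ε * padS a q) -
        (m i * (x + ε * τ) + (c i + ε * padS a p))) =
        (a : ℤ) * sg (m k * x + c k - (m i * x + c i)) +
          ((if k = i then ∑ q, sg (padS a q - padS a p) else 0) +
            (if k = j then ∑ q, sg (padS a q + padS a p) else 0)) := by
      intro k
      by_cases h1 : k = i
      · subst h1
        rw [if_pos rfl, if_neg h.ne, sub_self, sg_zero]
        simp only [s1]
        ring
      · by_cases h2 : k = j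
        · subst h2
          rw [if_neg h1, if_pos rfl, hij, sub_self, sg_zero]
          simp only [s2]
          ring
        · rw [if_neg h1, if_neg h2]
          have : ∀ q, sg (m k * (x + ε * τ) + (c k + ε * padS a q) -
            (m i * (x + ε * τ) + (c i + ε * padS a p))) = sg (m k * x + c k - (m i * x + c i)) :=
            fun q => he (k, q) h1 h2
          simp only [this]
          rw [Finset.sum_const, Finset.card_univ, Fintype.card_fin]
          simp
    simp only [e4]
    rw [Finset.sum_add_distrib, Finset.sum_add_distrib, ← Finset.mul_sum, h.sum,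
      Finset.sum_ite_eq', Finset.sum_ite_eq', if_pos (mem_univ _), if_pos (mem_univ _),
      ← Finset.sum_add_distrib, pad_sum]
    simp

theorem claimPad : ClaimPad := by
  classical
  intro n M a b hR
  obtain ⟨ι, _, m, c, E, hn, hE, hsw, hM, hnd⟩ := hR.nondeg
  choose! x hx using hE
  obtain ⟨H, hH⟩ : ∃ H : ℝ, ∀ e ∈ E, |m e.1 * x e + c e.1| < H := by
    refine ⟨∑ e ∈ E, |m e.1 * x e + c e.1| + 1, fun e he => ?_⟩
    have := Finset.single_le_sum (f := fun e => |m e.1 * x e + c e.1|)
      (fun e _ => abs_nonneg _) he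
    linarith
  have hev : ∀ e ∈ E, ∀ᶠ ε in 𝓝[>] (0 : ℝ), ∀ p : Fin a,
      IsBal (padM a b m) (padC a b c H ε) (.inl (e.1, p)) (.inl (e.2, p.rev))
        (x e + ε * (2 * padS a p / (m e.2 - m e.1))) := fun e he =>
    eventually_all.2 fun p => pad_bal a b (hx e he) (hnd e he) (hH e he) p
  obtain ⟨ε, hε⟩ := ((Finset.eventually_all E).2 hev).exists
  let F : (ι × ι) × Fin a → ((ι × Fin a) ⊕ (Fin b ⊕ Fin b)) × ((ι × Fin a) ⊕ (Fin b ⊕ Fin b)) :=
    fun z => (.inl (z.1.1, z.2), .inl (z.1.2, z.2.rev))
  have hF : Function.Injective F := by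
    rintro ⟨⟨i, j⟩, p⟩ ⟨⟨i', j'⟩, p'⟩ h
    have h1 := Sum.inl_injective (congrArg Prod.fst h)
    have h2 := Sum.inl_injective (congrArg Prod.snd h)
    simp only [Prod.mk.injEq] at h1 h2
    rw [h1.1, h1.2, h2.1]
  refine ⟨(ι × Fin a) ⊕ (Fin b ⊕ Fin b), inferInstance, padM a b m, padC a b c H ε,
    (E ×ˢ (Finset.univ : Finset (Fin a))).image F, ?_, ?_, ?_, ?_⟩
  · simp only [Fintype.card_sum, Fintype.card_prod, Fintype.card_fin, hn]
    ring
  · intro e he
    obtain ⟨z, hz, rfl⟩ := Finset.mem_image.1 he
    rw [Finset.mem_product] at hz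
    exact ⟨_, hε z.1 hz.1 z.2⟩
  · intro e he he'
    obtain ⟨z, hz, rfl⟩ := Finset.mem_image.1 he
    obtain ⟨w, hw, hwz⟩ := Finset.mem_image.1 he'
    rw [Finset.mem_product] at hz hw
    have h1 := Sum.inl_injective (congrArg Prod.fst hwz)
    have h2 := Sum.inl_injective (congrArg Prod.snd hwz)
    simp only [Prod.mk.injEq] at h1 h2
    apply hsw z.1 hz.1
    have : w.1 = (z.1.2, z.1.1) := Prod.ext h1.1 h2.1
    rw [← this]
    exact hw.1
  · rw [Finset.card_image_of_injective _ hF, Finset.card_product, Finset.card_univ,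
      Fintype.card_fin, mul_comm a M]
    exact Nat.mul_le_mul_right _ hM

end Pool.Agent.Work.MP_e17eac_co.HL
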