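import Mathlib

/-!
# Halving lines of planar point sets: basic definitions and the local alternation lemma
-/

namespace Pool.Agent.Work.MP_e17eac_co

open Finset

/-- Twice the signed area of the triangle `p q r`. It is positive exactly when `r` lies in the open
half-plane to the left of the directed line `p → q`, negative exactly when `r` lies in the open
half-plane to its right, and zero exactly when `r` is on the line (for `p ≠ q`). -/
def side (p q r : ℝ × ℝ) : ℝ := (q.1 - p.1) * (r.2 - p.2) - (q.2 - p.2) * (r.1 - p.1)

/-- The line through the distinct points `p, q` of `P` is a bisector (halving line) of `P`: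
each of the two open half-planes bounded by it contains exactly `|P|/2 - 1` points of `P`. -/
def IsHalving (P : Finset (ℝ × ℝ)) (p q : ℝ × ℝ) : Prop :=
  p ∈ P ∧ q ∈ P ∧ p ≠ q ∧
    {r | r ∈ P ∧ 0 < side p q r}.ncard + 1 = P.card / 2 ∧
    {r | r ∈ P ∧ side p q r < 0}.ncard + 1 = P.card / 2

/-- The set of bisectors (halving lines) of `P`. -/
def bisectors (P : Finset (ℝ × ℝ)) : Set (AffineSubspace ℝ (ℝ × ℝ)) :=
  {l | ∃ p q, IsHalving P p q ∧ l = affineSpan ℝ {p, q}}

/-- No three points of `P` are on a common line. -/
def GeneralPosition (P : Finset (ℝ × ℝ)) : Prop :=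
  ∀ p ∈ P, ∀ q ∈ P, ∀ r ∈ P, p ≠ q → p ≠ r → q ≠ r → ¬ Collinear ℝ {p, q, r}

/-! ### The telescoping lemma -/

/-- Counting function: elements `r` with sign `+` and parameter larger than `τ`, plus elements
with sign `-` and parameter smaller than `τ`. -/
noncomputable def cnt {ι : Type*} (X : Finset ι) (t : ι → ℝ) (s : ι → Bool) (τ : ℝ) : ℤ :=
  ((X.filter (fun r => s r = true ∧ τ < t r)).card : ℤ) +
    ((X.filter (fun r => s r = false ∧ t r < τ)).card : ℤ)

lemma tele {ι : Type*} [DecidableEq ι] (t : ι → ℝ) (s : ι → Bool) (X : Finset ι) :
    Set.InjOn t X → ∀ h : ℤ,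
      ∑ q ∈ X.filter (fun q => cnt X t s (t q) = h), (if s q = true then (1 : ℤ) else -1) =
        (if h < ((X.filter (fun r => s r = true)).card : ℤ) then 1 else 0) -
          (if h < ((X.filter (fun r => s r = false)).card : ℤ) then 1 else 0) := by
  refine Finset.induction_on_max_value t X ?_ ?_
  · intro _ h
    simp
  · intro a X ha hmax ih hinj h
    have hlt : ∀ x ∈ X, t x < t a := by
      intro x hx
      refine lt_of_le_of_ne (hmax x hx) ?_
      intro hxa
      have := hinj (by simp [hx]) (by simp) hxa
      exact ha (this ▸ hx)
    have hinj' : Set.InjOn t X := hinj.mono (by simp)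
    -- the value of `cnt` at `a`
    have hcnta : cnt (insert a X) t s (t a) = ((X.filter (fun r => s r = false)).card : ℤ) := by
      unfold cnt
      have h1 : ((insert a X).filter (fun r => s r = true ∧ t a < t r)) = ∅ := by
        apply Finset.filter_eq_empty_iff.mpr
        intro x hx hx2
        rcases Finset.mem_insert.mp hx with rfl | hx
        · exact lt_irrefl _ hx2.2
        · exact lt_asymm hx2.2 (hlt x hx)
      have h2 : ((insert a X).filter (fun r => s r = false ∧ t r < t a)) =
          X.filter (fun r => s r = false) := by
        ext x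
        simp only [Finset.mem_filter, Finset.mem_insert]
        constructor
        · rintro ⟨rfl | hx, h3, h4⟩
          · exact absurd h4 (lt_irrefl _)
          · exact ⟨hx, h3⟩
        · rintro ⟨hx, h3⟩
          exact ⟨Or.inr hx, h3, hlt x hx⟩
      rw [h1, h2]
      simp
    cases hsa : s a
    · -- sign `-`
      have hcnt : ∀ x ∈ X, cnt (insert a X) t s (t x) = cnt X t s (t x) := by
        intro x hx
        unfold cnt
        have h1 : ((insert a X).filter (fun r => s r = true ∧ t x < t r)) =
            X.filter (fun r => s r = true ∧ t x < t r) := by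
          rw [Finset.filter_insert, if_neg]
          simp [hsa]
        have h2 : ((insert a X).filter (fun r => s r = false ∧ t r < t x)) =
            X.filter (fun r => s r = false ∧ t r < t x) := by
          rw [Finset.filter_insert, if_neg]
          rintro ⟨_, h3⟩
          exact lt_asymm h3 (hlt x hx)
        rw [h1, h2]
      have hX : X.filter (fun q => cnt (insert a X) t s (t q) = h) =
          X.filter (fun q => cnt X t s (t q) = h) := by
        apply Finset.filter_congr
        intro x hx
        rw [hcnt x hx]
      have hc1 : (insert a X).filter (fun r => s r = true) = X.filter (fun r => s r = true) := by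
        rw [Finset.filter_insert, if_neg (by simp [hsa])]
      have hc2 : ((insert a X).filter (fun r => s r = false)).card =
          (X.filter (fun r => s r = false)).card + 1 := by
        rw [Finset.filter_insert, if_pos hsa, Finset.card_insert_of_notMem]
        simp [ha]
      rw [Finset.filter_insert, hcnta, hc1, hc2]
      have ih' := ih hinj' h
      push_cast
      split_ifs with h1 h2 h3 h4 h5
      all_goals first
        | (rw [Finset.sum_insert (by simp [ha]), hX, ih', hsa]
           simp only [Bool.false_eq_true, if_false]
           split_ifs <;> omega)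
        | (rw [hX, ih']
           split_ifs <;> omega)
    · -- sign `+`
      have hcnt : ∀ x ∈ X, cnt (insert a X) t s (t x) = cnt X t s (t x) + 1 := by
        intro x hx
        unfold cnt
        have h1 : ((insert a X).filter (fun r => s r = true ∧ t x < t r)).card =
            (X.filter (fun r => s r = true ∧ t x < t r)).card + 1 := by
          rw [Finset.filter_insert, if_pos ⟨hsa, hlt x hx⟩, Finset.card_insert_of_notMem]
          simp [ha]
        have h2 : ((insert a X).filter (fun r => s r = false ∧ t r < t x)) =
            X.filter (fun r => s r = false ∧ t r < t x) := by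
          rw [Finset.filter_insert, if_neg]
          simp [hsa]
        rw [h1, h2]
        push_cast
        ring
      have hX : X.filter (fun q => cnt (insert a X) t s (t q) = h) =
          X.filter (fun q => cnt X t s (t q) = h - 1) := by
        apply Finset.filter_congr
        intro x hx
        rw [hcnt x hx]
        constructor <;> intro <;> omega
      have hc1 : ((insert a X).filter (fun r => s r = true)).card =
          (X.filter (fun r => s r = true)).card + 1 := by
        rw [Finset.filter_insert, if_pos hsa, Finset.card_insert_of_notMem]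
        simp [ha]
      have hc2 : (insert a X).filter (fun r => s r = false) = X.filter (fun r => s r = false) := by
        rw [Finset.filter_insert, if_neg (by simp [hsa])]
      rw [Finset.filter_insert, hcnta, hc1, hc2]
      have ih' := ih hinj' (h - 1)
      push_cast
      split_ifs with h1 h2 h3 h4 h5
      all_goals first
        | (rw [Finset.sum_insert (by simp [ha]), hX, ih', hsa]
           simp only [if_true]
           split_ifs <;> omega)
        | (rw [hX, ih']
           split_ifs <;> omega)

/-! ### Elementary facts -/

lemma side_swap (p q r : ℝ × ℝ) : side q p r = - side p q r := by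
  unfold side; ring

lemma side_self_right (p q : ℝ × ℝ) : side p q q = 0 := by
  unfold side; ring

lemma side_self_left (p q : ℝ × ℝ) : side p q p = 0 := by
  unfold side; ring

lemma IsHalving.symm {P : Finset (ℝ × ℝ)} {p q : ℝ × ℝ} (h : IsHalving P p q) :
    IsHalving P q p := by
  obtain ⟨hp, hq, hne, h1, h2⟩ := h
  refine ⟨hq, hp, hne.symm, ?_, ?_⟩
  · have : {r | r ∈ P ∧ 0 < side q p r} = {r | r ∈ P ∧ side p q r < 0} := by
      ext r
      simp only [Set.mem_ofPred_eq, side_swap p q r]
      constructor <;> rintro ⟨h3, h4⟩ <;> exact ⟨h3, by linarith⟩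
    rw [this, h2]
  · have : {r | r ∈ P ∧ side q p r < 0} = {r | r ∈ P ∧ 0 < side p q r} := by
      ext r
      simp only [Set.mem_ofPred_eq, side_swap p q r]
      constructor <;> rintro ⟨h3, h4⟩ <;> exact ⟨h3, by linarith⟩
    rw [this, h1]

lemma isHalving_comm (P : Finset (ℝ × ℝ)) (p q : ℝ × ℝ) : IsHalving P p q ↔ IsHalving P q p :=
  ⟨IsHalving.symm, IsHalving.symm⟩

lemma ncard_eq_filter (P : Finset (ℝ × ℝ)) (Q : ℝ × ℝ → Prop) [DecidablePred Q] :
    {r | r ∈ P ∧ Q r}.ncard = (P.filter Q).card := by
  rw [← Set.ncard_coe_finset]
  congr 1
  ext r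
  simp

lemma side_ne_zero {P : Finset (ℝ × ℝ)} (hgp : GeneralPosition P) {p q r : ℝ × ℝ}
    (hp : p ∈ P) (hq : q ∈ P) (hr : r ∈ P) (hpq : p ≠ q) (hpr : p ≠ r) (hqr : q ≠ r) :
    side p q r ≠ 0 := by
  intro h0
  apply hgp p hp q hq r hr hpq hpr hqr
  rw [collinear_iff_of_mem (p₀ := p) (by simp)]
  refine ⟨q - p, ?_⟩
  unfold side at h0
  intro x hx
  simp only [Set.mem_insert_iff, Set.mem_singleton_iff] at hx
  rcases hx with rfl | rfl | rfl
  · exact ⟨0, by simp⟩
  · exact ⟨1, by simp⟩
  · by_cases h1 : q.1 - p.1 = 0
    · have h2 : q.2 - p.2 ≠ 0 := by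
        intro h2
        apply hpq
        ext
        · linarith
        · linarith
      refine ⟨(x.2 - p.2) / (q.2 - p.2), ?_⟩
      have h3 : x.1 - p.1 = 0 := by
        rw [h1] at h0
        have : (q.2 - p.2) * (x.1 - p.1) = 0 := by linarith
        rcases mul_eq_zero.mp this with h | h
        · exact absurd h h2
        · exact h
      ext
      · simp only [vadd_eq_add, Prod.fst_add, Prod.smul_fst, Prod.fst_sub, smul_eq_mul]
        rw [h1]; linarith
      · simp only [vadd_eq_add, Prod.snd_add, Prod.smul_snd, Prod.snd_sub, smul_eq_mul]
        field_simp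
        ring
    · refine ⟨(x.1 - p.1) / (q.1 - p.1), ?_⟩
      ext
      · simp only [vadd_eq_add, Prod.fst_add, Prod.smul_fst, Prod.fst_sub, smul_eq_mul]
        field_simp
        ring
      · simp only [vadd_eq_add, Prod.snd_add, Prod.smul_snd, Prod.snd_sub, smul_eq_mul]
        field_simp
        linarith

/-- A linear form evaluated at `q - p`. -/
def lf (α β : ℝ) (p q : ℝ × ℝ) : ℝ := α * (q.1 - p.1) + β * (q.2 - p.2)

lemma lf_mul_side (α β : ℝ) (p q r : ℝ × ℝ) :
    lf α β p q * lf (-β) α p r - lf (-β) α p q * lf α β p r = (α ^ 2 + β ^ 2) * side p q r := by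
  unfold lf side; ring

lemma card_split {P : Finset (ℝ × ℝ)} (hgp : GeneralPosition P) {p q : ℝ × ℝ}
    (hp : p ∈ P) (hq : q ∈ P) (hpq : p ≠ q) :
    (P.filter (fun r => 0 < side p q r)).card + (P.filter (fun r => side p q r < 0)).card + 2 =
      P.card := by
  classical
  have h0 : (P.filter (fun r => side p q r = 0)) = {p, q} := by
    ext r
    simp only [Finset.mem_filter, Finset.mem_insert, Finset.mem_singleton]
    constructor
    · rintro ⟨hr, h0⟩
      by_contra hcon
      push Not at hcon
      exact side_ne_zero hgp hp hq hr hpq (Ne.symm hcon.1) (Ne.symm hcon.2) h0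
    · rintro (rfl | rfl)
      · exact ⟨hp, side_self_left _ _⟩
      · exact ⟨hq, side_self_right _ _⟩
  have h1 : (P.filter (fun r => side p q r = 0)).card = 2 := by
    rw [h0, Finset.card_pair hpq]
  have h2 := Finset.card_filter_add_card_filter_not (s := P) (fun r => 0 < side p q r)
  have h3 := Finset.card_filter_add_card_filter_not
    (s := P.filter (fun r => ¬ 0 < side p q r)) (fun r => side p q r < 0)
  rw [Finset.filter_filter, Finset.filter_filter] at h3
  have h4 : (P.filter (fun r => ¬ 0 < side p q r ∧ side p q r < 0)) =
      P.filter (fun r => side p q r < 0) := by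
    apply Finset.filter_congr
    intro r _
    constructor
    · exact fun h => h.2
    · exact fun h => ⟨by linarith, h⟩
  have h5 : (P.filter (fun r => ¬ 0 < side p q r ∧ ¬ side p q r < 0)) =
      P.filter (fun r => side p q r = 0) := by
    apply Finset.filter_congr
    intro r _
    constructor
    · rintro ⟨h, h'⟩
      exact le_antisymm (not_lt.mp h) (not_lt.mp h')
    · intro h
      rw [h]
      simp
  rw [h4, h5, h1] at h3
  omega

open Classical in
/-- **Local alternation lemma.** Let `p ∈ P` and let `lf α β p` be a linear form that does not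
vanish at the other points of `P` (so it describes a line through `p` missing the other points).
Then the numbers of halving neighbours of `p` on the two sides differ by exactly one (the side
with at least `|P|/2` points has one more). -/
lemma local_alternation {P : Finset (ℝ × ℝ)} (hgp : GeneralPosition P) (heven : Even P.card)
    {p : ℝ × ℝ} (hp : p ∈ P) (α β : ℝ) (hlf : ∀ q ∈ P, q ≠ p → lf α β p q ≠ 0) :
    (((P.filter (fun q => IsHalving P p q ∧ 0 < lf α β p q)).card : ℤ) -
      ((P.filter (fun q => IsHalving P p q ∧ lf α β p q < 0)).card : ℤ)) =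
      (if ((P.card / 2 : ℕ) : ℤ) - 1 < (((P.erase p).filter (fun r => 0 < lf α β p r)).card : ℤ)
        then 1 else 0) -
      (if ((P.card / 2 : ℕ) : ℤ) - 1 < (((P.erase p).filter (fun r => lf α β p r < 0)).card : ℤ)
        then 1 else 0) := by
  set X := P.erase p with hX
  set f : ℝ × ℝ → ℝ := fun q => lf α β p q with hf
  set g : ℝ × ℝ → ℝ := fun q => lf (-β) α p q with hg
  set t : ℝ × ℝ → ℝ := fun q => g q / f q with ht
  set s : ℝ × ℝ → Bool := fun q => decide (0 < f q) with hs
  have hXmem : ∀ q, q ∈ X ↔ q ≠ p ∧ q ∈ P := fun q => Finset.mem_erase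
  have hfne : ∀ q ∈ X, f q ≠ 0 := fun q hq => hlf q ((hXmem q).mp hq).2 ((hXmem q).mp hq).1
  -- the key relation between `side` and the slopes
  have hkey : ∀ q ∈ X, ∀ r ∈ X, (α ^ 2 + β ^ 2) * side p q r = f q * f r * (t r - t q) := by
    intro q hq r hr
    rw [← lf_mul_side]
    simp only [ht]
    have h1 := hfne q hq
    have h2 := hfne r hr
    simp only [hf, hg] at *
    field_simp
  by_cases hD : α ^ 2 + β ^ 2 = 0
  · have hα : α = 0 := by nlinarith [sq_nonneg α, sq_nonneg β]
    have hβ : β = 0 := by nlinarith [sq_nonneg α, sq_nonneg β]
    have hXe : X = ∅ := by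
      apply Finset.eq_empty_of_forall_notMem
      intro q hq
      apply hfne q hq
      simp [hf, lf, hα, hβ]
    have hz : ∀ q, lf α β p q = 0 := by
      intro q
      simp [lf, hα, hβ]
    simp [hz]
  have hDpos : 0 < α ^ 2 + β ^ 2 := lt_of_le_of_ne (by positivity) (Ne.symm hD)
  have hinj : Set.InjOn t X := by
    intro q hq r hr hqr
    by_contra hne
    have h1 := hkey q hq r hr
    rw [hqr, sub_self, mul_zero] at h1
    have h2 : side p q r = 0 := by
      rcases mul_eq_zero.mp h1 with h | h
      · exact absurd h hD
      · exact h
    have hq' := (hXmem q).mp hq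
    have hr' := (hXmem r).mp hr
    exact side_ne_zero hgp hp hq'.2 hr'.2 hq'.1.symm hr'.1.symm hne h2
  have hneg : ∀ q ∈ X, (s q = false ↔ f q < 0) := by
    intro q hq
    simp only [hs, decide_eq_false_iff_not, not_lt]
    exact ⟨fun h => lt_of_le_of_ne h (hfne q hq), le_of_lt⟩
  -- count on the appropriate side
  have hcount : ∀ q ∈ X, 0 < f q →
      ((P.filter (fun r => 0 < side p q r)).card : ℤ) = cnt X t s (t q) := by
    intro q hq hfq
    unfold cnt
    rw [← Nat.cast_add, ← Finset.card_union_of_disjoint]
    · congr 2
      ext r
      simp only [Finset.mem_filter, Finset.mem_union]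
      constructor
      · rintro ⟨hr, hside⟩
        have hrp : r ≠ p := by
          rintro rfl
          rw [side_self_left] at hside
          exact lt_irrefl _ hside
        have hrX : r ∈ X := (hXmem r).mpr ⟨hrp, hr⟩
        have h1 := hkey q hq r hrX
        have h2 : 0 < f q * f r * (t r - t q) := by rw [← h1]; positivity
        have h3 : 0 < f r * (t r - t q) := by
          rw [mul_assoc] at h2
          exact (mul_pos_iff_of_pos_left hfq).mp h2
        rcases lt_or_gt_of_ne (hfne r hrX) with h4 | h4
        · right
          refine ⟨hrX, (hneg r hrX).mpr h4, ?_⟩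
          by_contra hcon
          push Not at hcon
          nlinarith
        · left
          refine ⟨hrX, by simp [hs, h4], ?_⟩
          by_contra hcon
          push Not at hcon
          nlinarith
      · rintro (⟨hrX, h4, h5⟩ | ⟨hrX, h4, h5⟩)
        · have h6 : 0 < f r := by simpa [hs] using h4
          refine ⟨((hXmem r).mp hrX).2, ?_⟩
          have h1 := hkey q hq r hrX
          have h7 : 0 < f q * f r * (t r - t q) := by
            have : 0 < t r - t q := by linarith
            positivity
          rw [← h1] at h7
          exact (mul_pos_iff_of_pos_left hDpos).mp h7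
        · have h6 : f r < 0 := (hneg r hrX).mp h4
          refine ⟨((hXmem r).mp hrX).2, ?_⟩
          have h1 := hkey q hq r hrX
          have h7 : 0 < f q * f r * (t r - t q) := by
            have h8 : 0 < t q - t r := by linarith
            have h9 : 0 < f q * (-f r) * (t q - t r) := by
              have : 0 < - f r := by linarith
              positivity
            nlinarith
          rw [← h1] at h7
          exact (mul_pos_iff_of_pos_left hDpos).mp h7
    · rw [Finset.disjoint_left]
      intro r hr1 hr2
      simp only [Finset.mem_filter] at hr1 hr2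
      rw [hr1.2.1] at hr2
      exact absurd hr2.2.1 (by simp)
  have hcount' : ∀ q ∈ X, f q < 0 →
      ((P.filter (fun r => side p q r < 0)).card : ℤ) = cnt X t s (t q) := by
    intro q hq hfq
    unfold cnt
    rw [← Nat.cast_add, ← Finset.card_union_of_disjoint]
    · congr 2
      ext r
      simp only [Finset.mem_filter, Finset.mem_union]
      constructor
      · rintro ⟨hr, hside⟩
        have hrp : r ≠ p := by
          rintro rfl
          rw [side_self_left] at hside
          exact lt_irrefl _ hside
        have hrX : r ∈ X := (hXmem r).mpr ⟨hrp, hr⟩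
        have h1 := hkey q hq r hrX
        have h2 : f q * f r * (t r - t q) < 0 := by rw [← h1]; nlinarith
        have h3 : 0 < f r * (t r - t q) := by
          by_contra hcon
          push Not at hcon
          nlinarith
        rcases lt_or_gt_of_ne (hfne r hrX) with h4 | h4
        · right
          refine ⟨hrX, (hneg r hrX).mpr h4, ?_⟩
          by_contra hcon
          push Not at hcon
          nlinarith
        · left
          refine ⟨hrX, by simp [hs, h4], ?_⟩
          by_contra hcon
          push Not at hcon
          nlinarith
      · rintro (⟨hrX, h4, h5⟩ | ⟨hrX, h4, h5⟩)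
        · have h6 : 0 < f r := by simpa [hs] using h4
          refine ⟨((hXmem r).mp hrX).2, ?_⟩
          have h1 := hkey q hq r hrX
          have h7 : f q * f r * (t r - t q) < 0 := by
            have h8 : 0 < t r - t q := by linarith
            have h9 : 0 < (-f q) * f r * (t r - t q) := by
              have : 0 < - f q := by linarith
              positivity
            nlinarith
          rw [← h1] at h7
          by_contra hcon
          push Not at hcon
          nlinarith
        · have h6 : f r < 0 := (hneg r hrX).mp h4
          refine ⟨((hXmem r).mp hrX).2, ?_⟩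
          have h1 := hkey q hq r hrX
          have h7 : f q * f r * (t r - t q) < 0 := by
            have h8 : 0 < t q - t r := by linarith
            have h9 : 0 < (-f q) * (-f r) * (t q - t r) := by
              have h10 : 0 < - f r := by linarith
              have h11 : 0 < - f q := by linarith
              positivity
            nlinarith
          rw [← h1] at h7
          by_contra hcon
          push Not at hcon
          nlinarith
    · rw [Finset.disjoint_left]
      intro r hr1 hr2
      simp only [Finset.mem_filter] at hr1 hr2
      rw [hr1.2.1] at hr2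
      exact absurd hr2.2.1 (by simp)
  obtain ⟨m, hm⟩ := heven
  have hhalf : P.card / 2 = m := by omega
  -- halving neighbours are those whose count is `m - 1`
  have hhalv : ∀ q ∈ X, (IsHalving P p q ↔ cnt X t s (t q) = (m : ℤ) - 1) := by
    intro q hq
    have hq' := (hXmem q).mp hq
    have hsplit := card_split hgp hp hq'.2 hq'.1.symm
    unfold IsHalving
    rw [ncard_eq_filter, ncard_eq_filter, hhalf]
    rcases lt_or_gt_of_ne (hfne q hq) with h | h
    · have h1 := hcount' q hq h
      constructor
      · rintro ⟨_, _, _, h2, h3⟩
        omega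
      · intro h2
        refine ⟨hp, hq'.2, hq'.1.symm, ?_, ?_⟩ <;> omega
    · have h1 := hcount q hq h
      constructor
      · rintro ⟨_, _, _, h2, h3⟩
        omega
      · intro h2
        refine ⟨hp, hq'.2, hq'.1.symm, ?_, ?_⟩ <;> omega
  have htele := tele t s X hinj ((m : ℤ) - 1)
  rw [hhalf]
  have hr1 : (X.filter (fun r => s r = true)) = X.filter (fun r => 0 < lf α β p r) := by
    apply Finset.filter_congr
    intro r _
    simp [hs, hf]
  have hr2 : (X.filter (fun r => s r = false)) = X.filter (fun r => lf α β p r < 0) := by
    apply Finset.filter_congr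
    intro r hr
    exact hneg r hr
  rw [hr1, hr2] at htele
  rw [← htele]
  rw [← Finset.sum_filter_add_sum_filter_not _ (fun q => s q = true)]
  have e1 : (∑ q ∈ (X.filter (fun q => cnt X t s (t q) = (m : ℤ) - 1)).filter (fun q => s q = true),
      (if s q = true then (1 : ℤ) else -1)) =
      ((P.filter (fun q => IsHalving P p q ∧ 0 < lf α β p q)).card : ℤ) := by
    rw [Finset.sum_congr rfl (g := fun _ => (1 : ℤ))]
    · rw [Finset.sum_const, nsmul_eq_mul, mul_one]
      congr 2
      ext q
      simp only [Finset.mem_filter]
      constructor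
      · rintro ⟨⟨h1, h2⟩, h3⟩
        exact ⟨((hXmem q).mp h1).2, (hhalv q h1).mpr h2, by simpa [hs, hf] using h3⟩
      · rintro ⟨h1, h2, h3⟩
        have hqX : q ∈ X := (hXmem q).mpr ⟨h2.2.2.1.symm, h1⟩
        exact ⟨⟨hqX, (hhalv q hqX).mp h2⟩, by simpa [hs, hf] using h3⟩
    · intro q hq
      simp only [Finset.mem_filter] at hq
      rw [if_pos hq.2]
  have e2 : (∑ q ∈ (X.filter (fun q => cnt X t s (t q) = (m : ℤ) - 1)).filter
      (fun q => ¬ s q = true), (if s q = true then (1 : ℤ) else -1)) =
      - ((P.filter (fun q => IsHalving P p q ∧ lf α β p q < 0)).card : ℤ) := by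
    rw [Finset.sum_congr rfl (g := fun _ => (-1 : ℤ))]
    · rw [Finset.sum_const, nsmul_eq_mul, mul_neg, mul_one]
      congr 3
      ext q
      simp only [Finset.mem_filter]
      constructor
      · rintro ⟨⟨h1, h2⟩, h3⟩
        exact ⟨((hXmem q).mp h1).2, (hhalv q h1).mpr h2, (hneg q h1).mp (by simpa using h3)⟩
      · rintro ⟨h1, h2, h3⟩
        have hqX : q ∈ X := (hXmem q).mpr ⟨h2.2.2.1.symm, h1⟩
        refine ⟨⟨hqX, (hhalv q hqX).mp h2⟩, ?_⟩
        rw [(hneg q hqX).mpr h3]
        simp
    · intro q hq
      simp only [Finset.mem_filter] at hq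
      rw [if_neg hq.2]
  rw [e1, e2]
  ring

end Pool.Agent.Work.MP_e17eac_co
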