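import Mathlib
import Pool.Agent.Work.MP_e17eac_co.Bd.B05

/-!
# From lines to points in general position (item C)
-/

set_option autoImplicit false

namespace Pool.Agent.Work.MP_e17eac_co.HL

open Finset Filter Topology

lemma side_eq_zero_of_collinear {p q r : ℝ × ℝ} (h : Collinear ℝ {p, q, r}) : side p q r = 0 := by
  rw [collinear_iff_of_mem (p₀ := p) (by simp)] at h
  obtain ⟨v, hv⟩ := h
  obtain ⟨a, ha⟩ := hv q (by simp)
  obtain ⟨b, hb⟩ := hv r (by simp)
  have e1 : q.1 = a * v.1 + p.1 := by rw [ha]; simp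
  have e2 : q.2 = a * v.2 + p.2 := by rw [ha]; simp
  have e3 : r.1 = b * v.1 + p.1 := by rw [hb]; simp
  have e4 : r.2 = b * v.2 + p.2 := by rw [hb]; simp
  unfold side
  rw [e1, e2, e3, e4]
  ring

open Classical in
lemma bisectors_finite (P : Finset (ℝ × ℝ)) : (bisectors P).Finite := by
  set T : Finset ((ℝ × ℝ) × (ℝ × ℝ)) := (P ×ˢ P).filter (fun x => IsHalving P x.1 x.2) with hT
  set F : (ℝ × ℝ) × (ℝ × ℝ) → AffineSubspace ℝ (ℝ × ℝ) := fun x => affineSpan ℝ {x.1, x.2} with hF
  have himg : bisectors P = (T.image F : Finset _) := by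
    ext l
    simp only [bisectors, Set.mem_ofPred_eq, Finset.coe_image, Set.mem_image, Finset.mem_coe, hT,
      Finset.mem_filter, Finset.mem_product, hF]
    constructor
    · rintro ⟨p, q, h, rfl⟩
      exact ⟨(p, q), ⟨⟨h.1, h.2.1⟩, h⟩, rfl⟩
    · rintro ⟨x, ⟨_, h⟩, rfl⟩
      exact ⟨x.1, x.2, h, rfl⟩
  rw [himg]
  exact Finset.finite_toSet _

/-- A nonzero real polynomial does not vanish at small positive reals. -/
lemma eventually_eval_ne {Q : Polynomial ℝ} (hQ : Q ≠ 0) :
    ∀ᶠ t in 𝓝[>] (0 : ℝ), Q.eval t ≠ 0 := by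
  have hfin : {t : ℝ | Q.IsRoot t}.Finite := Polynomial.finite_setOfPred_isRoot hQ
  have hcl : IsClosed ({t : ℝ | Q.IsRoot t} \ {0}) := (hfin.subset Set.sdiff_subset).isClosed
  have h0 : ({t : ℝ | Q.IsRoot t} \ {0})ᶜ ∈ 𝓝 (0 : ℝ) := hcl.isOpen_compl.mem_nhds (by simp)
  filter_upwards [mem_nhdsWithin_of_mem_nhds h0, self_mem_nhdsWithin] with t ht ht0 hroot
  apply ht
  refine ⟨hroot, ?_⟩
  simp only [Set.mem_singleton_iff]
  exact ne_of_gt ht0

lemma eventually_poly4_ne {a0 a1 a2 a3 a4 : ℝ} (h : a4 ≠ 0) :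
    ∀ᶠ t in 𝓝[>] (0 : ℝ), a0 + a1 * t + a2 * t ^ 2 + a3 * t ^ 3 + a4 * t ^ 4 ≠ 0 := by
  have hQ : (Polynomial.C a0 + Polynomial.C a1 * Polynomial.X + Polynomial.C a2 * Polynomial.X ^ 2
      + Polynomial.C a3 * Polynomial.X ^ 3 + Polynomial.C a4 * Polynomial.X ^ 4) ≠ 0 := by
    intro h0
    apply h
    have := congrArg (fun Q : Polynomial ℝ => Q.coeff 4) h0
    simpa [Polynomial.coeff_X, Polynomial.coeff_C, Polynomial.coeff_X_pow] using this
  filter_upwards [eventually_eval_ne hQ] with t ht
  simpa using ht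

lemma eventually_poly2_ne {a0 a1 a2 : ℝ} (h : a2 ≠ 0) :
    ∀ᶠ t in 𝓝[>] (0 : ℝ), a0 + a1 * t + a2 * t ^ 2 ≠ 0 := by
  have hQ : (Polynomial.C a0 + Polynomial.C a1 * Polynomial.X
      + Polynomial.C a2 * Polynomial.X ^ 2) ≠ 0 := by
    intro h0
    apply h
    have := congrArg (fun Q : Polynomial ℝ => Q.coeff 2) h0
    simpa [Polynomial.coeff_X, Polynomial.coeff_C, Polynomial.coeff_X_pow] using this
  filter_upwards [eventually_eval_ne hQ] with t ht
  simpa using ht

lemma sum_sg_eq {ι : Type} [Fintype ι] (f : ι → ℝ) :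
    ∑ k, sg (f k) = ((univ.filter (fun k => 0 < f k)).card : ℤ)
      - ((univ.filter (fun k => f k < 0)).card : ℤ) := by
  rw [Finset.card_filter, Finset.card_filter]
  push_cast
  rw [← Finset.sum_sub_distrib]
  refine Finset.sum_congr rfl fun k _ => ?_
  rcases lt_trichotomy (f k) 0 with h | h | h
  · rw [sg_of_neg h, if_neg (not_lt.mpr h.le), if_pos h]; norm_num
  · simp [h]
  · rw [sg_of_pos h, if_pos h, if_neg (not_lt.mpr h.le)]; norm_num

/-- Perturbed point. -/
def pert {ι : Type} (m c α β κ : ι → ℝ) (t : ℝ) (k : ι) : ℝ × ℝ :=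
  (m k + t * α k + t ^ 2 * κ k, c k + t * β k + t ^ 2 * κ k ^ 2)

lemma pert_side_ne {ι : Type} (m c α β κ : ι → ℝ) (hκ : Function.Injective κ) {i j l : ι}
    (hij : i ≠ j) (hil : i ≠ l) (hjl : j ≠ l) :
    ∀ᶠ t in 𝓝[>] (0 : ℝ),
      side (pert m c α β κ t i) (pert m c α β κ t j) (pert m c α β κ t l) ≠ 0 := by
  have h4 : (κ j - κ i) * (κ l - κ i) * (κ l - κ j) ≠ 0 := by
    refine mul_ne_zero (mul_ne_zero ?_ ?_) ?_
    · exact sub_ne_zero.mpr fun h => hij (hκ h).symm
    · exact sub_ne_zero.mpr fun h => hil (hκ h).symm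
    · exact sub_ne_zero.mpr fun h => hjl (hκ h).symm
  filter_upwards [eventually_poly4_ne
    (a0 := (m j - m i) * (c l - c i) - (c j - c i) * (m l - m i))
    (a1 := (m j - m i) * (β l - β i) + (α j - α i) * (c l - c i)
      - (c j - c i) * (α l - α i) - (β j - β i) * (m l - m i))
    (a2 := (m j - m i) * (κ l ^ 2 - κ i ^ 2) + (α j - α i) * (β l - β i)
      + (κ j - κ i) * (c l - c i) - (c j - c i) * (κ l - κ i) - (β j - β i) * (α l - α i)
      - (κ j ^ 2 - κ i ^ 2) * (m l - m i))
    (a3 := (α j - α i) * (κ l ^ 2 - κ i ^ 2) + (κ j - κ i) * (β l - β i)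
      - (β j - β i) * (κ l - κ i) - (κ j ^ 2 - κ i ^ 2) * (α l - α i)) h4] with t ht
  convert ht using 1
  unfold side pert
  ring

lemma pert_ne {ι : Type} (m c α β κ : ι → ℝ) (hκ : Function.Injective κ) {i j : ι}
    (hij : i ≠ j) :
    ∀ᶠ t in 𝓝[>] (0 : ℝ), pert m c α β κ t i ≠ pert m c α β κ t j := by
  have h2 : κ j - κ i ≠ 0 := sub_ne_zero.mpr fun h => hij (hκ h).symm
  filter_upwards [eventually_poly2_ne (a0 := m j - m i) (a1 := α j - α i) h2] with t ht h
  apply ht
  have h1 := congrArg Prod.fst h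
  simp only [pert] at h1
  linarith

lemma pert_sum_generic {ι : Type} [Fintype ι] (m c α β κ : ι → ℝ) {i j : ι} {x : ℝ}
    (hb : IsBal m c i j x) (hm : m i ≠ m j) :
    ∀ᶠ t in 𝓝[>] (0 : ℝ),
      ∑ l, sg (side (pert m c α β κ t i) (pert m c α β κ t j) (pert m c α β κ t l)) = 0 := by
  have hval : m j * x + c j = m i * x + c i := (hb.zero_iff j).mpr (Or.inr rfl)
  have hall : ∀ l, ∀ᶠ t in 𝓝[>] (0 : ℝ),
      sg (side (pert m c α β κ t i) (pert m c α β κ t j) (pert m c α β κ t l)) =
        sg ((m j - m i) * (m l * x + c l - (m i * x + c i))) := by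
    intro l
    by_cases hl : l = i ∨ l = j
    · have h1 : m l * x + c l - (m i * x + c i) = 0 := sub_eq_zero.mpr ((hb.zero_iff l).mpr hl)
      refine Eventually.of_forall fun t => ?_
      rw [h1, mul_zero]
      rcases hl with rfl | rfl
      · rw [side_self_left]
      · rw [side_self_right]
    · have h1 : m l * x + c l - (m i * x + c i) ≠ 0 :=
        sub_ne_zero.mpr fun h => hl ((hb.zero_iff l).mp h)
      have h2 : (m j - m i) * (m l * x + c l - (m i * x + c i)) ≠ 0 :=
        mul_ne_zero (sub_ne_zero.mpr (Ne.symm hm)) h1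
      refine eventually_sg_eq ?_ h2
      have hcont : Continuous fun t : ℝ =>
          side (pert m c α β κ t i) (pert m c α β κ t j) (pert m c α β κ t l) := by
        unfold side pert
        fun_prop
      have h3 : side (pert m c α β κ 0 i) (pert m c α β κ 0 j) (pert m c α β κ 0 l) =
          (m j - m i) * (m l * x + c l - (m i * x + c i)) := by
        unfold side pert
        have h4 : c j - c i = - (m j - m i) * x := by linarith
        linear_combination -(m l - m i) * h4
      rw [← h3]
      exact hcont.continuousAt.mono_left nhdsWithin_le_nhds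
  filter_upwards [eventually_all.mpr hall] with t ht
  rw [Finset.sum_congr rfl fun l _ => ht l]
  rcases lt_or_gt_of_ne (sub_ne_zero.mpr (Ne.symm hm)) with h | h
  · have h5 : ∀ l, sg ((m j - m i) * (m l * x + c l - (m i * x + c i))) =
        - sg (m l * x + c l - (m i * x + c i)) := by
      intro l
      rw [← sg_neg, ← sg_mul_pos (a := -(m j - m i)) (by linarith)
        (r := -(m l * x + c l - (m i * x + c i)))]
      congr 1
      ring
    rw [Finset.sum_congr rfl fun l _ => h5 l, Finset.sum_neg_distrib, hb.sum, neg_zero]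
  · rw [Finset.sum_congr rfl fun l _ => sg_mul_pos h, hb.sum]

lemma pert_sum_degenerate {ι : Type} [Fintype ι] (m c α β κ : ι → ℝ) {i j : ι} {x : ℝ}
    (hb : IsBal m c i j x) (hm : m i = m j) (hαj : α j = 1) (hβj : β j = -x) (hαi : α i = 0)
    (hβi : β i = 0) :
    ∀ᶠ t in 𝓝[>] (0 : ℝ),
      ∑ l, sg (side (pert m c α β κ t i) (pert m c α β κ t j) (pert m c α β κ t l)) = 0 := by
  have hval : m j * x + c j = m i * x + c i := (hb.zero_iff j).mpr (Or.inr rfl)
  have hc : c j = c i := by rw [hm] at hval; linarith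
  let g : ι → ℝ → ℝ := fun l t =>
    (1 + t * (κ j - κ i)) * ((pert m c α β κ t l).2 - (pert m c α β κ t i).2)
      - (-x + t * (κ j ^ 2 - κ i ^ 2)) * ((pert m c α β κ t l).1 - (pert m c α β κ t i).1)
  have hside : ∀ l t, side (pert m c α β κ t i) (pert m c α β κ t j) (pert m c α β κ t l) =
      t * g l t := by
    intro l t
    simp only [g]
    unfold side
    have h1 : (pert m c α β κ t j).1 - (pert m c α β κ t i).1 = t * (1 + t * (κ j - κ i)) := by
      simp only [pert, hαj, hαi, hm]; ring
    have h2 : (pert m c α β κ t j).2 - (pert m c α β κ t i).2 =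
        t * (-x + t * (κ j ^ 2 - κ i ^ 2)) := by
      simp only [pert, hβj, hβi, hc]; ring
    rw [h1, h2]
    ring
  have hall : ∀ l, ∀ᶠ t in 𝓝[>] (0 : ℝ),
      sg (side (pert m c α β κ t i) (pert m c α β κ t j) (pert m c α β κ t l)) =
        sg (m l * x + c l - (m i * x + c i)) := by
    intro l
    by_cases hl : l = i ∨ l = j
    · have h1 : m l * x + c l - (m i * x + c i) = 0 := sub_eq_zero.mpr ((hb.zero_iff l).mpr hl)
      refine Eventually.of_forall fun t => ?_
      rw [h1]
      rcases hl with rfl | rfl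
      · rw [side_self_left]
      · rw [side_self_right]
    · have h1 : m l * x + c l - (m i * x + c i) ≠ 0 :=
        sub_ne_zero.mpr fun h => hl ((hb.zero_iff l).mp h)
      have hcont : Continuous (g l) := by
        simp only [g]
        unfold pert
        fun_prop
      have h3 : g l 0 = m l * x + c l - (m i * x + c i) := by
        simp only [g, pert]
        ring
      have h4 : Tendsto (g l) (𝓝[>] (0 : ℝ)) (𝓝 (m l * x + c l - (m i * x + c i))) := by
        rw [← h3]
        exact hcont.continuousAt.mono_left nhdsWithin_le_nhds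
      filter_upwards [eventually_sg_eq h4 h1, self_mem_nhdsWithin] with t ht ht0
      rw [hside, sg_mul_pos ht0, ht]
  filter_upwards [eventually_all.mpr hall] with t ht
  rw [Finset.sum_congr rfl fun l _ => ht l, hb.sum]

theorem claimPoints : ClaimPoints := by
  classical
  rintro n M ⟨ι, hι, m, c, E, hcard, hbal, hasym, hM⟩
  choose! xe hxe using hbal
  -- perturbation directions
  let D : ι → Prop := fun j => ∃ i, (i, j) ∈ E ∧ m i = m j
  let α : ι → ℝ := fun j => if D j then 1 else 0
  let β : ι → ℝ := fun j => if h : D j then -(xe (h.choose, j)) else 0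
  let κ : ι → ℝ := fun k => ((Fintype.equivFin ι k : ℕ) : ℝ)
  have hκ : Function.Injective κ := by
    intro a b hab
    simp only [κ, Nat.cast_inj] at hab
    exact (Fintype.equivFin ι).injective (Fin.ext hab)
  -- coincident lines
  have hcoin : ∀ i j, (i, j) ∈ E → m i = m j → ∀ k, m k = m i → c k = c i → k = i ∨ k = j := by
    intro i j he hm k hmk hck
    have hb : IsBal m c i j (xe (i, j)) := hxe _ he
    apply (hb.zero_iff k).mp
    rw [hmk, hck]
  have hcc : ∀ i j, (i, j) ∈ E → m i = m j → c j = c i := by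
    intro i j he hm
    have hb : IsBal m c i j (xe (i, j)) := hxe _ he
    have hval := (hb.zero_iff j).mpr (Or.inr rfl)
    rw [hm] at hval
    linarith
  have hDi : ∀ i j, (i, j) ∈ E → m i = m j → ¬ D i := by
    rintro i j he hm ⟨i', he', hm'⟩
    have hc1 := hcc i j he hm
    have hc2 := hcc i' i he' hm'
    rcases hcoin i j he hm i' hm' hc2.symm with h | h
    · subst h
      exact (hxe _ he').ne rfl
    · subst h
      exact hasym _ he he'
  have hsum : ∀ e ∈ E, ∀ᶠ t in 𝓝[>] (0 : ℝ),
      ∑ l, sg (side (pert m c α β κ t e.1) (pert m c α β κ t e.2) (pert m c α β κ t l)) = 0 := by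
    rintro ⟨i, j⟩ he
    have hb : IsBal m c i j (xe (i, j)) := hxe _ he
    by_cases hm : m i = m j
    · have hD : D j := ⟨i, he, hm⟩
      have hD' : ¬ D i := hDi i j he hm
      have hch : hD.choose = i := by
        obtain ⟨h1, h2⟩ := hD.choose_spec
        have h3 := hcc _ _ h1 h2
        have h4 := hcc _ _ he hm
        rcases hcoin i j he hm hD.choose (h2.trans hm.symm) (h3.symm.trans h4) with h | h
        · exact h
        · exfalso
          exact (hxe _ h1).ne h
      refine pert_sum_degenerate m c α β κ hb hm ?_ ?_ ?_ ?_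
      · simp only [α, if_pos hD]
      · simp only [β, dif_pos hD]
        rw [hch]
      · simp only [α, if_neg hD']
      · simp only [β, dif_neg hD']
    · exact pert_sum_generic m c α β κ hb hm
  have hsum' : ∀ᶠ t in 𝓝[>] (0 : ℝ), ∀ e ∈ E,
      ∑ l, sg (side (pert m c α β κ t e.1) (pert m c α β κ t e.2) (pert m c α β κ t l)) = 0 :=
    (Filter.eventually_all_finset E).mpr hsum
  have hgen : ∀ᶠ t in 𝓝[>] (0 : ℝ), ∀ i j l, i ≠ j → i ≠ l → j ≠ l →
      side (pert m c α β κ t i) (pert m c α β κ t j) (pert m c α β κ t l) ≠ 0 := by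
    refine eventually_all.mpr fun i => eventually_all.mpr fun j => eventually_all.mpr fun l => ?_
    by_cases hij : i = j
    · exact Eventually.of_forall fun t h => absurd hij h
    by_cases hil : i = l
    · exact Eventually.of_forall fun t _ h => absurd hil h
    by_cases hjl : j = l
    · exact Eventually.of_forall fun t _ _ h => absurd hjl h
    filter_upwards [pert_side_ne m c α β κ hκ hij hil hjl] with t ht _ _ _
    exact ht
  have hinj : ∀ᶠ t in 𝓝[>] (0 : ℝ), ∀ i j, i ≠ j → pert m c α β κ t i ≠ pert m c α β κ t j := by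
    refine eventually_all.mpr fun i => eventually_all.mpr fun j => ?_
    by_cases hij : i = j
    · exact Eventually.of_forall fun t h => absurd hij h
    filter_upwards [pert_ne m c α β κ hκ hij] with t ht _
    exact ht
  obtain ⟨t, ⟨h1, h2⟩, h3⟩ := ((hsum'.and hgen).and hinj).exists
  set p : ι → ℝ × ℝ := pert m c α β κ t with hp
  have hpinj : Function.Injective p := by
    intro i j hij
    by_contra hne
    exact h3 i j hne hij
  set P : Finset (ℝ × ℝ) := univ.image p with hP
  have hPcard : P.card = n := by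
    rw [hP, Finset.card_image_of_injective _ hpinj, Finset.card_univ, hcard]
  have hmemP : ∀ i, p i ∈ P := fun i => Finset.mem_image_of_mem p (Finset.mem_univ i)
  have hgp : GeneralPosition P := by
    intro a ha b hb' r hr hab har hbr hcol
    obtain ⟨i, _, rfl⟩ := Finset.mem_image.mp ha
    obtain ⟨j, _, rfl⟩ := Finset.mem_image.mp hb'
    obtain ⟨l, _, rfl⟩ := Finset.mem_image.mp hr
    exact h2 i j l (fun h => hab (by rw [h])) (fun h => har (by rw [h]))
      (fun h => hbr (by rw [h])) (side_eq_zero_of_collinear hcol)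
  have hhalv : ∀ e ∈ E, IsHalving P (p e.1) (p e.2) := by
    intro e he
    have hb := hxe e he
    have hne : p e.1 ≠ p e.2 := fun h => hb.ne (hpinj h)
    have hs := h1 e he
    rw [sum_sg_eq] at hs
    have hsplit := card_split hgp (hmemP e.1) (hmemP e.2) hne
    have c1 : (P.filter (fun r => 0 < side (p e.1) (p e.2) r)).card =
        (univ.filter (fun l => 0 < side (p e.1) (p e.2) (p l))).card := by
      rw [hP, Finset.filter_image, Finset.card_image_of_injective _ hpinj]
    have c2 : (P.filter (fun r => side (p e.1) (p e.2) r < 0)).card =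
        (univ.filter (fun l => side (p e.1) (p e.2) (p l) < 0)).card := by
      rw [hP, Finset.filter_image, Finset.card_image_of_injective _ hpinj]
    have hs' : (univ.filter (fun l => 0 < side (p e.1) (p e.2) (p l))).card =
        (univ.filter (fun l => side (p e.1) (p e.2) (p l) < 0)).card := by
      have := sub_eq_zero.mp hs
      exact_mod_cast this
    refine ⟨hmemP _, hmemP _, hne, ?_, ?_⟩
    · rw [ncard_eq_filter]; omega
    · rw [ncard_eq_filter]; omega
  refine ⟨P, hPcard, hgp, bisectors_finite P, ?_⟩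
  set F : ι × ι → AffineSubspace ℝ (ℝ × ℝ) := fun e => affineSpan ℝ {p e.1, p e.2} with hF
  have hmem : ∀ e ∈ E, ∀ k, p k ∈ F e → k = e.1 ∨ k = e.2 := by
    intro e he k hk
    by_contra hcon
    push Not at hcon
    have hcol : Collinear ℝ {p k, p e.1, p e.2} := collinear_insert_of_mem_affineSpan_pair hk
    exact h2 k e.1 e.2 hcon.1 hcon.2 (hxe e he).ne (side_eq_zero_of_collinear hcol)
  have hFinj : Set.InjOn F E := by
    rintro e he e' he' hee
    have he1 : p e'.1 ∈ F e := by
      rw [hee]
      exact left_mem_affineSpan_pair ℝ _ _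
    have he2 : p e'.2 ∈ F e := by
      rw [hee]
      exact right_mem_affineSpan_pair ℝ _ _
    have hne' := (hxe e' he').ne
    rcases hmem e he _ he1 with h4 | h4 <;> rcases hmem e he _ he2 with h5 | h5
    · exact absurd (h4.trans h5.symm) hne'
    · exact (Prod.ext h4 h5).symm
    · exfalso
      apply hasym e he
      have : (e.2, e.1) = e' := Prod.ext h4.symm h5.symm
      rw [this]
      exact he'
    · exact absurd (h4.trans h5.symm) hne'
  calc M ≤ E.card := hM
    _ = (E.image F).card := (Finset.card_image_of_injOn hFinj).symm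
    _ = ((E.image F : Finset _) : Set (AffineSubspace ℝ (ℝ × ℝ))).ncard :=
      (Set.ncard_coe_finset _).symm
    _ ≤ (bisectors P).ncard := by
      apply Set.ncard_le_ncard _ (bisectors_finite P)
      intro l hl
      obtain ⟨e, he, rfl⟩ := Finset.mem_image.mp (Finset.mem_coe.mp hl)
      exact ⟨p e.1, p e.2, hhalv e he, rfl⟩

end Pool.Agent.Work.MP_e17eac_co.HL
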