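import Pool.Agent.Work.MP_e17eac_co.Bd.B05

/-!
# The numerical consequence of the unit arrangements and the composition theorem
-/

set_option autoImplicit false

namespace Pool.Agent.Work.MP_e17eac_co.HL

open Finset

/-- Bernoulli: a `t`-th power of a number close to `b`. -/
lemma sparse_bernoulli {b b' t p : ℕ} (hb : b' + p = b) (hb0 : 0 < b) (h : 2 * (t * p) ≤ b) :
    b ^ t ≤ 2 * b' ^ t := by
  have hbr : (0 : ℝ) < b := by exact_mod_cast hb0
  have hpb : (p : ℝ) ≤ b := by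
    have : p ≤ b := by omega
    exact_mod_cast this
  have h1 : (-2 : ℝ) ≤ -((p : ℝ) / b) := by
    have : (p : ℝ) / b ≤ 1 := (div_le_one hbr).2 hpb
    linarith
  have h2 := one_add_mul_le_pow h1 t
  have h3 : (1 : ℝ) + -((p : ℝ) / b) = (b' : ℝ) / b := by
    have : (b : ℝ) = b' + p := by exact_mod_cast hb.symm
    field_simp
    linarith
  rw [h3, div_pow] at h2
  have h4 : (t : ℝ) * ((p : ℝ) / b) ≤ 1 / 2 := by
    rw [mul_div_assoc', div_le_iff₀ hbr]
    have : (2 : ℝ) * (t * p) ≤ b := by exact_mod_cast h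
    linarith
  have h5 : (1 / 2 : ℝ) ≤ (b' : ℝ) ^ t / (b : ℝ) ^ t := by nlinarith
  rw [le_div_iff₀ (pow_pos hbr t)] at h5
  have h6 : (b : ℝ) ^ t ≤ 2 * (b' : ℝ) ^ t := by linarith
  exact_mod_cast h6

lemma sparse_choose (q : ℕ) : 2 * q.choose 2 + q = q ^ 2 := by
  rcases Nat.eq_zero_or_pos q with rfl | hq
  · rfl
  · rw [Nat.choose_two_right, Nat.mul_div_cancel' (Nat.even_mul_pred_self q).two_dvd]
    obtain ⟨k, rfl⟩ : ∃ k, q = k + 1 := ⟨q - 1, by omega⟩
    simp only [Nat.add_sub_cancel]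
    ring

theorem claimSparse (hA : ClaimUnit) (hB : ClaimComp) : ClaimSparse := by
  intro q hq
  obtain ⟨U, hJ, hX, hpos, hg, hw⟩ := hA q hq
  set g := Fintype.card U.K with hgdef
  set w := U.S.card * (2 * 4 ^ q + 1) with hwdef
  set P := 2 ^ q * 4 ^ q with hP
  set t := q.choose 2 with ht
  have hP0 : 0 < P := by positivity
  have hq2 : 1 ≤ q ^ 2 := Nat.one_le_pow _ _ hq
  have ht2 : 2 * t + q = q ^ 2 := sparse_choose q
  have hB1 : 2 * U.Xm * U.J ≤ 4 * P * q ^ 2 := by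
    rw [hJ, hX]
    calc 2 * 2 ^ q * 4 ^ q = 2 * P * 1 := by rw [hP]; ring
      _ ≤ 4 * P * q ^ 2 := Nat.mul_le_mul (by omega) hq2
  have hB2 : U.J ≤ 4 * P * q ^ 2 := by
    rw [hJ]
    calc 4 ^ q = 1 * 4 ^ q * 1 := by ring
      _ ≤ (4 * 2 ^ q) * 4 ^ q * q ^ 2 := by
        refine Nat.mul_le_mul (Nat.mul_le_mul_right _ ?_) hq2
        have : 0 < 2 ^ q := by positivity
        omega
      _ = 4 * P * q ^ 2 := by rw [hP]; ring
  have hR := hB U (4 * P * q ^ 2) hB1 hB2 q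
  have hXJ : 2 * U.Xm * U.J = 2 * P := by rw [hJ, hX, hP]; ring
  rw [hJ, ← hwdef] at hR
  rw [hX] at hR
  have hXJ' : 2 * 2 ^ q * 4 ^ q = 2 * P := by rw [hP]; ring
  rw [hXJ'] at hR
  set b := 2 * (4 * P * q ^ 2) + 1 with hb
  set b' := 2 * (4 * P * q ^ 2 - 2 * P) + 1 with hb'
  have hPq : P ≤ P * q ^ 2 := Nat.le_mul_of_pos_right _ (by omega)
  have hbb : b' + 4 * P = b := by omega
  have htb : 2 * (t * (4 * P)) ≤ b := by
    have h1 : t * P ≤ q ^ 2 * P := Nat.mul_le_mul_right _ (by omega)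
    have h2 : q ^ 2 * P = P * q ^ 2 := Nat.mul_comm _ _
    have h3 : 2 * (t * (4 * P)) = 8 * (t * P) := by ring
    have h4 : b = 8 * (P * q ^ 2) + 1 := by rw [hb]; ring
    omega
  have hbern : b ^ t ≤ 2 * b' ^ t := sparse_bernoulli hbb (by omega) htb
  refine ⟨_, _, hR, ?_, ?_, ?_, ?_⟩
  · rw [mul_assoc]
    exact even_two_mul _
  · positivity
  · have hbp : b ≤ 2 ^ (5 * q + 4) := by
      have h1 : q ^ 2 ≤ 4 ^ q := by
        have : q < 2 ^ q := Nat.lt_two_pow_self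
        calc q ^ 2 ≤ (2 ^ q) ^ 2 := Nat.pow_le_pow_left this.le 2
          _ = 4 ^ q := by rw [← pow_mul, mul_comm, pow_mul]; norm_num
      have h2 : P * q ^ 2 ≤ 2 ^ (5 * q) := by
        calc P * q ^ 2 ≤ P * 4 ^ q := Nat.mul_le_mul_left _ h1
          _ = 2 ^ (5 * q) := by
            rw [hP, show (4 : ℕ) = 2 ^ 2 by norm_num, ← pow_mul, ← pow_add, ← pow_add]
            congr 1
            ring
      have h3 : b = 8 * (P * q ^ 2) + 1 := by rw [hb]; ring
      have h4 : 2 ^ (5 * q + 4) = 16 * 2 ^ (5 * q) := by rw [pow_add]; ring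
      have h5 : 0 < 2 ^ (5 * q) := by positivity
      omega
    calc 2 * g ^ q * b ^ t
        ≤ 2 * (2 ^ (q ^ 2 + 4 * q + 2)) ^ q * (2 ^ (5 * q + 4)) ^ t :=
          Nat.mul_le_mul (Nat.mul_le_mul_left _ (Nat.pow_le_pow_left hg q))
            (Nat.pow_le_pow_left hbp t)
      _ = 2 ^ (1 + (q ^ 2 + 4 * q + 2) * q + (5 * q + 4) * t) := by
          rw [← pow_mul, ← pow_mul, pow_add, pow_add, pow_one]
      _ ≤ 2 ^ (13 * q ^ 3) := by
          refine Nat.pow_le_pow_right (by norm_num) ?_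
          have h1 : 2 * ((5 * q + 4) * t) ≤ (5 * q + 4) * q ^ 2 := by
            calc 2 * ((5 * q + 4) * t) = (5 * q + 4) * (2 * t) := by ring
              _ ≤ (5 * q + 4) * q ^ 2 := Nat.mul_le_mul_left _ (by omega)
          have h2 : q ^ 2 ≤ q ^ 3 := Nat.pow_le_pow_right hq (by norm_num)
          have h3 : q ≤ q ^ 2 := Nat.le_self_pow (by norm_num) q
          have h4 : (5 * q + 4) * q ^ 2 = 5 * q ^ 3 + 4 * q ^ 2 := by ring
          have h5 : (q ^ 2 + 4 * q + 2) * q = q ^ 3 + 4 * q ^ 2 + 2 * q := by ring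
          omega
  · have h8 : (8 : ℕ) ^ q = 2 ^ (3 * q) := by rw [pow_mul]; norm_num
    calc 2 * g ^ q * b ^ t * 2 ^ q ^ 2
        = 2 * (2 ^ q * g) ^ q * b ^ t := by
          rw [mul_pow, ← pow_mul, ← pow_two]
          ring
      _ ≤ 2 * (8 * w) ^ q * (2 * b' ^ t) :=
          Nat.mul_le_mul (Nat.mul_le_mul_left _ (Nat.pow_le_pow_left hw q)) hbern
      _ = 2 ^ (3 * q + 2) * (w ^ q * b' ^ t) := by
          rw [mul_pow, h8, pow_add]
          ring

end Pool.Agent.Work.MP_e17eac_co.HL
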