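import Pool.Agent.Work.MP_e17eac_co.Bd.B05

/-!
# Item A: unit arrangements by plain stages
-/

set_option autoImplicit false

namespace Pool.Agent.Work.MP_e17eac_co.HL

open Finset Filter Topology

namespace HU

/-- Index set of the parallel copies. -/
abbrev Idx (A : ℕ) : Type := {i : ℤ // i ∈ Finset.Icc (-(A : ℤ)) A}

lemma card_idx (A : ℕ) : Fintype.card (Idx A) = 2 * A + 1 := by
  rw [Fintype.card_coe, Int.card_Icc]; omega

lemma idx_le {A : ℕ} (i : Idx A) : -(A : ℤ) ≤ i.1 ∧ i.1 ≤ A := Finset.mem_Icc.1 i.2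

/-- The opposite index. -/
def ng {A : ℕ} (i : Idx A) : Idx A :=
  ⟨-i.1, by have := idx_le i; rw [Finset.mem_Icc]; omega⟩

lemma sum_gt_lt (A : ℕ) (i : ℤ) (h1 : -(A : ℤ) ≤ i) (h2 : i ≤ A) :
    ∑ j ∈ Finset.Icc (-(A : ℤ)) A, (if i < j then (1 : ℤ) else if j < i then -1 else 0)
      = -2 * i := by
  have e : ∀ j : ℤ, (if i < j then (1 : ℤ) else if j < i then -1 else 0)
      = (if i < j then (1 : ℤ) else 0) - (if j < i then 1 else 0) := by
    intro j; split_ifs <;> omega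
  simp_rw [e]
  rw [Finset.sum_sub_distrib, Finset.sum_boole, Finset.sum_boole]
  have f1 : (Finset.Icc (-(A : ℤ)) A).filter (fun j => i < j) = Finset.Ioc i A := by
    ext j; simp only [Finset.mem_filter, Finset.mem_Icc, Finset.mem_Ioc]; omega
  have f2 : (Finset.Icc (-(A : ℤ)) A).filter (fun j => j < i) = Finset.Ico (-(A : ℤ)) i := by
    ext j; simp only [Finset.mem_filter, Finset.mem_Icc, Finset.mem_Ico]; omega
  rw [f1, f2, Int.card_Ioc, Int.card_Ico]
  omega

lemma sum_gt_le (A : ℕ) (i : ℤ) (h1 : -(A : ℤ) ≤ i) (h2 : i ≤ A) :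
    ∑ j ∈ Finset.Icc (-(A : ℤ)) A, (if i < j then (1 : ℤ) else -1) = -2 * i - 1 := by
  have e : ∀ j : ℤ, (if i < j then (1 : ℤ) else -1)
      = (if i < j then (1 : ℤ) else 0) - (if j ≤ i then 1 else 0) := by
    intro j; split_ifs <;> omega
  simp_rw [e]
  rw [Finset.sum_sub_distrib, Finset.sum_boole, Finset.sum_boole]
  have f1 : (Finset.Icc (-(A : ℤ)) A).filter (fun j => i < j) = Finset.Ioc i A := by
    ext j; simp only [Finset.mem_filter, Finset.mem_Icc, Finset.mem_Ioc]; omega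
  have f2 : (Finset.Icc (-(A : ℤ)) A).filter (fun j => j ≤ i) = Finset.Icc (-(A : ℤ)) i := by
    ext j; simp only [Finset.mem_filter, Finset.mem_Icc]; omega
  rw [f1, f2, Int.card_Ioc, Int.card_Icc]
  omega

lemma sg_int_sub (j i : ℤ) :
    sg ((j : ℝ) - i) = (if i < j then (1 : ℤ) else if j < i then -1 else 0) := by
  rw [← Int.cast_sub, sg_intCast]
  split_ifs with h1 h2
  · exact Int.sign_eq_one_of_pos (by omega)
  · exact Int.sign_eq_neg_one_of_neg (by omega)
  · have : j - i = 0 := by omega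
    rw [this]; rfl

lemma sg_half_sub (j i : ℤ) :
    sg ((j : ℝ) - i - 1 / 2) = (if i < j then (1 : ℤ) else -1) := by
  split_ifs with h1
  · have : (i : ℝ) + 1 ≤ j := by exact_mod_cast h1
    exact sg_of_pos (by linarith)
  · have : (j : ℝ) ≤ i := by exact_mod_cast not_lt.1 h1
    exact sg_of_neg (by linarith)

lemma sum_sg_sub {A : ℕ} (i : Idx A) : ∑ j : Idx A, sg (((j : ℤ) : ℝ) - (i : ℤ)) = -2 * i.1 := by
  have h := idx_le i
  rw [← sum_gt_lt A i.1 h.1 h.2]
  refine (Finset.sum_congr rfl fun j _ => sg_int_sub _ _).trans ?_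
  exact Finset.sum_coe_sort (Finset.Icc (-(A : ℤ)) A)
    (fun j => if i.1 < j then (1 : ℤ) else if j < i.1 then -1 else 0)

lemma sum_sg_half {A : ℕ} (i : Idx A) :
    ∑ j : Idx A, sg (((j : ℤ) : ℝ) - (i : ℤ) - 1 / 2) = -2 * i.1 - 1 := by
  have h := idx_le i
  rw [← sum_gt_le A i.1 h.1 h.2]
  refine (Finset.sum_congr rfl fun j _ => sg_half_sub _ _).trans ?_
  exact Finset.sum_coe_sort (Finset.Icc (-(A : ℤ)) A)
    (fun j => if i.1 < j then (1 : ℤ) else -1)

/-- The shift of a new vertex in units of `ε / D'`. -/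
noncomputable def sh {A : ℕ} (i : Idx A) (b : Bool) : ℝ :=
  ((i : ℤ) : ℝ) + (if b then 1 / 4 else -(1 / 4))

lemma sum_lo {A : ℕ} (i : Idx A) (b : Bool) :
    ∑ j : Idx A, sg (((j : ℤ) : ℝ) - 1 / 4 - sh i b) = -2 * i.1 - (if b then 1 else 0) := by
  cases b
  · have : ∀ j : Idx A, ((j : ℤ) : ℝ) - 1 / 4 - sh i false = ((j : ℤ) : ℝ) - (i : ℤ) := by
      intro j; simp [sh]; ring
    simp_rw [this, sum_sg_sub]; simp
  · have : ∀ j : Idx A, ((j : ℤ) : ℝ) - 1 / 4 - sh i true = ((j : ℤ) : ℝ) - (i : ℤ) - 1 / 2 := by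
      intro j; simp [sh]; ring
    simp_rw [this, sum_sg_half]; simp

lemma sum_hi {A : ℕ} (i : Idx A) (b : Bool) :
    ∑ j : Idx A, sg (((j : ℤ) : ℝ) - 1 / 4 + sh i b) = 2 * i.1 - (if b then 0 else 1) := by
  cases b
  · have : ∀ j : Idx A, ((j : ℤ) : ℝ) - 1 / 4 + sh i false
        = ((j : ℤ) : ℝ) - ((ng i : Idx A) : ℤ) - 1 / 2 := by
      intro j; simp [sh, ng]; ring
    simp_rw [this, sum_sg_half]; simp [ng]
  · have : ∀ j : Idx A, ((j : ℤ) : ℝ) - 1 / 4 + sh i true
        = ((j : ℤ) : ℝ) - ((ng i : Idx A) : ℤ) := by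
      intro j; simp [sh, ng]
    simp_rw [this, sum_sg_sub]; simp [ng]

lemma sh_inj {A : ℕ} {i j : Idx A} {b d : Bool} (h : sh i b = sh j d) : i = j ∧ b = d := by
  have key : ∀ (i j : ℤ) (r : ℝ), (i : ℝ) - j = r → -1 < r → r < 1 → r ≠ 0 → False := by
    intro i j r h1 h2 h3 h4
    have a1 : ((-1 : ℤ) : ℝ) < ((i - j : ℤ) : ℝ) := by push_cast; linarith
    have a2 : ((i - j : ℤ) : ℝ) < ((1 : ℤ) : ℝ) := by push_cast; linarith
    rw [Int.cast_lt] at a1 a2
    have : i = j := by omega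
    subst this
    apply h4; rw [← h1]; ring
  cases b <;> cases d <;> simp only [sh, if_true, if_false, Bool.false_eq_true] at h
  · refine ⟨Subtype.ext ?_, rfl⟩
    have : ((i : ℤ) : ℝ) = (j : ℤ) := by linarith
    exact_mod_cast this
  · exact (key i j (1/2) (by linarith) (by norm_num) (by norm_num) (by norm_num)).elim
  · exact (key i j (-(1/2)) (by linarith) (by norm_num) (by norm_num) (by norm_num)).elim
  · refine ⟨Subtype.ext ?_, rfl⟩
    have : ((i : ℤ) : ℝ) = (j : ℤ) := by linarith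
    exact_mod_cast this

/-- The sign of the type: the vertices on the lower side get `-1`. -/
def tau (b : Bool) : ℤ := if b then 1 else -1

lemma sum_alt {A : ℕ} (i : Idx A) (b : Bool) :
    ∑ j : Idx A, ∑ d : Bool, tau d * sg (sh i b - sh j d) = -1 := by
  have key : ∀ j : Idx A, ∑ d : Bool, tau d * sg (sh i b - sh j d) = if j = i then -1 else 0 := by
    intro j
    rw [Fintype.sum_bool]
    cases b
    · have e1 : sh i false - sh j true = ((i : ℤ) : ℝ) - (j : ℤ) - 1 / 2 := by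
        simp [sh]; ring
      have e2 : sh i false - sh j false = ((i : ℤ) : ℝ) - (j : ℤ) := by
        simp [sh]
      rw [e1, e2, sg_half_sub, sg_int_sub]
      simp only [tau, if_true, if_false, Bool.false_eq_true]
      have : (j = i) ↔ (j : ℤ) = (i : ℤ) := Subtype.ext_iff
      simp only [this]
      split_ifs <;> omega
    · have e1 : sh i true - sh j true = ((i : ℤ) : ℝ) - (j : ℤ) := by
        simp [sh]
      have e2 : sh i true - sh j false = -(((j : ℤ) : ℝ) - (i : ℤ) - 1 / 2) := by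
        simp [sh]; ring
      rw [e1, e2, sg_neg, sg_half_sub, sg_int_sub]
      simp only [tau, if_true, if_false, Bool.false_eq_true]
      have : (j = i) ↔ (j : ℤ) = (i : ℤ) := Subtype.ext_iff
      simp only [this]
      split_ifs <;> omega
  simp_rw [key]
  simp

/-- The plain state. -/
structure PState (D : ℤ) (cc Xm : ℕ) where
  L : Type
  V : Type
  [fL : Fintype L]
  [fV : Fintype V]
  m : L → ℤ
  c : L → ℝ
  lo : V → L
  hi : V → L
  x : V → ℝ
  s : V → V → ℤ
  sum_m : ∑ i, m i = 0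
  sum_v : ∑ v, (m (lo v) + m (hi v)) = 0
  m_le : ∀ i, |m i| ≤ (Xm : ℤ)
  m_hi : ∀ v, m (hi v) = m (lo v) + D
  bal : ∀ v, IsBal (fun i => (m i : ℝ)) c (lo v) (hi v) (x v)
  s_self : ∀ v, s v v = 0
  s_pm : ∀ v w, v ≠ w → s v w = 1 ∨ s v w = -1
  alt : ∀ v w, v ≠ w → ∀ μ : ℤ, m (lo v) < μ → μ < m (hi v) →
    sg ((m (lo v) * x v + c (lo v)) + μ * (x w - x v) - (m (lo w) * x w + c (lo w))) = s v w
  sum_s : ∀ w, ∑ v, s v w = -(cc : ℤ)

attribute [instance] PState.fL PState.fV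

namespace PState

variable {D' : ℤ} {cc Xm : ℕ} (P : PState (2 * D') cc Xm) (A : ℕ)

/-- The height of a vertex. -/
noncomputable def y (v : P.V) : ℝ := P.m (P.lo v) * P.x v + P.c (P.lo v)

lemma y_hi (v : P.V) : (P.m (P.hi v) : ℝ) * P.x v + P.c (P.hi v) = P.y v :=
  ((P.bal v).zero_iff _).2 (Or.inr rfl)

/-- The new lines: copies of the old lines, the lines through the old vertices, far lines. -/
abbrev NL : Type := (P.L × Idx A) ⊕ (P.V ⊕ Fin (cc + 1))

/-- The new vertices. -/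
abbrev NV : Type := P.V × Idx A × Bool

/-- The slope of the new line through a vertex. -/
def mid (v : P.V) : ℤ := P.m (P.lo v) + D'

/-- The height of the far lines. -/
noncomputable def far : ℝ := 1 + ∑ v, |P.y v|

lemma lt_far (v : P.V) : P.y v < P.far := by
  have h1 : |P.y v| ≤ ∑ v, |P.y v| :=
    Finset.single_le_sum (f := fun v => |P.y v|) (fun _ _ => abs_nonneg _) (Finset.mem_univ v)
  have h2 := le_abs_self (P.y v)
  unfold far; linarith

/-- Slopes of the new lines. -/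
def nm : P.NL A → ℤ
  | .inl p => P.m p.1
  | .inr (.inl v) => P.mid v
  | .inr (.inr _) => 0

/-- Intercepts of the new lines. -/
noncomputable def nc (ε : ℝ) : P.NL A → ℝ
  | .inl p => P.c p.1 + ε * ((p.2 : ℤ) : ℝ)
  | .inr (.inl v) => P.y v + ε / 4 - P.mid v * P.x v
  | .inr (.inr _) => P.far

/-- The lower line at a new vertex. -/
def nlo : P.NV A → P.NL A
  | (v, i, false) => .inl (P.lo v, i)
  | (v, _, true) => .inr (.inl v)

/-- The upper line at a new vertex. -/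
def nhi : P.NV A → P.NL A
  | (v, _, false) => .inr (.inl v)
  | (v, i, true) => .inl (P.hi v, ng i)

/-- The abscissa of a new vertex. -/
noncomputable def nx (ε : ℝ) (w : P.NV A) : ℝ := P.x w.1 + ε / D' * sh w.2.1 w.2.2

/-- The height of a new vertex. -/
noncomputable def ny (ε : ℝ) (w : P.NV A) : ℝ :=
  P.y w.1 + ε / 4 + P.mid w.1 * (P.nx A ε w - P.x w.1)

lemma val_lo (hD : 0 < D') (ε : ℝ) (w : P.NV A) (j : Idx A) :
    (P.nm A (.inl (P.lo w.1, j)) : ℝ) * P.nx A ε w + P.nc A ε (.inl (P.lo w.1, j)) - P.ny A ε w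
      = ε * (((j : ℤ) : ℝ) - 1 / 4 - sh w.2.1 w.2.2) := by
  have hD' : (D' : ℝ) ≠ 0 := by exact_mod_cast hD.ne'
  simp only [nm, nc, ny, nx, mid, y]
  push_cast
  field_simp
  ring

lemma val_hi (hD : 0 < D') (ε : ℝ) (w : P.NV A) (j : Idx A) :
    (P.nm A (.inl (P.hi w.1, j)) : ℝ) * P.nx A ε w + P.nc A ε (.inl (P.hi w.1, j)) - P.ny A ε w
      = ε * (((j : ℤ) : ℝ) - 1 / 4 + sh w.2.1 w.2.2) := by
  have hD' : (D' : ℝ) ≠ 0 := by exact_mod_cast hD.ne'
  have h1 := P.y_hi w.1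
  have h2 : (P.m (P.hi w.1) : ℝ) = P.m (P.lo w.1) + 2 * D' := by
    rw [P.m_hi]; push_cast; ring
  have h3 : P.c (P.hi w.1) = P.y w.1 - (P.m (P.lo w.1) + 2 * D') * P.x w.1 := by
    rw [← h1, h2]; ring
  simp only [nm, nc, ny, nx, mid]
  rw [h3, h2]
  push_cast
  field_simp
  ring

lemma val_mid (ε : ℝ) (w : P.NV A) :
    (P.nm A (.inr (.inl w.1)) : ℝ) * P.nx A ε w + P.nc A ε (.inr (.inl w.1)) - P.ny A ε w
      = 0 := by
  simp only [nm, nc, ny]
  ring

lemma val_nlo (hD : 0 < D') (ε : ℝ) (w : P.NV A) :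
    (P.nm A (P.nlo A w) : ℝ) * P.nx A ε w + P.nc A ε (P.nlo A w) = P.ny A ε w := by
  obtain ⟨v, i, b⟩ := w
  cases b
  · have h := P.val_lo A hD ε (v, i, false) i
    simp only [sh] at h
    simp only [nlo]
    have e : ε * (((i : ℤ) : ℝ) - 1 / 4 - (((i : ℤ) : ℝ) + if false = true then 1 / 4
      else -(1 / 4))) = 0 := by simp; right; ring
    rw [e] at h
    linarith
  · have h := P.val_mid A ε (v, i, true)
    simp only [nlo]
    linarith

lemma nx_tendsto (w : P.NV A) : Tendsto (fun ε => P.nx A ε w) (𝓝[>] 0) (𝓝 (P.x w.1)) := by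
  have h : Tendsto (fun ε : ℝ => P.x w.1 + ε / D' * sh w.2.1 w.2.2) (𝓝 0)
      (𝓝 (P.x w.1 + 0 / D' * sh w.2.1 w.2.2)) := by
    apply Continuous.tendsto
    fun_prop
  simp only [zero_div, zero_mul, add_zero] at h
  exact h.mono_left nhdsWithin_le_nhds

lemma ny_tendsto (w : P.NV A) : Tendsto (fun ε => P.ny A ε w) (𝓝[>] 0) (𝓝 (P.y w.1)) := by
  have h : Tendsto (fun ε : ℝ => P.y w.1 + ε / 4 + P.mid w.1 *
      ((P.x w.1 + ε / D' * sh w.2.1 w.2.2) - P.x w.1)) (𝓝 0)
      (𝓝 (P.y w.1 + 0 / 4 + P.mid w.1 * ((P.x w.1 + 0 / D' * sh w.2.1 w.2.2) - P.x w.1))) := by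
    apply Continuous.tendsto
    fun_prop
  simp only [zero_div, zero_mul, add_zero, sub_self, mul_zero] at h
  exact h.mono_left nhdsWithin_le_nhds

/-- The conditions on `ε` for one new vertex. -/
def Good (ε : ℝ) (w : P.NV A) : Prop :=
  (∀ k : P.L, k ≠ P.lo w.1 → k ≠ P.hi w.1 → ∀ j : Idx A,
    sg ((P.nm A (.inl (k, j)) : ℝ) * P.nx A ε w + P.nc A ε (.inl (k, j)) - P.ny A ε w)
      = sg ((P.m k : ℝ) * P.x w.1 + P.c k - P.y w.1)) ∧
  (∀ u : P.V, u ≠ w.1 →
    sg ((P.nm A (.inr (.inl u)) : ℝ) * P.nx A ε w + P.nc A ε (.inr (.inl u)) - P.ny A ε w)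
      = P.s u w.1) ∧
  (∀ r, sg ((P.nm A (.inr (.inr r)) : ℝ) * P.nx A ε w + P.nc A ε (.inr (.inr r)) - P.ny A ε w)
      = 1)

lemma s_ne_zero {u v : P.V} (h : u ≠ v) : P.s u v ≠ 0 := by
  rcases P.s_pm u v h with h | h <;> rw [h] <;> norm_num

lemma eventually_good (hD : 0 < D') (w : P.NV A) : ∀ᶠ ε in 𝓝[>] (0 : ℝ), P.Good A ε w := by
  unfold Good
  refine Filter.eventually_and.2 ⟨?_, Filter.eventually_and.2 ⟨?_, ?_⟩⟩
  · rw [Filter.eventually_all]
    intro k
    by_cases h1 : k = P.lo w.1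
    · exact Filter.Eventually.of_forall fun ε h => (h h1).elim
    by_cases h2 : k = P.hi w.1
    · exact Filter.Eventually.of_forall fun ε _ h => (h h2).elim
    have hne : (P.m k : ℝ) * P.x w.1 + P.c k - P.y w.1 ≠ 0 := by
      intro h
      have := ((P.bal w.1).zero_iff k).1 (by unfold y at h; linarith)
      tauto
    have : ∀ j : Idx A, ∀ᶠ ε in 𝓝[>] (0 : ℝ),
        sg ((P.nm A (.inl (k, j)) : ℝ) * P.nx A ε w + P.nc A ε (.inl (k, j)) - P.ny A ε w)
          = sg ((P.m k : ℝ) * P.x w.1 + P.c k - P.y w.1) := by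
      intro j
      refine eventually_sg_eq ?_ hne
      have hx := P.nx_tendsto A w
      have hy := P.ny_tendsto A w
      have he : Tendsto (fun ε : ℝ => ε * ((j : ℤ) : ℝ)) (𝓝[>] 0) (𝓝 0) := by
        have : Tendsto (fun ε : ℝ => ε * ((j : ℤ) : ℝ)) (𝓝 0) (𝓝 (0 * ((j : ℤ) : ℝ))) :=
          Continuous.tendsto (by fun_prop) _
        rw [zero_mul] at this
        exact this.mono_left nhdsWithin_le_nhds
      have := ((hx.const_mul (P.m k : ℝ)).add (he.const_add (P.c k))).sub hy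
      rw [add_zero] at this
      exact this
    filter_upwards [Filter.eventually_all.2 this] with ε hε _ _ j
    exact hε j
  · rw [Filter.eventually_all]
    intro u
    by_cases h1 : u = w.1
    · exact Filter.Eventually.of_forall fun ε h => (h h1).elim
    have hs := P.alt u w.1 h1 (P.mid u) (by unfold mid; omega) (by rw [P.m_hi]; unfold mid; omega)
    have hne : P.y u + P.mid u * (P.x w.1 - P.x u) - P.y w.1 ≠ 0 := by
      intro h
      unfold y at h
      rw [h, sg_zero] at hs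
      exact P.s_ne_zero h1 hs.symm
    have : ∀ᶠ ε in 𝓝[>] (0 : ℝ),
        sg ((P.nm A (.inr (.inl u)) : ℝ) * P.nx A ε w + P.nc A ε (.inr (.inl u)) - P.ny A ε w)
          = sg (P.y u + P.mid u * (P.x w.1 - P.x u) - P.y w.1) := by
      refine eventually_sg_eq ?_ hne
      have hx := P.nx_tendsto A w
      have hy := P.ny_tendsto A w
      have he : Tendsto (fun ε : ℝ => ε / 4) (𝓝[>] 0) (𝓝 0) := by
        have : Tendsto (fun ε : ℝ => ε / 4) (𝓝 0) (𝓝 (0 / 4)) :=
          Continuous.tendsto (by fun_prop) _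
        rw [zero_div] at this
        exact this.mono_left nhdsWithin_le_nhds
      have := ((hx.const_mul (P.mid u : ℝ)).add
        ((he.const_add (P.y u)).sub_const (P.mid u * P.x u))).sub hy
      have e : P.y u + P.mid u * (P.x w.1 - P.x u) - P.y w.1
          = P.mid u * P.x w.1 + (P.y u + 0 - P.mid u * P.x u) - P.y w.1 := by ring
      rw [e]
      exact this
    filter_upwards [this] with ε hε _
    rw [hε]
    exact hs
  · rw [Filter.eventually_all]
    intro r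
    have hne : P.far - P.y w.1 ≠ 0 := by have := P.lt_far w.1; linarith
    have hs : sg (P.far - P.y w.1) = 1 := sg_of_pos (by have := P.lt_far w.1; linarith)
    rw [← hs]
    refine eventually_sg_eq ?_ hne
    have hy := P.ny_tendsto A w
    have := hy.const_sub P.far
    simpa [nm, nc] using this

lemma nlo_ne_nhi (w : P.NV A) : P.nlo A w ≠ P.nhi A w := by
  obtain ⟨v, i, b⟩ := w
  cases b <;> simp [nlo, nhi]

lemma lo_ne_hi (v : P.V) : P.lo v ≠ P.hi v := (P.bal v).ne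

lemma copies_sum [DecidableEq P.L] (hD : 0 < D') {ε : ℝ} (hε : 0 < ε) (w : P.NV A)
    (hg : P.Good A ε w) (k : P.L) :
    ∑ j : Idx A, sg ((P.nm A (.inl (k, j)) : ℝ) * P.nx A ε w + P.nc A ε (.inl (k, j))
      - P.ny A ε w) = (2 * A + 1) * sg ((P.m k : ℝ) * P.x w.1 + P.c k - P.y w.1)
        + ((if k = P.lo w.1 then (-2 * w.2.1.1 - (if w.2.2 then 1 else 0)) else 0)
        + (if k = P.hi w.1 then (2 * w.2.1.1 - (if w.2.2 then 0 else 1)) else 0)) := by
  by_cases h1 : k = P.lo w.1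
  · subst h1
    have h2 := P.lo_ne_hi w.1
    rw [if_pos rfl, if_neg h2]
    simp_rw [P.val_lo A hD ε w, sg_mul_pos hε]
    rw [sum_lo]
    have : (P.m (P.lo w.1) : ℝ) * P.x w.1 + P.c (P.lo w.1) - P.y w.1 = 0 := by
      unfold y; ring
    rw [this, sg_zero]; ring
  by_cases h2 : k = P.hi w.1
  · subst h2
    rw [if_neg h1, if_pos rfl]
    simp_rw [P.val_hi A hD ε w, sg_mul_pos hε]
    rw [sum_hi, P.y_hi, sub_self, sg_zero]; ring
  rw [if_neg h1, if_neg h2]
  have : ∀ j : Idx A, sg ((P.nm A (.inl (k, j)) : ℝ) * P.nx A ε w + P.nc A ε (.inl (k, j))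
      - P.ny A ε w) = sg ((P.m k : ℝ) * P.x w.1 + P.c k - P.y w.1) := hg.1 k h1 h2
  simp_rw [this]
  rw [Finset.sum_const, Finset.card_univ, card_idx]
  simp

lemma sum_sg_old (v : P.V) : ∑ k, sg ((P.m k : ℝ) * P.x v + P.c k - P.y v) = 0 := (P.bal v).sum

lemma sum_val (hD : 0 < D') {ε : ℝ} (hε : 0 < ε) (w : P.NV A) (hg : P.Good A ε w) :
    ∑ k : P.NL A, sg ((P.nm A k : ℝ) * P.nx A ε w + P.nc A ε k - P.ny A ε w) = 0 := by
  classical
  rw [Fintype.sum_sum_type, Fintype.sum_sum_type, Fintype.sum_prod_type]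
  have h1 : ∑ k : P.L, ∑ j : Idx A, sg ((P.nm A (.inl (k, j)) : ℝ) * P.nx A ε w
      + P.nc A ε (.inl (k, j)) - P.ny A ε w) = -1 := by
    simp_rw [P.copies_sum A hD hε w hg]
    rw [Finset.sum_add_distrib, ← Finset.mul_sum, P.sum_sg_old, Finset.sum_add_distrib,
      Finset.sum_ite_eq', Finset.sum_ite_eq']
    simp only [Finset.mem_univ, if_true]
    cases w.2.2 <;> simp <;> ring
  have h2 : ∑ u : P.V, sg ((P.nm A (.inr (.inl u)) : ℝ) * P.nx A ε w
      + P.nc A ε (.inr (.inl u)) - P.ny A ε w) = -(cc : ℤ) := by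
    rw [← P.sum_s w.1]
    refine Finset.sum_congr rfl fun u _ => ?_
    by_cases h : u = w.1
    · subst h
      rw [P.val_mid, sg_zero, P.s_self]
    · exact hg.2.1 u h
  have h3 : ∑ r : Fin (cc + 1), sg ((P.nm A (.inr (.inr r)) : ℝ) * P.nx A ε w
      + P.nc A ε (.inr (.inr r)) - P.ny A ε w) = cc + 1 := by
    simp_rw [hg.2.2]
    simp
  rw [h1, h2, h3]
  ring

lemma zero_val (hD : 0 < D') {ε : ℝ} (hε : 0 < ε) (w : P.NV A) (hg : P.Good A ε w) (k : P.NL A) :
    (P.nm A k : ℝ) * P.nx A ε w + P.nc A ε k = P.ny A ε w ↔ k = P.nlo A w ∨ k = P.nhi A w := by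
  classical
  rw [← sub_eq_zero]
  rcases k with ⟨k, j⟩ | u | r
  · by_cases h1 : k = P.lo w.1
    · subst h1
      rw [P.val_lo A hD, mul_eq_zero, or_iff_right hε.ne']
      obtain ⟨v, i, b⟩ := w
      have hlh := P.lo_ne_hi v
      cases b
      · simp only [sh, nlo, nhi, Bool.false_eq_true, if_false, Sum.inl.injEq, Prod.mk.injEq,
          reduceCtorEq, or_false, true_and]
        rw [Subtype.ext_iff]
        constructor
        · intro h
          have : ((j : ℤ) : ℝ) = (i : ℤ) := by linarith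
          exact_mod_cast this
        · intro h
          rw [h]; ring
      · simp only [sh, nlo, nhi, if_true, Sum.inl.injEq, Prod.mk.injEq,
          reduceCtorEq, false_or]
        constructor
        · intro h
          have h2 := sg_half_sub j.1 i.1
          have h3 : ((j.1 : ℤ) : ℝ) - (i.1 : ℤ) - 1 / 2 = 0 := by linarith
          rw [h3, sg_zero] at h2
          split_ifs at h2 <;> omega
        · intro h
          exact (hlh h.1).elim
    by_cases h2 : k = P.hi w.1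
    · subst h2
      rw [P.val_hi A hD, mul_eq_zero, or_iff_right hε.ne']
      obtain ⟨v, i, b⟩ := w
      have hlh := P.lo_ne_hi v
      cases b
      · simp only [sh, nlo, nhi, Bool.false_eq_true, if_false, Sum.inl.injEq, Prod.mk.injEq,
          reduceCtorEq, or_false]
        constructor
        · intro h
          have h2 := sg_half_sub j.1 (-i.1)
          have h3 : ((j.1 : ℤ) : ℝ) - ((-i.1 : ℤ) : ℝ) - 1 / 2 = 0 := by push_cast; linarith
          rw [h3, sg_zero] at h2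
          split_ifs at h2 <;> omega
        · intro h
          exact (hlh h.1.symm).elim
      · simp only [sh, nlo, nhi, if_true, Sum.inl.injEq, Prod.mk.injEq,
          reduceCtorEq, false_or, true_and]
        rw [Subtype.ext_iff]
        constructor
        · intro h
          have : ((j : ℤ) : ℝ) = ((-i.1 : ℤ) : ℝ) := by push_cast; linarith
          have h4 : (j : ℤ) = -i.1 := by exact_mod_cast this
          rw [h4]; rfl
        · intro h
          have h4 : (j : ℤ) = -i.1 := h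
          rw [h4]; push_cast; ring
    · have hs := hg.1 k h1 h2 j
      constructor
      · intro h
        exfalso
        rw [h, sg_zero] at hs
        have h0 : (P.m k : ℝ) * P.x w.1 + P.c k - P.y w.1 = 0 := sg_eq_zero.1 hs.symm
        have := ((P.bal w.1).zero_iff k).1 (by unfold y at h0; linarith)
        tauto
      · intro h
        exfalso
        obtain ⟨v, i, b⟩ := w
        cases b <;> simp [nlo, nhi] at h <;> tauto
  · by_cases h : u = w.1
    · subst h
      rw [P.val_mid]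
      obtain ⟨v, i, b⟩ := w
      cases b <;> simp [nlo, nhi]
    · have hs := hg.2.1 u h
      constructor
      · intro h0
        rw [h0, sg_zero] at hs
        exact (P.s_ne_zero h hs.symm).elim
      · intro h0
        exfalso
        obtain ⟨v, i, b⟩ := w
        cases b <;> simp [nlo, nhi] at h0 <;> exact h h0
  · have hs := hg.2.2 r
    constructor
    · intro h0
      rw [h0, sg_zero] at hs
      norm_num at hs
    · intro h0
      exfalso
      obtain ⟨v, i, b⟩ := w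
      cases b <;> simp [nlo, nhi] at h0

lemma isBal_new (hD : 0 < D') {ε : ℝ} (hε : 0 < ε) (w : P.NV A) (hg : P.Good A ε w) :
    IsBal (fun k => (P.nm A k : ℝ)) (P.nc A ε) (P.nlo A w) (P.nhi A w) (P.nx A ε w) where
  ne := P.nlo_ne_nhi A w
  zero_iff := by
    intro k
    show (P.nm A k : ℝ) * P.nx A ε w + P.nc A ε k
      = (P.nm A (P.nlo A w) : ℝ) * P.nx A ε w + P.nc A ε (P.nlo A w) ↔ _
    rw [P.val_nlo A hD, P.zero_val A hD hε w hg]
  sum := by
    show ∑ k : P.NL A, sg ((P.nm A k : ℝ) * P.nx A ε w + P.nc A ε k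
      - ((P.nm A (P.nlo A w) : ℝ) * P.nx A ε w + P.nc A ε (P.nlo A w))) = 0
    rw [P.val_nlo A hD]
    exact P.sum_val A hD hε w hg

/-- The new sides. -/
noncomputable def ns (w z : P.NV A) : ℤ :=
  open Classical in
  if w.1 = z.1 then tau w.2.2 * sg (sh z.2.1 z.2.2 - sh w.2.1 w.2.2) else P.s w.1 z.1

lemma ns_self (w : P.NV A) : P.ns A w w = 0 := by
  simp [ns]

lemma ns_pm (w z : P.NV A) (h : w ≠ z) : P.ns A w z = 1 ∨ P.ns A w z = -1 := by
  classical
  unfold ns
  by_cases h1 : w.1 = z.1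
  · rw [if_pos h1]
    have h2 : sh z.2.1 z.2.2 - sh w.2.1 w.2.2 ≠ 0 := by
      intro h3
      obtain ⟨a1, a2⟩ := sh_inj (sub_eq_zero.1 h3)
      exact h (Prod.ext h1 (Prod.ext a1.symm a2.symm))
    rcases lt_or_gt_of_ne h2 with h3 | h3
    · rw [sg_of_neg h3]; cases w.2.2 <;> simp [tau]
    · rw [sg_of_pos h3]; cases w.2.2 <;> simp [tau]
  · rw [if_neg h1]
    exact P.s_pm _ _ h1

lemma sum_ns (z : P.NV A) : ∑ w, P.ns A w z = -((2 * (2 * A + 1) * cc + 1 : ℕ) : ℤ) := by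
  classical
  rw [Fintype.sum_prod_type]
  have key : ∀ v : P.V, ∑ p : Idx A × Bool, P.ns A (v, p) z
      = (2 * (2 * A + 1)) * P.s v z.1 + (if v = z.1 then -1 else 0) := by
    intro v
    by_cases h : v = z.1
    · subst h
      rw [if_pos rfl, P.s_self, Fintype.sum_prod_type]
      have := sum_alt z.2.1 z.2.2
      simp only [ns, if_true]
      rw [this]; ring
    · rw [if_neg h]
      simp only [ns, if_neg h]
      rw [Finset.sum_const, Finset.card_univ, Fintype.card_prod, card_idx, Fintype.card_bool,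
        nsmul_eq_mul]
      push_cast
      ring
  simp_rw [key]
  rw [Finset.sum_add_distrib, ← Finset.mul_sum, P.sum_s, Finset.sum_ite_eq']
  simp only [Finset.mem_univ, if_true]
  push_cast
  ring

lemma m_nlo (w : P.NV A) : P.nm A (P.nlo A w) = if w.2.2 then P.mid w.1 else P.m (P.lo w.1) := by
  obtain ⟨v, i, b⟩ := w
  cases b <;> simp [nlo, nm]

lemma m_nhi (w : P.NV A) : P.nm A (P.nhi A w) = if w.2.2 then P.m (P.hi w.1) else P.mid w.1 := by
  obtain ⟨v, i, b⟩ := w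
  cases b <;> simp [nhi, nm]

lemma m_nhi_eq (w : P.NV A) : P.nm A (P.nhi A w) = P.nm A (P.nlo A w) + D' := by
  rw [m_nlo, m_nhi]
  cases w.2.2 <;> simp [mid, P.m_hi]
  ring

lemma alt_new (hD : 0 < D') (w z : P.NV A) : ∀ᶠ ε in 𝓝[>] (0 : ℝ),
    ∀ μ : ℤ, P.nm A (P.nlo A w) < μ → μ < P.nm A (P.nhi A w) →
      sg (P.ny A ε w + μ * (P.nx A ε z - P.nx A ε w) - P.ny A ε z) = P.ns A w z := by
  classical
  have hD' : (0 : ℝ) < D' := by exact_mod_cast hD
  by_cases h1 : w.1 = z.1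
  · have hpos : ∀ᶠ ε in 𝓝[>] (0 : ℝ), 0 < ε := eventually_mem_nhdsWithin
    filter_upwards [hpos] with ε hε μ hμ1 hμ2
    have e : P.ny A ε w + μ * (P.nx A ε z - P.nx A ε w) - P.ny A ε z
        = (ε / D') * ((μ - P.mid w.1) * (sh z.2.1 z.2.2 - sh w.2.1 w.2.2)) := by
      simp only [ny, nx, h1]
      ring
    rw [e, sg_mul_pos (div_pos hε hD')]
    unfold ns
    rw [if_pos h1]
    rw [m_nlo] at hμ1
    rw [m_nhi] at hμ2
    cases hb : w.2.2
    · rw [hb] at hμ1 hμ2
      simp only [Bool.false_eq_true, if_false] at hμ1 hμ2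
      have : (0 : ℝ) < P.mid w.1 - μ := by
        have : (μ : ℝ) < P.mid w.1 := by exact_mod_cast hμ2
        linarith
      have e2 : (μ - P.mid w.1 : ℝ) * (sh z.2.1 z.2.2 - sh w.2.1 false)
          = -((P.mid w.1 - μ) * (sh z.2.1 z.2.2 - sh w.2.1 false)) := by ring
      rw [e2, sg_neg, sg_mul_pos this]
      simp [tau]
    · rw [hb] at hμ1 hμ2
      simp only [if_true] at hμ1 hμ2
      have : (0 : ℝ) < μ - P.mid w.1 := by
        have : (P.mid w.1 : ℝ) < μ := by exact_mod_cast hμ1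
        linarith
      rw [sg_mul_pos this]
      simp [tau]
  · have hns : P.ns A w z = P.s w.1 z.1 := by unfold ns; rw [if_neg h1]
    rw [hns]
    have hrange : ∀ μ : ℤ, P.nm A (P.nlo A w) < μ → μ < P.nm A (P.nhi A w) →
        μ ∈ Finset.Ioo (P.m (P.lo w.1)) (P.m (P.hi w.1)) := by
      intro μ hμ1 hμ2
      rw [m_nlo] at hμ1
      rw [m_nhi] at hμ2
      have h3 := P.m_hi w.1
      rw [Finset.mem_Ioo]
      cases hb : w.2.2
      · rw [hb] at hμ1 hμ2
        simp only [Bool.false_eq_true, if_false, mid] at hμ1 hμ2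
        omega
      · rw [hb] at hμ1 hμ2
        simp only [if_true, mid] at hμ1 hμ2
        omega
    have key : ∀ᶠ ε in 𝓝[>] (0 : ℝ), ∀ μ ∈ Finset.Ioo (P.m (P.lo w.1)) (P.m (P.hi w.1)),
        sg (P.ny A ε w + μ * (P.nx A ε z - P.nx A ε w) - P.ny A ε z) = P.s w.1 z.1 := by
      rw [Filter.eventually_all_finset]
      intro μ hμ
      rw [Finset.mem_Ioo] at hμ
      have hs := P.alt w.1 z.1 h1 μ hμ.1 hμ.2
      have hne : P.y w.1 + μ * (P.x z.1 - P.x w.1) - P.y z.1 ≠ 0 := by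
        intro h
        unfold y at h
        rw [h, sg_zero] at hs
        exact P.s_ne_zero h1 hs.symm
      rw [← hs]
      refine eventually_sg_eq ?_ hne
      exact ((P.ny_tendsto A w).add
        (((P.nx_tendsto A z).sub (P.nx_tendsto A w)).const_mul (μ : ℝ))).sub (P.ny_tendsto A z)
    filter_upwards [key] with ε hε μ hμ1 hμ2
    exact hε μ (hrange μ hμ1 hμ2)

lemma exists_eps (hD : 0 < D') : ∃ ε : ℝ, 0 < ε ∧ (∀ w, P.Good A ε w) ∧
    ∀ w z, ∀ μ : ℤ, P.nm A (P.nlo A w) < μ → μ < P.nm A (P.nhi A w) →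
      sg (P.ny A ε w + μ * (P.nx A ε z - P.nx A ε w) - P.ny A ε z) = P.ns A w z := by
  have h1 : ∀ᶠ ε in 𝓝[>] (0 : ℝ), ∀ w, P.Good A ε w :=
    Filter.eventually_all.2 fun w => P.eventually_good A hD w
  have h2 : ∀ᶠ ε in 𝓝[>] (0 : ℝ), ∀ w z, ∀ μ : ℤ, P.nm A (P.nlo A w) < μ →
      μ < P.nm A (P.nhi A w) →
      sg (P.ny A ε w + μ * (P.nx A ε z - P.nx A ε w) - P.ny A ε z) = P.ns A w z :=
    Filter.eventually_all.2 fun w => Filter.eventually_all.2 fun z => P.alt_new A hD w z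
  have h3 : ∀ᶠ ε in 𝓝[>] (0 : ℝ), 0 < ε := eventually_mem_nhdsWithin
  obtain ⟨ε, a, b, d⟩ := (h1.and (h2.and h3)).exists
  exact ⟨ε, d, a, b⟩

lemma sum_mid : ∑ v, P.mid v = 0 := by
  have h := P.sum_v
  have e : ∀ v, P.m (P.lo v) + P.m (P.hi v) = 2 * P.mid v := by
    intro v; rw [P.m_hi]; unfold mid; ring
  simp_rw [e] at h
  rw [← Finset.mul_sum] at h
  omega

lemma sum_nm : ∑ k : P.NL A, P.nm A k = 0 := by
  rw [Fintype.sum_sum_type, Fintype.sum_sum_type, Fintype.sum_prod_type]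
  have h1 : ∑ k : P.L, ∑ j : Idx A, P.nm A (.inl (k, j)) = 0 := by
    simp only [nm]
    simp_rw [Finset.sum_const]
    rw [← Finset.smul_sum, P.sum_m, smul_zero]
  rw [h1]
  simp only [nm]
  rw [P.sum_mid]
  simp

lemma nm_le (hD : 0 < D') (k : P.NL A) : |P.nm A k| ≤ (Xm : ℤ) := by
  rcases k with ⟨k, j⟩ | u | r
  · exact P.m_le k
  · have h1 := P.m_le (P.lo u)
    have h2 := P.m_le (P.hi u)
    rw [P.m_hi] at h2
    rw [abs_le] at h1 h2 ⊢
    simp only [nm, mid]
    constructor <;> omega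
  · simp [nm]

lemma card_NL : Fintype.card (P.NL A)
    = (2 * A + 1) * Fintype.card P.L + Fintype.card P.V + cc + 1 := by
  rw [Fintype.card_sum, Fintype.card_sum, Fintype.card_prod, card_idx, Fintype.card_fin]
  ring

lemma card_NV : Fintype.card (P.NV A) = 2 * (2 * A + 1) * Fintype.card P.V := by
  rw [Fintype.card_prod, Fintype.card_prod, card_idx, Fintype.card_bool]
  ring

lemma sum_nv : ∑ w : P.NV A, (P.nm A (P.nlo A w) + P.nm A (P.nhi A w)) = 0 := by
  rw [Fintype.sum_prod_type]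
  have key : ∀ v : P.V, ∑ p : Idx A × Bool, (P.nm A (P.nlo A (v, p)) + P.nm A (P.nhi A (v, p)))
      = (4 * (2 * A + 1)) * P.mid v := by
    intro v
    rw [Fintype.sum_prod_type]
    have : ∀ i : Idx A, ∑ b : Bool, (P.nm A (P.nlo A (v, i, b)) + P.nm A (P.nhi A (v, i, b)))
        = 4 * P.mid v := by
      intro i
      rw [Fintype.sum_bool]
      simp only [m_nlo, m_nhi, if_true, Bool.false_eq_true, if_false, P.m_hi, mid]
      ring
    simp_rw [this]
    rw [Finset.sum_const, Finset.card_univ, card_idx, nsmul_eq_mul]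
    push_cast
    ring
  simp_rw [key]
  rw [← Finset.mul_sum, P.sum_mid, mul_zero]

/-- One stage. -/
theorem exists_next (hD : 0 < D') : ∃ Q : PState D' (2 * (2 * A + 1) * cc + 1) Xm,
    Fintype.card Q.L = (2 * A + 1) * Fintype.card P.L + Fintype.card P.V + cc + 1 ∧
    Fintype.card Q.V = 2 * (2 * A + 1) * Fintype.card P.V := by
  obtain ⟨ε, hε, h1, h2⟩ := P.exists_eps A hD
  refine ⟨{ L := P.NL A, V := P.NV A, m := P.nm A, c := P.nc A ε, lo := P.nlo A, hi := P.nhi A,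
            x := P.nx A ε, s := P.ns A, sum_m := P.sum_nm A, sum_v := P.sum_nv A,
            m_le := P.nm_le A hD, m_hi := P.m_nhi_eq A,
            bal := fun w => P.isBal_new A hD hε w (h1 w),
            s_self := P.ns_self A, s_pm := P.ns_pm A,
            alt := ?_, sum_s := P.sum_ns A }, P.card_NL A, P.card_NV A⟩
  intro w z _ μ hμ1 hμ2
  rw [P.val_nlo A hD, P.val_nlo A hD]
  exact h2 w z μ hμ1 hμ2

end PState

/-- The unit arrangement from a plain state of slope difference `2`. -/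
theorem exists_unit {cc Xm : ℕ} (P : PState (2 * 1) cc Xm) (A : ℕ)
    (he : Even ((2 * A + 1) * Fintype.card P.L + Fintype.card P.V + cc + 1)) :
    ∃ U : UnitArr, U.J = A ∧ U.Xm = Xm ∧
      Fintype.card U.K = (2 * A + 1) * Fintype.card P.L + Fintype.card P.V + cc + 1 ∧
      U.S.card = Fintype.card P.V := by
  classical
  have hD : (0 : ℤ) < 1 := by norm_num
  obtain ⟨ε, hε, h1, h2⟩ := P.exists_eps A hD
  have hmem : ∀ a : ℤ, |a| ≤ (A : ℤ) → a ∈ Finset.Icc (-(A : ℤ)) A := by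
    intro a ha
    rw [abs_le] at ha
    exact Finset.mem_Icc.2 ha
  let emb : P.V ↪ P.NL A := ⟨fun v => .inr (.inl v), fun a b h => by simpa using h⟩
  let κ : P.NL A → ℤ → P.NL A := fun k a =>
    match k with
    | .inr (.inl v) => if h : a ∈ Finset.Icc (-(A : ℤ)) A then .inl (P.hi v, ng ⟨a, h⟩)
        else .inr (.inl v)
    | k => k
  let ξ : P.NL A → ℝ := fun k =>
    match k with
    | .inr (.inl v) => P.x v + ε / 4
    | _ => 0
  have hκ : ∀ (v : P.V) (a : ℤ) (h : |a| ≤ (A : ℤ)),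
      κ (.inr (.inl v)) a = .inl (P.hi v, ng ⟨a, hmem a h⟩) := by
    intro v a h
    simp only [κ]
    rw [dif_pos (hmem a h)]
  refine ⟨{ K := P.NL A, X := P.nm A, φ := P.nc A ε, S := Finset.univ.map emb, J := A, Xm := Xm,
            ξ := ξ, δ := ε, κ := κ, δ_pos := hε, X_le := P.nm_le A hD, X_sum := P.sum_nm A,
            even := ?_, κ_not := ?_, κ_slope := ?_, bal := ?_ }, rfl, rfl, P.card_NL A, ?_⟩
  · rw [P.card_NL A]; exact he
  · intro k hk a ha
    rw [Finset.mem_map] at hk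
    obtain ⟨v, -, rfl⟩ := hk
    rw [Finset.mem_map]
    rintro ⟨u, -, hu⟩
    rw [show (emb v : P.NL A) = .inr (.inl v) from rfl, hκ v a ha] at hu
    simp [emb] at hu
  · intro k hk a ha
    rw [Finset.mem_map] at hk
    obtain ⟨v, -, rfl⟩ := hk
    rw [show (emb v : P.NL A) = .inr (.inl v) from rfl, hκ v a ha]
    simp only [PState.nm, PState.mid]
    rw [P.m_hi]
    ring
  · intro k hk a ha
    rw [Finset.mem_map] at hk
    obtain ⟨v, -, rfl⟩ := hk
    rw [show (emb v : P.NL A) = .inr (.inl v) from rfl, hκ v a ha]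
    have h := P.isBal_new A hD hε (v, ⟨a, hmem a ha⟩, true) (h1 _)
    have e : P.nx A ε (v, ⟨a, hmem a ha⟩, true) = ξ (.inr (.inl v)) + ε * a := by
      simp only [PState.nx, sh, ξ, if_true]
      push_cast
      ring
    rw [e] at h
    exact h
  · rw [Finset.card_map, Finset.card_univ]

/-- The starting state: two crossing lines. -/
def start (t Xm : ℕ) (h : 2 ^ t ≤ Xm) : PState (2 * 2 ^ t) 0 Xm where
  L := Bool
  V := Unit
  m := fun b => if b then 2 ^ t else -2 ^ t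
  c := fun _ => 0
  lo := fun _ => false
  hi := fun _ => true
  x := fun _ => 0
  s := fun _ _ => 0
  sum_m := by simp
  sum_v := by simp
  m_le := by
    intro b
    have : ((2 : ℤ) ^ t) ≤ Xm := by exact_mod_cast h
    cases b <;> simpa using this
  m_hi := by
    intro _
    simp
    ring
  bal := by
    intro _
    refine ⟨by simp, ?_, ?_⟩
    · intro k
      cases k <;> simp
    · simp
  s_self := fun _ => rfl
  s_pm := fun v w h => (h rfl).elim
  alt := fun v w h => (h rfl).elim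
  sum_s := by simp

/-- The numerical invariants after `r` stages. -/
def Inv (r N M cc : ℕ) : Prop :=
  4 ^ r * N + M ≤ 3 * 2 ^ r * M ∧ cc + 1 ≤ M ∧ M ≤ 2 ^ (r ^ 2 + 4 * r) ∧ Even N ∧ Odd (M + cc)

lemma Inv.step {r N M cc : ℕ} (h : Inv r N M cc) :
    Inv (r + 1) ((2 * 4 ^ (r + 1) + 1) * N + M + cc + 1) (2 * (2 * 4 ^ (r + 1) + 1) * M)
      (2 * (2 * 4 ^ (r + 1) + 1) * cc + 1) := by
  obtain ⟨h1, h2, h3, h4, h5⟩ := h
  refine ⟨?_, ?_, ?_, ?_, ?_⟩
  · have e1 : 4 ^ (r + 1) = 4 * 4 ^ r := by ring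
    have e2 : 2 ^ (r + 1) = 2 * 2 ^ r := by ring
    rw [e1, e2]
    generalize 4 ^ r = v at h1 ⊢
    generalize 2 ^ r = u at h1 ⊢
    have h6 : (4 * (8 * v + 1)) * (v * N + M) ≤ (4 * (8 * v + 1)) * (3 * u * M) :=
      Nat.mul_le_mul_left _ h1
    have h7 : (4 * v) * (cc + 1) ≤ (4 * v) * M := Nat.mul_le_mul_left _ h2
    nlinarith
  · nlinarith [Nat.mul_le_mul_left (2 * (2 * 4 ^ (r + 1) + 1)) h2,
      Nat.one_le_pow (r + 1) 4 (by norm_num)]
  · have e : 2 ^ ((r + 1) ^ 2 + 4 * (r + 1)) = 32 * 4 ^ r * 2 ^ (r ^ 2 + 4 * r) := by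
      have : (4 : ℕ) ^ r = 2 ^ (2 * r) := by rw [pow_mul]; norm_num
      rw [this]
      ring
    rw [e]
    have e1 : 4 ^ (r + 1) = 4 * 4 ^ r := by ring
    rw [e1]
    have h6 : 1 ≤ 4 ^ r := Nat.one_le_pow _ _ (by norm_num)
    generalize 4 ^ r = v at h6 ⊢
    calc 2 * (2 * (4 * v) + 1) * M ≤ 32 * v * M := Nat.mul_le_mul_right _ (by omega)
      _ ≤ _ := Nat.mul_le_mul_left _ h3
  · have h6 : Even (M + cc + 1) := by
      rw [Nat.even_add_one, Nat.not_even_iff_odd]; exact h5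
    have h7 : Even ((2 * 4 ^ (r + 1) + 1) * N) := h4.mul_left _
    have := h7.add h6
    rwa [show (2 * 4 ^ (r + 1) + 1) * N + M + cc + 1
      = (2 * 4 ^ (r + 1) + 1) * N + (M + cc + 1) by ring]
  · rw [show 2 * (2 * 4 ^ (r + 1) + 1) * M + (2 * (2 * 4 ^ (r + 1) + 1) * cc + 1)
      = 2 * ((2 * 4 ^ (r + 1) + 1) * M + (2 * 4 ^ (r + 1) + 1) * cc) + 1 by ring]
    exact odd_two_mul_add_one _

lemma exists_stage (r : ℕ) : ∀ t Xm : ℕ, 2 ^ (r + t) ≤ Xm →
    ∃ (cc : ℕ) (P : PState (2 * 2 ^ t) cc Xm), Inv r (Fintype.card P.L) (Fintype.card P.V) cc := by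
  induction r with
  | zero =>
    intro t Xm h
    refine ⟨0, start t Xm (by simpa using h), ?_⟩
    have h1 : Fintype.card (start t Xm (by simpa using h)).L = 2 := Fintype.card_bool
    have h2 : Fintype.card (start t Xm (by simpa using h)).V = 1 := Fintype.card_unit
    rw [h1, h2]
    unfold Inv
    refine ⟨by norm_num, by norm_num, by norm_num, by decide, by decide⟩
  | succ r ih =>
    intro t Xm h
    have ih' := ih (t + 1) Xm (by rwa [show r + (t + 1) = r + 1 + t by ring])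
    rw [pow_succ'] at ih'
    obtain ⟨cc, P, hP⟩ := ih'
    obtain ⟨Q, hQ1, hQ2⟩ := P.exists_next (4 ^ (r + 1)) (by positivity)
    refine ⟨_, Q, ?_⟩
    rw [hQ1, hQ2]
    exact hP.step

end HU

open HU in
/-- Item A: unit arrangements with many balanced crossings exist. -/
theorem claimUnit : ClaimUnit := by
  intro q hq
  obtain ⟨r, rfl⟩ : ∃ r, q = r + 1 := ⟨q - 1, by omega⟩
  have h0 := exists_stage r 0 (2 ^ (r + 1)) (by
    rw [add_zero]; exact Nat.pow_le_pow_right (by norm_num) (by omega))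
  rw [pow_zero] at h0
  obtain ⟨cc, P, hP⟩ := h0
  obtain ⟨N, hN⟩ : ∃ N, Fintype.card P.L = N := ⟨_, rfl⟩
  obtain ⟨M, hM⟩ : ∃ M, Fintype.card P.V = M := ⟨_, rfl⟩
  rw [hN, hM] at hP
  have hS := hP.step
  obtain ⟨U, hU1, hU2, hU3, hU4⟩ := exists_unit P (4 ^ (r + 1)) (by
    rw [hN, hM]; exact hS.2.2.2.1)
  rw [hN, hM] at hU3
  rw [hM] at hU4
  refine ⟨U, hU1, hU2, by rw [hU3]; exact Nat.succ_pos _, ?_, ?_⟩
  · rw [hU3]
    obtain ⟨g1, -, g3, -, -⟩ := hS
    generalize (2 * 4 ^ (r + 1) + 1) * N + M + cc + 1 = g at g1 ⊢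
    generalize 2 * (2 * 4 ^ (r + 1) + 1) * M = M' at g1 g3
    have e4 : 4 ^ (r + 1) = 2 ^ (r + 1) * 2 ^ (r + 1) := by
      rw [← mul_pow]; norm_num
    rw [e4] at g1
    have hu : 1 ≤ 2 ^ (r + 1) := Nat.one_le_pow _ _ (by norm_num)
    generalize 2 ^ (r + 1) = u at g1 hu
    have g5 : u * (u * g) ≤ u * (3 * M') := by nlinarith
    have g6 : u * g ≤ 3 * M' := Nat.le_of_mul_le_mul_left g5 (by omega)
    have g7 : g ≤ 3 * M' := le_trans (by nlinarith) g6
    rw [pow_add _ _ 2]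
    generalize 2 ^ ((r + 1) ^ 2 + 4 * (r + 1)) = W at g3 ⊢
    omega
  · rw [hU3, hU4]
    obtain ⟨g1, g2, -, -, -⟩ := hP
    have e4 : 4 ^ (r + 1) = 4 * (2 ^ r * 2 ^ r) := by
      rw [← mul_pow]; norm_num; ring
    have e4' : 4 ^ r = 2 ^ r * 2 ^ r := by
      rw [← mul_pow]; norm_num
    have e2 : 2 ^ (r + 1) = 2 * 2 ^ r := by ring
    rw [e4'] at g1
    rw [e4, e2]
    have hu : 1 ≤ 2 ^ r := Nat.one_le_pow _ _ (by norm_num)
    generalize 2 ^ r = u at g1 hu ⊢
    have g5 : u * (u * N) ≤ u * (3 * M) := by nlinarith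
    have g6 : u * N ≤ 3 * M := Nat.le_of_mul_le_mul_left g5 (by omega)
    have g7 : (2 * (2 * (4 * (u * u)) + 1)) * (u * N) ≤ (2 * (2 * (4 * (u * u)) + 1)) * (3 * M) :=
      Nat.mul_le_mul_left _ g6
    have g8 : 2 * u * (cc + 1) ≤ 2 * u * M := Nat.mul_le_mul_left _ g2
    have g9 : u * M ≤ u * u * M := by nlinarith [Nat.mul_le_mul_right (u * M) hu]
    nlinarith

end Pool.Agent.Work.MP_e17eac_co.HL
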