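import Pool.Agent.Work.MP_e17eac_co.Halving

/-!
# The convex cut lemma for halving lines and its consequence for convex position covers
-/

namespace Pool.Agent.Work.MP_e17eac_co

open Finset

open Classical in
/-- The number of halving neighbours of `p` in the set `A`. -/
noncomputable def hdeg (P : Finset (ℝ × ℝ)) (p : ℝ × ℝ) (A : Finset (ℝ × ℝ)) : ℕ :=
  (A.filter (fun q => IsHalving P p q)).card

lemma hdeg_mono (P : Finset (ℝ × ℝ)) (p : ℝ × ℝ) {A B : Finset (ℝ × ℝ)} (h : A ⊆ B) :
    hdeg P p A ≤ hdeg P p B := by
  classical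
  exact Finset.card_le_card (Finset.filter_subset_filter _ h)

lemma hdeg_union (P : Finset (ℝ × ℝ)) (p : ℝ × ℝ) {A B : Finset (ℝ × ℝ)} [DecidableEq (ℝ × ℝ)]
    (h : Disjoint A B) : hdeg P p (A ∪ B) = hdeg P p A + hdeg P p B := by
  classical
  unfold hdeg
  rw [← Finset.card_union_of_disjoint (Finset.disjoint_filter_filter h)]
  congr 1
  ext x
  simp only [Finset.mem_filter, Finset.mem_union]
  tauto

lemma hdeg_singleton_le (P : Finset (ℝ × ℝ)) (p q : ℝ × ℝ) :
    hdeg P p {q} = hdeg P q {p} := by
  classical
  unfold hdeg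
  rw [Finset.filter_singleton, Finset.filter_singleton]
  by_cases h : IsHalving P p q
  · rw [if_pos h, if_pos h.symm]; rfl
  · rw [if_neg h, if_neg (fun h' => h h'.symm)]

lemma sum_hdeg_comm (P A B : Finset (ℝ × ℝ)) :
    ∑ p ∈ A, hdeg P p B = ∑ q ∈ B, hdeg P q A := by
  classical
  unfold hdeg
  simp only [Finset.card_filter]
  rw [Finset.sum_comm]
  refine Finset.sum_congr rfl fun q _ => Finset.sum_congr rfl fun p _ => ?_
  by_cases h : IsHalving P p q
  · rw [if_pos h, if_pos h.symm]
  · rw [if_neg h, if_neg (fun h' => h h'.symm)]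

open Classical in
/-- For a line through `p` missing all other points, the two sides have almost the same number of
halving neighbours of `p`. -/
lemma hdeg_le_add_one {P : Finset (ℝ × ℝ)} (hgp : GeneralPosition P) (heven : Even P.card)
    {p : ℝ × ℝ} (hp : p ∈ P) (α β : ℝ) (hlf : ∀ q ∈ P, q ≠ p → lf α β p q ≠ 0) :
    hdeg P p (P.filter (fun q => 0 < lf α β p q)) ≤
      hdeg P p (P.filter (fun q => lf α β p q < 0)) + 1 := by
  have h := local_alternation hgp heven hp α β hlf
  have e1 : hdeg P p (P.filter (fun q => 0 < lf α β p q)) =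
      (P.filter (fun q => IsHalving P p q ∧ 0 < lf α β p q)).card := by
    unfold hdeg
    rw [Finset.filter_filter]
    congr 1
    ext x
    simp only [Finset.mem_filter]
    tauto
  have e2 : hdeg P p (P.filter (fun q => lf α β p q < 0)) =
      (P.filter (fun q => IsHalving P p q ∧ lf α β p q < 0)).card := by
    unfold hdeg
    rw [Finset.filter_filter]
    congr 1
    ext x
    simp only [Finset.mem_filter]
    tauto
  rw [e1, e2]
  split_ifs at h <;> omega

/-- Perturbation of a supporting line so that it misses all other points. -/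
lemma exists_lf {P S : Finset (ℝ × ℝ)} {p : ℝ × ℝ}
    (hconv : p ∉ convexHull ℝ (S : Set (ℝ × ℝ))) :
    ∃ α β : ℝ, (∀ q ∈ S, 0 < lf α β p q) ∧ ∀ q ∈ P, q ≠ p → lf α β p q ≠ 0 := by
  classical
  -- first a supporting functional
  obtain ⟨α, β, hαβ, hS⟩ : ∃ α β : ℝ, α ^ 2 + β ^ 2 ≠ 0 ∧ ∀ q ∈ S, 0 < lf α β p q := by
    by_cases hSe : S.Nonempty
    · obtain ⟨F, u, hFp, hFS⟩ := geometric_hahn_banach_point_closed (convex_convexHull ℝ _)
        (S.finite_toSet.isClosed_convexHull ℝ) hconv
      have hF : ∀ q : ℝ × ℝ, F q = F (1, 0) * q.1 + F (0, 1) * q.2 := by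
        intro q
        have : q = q.1 • (1, 0) + q.2 • (0, 1) := by
          ext <;> simp
        conv_lhs => rw [this]
        rw [map_add, map_smul, map_smul, smul_eq_mul, smul_eq_mul]
        ring
      have hpos : ∀ q ∈ S, 0 < lf (F (1, 0)) (F (0, 1)) p q := by
        intro q hq
        have h1 := hFS q (subset_convexHull ℝ _ hq)
        have h2 := hF p
        have h3 := hF q
        unfold lf
        nlinarith
      refine ⟨F (1, 0), F (0, 1), ?_, hpos⟩
      intro h0
      obtain ⟨q, hq⟩ := hSe
      have h1 := hpos q hq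
      have h2 : F (1, 0) = 0 := by nlinarith [sq_nonneg (F (1, 0)), sq_nonneg (F (0, 1))]
      have h3 : F (0, 1) = 0 := by nlinarith [sq_nonneg (F (1, 0)), sq_nonneg (F (0, 1))]
      rw [h2, h3] at h1
      simp [lf] at h1
    · rw [Finset.not_nonempty_iff_eq_empty] at hSe
      exact ⟨1, 0, by norm_num, by simp [hSe]⟩
  -- perturb
  have hev : ∀ᶠ ε in nhdsWithin (0 : ℝ) (Set.Ioi 0), ∀ q ∈ P ∪ S,
      (0 < lf α β p q → 0 < lf α β p q + ε * lf (-β) α p q) ∧
      (q ≠ p → lf α β p q + ε * lf (-β) α p q ≠ 0) := by
    rw [Filter.eventually_all_finset]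
    intro q _
    have hcont : Filter.Tendsto (fun ε : ℝ => lf α β p q + ε * lf (-β) α p q)
        (nhdsWithin (0 : ℝ) (Set.Ioi 0)) (nhds (lf α β p q)) := by
      have : Filter.Tendsto (fun ε : ℝ => lf α β p q + ε * lf (-β) α p q)
          (nhds 0) (nhds (lf α β p q + 0 * lf (-β) α p q)) := by
        apply Continuous.tendsto
        fun_prop
      rw [zero_mul, add_zero] at this
      exact this.mono_left nhdsWithin_le_nhds
    rcases lt_trichotomy (lf α β p q) 0 with h | h | h
    · have h1 := hcont.eventually (gt_mem_nhds h)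
      filter_upwards [h1] with ε hε
      exact ⟨fun h' => absurd h' (not_lt.mpr h.le), fun _ => ne_of_lt hε⟩
    · have h1 : ∀ᶠ ε in nhdsWithin (0 : ℝ) (Set.Ioi 0), (0 : ℝ) < ε :=
        eventually_mem_nhdsWithin
      filter_upwards [h1] with ε hε
      refine ⟨fun h' => absurd h' (by rw [h]; exact lt_irrefl _), fun hqp => ?_⟩
      rw [h, zero_add]
      refine mul_ne_zero hε.ne' ?_
      intro h2
      apply hqp
      unfold lf at h h2
      have h3 : (α ^ 2 + β ^ 2) * (q.1 - p.1) = 0 := by linear_combination α * h - β * h2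
      have h4 : (α ^ 2 + β ^ 2) * (q.2 - p.2) = 0 := by linear_combination β * h + α * h2
      have h5 := (mul_eq_zero.mp h3).resolve_left hαβ
      have h6 := (mul_eq_zero.mp h4).resolve_left hαβ
      ext
      · linarith
      · linarith
    · have h1 := hcont.eventually (lt_mem_nhds h)
      filter_upwards [h1] with ε hε
      exact ⟨fun _ => hε, fun _ => ne_of_gt hε⟩
  obtain ⟨ε, hε⟩ := hev.exists
  have hlf : ∀ q, lf (α - ε * β) (β + ε * α) p q = lf α β p q + ε * lf (-β) α p q := by
    intro q
    unfold lf
    ring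
  refine ⟨α - ε * β, β + ε * α, ?_, ?_⟩
  · intro q hq
    rw [hlf]
    exact (hε q (Finset.mem_union_right _ hq)).1 (hS q hq)
  · intro q hq hqp
    rw [hlf]
    exact (hε q (Finset.mem_union_left _ hq)).2 hqp

open Classical in
/-- If `p` is not in the convex hull of `S`, then `p` has at most one halving neighbour in `S`
more than in the complement of a half-plane containing `S`. -/
lemma hdeg_extreme {P S : Finset (ℝ × ℝ)} (hgp : GeneralPosition P) (heven : Even P.card)
    {p : ℝ × ℝ} (hp : p ∈ P) (hSP : S ⊆ P) (hconv : p ∉ convexHull ℝ (S : Set (ℝ × ℝ))) :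
    ∃ B ⊆ P, (∀ q ∈ B, q ∉ convexHull ℝ (insert p (S : Set (ℝ × ℝ)))) ∧
      hdeg P p (P \ B) ≤ hdeg P p B + 1 ∧ hdeg P p P ≤ 2 * hdeg P p B + 1 := by
  obtain ⟨α, β, h1, h2⟩ := exists_lf (P := P) hconv
  refine ⟨P.filter (fun q => lf α β p q < 0), Finset.filter_subset _ _, ?_, ?_, ?_⟩
  · intro q hq hq2
    simp only [Finset.mem_filter] at hq
    have hsub : insert p (S : Set (ℝ × ℝ)) ⊆ {x | 0 ≤ lf α β p x} := by
      intro x hx
      rcases hx with rfl | hx
      · simp [lf]
      · exact (h1 x hx).le
    have hcx : Convex ℝ {x : ℝ × ℝ | 0 ≤ lf α β p x} := by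
      intro x hx y hy a b ha hb hab
      simp only [Set.mem_ofPred_eq] at hx hy ⊢
      have : lf α β p (a • x + b • y) = a * lf α β p x + b * lf α β p y := by
        unfold lf
        simp only [Prod.fst_add, Prod.smul_fst, smul_eq_mul, Prod.snd_add, Prod.smul_snd]
        have hb' : b = 1 - a := by linarith
        subst hb'
        ring
      rw [this]
      positivity
    have := convexHull_min hsub hcx hq2
    simp only [Set.mem_ofPred_eq] at this
    linarith [hq.2]
  · have h3 := hdeg_le_add_one hgp heven hp α β h2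
    have h4 : hdeg P p (P \ P.filter (fun q => lf α β p q < 0)) ≤
        hdeg P p (P.filter (fun q => 0 < lf α β p q)) := by
      unfold hdeg
      apply Finset.card_le_card
      intro q hq
      simp only [Finset.mem_filter, Finset.mem_sdiff, not_and, not_lt] at hq ⊢
      refine ⟨⟨hq.1.1, ?_⟩, hq.2⟩
      exact lt_of_le_of_ne (hq.1.2 hq.1.1) (Ne.symm (h2 q hq.1.1 hq.2.2.2.1.symm))
    omega
  · have h3 := hdeg_le_add_one hgp heven hp α β h2
    have h4 : hdeg P p P ≤
        hdeg P p (P.filter (fun q => 0 < lf α β p q)) +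
        hdeg P p (P.filter (fun q => lf α β p q < 0)) := by
      rw [← hdeg_union]
      · unfold hdeg
        apply Finset.card_le_card
        intro q hq
        simp only [Finset.mem_filter, Finset.mem_union] at hq ⊢
        refine ⟨?_, hq.2⟩
        rcases lt_or_gt_of_ne (h2 q hq.1 hq.2.2.2.1.symm) with h | h
        · exact Or.inr ⟨hq.1, h⟩
        · exact Or.inl ⟨hq.1, h⟩
      · rw [Finset.disjoint_left]
        intro q h5 h6
        simp only [Finset.mem_filter] at h5 h6
        linarith [h5.2, h6.2]
    omega

/-- A finite set not contained in a convex set `K` has a point outside `K` which is not in the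
convex hull of the others. -/
lemma exists_extreme_not_mem {S : Finset (ℝ × ℝ)} {K : Set (ℝ × ℝ)} (hK : Convex ℝ K)
    (hSK : ¬ (S : Set (ℝ × ℝ)) ⊆ K) :
    ∃ p ∈ S, p ∉ K ∧ p ∉ convexHull ℝ ((S : Set (ℝ × ℝ)) \ {p}) := by
  by_contra hcon
  push Not at hcon
  apply hSK
  set A := convexHull ℝ (S : Set (ℝ × ℝ)) with hA
  have hAc : IsCompact A := S.finite_toSet.isCompact_convexHull ℝ
  have hAx : Convex ℝ A := convex_convexHull ℝ _
  have hext : Set.extremePoints ℝ A ⊆ (S : Set (ℝ × ℝ)) := extremePoints_convexHull_subset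
  have hextK : Set.extremePoints ℝ A ⊆ K := by
    intro p hp
    by_contra hpK
    have h1 := hcon p (hext hp) hpK
    have h2 := (Convex.mem_extremePoints_iff_mem_sdiff_convexHull_sdiff hAx).mp hp
    apply h2.2
    exact convexHull_mono (Set.sdiff_subset_sdiff_left (subset_convexHull ℝ _)) h1
  have hfin : (Set.extremePoints ℝ A).Finite := S.finite_toSet.subset hext
  have hcl := closure_convexHull_extremePoints hAc hAx
  rw [(hfin.isClosed_convexHull ℝ).closure_eq] at hcl
  calc (S : Set (ℝ × ℝ)) ⊆ A := subset_convexHull ℝ _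
    _ = convexHull ℝ (Set.extremePoints ℝ A) := hcl.symm
    _ ⊆ K := convexHull_min hextK hK

open Classical in
/-- **Convex cut lemma.** For a convex set `K`, the number of halving pairs with one point inside
and one point outside `K` is at most the number of points outside `K`. -/
lemma convex_cut {P : Finset (ℝ × ℝ)} (hgp : GeneralPosition P) (heven : Even P.card)
    {K : Set (ℝ × ℝ)} (hK : Convex ℝ K) :
    ∑ p ∈ P.filter (fun p => p ∈ K), hdeg P p (P.filter (fun p => p ∉ K)) ≤
      (P.filter (fun p => p ∉ K)).card := by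
  have key : ∀ m : ℕ, ∀ S ⊆ P, P.filter (fun p => p ∈ K) ⊆ S →
      (S.filter (fun p => p ∉ K)).card = m →
      ∑ p ∈ S, hdeg P p (P \ S) ≤ (P \ S).card →
      ∑ p ∈ P.filter (fun p => p ∈ K), hdeg P p (P.filter (fun p => p ∉ K)) ≤
        (P.filter (fun p => p ∉ K)).card := by
    intro m
    induction m with
    | zero =>
      intro S hSP hKS hcard hQ
      have hS : S = P.filter (fun p => p ∈ K) := by
        apply Finset.Subset.antisymm _ hKS
        intro x hx
        rw [Finset.card_eq_zero, Finset.filter_eq_empty_iff] at hcard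
        have := hcard hx
        simp only [not_not] at this
        exact Finset.mem_filter.mpr ⟨hSP hx, this⟩
      have hS' : P \ S = P.filter (fun p => p ∉ K) := by
        rw [hS]
        ext x
        simp only [Finset.mem_sdiff, Finset.mem_filter]
        tauto
      rw [hS', hS] at hQ
      exact hQ
    | succ m ih =>
      intro S hSP hKS hcard hQ
      have hne : ¬ (S : Set (ℝ × ℝ)) ⊆ K := by
        intro h
        have : S.filter (fun p => p ∉ K) = ∅ := by
          rw [Finset.filter_eq_empty_iff]
          intro x hx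
          simp only [not_not]
          exact h hx
        rw [this] at hcard
        simp at hcard
      obtain ⟨p, hpS, hpK, hpc⟩ := exists_extreme_not_mem hK hne
      have hpP := hSP hpS
      rw [← Finset.coe_erase] at hpc
      obtain ⟨B, hBP, hB1, hB2, _⟩ := hdeg_extreme hgp heven hpP
        ((Finset.erase_subset p S).trans hSP) hpc
      refine ih (S.erase p) ((Finset.erase_subset p S).trans hSP) ?_ ?_ ?_
      · intro x hx
        refine Finset.mem_erase.mpr ⟨?_, hKS hx⟩
        rintro rfl
        exact hpK (Finset.mem_filter.mp hx).2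
      · have : (S.erase p).filter (fun p => p ∉ K) = (S.filter (fun p => p ∉ K)).erase p := by
          ext x
          simp only [Finset.mem_filter, Finset.mem_erase]
          tauto
        rw [this, Finset.card_erase_of_mem (by simp [hpS, hpK]), hcard]
        rfl
      · -- one peeling step
        have hPS : P \ S.erase p = insert p (P \ S) := by
          ext x
          simp only [Finset.mem_sdiff, Finset.mem_erase, Finset.mem_insert]
          constructor
          · rintro ⟨h1, h2⟩
            by_cases hxp : x = p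
            · exact Or.inl hxp
            · exact Or.inr ⟨h1, fun h => h2 ⟨hxp, h⟩⟩
          · rintro (rfl | ⟨h1, h2⟩)
            · exact ⟨hpP, fun h => h.1 rfl⟩
            · exact ⟨h1, fun h => h2 h.2⟩
        have hpPS : p ∉ P \ S := fun h => (Finset.mem_sdiff.mp h).2 hpS
        rw [hPS, Finset.card_insert_of_notMem hpPS]
        -- split the sum
        have h1 : ∑ x ∈ S.erase p, hdeg P x (insert p (P \ S)) =
            ∑ x ∈ S.erase p, hdeg P x (P \ S) + hdeg P p (S.erase p) := by
          have h2 : ∀ x ∈ S.erase p, hdeg P x (insert p (P \ S)) =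
              hdeg P x (P \ S) + hdeg P x {p} := by
            intro x _
            rw [Finset.insert_eq, Finset.union_comm, hdeg_union]
            rw [Finset.disjoint_singleton_right]
            exact hpPS
          rw [Finset.sum_congr rfl h2, Finset.sum_add_distrib]
          congr 1
          rw [sum_hdeg_comm]
          simp
        have h3 : ∑ x ∈ S, hdeg P x (P \ S) =
            ∑ x ∈ S.erase p, hdeg P x (P \ S) + hdeg P p (P \ S) :=
          (Finset.sum_erase_add _ _ hpS).symm
        have h4 : hdeg P p (S.erase p) ≤ hdeg P p (P \ B) := by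
          apply hdeg_mono
          intro x hx
          refine Finset.mem_sdiff.mpr ⟨hSP (Finset.mem_of_mem_erase hx), ?_⟩
          intro hxB
          apply hB1 x hxB
          exact subset_convexHull ℝ _ (Or.inr hx)
        have h5 : hdeg P p B ≤ hdeg P p (P \ S) := by
          unfold hdeg
          apply Finset.card_le_card
          intro x hx
          simp only [Finset.mem_filter, Finset.mem_sdiff] at hx ⊢
          refine ⟨⟨hBP hx.1, ?_⟩, hx.2⟩
          intro hxS
          apply hB1 x hx.1
          have hxp : x ≠ p := hx.2.2.2.1.symm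
          exact subset_convexHull ℝ _ (Or.inr (by simp [hxS, hxp]))
        omega
  refine key _ P (Finset.Subset.refl _) (Finset.filter_subset _ _) rfl ?_
  simp [hdeg]

end Pool.Agent.Work.MP_e17eac_co
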