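import Pool.Agent.Work.MP_e17eac_co.Bd.B05

/-!
# Nested composition: patterns are realizable (item B6)
-/

set_option autoImplicit false

namespace Pool.Agent.Work.MP_e17eac_co.NC

open Finset Pool.Agent.Work.MP_e17eac_co.HL
open scoped Classical

/-- The difference of two lines at the abscissa of an edge is minus the height. -/
lemma Pat.line_diff (p : Pat) (hp : p.Good) (e : p.E) (k : p.K) :
    (p.κ k : ℝ) * ((p.δ (p.src e) - p.δ (p.tgt e)) / ((p.κ (p.src e) : ℝ) - p.κ (p.tgt e))) +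
      -p.δ k - ((p.κ (p.src e) : ℝ) *
        ((p.δ (p.src e) - p.δ (p.tgt e)) / ((p.κ (p.src e) : ℝ) - p.κ (p.tgt e))) +
        -p.δ (p.src e)) = -(p.g e k) := by
  have h := Pat.κ_sub_ne hp e
  unfold Pat.g Pat.ξ
  field_simp
  ring

lemma Pat.g_ne_zero (p : Pat) (hp : p.Good) (e : p.E) {k : p.K} (h1 : k ≠ p.src e)
    (h2 : k ≠ p.tgt e) : p.g e k ≠ 0 := by
  intro h
  have := hp.margin e k h1 h2
  rw [h, abs_zero, mul_zero] at this
  linarith

lemma Pat.g_eq_zero_iff (p : Pat) (hp : p.Good) (e : p.E) (k : p.K) :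
    p.g e k = 0 ↔ k = p.src e ∨ k = p.tgt e := by
  constructor
  · intro h
    by_contra hc
    rw [not_or] at hc
    exact Pat.g_ne_zero p hp e hc.1 hc.2 h
  · rintro (h | h)
    · rw [h]; exact Pat.g_src hp e
    · rw [h]; exact Pat.g_tgt e

lemma Pat.even_card (p : Pat) (hp : p.Good) : Even (Fintype.card p.K) := by
  have h1 : Even (∑ v : p.K, (p.σ v - 1)) := by
    refine Finset.even_sum _ fun v _ => ?_
    rcases hp.σ_or v with h | h
    · rw [h]; decide
    · rw [h]; decide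
  have h2 : ∑ v : p.K, (p.σ v - 1) = -(Fintype.card p.K : ℤ) := by
    rw [Finset.sum_sub_distrib, hp.σ_sum]
    simp
  rw [h2, even_neg] at h1
  exact_mod_cast h1

theorem claimReal : ClaimReal := by
  intro p hp
  refine ⟨?_, Pat.even_card p hp⟩
  have hinj : Function.Injective (fun e : p.E => (p.src e, p.tgt e)) := by
    intro e e' h
    exact hp.edge_inj e e' (congrArg Prod.fst h) (congrArg Prod.snd h)
  refine ⟨p.K, p.fK, fun k => (p.κ k : ℝ), fun k => -p.δ k,
    Finset.univ.image (fun e : p.E => (p.src e, p.tgt e)), rfl, ?_, ?_, ?_⟩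
  · intro q hq
    rw [Finset.mem_image] at hq
    obtain ⟨e, _, rfl⟩ := hq
    refine ⟨(p.δ (p.src e) - p.δ (p.tgt e)) / ((p.κ (p.src e) : ℝ) - p.κ (p.tgt e)), ?_⟩
    refine ⟨Pat.src_ne_tgt hp e e, ?_, ?_⟩
    · intro k
      have h := Pat.line_diff p hp e k
      have h2 := Pat.g_eq_zero_iff p hp e k
      constructor
      · intro h3
        refine h2.mp ?_
        have h4 : -(p.g e k) = 0 := by rw [← h]; exact sub_eq_zero.mpr h3
        linarith
      · intro h3
        have h4 := h2.mpr h3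
        rw [h4, neg_zero] at h
        exact sub_eq_zero.mp h
    · have h : ∀ k : p.K, sg ((p.κ k : ℝ) *
          ((p.δ (p.src e) - p.δ (p.tgt e)) / ((p.κ (p.src e) : ℝ) - p.κ (p.tgt e))) +
          -p.δ k - ((p.κ (p.src e) : ℝ) *
            ((p.δ (p.src e) - p.δ (p.tgt e)) / ((p.κ (p.src e) : ℝ) - p.κ (p.tgt e))) +
            -p.δ (p.src e))) = - sg (p.g e k) := fun k => by
        rw [Pat.line_diff p hp e k, sg_neg]
      show ∑ k : p.K, sg ((p.κ k : ℝ) *
          ((p.δ (p.src e) - p.δ (p.tgt e)) / ((p.κ (p.src e) : ℝ) - p.κ (p.tgt e))) +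
          -p.δ k - ((p.κ (p.src e) : ℝ) *
            ((p.δ (p.src e) - p.δ (p.tgt e)) / ((p.κ (p.src e) : ℝ) - p.κ (p.tgt e))) +
            -p.δ (p.src e))) = 0
      rw [Finset.sum_congr rfl fun k _ => h k, Finset.sum_neg_distrib, hp.bal e, neg_zero]
  · intro q hq hq'
    rw [Finset.mem_image] at hq hq'
    obtain ⟨e, _, rfl⟩ := hq
    obtain ⟨e', _, he'⟩ := hq'
    have h1 : p.src e' = p.tgt e := congrArg Prod.fst he'
    exact Pat.src_ne_tgt hp e' e h1
  · rw [Finset.card_image_of_injective _ hinj, Finset.card_univ]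

theorem claimSparse2 (h1 : ClaimTower) (h2 : ClaimReal) : ClaimSparse2 := by
  intro r K hr hK
  obtain ⟨p, hp, hK0, _, hcard, _, _, hE⟩ := h1 r K hr hK
  obtain ⟨h3, h4⟩ := h2 p hp
  exact ⟨Fintype.card p.K, Fintype.card p.E, h3, h4, hK0, hcard, hE⟩

end Pool.Agent.Work.MP_e17eac_co.NC
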