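import Mathlib
import Pool.Agent.Work.MP_e17eac_co.Defs

set_option autoImplicit false

namespace Pool.Agent.Work.MP_e17eac_co

open Finset

/-- strict lexicographic order on the plane -/
def LexLt (x y : ℝ × ℝ) : Prop := x.1 < y.1 ∨ (x.1 = y.1 ∧ x.2 < y.2)

lemma lexLt_irrefl (x : ℝ × ℝ) : ¬ LexLt x x := by
  unfold LexLt; simp

lemma lexLt_trans {x y z : ℝ × ℝ} (h1 : LexLt x y) (h2 : LexLt y z) : LexLt x z := by
  unfold LexLt at *
  rcases h1 with h1 | ⟨h1, h1'⟩ <;> rcases h2 with h2 | ⟨h2, h2'⟩
  · left; linarith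
  · left; linarith
  · left; linarith
  · right; exact ⟨by linarith, by linarith⟩

lemma lexLt_total {x y : ℝ × ℝ} (h : ¬ LexLt x y) : x = y ∨ LexLt y x := by
  unfold LexLt at *
  push Not at h
  obtain ⟨h1, h2⟩ := h
  rcases lt_or_eq_of_le h1 with h3 | h3
  · right; left; exact h3
  · rcases lt_or_eq_of_le (h2 h3.symm) with h4 | h4
    · right; right; exact ⟨h3, h4⟩
    · left; exact Prod.ext h3.symm h4.symm

open Classical in
/-- rank of a point in the lexicographic order of `C` -/
noncomputable def rk (C : Finset (ℝ × ℝ)) (r : ℝ × ℝ) : ℕ := (C.filter fun x => LexLt x r).card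

lemma rk_lt_rk {C : Finset (ℝ × ℝ)} {x y : ℝ × ℝ} (hx : x ∈ C) (h : LexLt x y) :
    rk C x < rk C y := by
  classical
  unfold rk
  apply Finset.card_lt_card
  constructor
  · intro z hz
    simp only [mem_filter] at hz ⊢
    exact ⟨hz.1, lexLt_trans hz.2 h⟩
  · intro hsub
    have : x ∈ C.filter (fun z => LexLt z y) := by simp [hx, h]
    have := hsub this
    simp only [mem_filter] at this
    exact lexLt_irrefl x this.2

lemma lexLt_of_rk_lt {C : Finset (ℝ × ℝ)} {x y : ℝ × ℝ} (hy : y ∈ C)
    (h : rk C x < rk C y) : LexLt x y := by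
  by_contra hn
  rcases lexLt_total hn with h1 | h1
  · subst h1; exact lt_irrefl _ h
  · have := rk_lt_rk hy h1
    omega

lemma rk_injOn (C : Finset (ℝ × ℝ)) : Set.InjOn (rk C) (C : Set (ℝ × ℝ)) := by
  intro x hx y hy hxy
  by_contra hne
  by_cases h : LexLt x y
  · have := rk_lt_rk hx h
    omega
  · rcases lexLt_total h with h1 | h1
    · exact hne h1
    · have := rk_lt_rk hy h1
      omega

lemma rk_lt_card {C : Finset (ℝ × ℝ)} {x : ℝ × ℝ} (hx : x ∈ C) : rk C x < C.card := by
  classical
  unfold rk
  apply Finset.card_lt_card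
  constructor
  · exact Finset.filter_subset _ _
  · intro hsub
    have := hsub hx
    simp only [mem_filter] at this
    exact lexLt_irrefl x this.2

/-- the number of elements of `C` of rank `< v` is at most `v` -/
lemma card_rk_lt_le (C : Finset (ℝ × ℝ)) (v : ℕ) : (C.filter fun x => rk C x < v).card ≤ v := by
  have : (C.filter fun x => rk C x < v).card ≤ (Finset.range v).card := by
    apply Finset.card_le_card_of_injOn (rk C)
    · intro x hx
      simp only [coe_filter, Set.mem_ofPred_eq] at hx
      simpa using hx.2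
    · intro x hx y hy hxy
      simp only [coe_filter, Set.mem_ofPred_eq] at hx hy
      exact rk_injOn C hx.1 hy.1 hxy
  simpa using this

/-- slope of the line through `p` and `q` -/
noncomputable def slp (p q : ℝ × ℝ) : ℝ := (q.2 - p.2) / (q.1 - p.1)

lemma side_eq {p q : ℝ × ℝ} (h : p.1 < q.1) (r : ℝ × ℝ) :
    side p q r = (q.1 - p.1) * ((r.2 - slp p q * r.1) - (p.2 - slp p q * p.1)) := by
  unfold side slp
  have : q.1 - p.1 ≠ 0 := by linarith
  field_simp
  ring

lemma side_pos_iff {p q : ℝ × ℝ} (h : p.1 < q.1) (r : ℝ × ℝ) :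
    0 < side p q r ↔ p.2 - slp p q * p.1 < r.2 - slp p q * r.1 := by
  rw [side_eq h]
  have h' : 0 < q.1 - p.1 := by linarith
  rw [mul_pos_iff_of_pos_left h']
  constructor <;> intro h <;> linarith

lemma side_neg_iff {p q : ℝ × ℝ} (h : p.1 < q.1) (r : ℝ × ℝ) :
    side p q r < 0 ↔ r.2 - slp p q * r.1 < p.2 - slp p q * p.1 := by
  rw [side_eq h]
  have h' : 0 < q.1 - p.1 := by linarith
  constructor
  · intro h2
    by_contra h3
    have : 0 ≤ (q.1 - p.1) * ((r.2 - slp p q * r.1) - (p.2 - slp p q * p.1)) :=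
      mul_nonneg h'.le (by linarith)
    linarith
  · intro h2
    exact mul_neg_of_pos_of_neg h' (by linarith)

lemma slp_endpoint {p q : ℝ × ℝ} (h : p.1 < q.1) :
    q.2 - slp p q * q.1 = p.2 - slp p q * p.1 := by
  unfold slp
  have : q.1 - p.1 ≠ 0 := by linarith
  field_simp
  ring

/-- In a `k`-edge, the only points of `P` on the line are the two endpoints. -/
lemma IsKEdge.eq_of_side_zero {P : Finset (ℝ × ℝ)} {k : ℕ} {p q r : ℝ × ℝ}
    (h : IsKEdge P k p q) (hr : r ∈ P) (h0 : side p q r = 0) : r = p ∨ r = q := by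
  classical
  obtain ⟨hp, hq, hne, h1, h2⟩ := h
  by_contra hcon
  push Not at hcon
  have hsub : (P.filter fun r => 0 < side p q r) ∪ (P.filter fun r => side p q r < 0) ∪ {p, q, r}
      ⊆ P := by
    intro x hx
    simp only [mem_union, mem_filter, mem_insert, mem_singleton] at hx
    rcases hx with (hx | hx) | hx | hx | hx
    · exact hx.1
    · exact hx.1
    · rwa [hx]
    · rwa [hx]
    · rwa [hx]
  have hcard := Finset.card_le_card hsub
  have hpp : side p q p = 0 := by unfold side; ring
  have hqq : side p q q = 0 := by unfold side; ring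
  have hd1 : Disjoint (P.filter fun r => 0 < side p q r) (P.filter fun r => side p q r < 0) := by
    rw [Finset.disjoint_filter]
    intro x _ h1 h2
    linarith
  have hd2 : Disjoint ((P.filter fun r => 0 < side p q r) ∪ (P.filter fun r => side p q r < 0))
      ({p, q, r} : Finset (ℝ × ℝ)) := by
    rw [Finset.disjoint_left]
    intro x hx hx2
    simp only [mem_union, mem_filter, mem_insert, mem_singleton] at hx hx2
    rcases hx2 with rfl | rfl | rfl <;> rcases hx with hx | hx <;> linarith [hx.2]
  rw [Finset.card_union_of_disjoint hd2, Finset.card_union_of_disjoint hd1, h1] at hcard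
  have h3 : ({p, q, r} : Finset (ℝ × ℝ)).card = 3 := by
    rw [Finset.card_insert_of_notMem, Finset.card_insert_of_notMem, Finset.card_singleton]
    · simp only [mem_singleton]; exact fun h => hcon.2 h.symm
    · simp only [mem_insert, mem_singleton, not_or]
      exact ⟨hne, fun h => hcon.1 h.symm⟩
  omega

/-- A general comparison: if the closed left side of one `k`-edge is contained in the open left
side of another one, we get a contradiction. -/
lemma kEdge_not_above {P : Finset (ℝ × ℝ)} {k : ℕ} {p q p' q' : ℝ × ℝ}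
    (h : IsKEdge P k p q) (h' : IsKEdge P k p' q')
    (hsub : ∀ r ∈ P, 0 ≤ side p' q' r → 0 < side p q r) : False := by
  classical
  obtain ⟨hp, hq, hne, h1, h2⟩ := h
  obtain ⟨hp', hq', hne', h1', h2'⟩ := h'
  have hpp : side p' q' p' = 0 := by unfold side; ring
  have hqq : side p' q' q' = 0 := by unfold side; ring
  have hs : (P.filter fun r => 0 < side p' q' r) ∪ {p', q'} ⊆ P.filter fun r => 0 < side p q r := by
    intro x hx
    simp only [mem_union, mem_filter, mem_insert, mem_singleton] at hx ⊢
    rcases hx with hx | hx | hx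
    · exact ⟨hx.1, hsub x hx.1 hx.2.le⟩
    · rw [hx]; exact ⟨hp', hsub _ hp' (by rw [hpp])⟩
    · rw [hx]; exact ⟨hq', hsub _ hq' (by rw [hqq])⟩
  have hd : Disjoint (P.filter fun r => 0 < side p' q' r) ({p', q'} : Finset (ℝ × ℝ)) := by
    rw [Finset.disjoint_left]
    intro x hx hx2
    simp only [mem_filter, mem_insert, mem_singleton] at hx hx2
    rcases hx2 with rfl | rfl <;> linarith [hx.2]
  have hc := Finset.card_le_card hs
  rw [Finset.card_union_of_disjoint hd, Finset.card_pair hne', h1, h1'] at hc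
  omega

/-- Two `k`-edges directed to the right with the same slope coincide. -/
lemma kEdge_eq_of_slope_eq {P : Finset (ℝ × ℝ)} {k : ℕ} {p q p' q' : ℝ × ℝ}
    (h : IsKEdge P k p q) (h' : IsKEdge P k p' q') (hlt : p.1 < q.1) (hlt' : p'.1 < q'.1)
    (hs : slp p q = slp p' q') : p = p' ∧ q = q' := by
  rcases lt_trichotomy (p.2 - slp p q * p.1) (p'.2 - slp p' q' * p'.1) with hh | hh | hh
  · exfalso
    apply kEdge_not_above h h'
    intro r _ hr
    rw [side_pos_iff hlt]
    have : ¬ side p' q' r < 0 := by linarith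
    rw [side_neg_iff hlt'] at this
    rw [hs] at hh ⊢
    linarith
  · have e1 : side p q p' = 0 := by
      rw [side_eq hlt, hh, hs]; ring
    have e2 : side p q q' = 0 := by
      rw [side_eq hlt, hh, hs, slp_endpoint hlt']; ring
    have hp'P := h'.1
    have hq'P := h'.2.1
    rcases h.eq_of_side_zero hp'P e1 with h3 | h3 <;> rcases h.eq_of_side_zero hq'P e2 with h4 | h4
    · exfalso; apply h'.2.2.1; rw [h3, h4]
    · exact ⟨h3.symm, h4.symm⟩
    · exfalso; rw [h3, h4] at hlt'; linarith
    · exfalso; apply h'.2.2.1; rw [h3, h4]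
  · exfalso
    apply kEdge_not_above h' h
    intro r _ hr
    rw [side_pos_iff hlt']
    have : ¬ side p q r < 0 := by linarith
    rw [side_neg_iff hlt] at this
    rw [hs] at hh this
    linarith

/-- Discrete form of the Lovász lemma, main step. `A` is a lexicographic initial part of `C`;
two `k`-edges cross from `A` to its complement. -/
lemma cross_step {C A : Finset (ℝ × ℝ)} {k : ℕ} {p q p' q' : ℝ × ℝ} (hAC : A ⊆ C)
    (hcut : ∀ x ∈ A, ∀ y ∈ C, y ∉ A → LexLt x y)
    (h : IsKEdge C k p q) (h' : IsKEdge C k p' q') (hlt : p.1 < q.1) (hlt' : p'.1 < q'.1)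
    (hp : p ∈ A) (_hq : q ∉ A) (_hp' : p' ∈ A) (hq' : q' ∉ A) (hs : slp p q < slp p' q') :
    (A.filter fun r => 0 < side p q r).card < (A.filter fun r => 0 < side p' q' r).card := by
  classical
  by_contra hcon
  push Not at hcon
  obtain ⟨hpC, hqC, hne, h1, h2⟩ := h
  obtain ⟨hpC', hqC', hne', h1', h2'⟩ := h'
  have hpp : side p q p = 0 := by unfold side; ring
  have hqq : side p' q' q' = 0 := by unfold side; ring
  -- sizes outside A
  have hsplit : ∀ (u v : ℝ × ℝ), (C.filter fun r => 0 < side u v r).card =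
      (A.filter fun r => 0 < side u v r).card + ((C \ A).filter fun r => 0 < side u v r).card := by
    intro u v
    rw [← Finset.card_union_of_disjoint]
    · congr 1
      ext x
      simp only [mem_filter, mem_union, mem_sdiff]
      constructor
      · rintro ⟨hx1, hx2⟩
        by_cases hxA : x ∈ A
        · left; exact ⟨hxA, hx2⟩
        · right; exact ⟨⟨hx1, hxA⟩, hx2⟩
      · rintro (⟨hx1, hx2⟩ | ⟨hx1, hx2⟩)
        · exact ⟨hAC hx1, hx2⟩
        · exact ⟨hx1.1, hx2⟩
    · rw [Finset.disjoint_left]
      intro x hx hx2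
      simp only [mem_filter, mem_sdiff] at hx hx2
      exact hx2.1.2 hx.1
  have hs1 := hsplit p q
  have hs2 := hsplit p' q'
  rw [h1] at hs1
  rw [h1'] at hs2
  -- find x
  have hx : ∃ x ∈ insert p (A.filter fun r => 0 < side p q r),
      x ∉ (A.filter fun r => 0 < side p' q' r) := by
    apply Finset.exists_mem_notMem_of_card_lt_card
    rw [Finset.card_insert_of_notMem]
    · omega
    · simp only [mem_filter, not_and, not_lt]
      intro _; rw [hpp]
  have hy : ∃ y ∈ insert q' ((C \ A).filter fun r => 0 < side p' q' r),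
      y ∉ ((C \ A).filter fun r => 0 < side p q r) := by
    apply Finset.exists_mem_notMem_of_card_lt_card
    rw [Finset.card_insert_of_notMem]
    · omega
    · simp only [mem_filter, not_and, not_lt]
      intro _; rw [hqq]
  obtain ⟨x, hx1, hx2⟩ := hx
  obtain ⟨y, hy1, hy2⟩ := hy
  have hxA : x ∈ A := by
    simp only [mem_insert, mem_filter] at hx1
    rcases hx1 with hx1 | hx1
    · rwa [hx1]
    · exact hx1.1
  have hyC : y ∈ C ∧ y ∉ A := by
    simp only [mem_insert, mem_filter, mem_sdiff] at hy1
    rcases hy1 with hy1 | hy1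
    · rw [hy1]; exact ⟨hqC', hq'⟩
    · exact hy1.1
  have sx1 : 0 ≤ side p q x := by
    simp only [mem_insert, mem_filter] at hx1
    rcases hx1 with hx1 | hx1
    · rw [hx1, hpp]
    · exact hx1.2.le
  have sx2 : side p' q' x ≤ 0 := by
    simp only [mem_filter, not_and, not_lt] at hx2
    exact hx2 hxA
  have sy1 : 0 ≤ side p' q' y := by
    simp only [mem_insert, mem_filter] at hy1
    rcases hy1 with hy1 | hy1
    · rw [hy1, hqq]
    · exact hy1.2.le
  have sy2 : side p q y ≤ 0 := by
    simp only [mem_filter, not_and, not_lt, mem_sdiff] at hy2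
    exact hy2 hyC
  have ix1 : p.2 - slp p q * p.1 ≤ x.2 - slp p q * x.1 := by
    by_contra hh
    push Not at hh
    rw [← side_neg_iff hlt] at hh
    linarith
  have iy1 : y.2 - slp p q * y.1 ≤ p.2 - slp p q * p.1 := by
    by_contra hh
    push Not at hh
    rw [← side_pos_iff hlt] at hh
    linarith
  have ix2 : x.2 - slp p' q' * x.1 ≤ p'.2 - slp p' q' * p'.1 := by
    by_contra hh
    push Not at hh
    rw [← side_pos_iff hlt'] at hh
    linarith
  have iy2 : p'.2 - slp p' q' * p'.1 ≤ y.2 - slp p' q' * y.1 := by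
    by_contra hh
    push Not at hh
    rw [← side_neg_iff hlt'] at hh
    linarith
  have hlex := hcut x hxA y hyC.1 hyC.2
  have key : 0 ≤ (slp p' q' - slp p q) * (x.1 - y.1) := by nlinarith
  have hxy : y.1 ≤ x.1 := by
    by_contra hh
    push Not at hh
    have : (slp p' q' - slp p q) * (x.1 - y.1) < 0 :=
      mul_neg_of_pos_of_neg (by linarith) (by linarith)
    linarith
  rcases hlex with hlex | ⟨hlex1, hlex2⟩
  · linarith
  · rw [hlex1] at ix1
    linarith

/-- Discrete Lovász lemma: at most `|A|` of the `k`-edges cross from a lexicographic initial part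
`A` of `C` to its complement. -/
lemma card_cross_le {C A : Finset (ℝ × ℝ)} {k : ℕ} (hAC : A ⊆ C)
    (hcut : ∀ x ∈ A, ∀ y ∈ C, y ∉ A → LexLt x y)
    (E : Finset ((ℝ × ℝ) × (ℝ × ℝ)))
    (hE : ∀ e ∈ E, IsKEdge C k e.1 e.2 ∧ e.1.1 < e.2.1 ∧ e.1 ∈ A ∧ e.2 ∉ A) :
    E.card ≤ A.card := by
  classical
  have : E.card ≤ (Finset.range A.card).card := by
    apply Finset.card_le_card_of_injOn (fun e => (A.filter fun r => 0 < side e.1 e.2 r).card)
    · intro e he
      obtain ⟨h1, h2, h3, h4⟩ := hE e he
      simp only [coe_range, Set.mem_Iio]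
      apply Finset.card_lt_card
      constructor
      · exact Finset.filter_subset _ _
      · intro hsub
        have := hsub h3
        simp only [mem_filter] at this
        have hpp : side e.1 e.2 e.1 = 0 := by unfold side; ring
        linarith [this.2]
    · intro e he e' he' heq
      obtain ⟨h1, h2, h3, h4⟩ := hE e he
      obtain ⟨h1', h2', h3', h4'⟩ := hE e' he'
      simp only at heq
      rcases lt_trichotomy (slp e.1 e.2) (slp e'.1 e'.2) with hh | hh | hh
      · have := cross_step hAC hcut h1 h1' h2 h2' h3 h4 h3' h4' hh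
        omega
      · have := kEdge_eq_of_slope_eq h1 h1' h2 h2' hh
        exact Prod.ext this.1 this.2
      · have := cross_step hAC hcut h1' h1 h2' h2 h3' h4' h3 h4 hh
        omega
  simpa using this

/-- Total rank-length of the `k`-edges of `C` directed to the right. -/
lemma sum_rk_le {C : Finset (ℝ × ℝ)} {k : ℕ} (E : Finset ((ℝ × ℝ) × (ℝ × ℝ)))
    (hE : ∀ e ∈ E, IsKEdge C k e.1 e.2 ∧ e.1.1 < e.2.1) :
    ∑ e ∈ E, (rk C e.2 - rk C e.1) ≤ ∑ v ∈ Finset.range C.card, v := by
  classical
  have h1 : ∀ e ∈ E, rk C e.2 - rk C e.1 =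
      ((Finset.range C.card).filter fun v => rk C e.1 < v ∧ v ≤ rk C e.2).card := by
    intro e he
    have hlt := rk_lt_card (hE e he).1.2.1
    have : (Finset.range C.card).filter (fun v => rk C e.1 < v ∧ v ≤ rk C e.2) =
        Finset.Ioc (rk C e.1) (rk C e.2) := by
      ext v
      simp only [mem_filter, mem_range, mem_Ioc]
      constructor
      · exact fun h => h.2
      · exact fun h => ⟨by omega, h⟩
    rw [this, Nat.card_Ioc]
  rw [Finset.sum_congr rfl h1]
  have h2 : ∑ e ∈ E, ((Finset.range C.card).filter fun v => rk C e.1 < v ∧ v ≤ rk C e.2).card =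
      ∑ v ∈ Finset.range C.card, (E.filter fun e => rk C e.1 < v ∧ v ≤ rk C e.2).card := by
    simp only [Finset.card_filter]
    exact Finset.sum_comm
  rw [h2]
  apply Finset.sum_le_sum
  intro v _
  refine le_trans ?_ (card_rk_lt_le C v)
  apply card_cross_le (C := C) (k := k) (Finset.filter_subset _ _)
  · intro x hx y hy hyA
    simp only [mem_filter] at hx hyA
    apply lexLt_of_rk_lt hy
    have : ¬ rk C y < v := fun h => hyA ⟨hy, h⟩
    omega
  · intro e he
    simp only [mem_filter] at he ⊢
    obtain ⟨h3, h4⟩ := hE e he.1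
    refine ⟨h3, h4, ⟨h3.1, he.2.1⟩, ?_⟩
    rintro ⟨_, h5⟩
    omega

/-- Counting lemma: `d * |E| ≤ r * d^2 + r^2 / 2`. -/
lemma card_mul_le {C : Finset (ℝ × ℝ)} {k : ℕ} (E : Finset ((ℝ × ℝ) × (ℝ × ℝ)))
    (hE : ∀ e ∈ E, IsKEdge C k e.1 e.2 ∧ e.1.1 < e.2.1) (d : ℕ) :
    2 * (d * E.card) ≤ 2 * (C.card * d * d) + C.card * C.card := by
  classical
  have hsum := sum_rk_le E hE
  have hg : 2 * ∑ v ∈ Finset.range C.card, v ≤ C.card * C.card := by
    have := Finset.sum_range_id_mul_two C.card
    calc 2 * ∑ v ∈ Finset.range C.card, v = (∑ v ∈ Finset.range C.card, v) * 2 := by ring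
      _ = C.card * (C.card - 1) := this
      _ ≤ C.card * C.card := Nat.mul_le_mul_left _ (Nat.sub_le _ _)
  -- long edges
  have hlong : d * (E.filter fun e => d ≤ rk C e.2 - rk C e.1).card ≤
      ∑ e ∈ E, (rk C e.2 - rk C e.1) := by
    calc d * (E.filter fun e => d ≤ rk C e.2 - rk C e.1).card
        = ∑ e ∈ E.filter (fun e => d ≤ rk C e.2 - rk C e.1), d := by
          rw [Finset.sum_const, smul_eq_mul, mul_comm]
      _ ≤ ∑ e ∈ E.filter (fun e => d ≤ rk C e.2 - rk C e.1), (rk C e.2 - rk C e.1) := by
          apply Finset.sum_le_sum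
          intro e he
          simp only [mem_filter] at he
          exact he.2
      _ ≤ ∑ e ∈ E, (rk C e.2 - rk C e.1) :=
          Finset.sum_le_sum_of_subset (Finset.filter_subset _ _)
  -- short edges
  have hshort : (E.filter fun e => ¬ d ≤ rk C e.2 - rk C e.1).card ≤ C.card * d := by
    have : (E.filter fun e => ¬ d ≤ rk C e.2 - rk C e.1).card ≤
        (C ×ˢ Finset.range d).card := by
      apply Finset.card_le_card_of_injOn (fun e => (e.1, rk C e.2 - rk C e.1))
      · intro e he
        simp only [coe_filter, Set.mem_ofPred_eq, not_le] at he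
        simp only [coe_product, Set.mem_prod, mem_coe, mem_range]
        exact ⟨(hE e he.1).1.1, he.2⟩
      · intro e he e' he' heq
        simp only [coe_filter, Set.mem_ofPred_eq, not_le] at he he'
        simp only [Prod.mk.injEq] at heq
        have hl : rk C e.1 < rk C e.2 := by
          apply rk_lt_rk (hE e he.1).1.1
          left; exact (hE e he.1).2
        have hl' : rk C e'.1 < rk C e'.2 := by
          apply rk_lt_rk (hE e' he'.1).1.1
          left; exact (hE e' he'.1).2
        have h3 : rk C e.2 = rk C e'.2 := by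
          have := heq.2
          rw [heq.1] at this hl
          omega
        exact Prod.ext heq.1 (rk_injOn C (hE e he.1).1.2.1 (hE e' he'.1).1.2.1 h3)
    simpa using this
  have hsplit : E.card = (E.filter fun e => d ≤ rk C e.2 - rk C e.1).card +
      (E.filter fun e => ¬ d ≤ rk C e.2 - rk C e.1).card :=
    (Finset.card_filter_add_card_filter_not _).symm
  rw [hsplit]
  calc 2 * (d * ((E.filter fun e => d ≤ rk C e.2 - rk C e.1).card +
      (E.filter fun e => ¬ d ≤ rk C e.2 - rk C e.1).card))
      = 2 * (d * (E.filter fun e => d ≤ rk C e.2 - rk C e.1).card) +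
        2 * (d * (E.filter fun e => ¬ d ≤ rk C e.2 - rk C e.1).card) := by ring
    _ ≤ 2 * (∑ v ∈ Finset.range C.card, v) + 2 * (d * (C.card * d)) := by
        gcongr
        exact hlong.trans hsum
    _ ≤ C.card * C.card + 2 * (d * (C.card * d)) := by gcongr
    _ = 2 * (C.card * d * d) + C.card * C.card := by ring

/-- The Lovász bound `O(r^{3/2})` for the number of `k`-edges directed to the right. -/
theorem card_kEdge_le {C : Finset (ℝ × ℝ)} {k : ℕ} (E : Finset ((ℝ × ℝ) × (ℝ × ℝ)))
    (hE : ∀ e ∈ E, IsKEdge C k e.1 e.2 ∧ e.1.1 < e.2.1) :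
    (E.card : ℝ) ≤ 5 / 2 * (C.card * Real.sqrt C.card) := by
  rcases Nat.eq_zero_or_pos C.card with h0 | hpos
  · have : E = ∅ := by
      rw [Finset.eq_empty_iff_forall_notMem]
      intro e he
      have := (hE e he).1.1
      rw [Finset.card_eq_zero] at h0
      rw [h0] at this
      exact absurd this (Finset.notMem_empty _)
    rw [this, h0]
    simp
  · set r : ℝ := (C.card : ℝ) with hr
    have hr1 : (1 : ℝ) ≤ r := by
      rw [hr]; exact_mod_cast hpos
    set s := Real.sqrt r with hs
    have hs1 : 1 ≤ s := by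
      rw [hs]; exact Real.one_le_sqrt.mpr hr1
    have hss : s * s = r := by
      rw [hs]; exact Real.mul_self_sqrt (by linarith)
    set d : ℕ := ⌈s⌉₊ with hd
    have hd1 : s ≤ (d : ℝ) := Nat.le_ceil s
    have hd2 : (d : ℝ) < s + 1 := Nat.ceil_lt_add_one (by linarith)
    have hm := card_mul_le E hE d
    have hm' : 2 * ((d : ℝ) * E.card) ≤ 2 * (r * d * d) + r * r := by
      rw [hr]; exact_mod_cast hm
    have hdpos : (0 : ℝ) < d := by linarith
    -- |E| ≤ r d + r²/(2d) 
    have h1 : (E.card : ℝ) ≤ r * d + r * r / (2 * d) := by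
      rw [← mul_le_mul_iff_right₀ (show (0 : ℝ) < 2 * d by positivity)]
      have : 2 * (d : ℝ) * (r * d + r * r / (2 * d)) = 2 * (r * d * d) + r * r := by
        field_simp
      rw [this]
      linarith
    have h2 : r * r / (2 * d) ≤ r * s / 2 := by
      rw [div_le_iff₀ (by positivity)]
      have : r * s / 2 * (2 * d) = r * (s * d) := by ring
      rw [this]
      have h3 : r ≤ s * d := by
        calc r = s * s := hss.symm
          _ ≤ s * d := by gcongr
      nlinarith
    have h3 : r * d ≤ r * (s + 1) := by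
      apply mul_le_mul_of_nonneg_left hd2.le (by linarith)
    have h4 : r ≤ r * s := by nlinarith
    nlinarith

end Pool.Agent.Work.MP_e17eac_co
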