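import Mathlib
import Pool.Agent.Work.MP_e17eac_co.Lovasz

set_option autoImplicit false

namespace Pool.Agent.Work.MP_e17eac_co

open Finset

/-- `P` is obtained from a subset of the `m × m` integer grid by moving every point by at most `δ`
in each coordinate. -/
def GridLike (m : ℕ) (δ : ℝ) (P : Finset (ℝ × ℝ)) : Prop :=
  ∃ φ : ℝ × ℝ → ℤ × ℤ, Set.InjOn φ (P : Set (ℝ × ℝ)) ∧
    (∀ p ∈ P, 0 ≤ (φ p).1 ∧ (φ p).1 < m ∧ 0 ≤ (φ p).2 ∧ (φ p).2 < m) ∧
    (∀ p ∈ P, |p.1 - (φ p).1| ≤ δ ∧ |p.2 - (φ p).2| ≤ δ)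

/-- number of integers in a real interval -/
lemma card_Icc_ceil_floor (L R : ℝ) (h : L ≤ R) :
    ((Finset.Icc ⌈L⌉ ⌊R⌋).card : ℝ) ≤ R - L + 1 := by
  rw [Int.card_Icc]
  have h1 : (⌊R⌋ : ℝ) ≤ R := Int.floor_le R
  have h2 : L ≤ (⌈L⌉ : ℝ) := Int.le_ceil L
  have h3 : ((⌊R⌋ + 1 - ⌈L⌉).toNat : ℝ) = max ((⌊R⌋ : ℝ) + 1 - ⌈L⌉) 0 := by
    have : (((⌊R⌋ + 1 - ⌈L⌉).toNat : ℤ) : ℝ) = ((max (⌊R⌋ + 1 - ⌈L⌉) 0 : ℤ) : ℝ) := by
      congr 1
      exact Int.toNat_eq_max _
    push_cast at this
    exact_mod_cast this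
  rw [h3]
  apply max_le <;> linarith

/-- Few points of a grid-like set lie in a strip of direction `(a, b)`. -/
lemma strip_card {m : ℕ} {δ : ℝ} {P C : Finset (ℝ × ℝ)} (hδ : 0 ≤ δ)
    (hP : GridLike m δ P) (hC : C ⊆ P) (a : ℕ) (b : ℤ) (ha : 1 ≤ a) (ham : a ≤ m)
    (hb : |b| ≤ a) (hcop : IsCoprime (a : ℤ) b) (L R : ℝ) (hLR : L ≤ R)
    (hstrip : ∀ r ∈ C, L ≤ a * r.2 - b * r.1 ∧ a * r.2 - b * r.1 ≤ R) :
    (C.card : ℝ) ≤ (R - L + 4 * a * δ + 1) * (2 * m / a) := by
  obtain ⟨φ, hinj, hbox, hclose⟩ := hP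
  set L' : ℝ := L - 2 * a * δ with hL'
  set R' : ℝ := R + 2 * a * δ with hR'
  have haR : (1 : ℝ) ≤ a := by exact_mod_cast ha
  have hcard : C.card ≤ ((Finset.Icc ⌈L'⌉ ⌊R'⌋) ×ˢ (Finset.Ico (0 : ℤ) ((m - 1) / a + 1))).card := by
    apply Finset.card_le_card_of_injOn
      (fun r => ((a : ℤ) * (φ r).2 - b * (φ r).1, (φ r).1 / (a : ℤ)))
    · intro r hr
      have hrC : r ∈ C := hr
      have hrP := hC hrC
      obtain ⟨h1, h2, h3, h4⟩ := hbox r hrP
      obtain ⟨h5, h6⟩ := hclose r hrP
      obtain ⟨h7, h8⟩ := hstrip r hrC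
      have hbR : |(b : ℝ)| ≤ a := by exact_mod_cast hb
      have herr : |((a : ℝ) * (φ r).2 - b * (φ r).1) - (a * r.2 - b * r.1)| ≤ 2 * a * δ := by
        have : ((a : ℝ) * (φ r).2 - b * (φ r).1) - (a * r.2 - b * r.1) =
            -(a * (r.2 - (φ r).2)) + b * (r.1 - (φ r).1) := by ring
        rw [this]
        calc |-(a * (r.2 - (φ r).2)) + b * (r.1 - (φ r).1)|
            ≤ |-(a * (r.2 - (φ r).2))| + |b * (r.1 - (φ r).1)| := abs_add_le _ _
          _ = a * |r.2 - (φ r).2| + |(b : ℝ)| * |r.1 - (φ r).1| := by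
              rw [abs_neg, abs_mul, abs_mul, Nat.abs_cast]
          _ ≤ a * δ + a * δ := by
              apply add_le_add
              · exact mul_le_mul_of_nonneg_left h6 (by linarith)
              · exact mul_le_mul hbR h5 (abs_nonneg _) (by linarith)
          _ = 2 * a * δ := by ring
      rw [abs_le] at herr
      simp only [coe_product, coe_Icc, coe_Ico, Set.mem_prod, Set.mem_Icc, Set.mem_Ico]
      refine ⟨⟨?_, ?_⟩, ?_, ?_⟩
      · rw [Int.ceil_le]; push_cast; rw [hL']; linarith [herr.1]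
      · rw [Int.le_floor]; push_cast; rw [hR']; linarith [herr.2]
      · apply Int.ediv_nonneg h1; positivity
      · have : (φ r).1 / (a : ℤ) ≤ ((m : ℤ) - 1) / a := by
          apply Int.ediv_le_ediv (by exact_mod_cast ha)
          omega
        omega
    · intro r hr r' hr' heq
      have hrP := hC (show r ∈ C from hr)
      have hrP' := hC (show r' ∈ C from hr')
      simp only [Prod.mk.injEq] at heq
      obtain ⟨h1, h2⟩ := heq
      apply hinj hrP hrP'
      -- a ∣ b * (x - x')
      have hdvd : (a : ℤ) ∣ b * ((φ r).1 - (φ r').1) := by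
        refine ⟨(φ r).2 - (φ r').2, ?_⟩
        linarith
      have hdvd2 : (a : ℤ) ∣ (φ r).1 - (φ r').1 := hcop.dvd_of_dvd_mul_left hdvd
      have hx : (φ r).1 = (φ r').1 := by
        have hmod : (φ r).1 % (a : ℤ) = (φ r').1 % (a : ℤ) :=
          Int.emod_eq_emod_iff_emod_sub_eq_zero.mpr (Int.emod_eq_zero_of_dvd hdvd2)
        have e1 := Int.emod_add_mul_ediv (φ r).1 (a : ℤ)
        have e2 := Int.emod_add_mul_ediv (φ r').1 (a : ℤ)
        rw [← e1, ← e2, hmod, h2]
      have hy : (φ r).2 = (φ r').2 := by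
        rw [hx] at h1
        have : (a : ℤ) * (φ r).2 = a * (φ r').2 := by linarith
        have ha0 : (a : ℤ) ≠ 0 := by positivity
        exact mul_left_cancel₀ ha0 this
      exact Prod.ext hx hy
  rw [Finset.card_product] at hcard
  have hcardR : (C.card : ℝ) ≤ ((Finset.Icc ⌈L'⌉ ⌊R'⌋).card : ℝ) *
      ((Finset.Ico (0 : ℤ) ((m - 1) / a + 1)).card : ℝ) := by exact_mod_cast hcard
  have hA : ((Finset.Icc ⌈L'⌉ ⌊R'⌋).card : ℝ) ≤ R' - L' + 1 := by
    apply card_Icc_ceil_floor
    rw [hL', hR']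
    have : 0 ≤ 2 * (a : ℝ) * δ := by positivity
    linarith
  have hB : ((Finset.Ico (0 : ℤ) ((m - 1) / a + 1)).card : ℝ) ≤ 2 * m / a := by
    rw [Int.card_Ico, sub_zero]
    have hm1 : (1 : ℤ) ≤ m := by exact_mod_cast ha.trans ham
    have hq0 : 0 ≤ ((m : ℤ) - 1) / a := Int.ediv_nonneg (by linarith) (by positivity)
    have h1 : ((((m : ℤ) - 1) / a + 1).toNat : ℝ) = (((m : ℤ) - 1) / a + 1 : ℤ) := by
      have : ((((m : ℤ) - 1) / a + 1).toNat : ℤ) = ((m : ℤ) - 1) / a + 1 :=
        Int.toNat_of_nonneg (by linarith)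
      exact_mod_cast congrArg (Int.cast : ℤ → ℝ) this
    rw [h1]
    push_cast
    have h2 : ((((m : ℤ) - 1) / (a : ℤ) : ℤ) : ℝ) * a ≤ (m : ℝ) - 1 := by
      have := Int.ediv_mul_le ((m : ℤ) - 1) (show (a : ℤ) ≠ 0 by positivity)
      exact_mod_cast this
    rw [le_div_iff₀ (by linarith)]
    have h3 : (a : ℝ) ≤ m := by exact_mod_cast ham
    nlinarith
  have hB0 : (0 : ℝ) ≤ 2 * m / a := by positivity
  calc (C.card : ℝ) ≤ _ := hcardR
    _ ≤ (R' - L' + 1) * (2 * m / a) := by
        apply mul_le_mul hA hB (by positivity)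
        rw [hL', hR']
        have : 0 ≤ 2 * (a : ℝ) * δ := by positivity
        linarith
    _ = (R - L + 4 * a * δ + 1) * (2 * m / a) := by rw [hL', hR']; ring

/-- The local bound: `k`-edges whose direction is close to the primitive vector `(a, b)`. -/
lemma local_bound {m : ℕ} {δ : ℝ} {P : Finset (ℝ × ℝ)} {k : ℕ} (hδ : 0 ≤ δ) (hδ1 : δ ≤ 1)
    (hP : GridLike m δ P) (a : ℕ) (b : ℤ) (ha : 1 ≤ a) (ham : a ≤ m)
    (hb : |b| ≤ a) (hcop : IsCoprime (a : ℤ) b) (Q : ℕ)
    (E : Finset ((ℝ × ℝ) × (ℝ × ℝ)))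
    (hE : ∀ e ∈ E, IsKEdge P k e.1 e.2 ∧ e.1.1 < e.2.1 ∧
      |a * slp e.1 e.2 - b| ≤ 1 / ((Q : ℝ) + 1)) :
    (E.card : ℝ) ≤ 5 / 2 * (((2 * ((m : ℝ) + 1) / (Q + 1) + 4 * a * δ + 1) * (2 * m / a)) *
      Real.sqrt ((2 * ((m : ℝ) + 1) / (Q + 1) + 4 * a * δ + 1) * (2 * m / a))) := by
  classical
  have haR : (1 : ℝ) ≤ a := by exact_mod_cast ha
  have hmR : (1 : ℝ) ≤ m := by exact_mod_cast ha.trans ham
  rcases E.eq_empty_or_nonempty with hEe | hEne
  · rw [hEe]
    simp only [card_empty, Nat.cast_zero]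
    positivity
  set lam : ℝ := ((m : ℝ) + 1) / (2 * (Q + 1)) with hlam
  have hlam0 : 0 ≤ lam := by positivity
  set xc : ℝ := ((m : ℝ) - 1) / 2 with hxc
  -- value of the functional on the line of `e` above the centre
  set c : ((ℝ × ℝ) × (ℝ × ℝ)) → ℝ := fun e =>
    a * (e.1.2 - slp e.1 e.2 * e.1.1) + (a * slp e.1 e.2 - b) * xc with hc
  have hxr : ∀ r ∈ P, |r.1 - xc| ≤ ((m : ℝ) + 1) / 2 := by
    intro r hr
    obtain ⟨φ, _, hbox, hclose⟩ := hP
    obtain ⟨h1, h2, h3, h4⟩ := hbox r hr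
    obtain ⟨h5, h6⟩ := hclose r hr
    rw [abs_le] at h5 ⊢
    have h1' : (0 : ℝ) ≤ (φ r).1 := by exact_mod_cast h1
    have h2' : ((φ r).1 : ℝ) ≤ m - 1 := by
      have : (φ r).1 ≤ (m : ℤ) - 1 := by omega
      exact_mod_cast this
    rw [hxc]
    constructor <;> linarith [h5.1, h5.2]
  have hvar : ∀ e ∈ E, ∀ r ∈ P, |(a * slp e.1 e.2 - b) * (r.1 - xc)| ≤ lam := by
    intro e he r hr
    rw [abs_mul]
    calc |a * slp e.1 e.2 - b| * |r.1 - xc| ≤ 1 / ((Q : ℝ) + 1) * (((m : ℝ) + 1) / 2) :=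
          mul_le_mul (hE e he).2.2 (hxr r hr) (abs_nonneg _) (by positivity)
      _ = lam := by rw [hlam]; field_simp
  have hkey : ∀ e ∈ E, ∀ r : ℝ × ℝ, a * (r.2 - slp e.1 e.2 * r.1) =
      (a * r.2 - b * r.1) - (a * slp e.1 e.2 - b) * (r.1 - xc) - (a * slp e.1 e.2 - b) * xc := by
    intro e he r; ring
  have hposL : ∀ e ∈ E, ∀ r ∈ P, c e + lam < a * r.2 - b * r.1 → 0 < side e.1 e.2 r := by
    intro e he r hr h
    rw [side_pos_iff (hE e he).2.1]
    have h1 := hvar e he r hr
    rw [abs_le] at h1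
    have h2 := hkey e he r
    have h3 : a * (e.1.2 - slp e.1 e.2 * e.1.1) < a * (r.2 - slp e.1 e.2 * r.1) := by
      rw [h2]
      simp only [hc] at h
      linarith [h1.2]
    exact lt_of_mul_lt_mul_left h3 (by linarith)
  have hnegL : ∀ e ∈ E, ∀ r ∈ P, a * r.2 - b * r.1 < c e - lam → side e.1 e.2 r < 0 := by
    intro e he r hr h
    rw [side_neg_iff (hE e he).2.1]
    have h1 := hvar e he r hr
    rw [abs_le] at h1
    have h2 := hkey e he r
    have h3 : a * (r.2 - slp e.1 e.2 * r.1) < a * (e.1.2 - slp e.1 e.2 * e.1.1) := by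
      rw [h2]
      simp only [hc] at h
      linarith [h1.1]
    exact lt_of_mul_lt_mul_left h3 (by linarith)
  -- comparison of two edges
  have hcmp : ∀ e ∈ E, ∀ e' ∈ E, c e' ≤ c e + 2 * lam := by
    intro e he e' he'
    by_contra hcon
    push Not at hcon
    apply kEdge_not_above (hE e he).1 (hE e' he').1
    intro r hr hs
    apply hposL e he r hr
    by_contra h2
    push Not at h2
    have := hnegL e' he' r hr (by linarith)
    linarith
  obtain ⟨e0, he0, hmin⟩ := Finset.exists_min_image E c hEne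
  set C : Finset (ℝ × ℝ) := P.filter fun r =>
    c e0 - lam ≤ a * r.2 - b * r.1 ∧ a * r.2 - b * r.1 ≤ c e0 + 3 * lam with hCdef
  have hCP : C ⊆ P := Finset.filter_subset _ _
  have hCcard : (C.card : ℝ) ≤
      (2 * ((m : ℝ) + 1) / (Q + 1) + 4 * a * δ + 1) * (2 * m / a) := by
    have := strip_card hδ hP hCP a b ha ham hb hcop (c e0 - lam) (c e0 + 3 * lam)
      (by linarith) (by
        intro r hr
        simp only [hCdef, mem_filter] at hr
        exact hr.2)
    calc (C.card : ℝ) ≤ _ := this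
      _ = _ := by
        congr 1
        rw [hlam]
        field_simp
        ring
  -- upper and lower parts
  set U : Finset (ℝ × ℝ) := P.filter fun r => c e0 + 3 * lam < a * r.2 - b * r.1 with hU
  set D : Finset (ℝ × ℝ) := P.filter fun r => a * r.2 - b * r.1 < c e0 - lam with hD
  have hkC : ∀ e ∈ E, IsKEdge C (k - U.card) e.1 e.2 := by
    intro e he
    have hek := (hE e he).1
    have helt := (hE e he).2.1
    obtain ⟨hp, hq, hne, h1, h2⟩ := hek
    have hce1 : c e0 ≤ c e := hmin e he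
    have hce2 : c e ≤ c e0 + 2 * lam := hcmp e0 he0 e he
    have hU' : ∀ r ∈ U, 0 < side e.1 e.2 r := by
      intro r hr
      simp only [hU, mem_filter] at hr
      exact hposL e he r hr.1 (by linarith [hr.2])
    have hD' : ∀ r ∈ D, side e.1 e.2 r < 0 := by
      intro r hr
      simp only [hD, mem_filter] at hr
      exact hnegL e he r hr.1 (by linarith [hr.2])
    have hends : ∀ r ∈ P, side e.1 e.2 r = 0 → r ∈ C := by
      intro r hr h0
      simp only [hCdef, mem_filter]
      refine ⟨hr, ?_, ?_⟩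
      · by_contra hh
        push Not at hh
        have : r ∈ D := by simp only [hD, mem_filter]; exact ⟨hr, hh⟩
        linarith [hD' r this]
      · by_contra hh
        push Not at hh
        have : r ∈ U := by simp only [hU, mem_filter]; exact ⟨hr, hh⟩
        linarith [hU' r this]
    have e1 : (P.filter fun r => 0 < side e.1 e.2 r) =
        (C.filter fun r => 0 < side e.1 e.2 r) ∪ U := by
      ext r
      simp only [mem_union, mem_filter]
      constructor
      · rintro ⟨hr, hs⟩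
        by_cases hrU : r ∈ U
        · right; exact hrU
        · left
          refine ⟨?_, hs⟩
          simp only [hCdef, mem_filter]
          refine ⟨hr, ?_, ?_⟩
          · by_contra hh
            push Not at hh
            have : r ∈ D := by simp only [hD, mem_filter]; exact ⟨hr, hh⟩
            linarith [hD' r this]
          · by_contra hh
            push Not at hh
            exact hrU (by simp only [hU, mem_filter]; exact ⟨hr, hh⟩)
      · rintro (⟨hr, hs⟩ | hr)
        · exact ⟨hCP hr, hs⟩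
        · refine ⟨?_, hU' r hr⟩
          simp only [hU, mem_filter] at hr
          exact hr.1
    have e2 : (P.filter fun r => side e.1 e.2 r < 0) =
        (C.filter fun r => side e.1 e.2 r < 0) ∪ D := by
      ext r
      simp only [mem_union, mem_filter]
      constructor
      · rintro ⟨hr, hs⟩
        by_cases hrD : r ∈ D
        · right; exact hrD
        · left
          refine ⟨?_, hs⟩
          simp only [hCdef, mem_filter]
          refine ⟨hr, ?_, ?_⟩
          · by_contra hh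
            push Not at hh
            exact hrD (by simp only [hD, mem_filter]; exact ⟨hr, hh⟩)
          · by_contra hh
            push Not at hh
            have : r ∈ U := by simp only [hU, mem_filter]; exact ⟨hr, hh⟩
            linarith [hU' r this]
      · rintro (⟨hr, hs⟩ | hr)
        · exact ⟨hCP hr, hs⟩
        · refine ⟨?_, hD' r hr⟩
          simp only [hD, mem_filter] at hr
          exact hr.1
    have d1 : Disjoint (C.filter fun r => 0 < side e.1 e.2 r) U := by
      rw [Finset.disjoint_left]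
      intro r hr hr2
      simp only [hCdef, hU, mem_filter] at hr hr2
      linarith [hr.1.2.2, hr2.2]
    have d2 : Disjoint (C.filter fun r => side e.1 e.2 r < 0) D := by
      rw [Finset.disjoint_left]
      intro r hr hr2
      simp only [hCdef, hD, mem_filter] at hr hr2
      linarith [hr.1.2.1, hr2.2]
    have e3 : P = C ∪ (U ∪ D) := by
      ext r
      simp only [hCdef, hU, hD, mem_union, mem_filter]
      constructor
      · intro hr
        rcases lt_or_ge (a * r.2 - b * r.1) (c e0 - lam) with h | h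
        · right; right; exact ⟨hr, h⟩
        · rcases le_or_gt (a * r.2 - b * r.1) (c e0 + 3 * lam) with h' | h'
          · left; exact ⟨hr, h, h'⟩
          · right; left; exact ⟨hr, h'⟩
      · rintro (h | h | h)
        · exact h.1
        · exact h.1
        · exact h.1
    have d3 : Disjoint U D := by
      rw [Finset.disjoint_left]
      intro r hr hr2
      simp only [hU, hD, mem_filter] at hr hr2
      linarith [hr.2, hr2.2]
    have d4 : Disjoint C (U ∪ D) := by
      rw [Finset.disjoint_left]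
      intro r hr hr2
      simp only [hCdef, hU, hD, mem_union, mem_filter] at hr hr2
      rcases hr2 with hr2 | hr2
      · linarith [hr.2.2, hr2.2]
      · linarith [hr.2.1, hr2.2]
    have c1 : (P.filter fun r => 0 < side e.1 e.2 r).card =
        (C.filter fun r => 0 < side e.1 e.2 r).card + U.card := by
      rw [e1, Finset.card_union_of_disjoint d1]
    have c2 : (P.filter fun r => side e.1 e.2 r < 0).card =
        (C.filter fun r => side e.1 e.2 r < 0).card + D.card := by
      rw [e2, Finset.card_union_of_disjoint d2]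
    have c3 : P.card = C.card + (U.card + D.card) := by
      conv_lhs => rw [e3]
      rw [Finset.card_union_of_disjoint d4, Finset.card_union_of_disjoint d3]
    have hpC : e.1 ∈ C := hends e.1 hp (by unfold side; ring)
    have hqC : e.2 ∈ C := hends e.2 hq (by unfold side; ring)
    refine ⟨hpC, hqC, hne, ?_, ?_⟩
    · omega
    · omega
  have hfin := card_kEdge_le (C := C) (k := k - U.card) E
    (fun e he => ⟨hkC e he, (hE e he).2.1⟩)
  calc (E.card : ℝ) ≤ 5 / 2 * (C.card * Real.sqrt C.card) := hfin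
    _ ≤ _ := by
      apply mul_le_mul_of_nonneg_left _ (by norm_num)
      apply mul_le_mul hCcard (Real.sqrt_le_sqrt hCcard) (Real.sqrt_nonneg _)
      exact (Nat.cast_nonneg _).trans hCcard

end Pool.Agent.Work.MP_e17eac_co
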