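import Mathlib
import Pool.Agent.Work.MP_e17eac_co.GridSector

set_option autoImplicit false

namespace Pool.Agent.Work.MP_e17eac_co

open Finset

lemma sum_inv_sqrt_le (Q : ℕ) : ∑ a ∈ Finset.Icc 1 Q, 1 / Real.sqrt (a : ℝ) ≤ 2 * Real.sqrt Q := by
  induction Q with
  | zero => simp
  | succ n ih =>
    rw [Finset.sum_Icc_succ_top (by omega)]
    have h1 : 0 < Real.sqrt ((n : ℝ) + 1) := Real.sqrt_pos.mpr (by positivity)
    have h2 : Real.sqrt (n : ℝ) ≤ Real.sqrt ((n : ℝ) + 1) := Real.sqrt_le_sqrt (by linarith)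
    have h3 : Real.sqrt ((n : ℝ) + 1) * Real.sqrt ((n : ℝ) + 1) = n + 1 :=
      Real.mul_self_sqrt (by positivity)
    have h4 : Real.sqrt (n : ℝ) * Real.sqrt (n : ℝ) = n := Real.mul_self_sqrt (by positivity)
    push_cast
    have h5 : 1 / Real.sqrt ((n : ℝ) + 1) ≤ 2 * (Real.sqrt ((n : ℝ) + 1) - Real.sqrt n) := by
      rw [div_le_iff₀ h1]
      nlinarith [Real.sqrt_nonneg (n : ℝ)]
    linarith

/-- `k`-edges pointing into the sector `|v₂| ≤ v₁`. -/
lemma sector_bound_Q {m : ℕ} {δ : ℝ} {P : Finset (ℝ × ℝ)} {k : ℕ} (hδ : 0 ≤ δ) (hδ1 : δ ≤ 1)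
    (hP : GridLike m δ P) (Q : ℕ) (hQ : 1 ≤ Q) (hQm : Q ≤ m)
    (E : Finset ((ℝ × ℝ) × (ℝ × ℝ)))
    (hE : ∀ e ∈ E, IsKEdge P k e.1 e.2 ∧ e.1.1 < e.2.1 ∧ |e.2.2 - e.1.2| ≤ e.2.1 - e.1.1) :
    (E.card : ℝ) ≤ 15 * ((2 * m * (2 * ((m : ℝ) + 1) / (Q + 1) + 4 * Q * δ + 1)) *
      Real.sqrt (2 * m * (2 * ((m : ℝ) + 1) / (Q + 1) + 4 * Q * δ + 1)) * Real.sqrt Q) := by
  classical
  set Y : ℝ := 2 * m * (2 * ((m : ℝ) + 1) / (Q + 1) + 4 * Q * δ + 1) with hY
  have hY0 : 0 ≤ Y := by positivity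
  set F : ℕ → ℤ → Finset ((ℝ × ℝ) × (ℝ × ℝ)) := fun a b =>
    E.filter fun e => IsCoprime (a : ℤ) b ∧ |a * slp e.1 e.2 - b| ≤ 1 / ((Q : ℝ) + 1) with hF
  have hcover : E ⊆ (Finset.Icc 1 Q).biUnion fun a => (Finset.Icc (-(a : ℤ)) a).biUnion (F a) := by
    intro e he
    obtain ⟨h1, h2, h3⟩ := hE e he
    obtain ⟨q, hq1, hq2⟩ := Real.exists_rat_abs_sub_le_and_den_le (slp e.1 e.2) (by omega : 0 < Q)
    have hden : (0 : ℝ) < q.den := by exact_mod_cast q.den_pos
    have hslp : |slp e.1 e.2| ≤ 1 := by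
      unfold slp
      rw [abs_div, div_le_one (abs_pos.mpr (by linarith))]
      exact h3.trans (le_abs_self _)
    have hqr : (q : ℝ) * q.den = q.num := by
      have : (q : ℚ) * q.den = q.num := Rat.mul_den_eq_num q
      exact_mod_cast this
    have happ : |q.den * slp e.1 e.2 - q.num| ≤ 1 / ((Q : ℝ) + 1) := by
      have : (q.den : ℝ) * slp e.1 e.2 - q.num = q.den * (slp e.1 e.2 - q) := by
        rw [← hqr]; ring
      rw [this, abs_mul, abs_of_pos hden]
      calc (q.den : ℝ) * |slp e.1 e.2 - q| ≤ q.den * (1 / (((Q : ℝ) + 1) * q.den)) :=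
            mul_le_mul_of_nonneg_left hq1 hden.le
        _ = 1 / ((Q : ℝ) + 1) := by field_simp
    have hbabs : |q.num| ≤ (q.den : ℤ) := by
      have h4 : |(q.num : ℝ)| < q.den + 1 := by
        have h5 : (q.num : ℝ) = q.den * slp e.1 e.2 - (q.den * slp e.1 e.2 - q.num) := by ring
        rw [h5]
        calc |q.den * slp e.1 e.2 - (q.den * slp e.1 e.2 - q.num)|
            ≤ |q.den * slp e.1 e.2| + |q.den * slp e.1 e.2 - q.num| := abs_sub _ _
          _ ≤ q.den * 1 + 1 / ((Q : ℝ) + 1) := by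
              apply add_le_add _ happ
              rw [abs_mul, abs_of_pos hden]
              exact mul_le_mul_of_nonneg_left hslp hden.le
          _ < q.den + 1 := by
              rw [mul_one]
              have : 1 / ((Q : ℝ) + 1) < 1 := by
                rw [div_lt_one (by positivity)]
                have : (1 : ℝ) ≤ Q := by exact_mod_cast hQ
                linarith
              linarith
      have h6 : |q.num| < (q.den : ℤ) + 1 := by exact_mod_cast h4
      omega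
    rw [Finset.mem_biUnion]
    refine ⟨q.den, ?_, ?_⟩
    · rw [Finset.mem_Icc]; exact ⟨q.den_pos, hq2⟩
    · rw [Finset.mem_biUnion]
      refine ⟨q.num, ?_, ?_⟩
      · rw [Finset.mem_Icc]; rw [abs_le] at hbabs; exact hbabs
      · simp only [hF, mem_filter]
        refine ⟨he, ?_, happ⟩
        rw [Int.isCoprime_iff_nat_coprime]
        simpa using q.reduced.symm
  have hF1 : ∀ a ∈ Finset.Icc 1 Q, ∀ b ∈ Finset.Icc (-(a : ℤ)) a,
      ((F a b).card : ℝ) ≤ 5 / 2 * ((Y / a) * Real.sqrt (Y / a)) := by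
    intro a ha b hb
    rw [Finset.mem_Icc] at ha hb
    have haR : (1 : ℝ) ≤ a := by exact_mod_cast ha.1
    have haQ : (a : ℝ) ≤ Q := by exact_mod_cast ha.2
    by_cases hcop : IsCoprime (a : ℤ) b
    · have hb' : |b| ≤ (a : ℤ) := abs_le.mpr hb
      have := local_bound hδ hδ1 hP a b ha.1 (ha.2.trans hQm) hb' hcop Q (F a b) (k := k) (by
        intro e he
        simp only [hF, mem_filter] at he
        exact ⟨(hE e he.1).1, (hE e he.1).2.1, he.2.2⟩)
      have hX : (2 * ((m : ℝ) + 1) / (Q + 1) + 4 * a * δ + 1) * (2 * m / a) ≤ Y / a := by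
        rw [hY]
        have : (2 * ((m : ℝ) + 1) / (Q + 1) + 4 * a * δ + 1) * (2 * m / a) =
          (2 * m * (2 * ((m : ℝ) + 1) / (Q + 1) + 4 * a * δ + 1)) / a := by ring
        rw [this]
        gcongr
      calc ((F a b).card : ℝ) ≤ _ := this
        _ ≤ _ := by
          apply mul_le_mul_of_nonneg_left _ (by norm_num)
          apply mul_le_mul hX (Real.sqrt_le_sqrt hX) (Real.sqrt_nonneg _)
          positivity
    · have : F a b = ∅ := by
        rw [Finset.eq_empty_iff_forall_notMem]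
        intro e he
        simp only [hF, mem_filter] at he
        exact hcop he.2.1
      rw [this]
      simp only [card_empty, Nat.cast_zero]
      positivity
  have hF2 : ∀ a ∈ Finset.Icc 1 Q,
      (((Finset.Icc (-(a : ℤ)) a).biUnion (F a)).card : ℝ) ≤
        15 / 2 * (Y * Real.sqrt Y) * (1 / Real.sqrt a) := by
    intro a ha
    have ha' := ha
    rw [Finset.mem_Icc] at ha'
    have haR : (1 : ℝ) ≤ a := by exact_mod_cast ha'.1
    have h1 : (((Finset.Icc (-(a : ℤ)) a).biUnion (F a)).card : ℝ) ≤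
        ∑ b ∈ Finset.Icc (-(a : ℤ)) a, ((F a b).card : ℝ) := by
      exact_mod_cast Finset.card_biUnion_le
    have h2 : ∑ b ∈ Finset.Icc (-(a : ℤ)) a, ((F a b).card : ℝ) ≤
        ∑ b ∈ Finset.Icc (-(a : ℤ)) a, 5 / 2 * ((Y / a) * Real.sqrt (Y / a)) :=
      Finset.sum_le_sum (fun b hb => hF1 a ha b hb)
    rw [Finset.sum_const, Int.card_Icc, nsmul_eq_mul] at h2
    have h3 : (((a : ℤ) + 1 - -(a : ℤ)).toNat : ℝ) ≤ 3 * a := by
      have h4 : ((a : ℤ) + 1 - -(a : ℤ)).toNat = 2 * a + 1 := by omega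
      rw [h4]; push_cast; linarith
    have hsa : 0 < Real.sqrt (a : ℝ) := Real.sqrt_pos.mpr (by linarith)
    have hsa2 : Real.sqrt (a : ℝ) * Real.sqrt (a : ℝ) = a := Real.mul_self_sqrt (by linarith)
    calc (((Finset.Icc (-(a : ℤ)) a).biUnion (F a)).card : ℝ) ≤ _ := h1
      _ ≤ _ := h2
      _ ≤ (3 * a) * (5 / 2 * ((Y / a) * Real.sqrt (Y / a))) := by
          apply mul_le_mul_of_nonneg_right h3
          positivity
      _ = 15 / 2 * (Y * Real.sqrt Y) * (1 / Real.sqrt a) := by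
          rw [Real.sqrt_div hY0]
          field_simp
          ring
  calc (E.card : ℝ) ≤ (((Finset.Icc 1 Q).biUnion fun a =>
        (Finset.Icc (-(a : ℤ)) a).biUnion (F a)).card : ℝ) := by
        exact_mod_cast Finset.card_le_card hcover
    _ ≤ ∑ a ∈ Finset.Icc 1 Q, (((Finset.Icc (-(a : ℤ)) a).biUnion (F a)).card : ℝ) := by
        exact_mod_cast Finset.card_biUnion_le
    _ ≤ ∑ a ∈ Finset.Icc 1 Q, 15 / 2 * (Y * Real.sqrt Y) * (1 / Real.sqrt a) :=
        Finset.sum_le_sum hF2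
    _ = 15 / 2 * (Y * Real.sqrt Y) * ∑ a ∈ Finset.Icc 1 Q, 1 / Real.sqrt (a : ℝ) := by
        rw [Finset.mul_sum]
    _ ≤ 15 / 2 * (Y * Real.sqrt Y) * (2 * Real.sqrt Q) := by
        apply mul_le_mul_of_nonneg_left (sum_inv_sqrt_le Q)
        positivity
    _ = 15 * (Y * Real.sqrt Y * Real.sqrt Q) := by ring

lemma sector_bound {m : ℕ} {δ : ℝ} {P : Finset (ℝ × ℝ)} {k : ℕ} (hδ : 0 ≤ δ) (hδ1 : δ ≤ 1)
    (hm : 2 ≤ m) (hP : GridLike m δ P)
    (E : Finset ((ℝ × ℝ) × (ℝ × ℝ)))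
    (hE : ∀ e ∈ E, IsKEdge P k e.1 e.2 ∧ e.1.1 < e.2.1 ∧ |e.2.2 - e.1.2| ≤ e.2.1 - e.1.1) :
    (E.card : ℝ) ≤ 2310 * (m : ℝ) ^ 2 * Real.sqrt (1 + δ * m) := by
  have hmR : (2 : ℝ) ≤ m := by exact_mod_cast hm
  set K : ℝ := Real.sqrt (1 + δ * m) with hK
  have hδm : 0 ≤ δ * m := by positivity
  have hK1 : 1 ≤ K := by rw [hK]; exact Real.one_le_sqrt.mpr (by linarith)
  have hKK : K * K = 1 + δ * m := Real.mul_self_sqrt (by linarith)
  have hKm : K ≤ m := by
    rw [hK, Real.sqrt_le_left (by linarith)]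
    nlinarith
  set Q : ℕ := ⌈(m : ℝ) / K⌉₊ with hQ
  have hKpos : 0 < K := by linarith
  have hQ1 : (m : ℝ) / K ≤ Q := Nat.le_ceil _
  have hQ2 : (Q : ℝ) < m / K + 1 := Nat.ceil_lt_add_one (by positivity)
  have hmK : 1 ≤ (m : ℝ) / K := by rw [le_div_iff₀ hKpos]; linarith
  have hQ3 : (Q : ℝ) ≤ 2 * (m / K) := by linarith
  have hQn : 1 ≤ Q := by
    have : (1 : ℝ) ≤ Q := hmK.trans hQ1
    exact_mod_cast this
  have hQm : Q ≤ m := by
    rw [hQ, Nat.ceil_le]
    rw [div_le_iff₀ hKpos]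
    nlinarith
  have hb := sector_bound_Q hδ hδ1 hP Q hQn hQm E hE
  have hB : 2 * ((m : ℝ) + 1) / (Q + 1) + 4 * Q * δ + 1 ≤ 11 * K := by
    have h1 : 2 * ((m : ℝ) + 1) / (Q + 1) ≤ 2 * K := by
      rw [div_le_iff₀ (by positivity)]
      have h2 : (m : ℝ) ≤ K * Q := by
        rw [div_le_iff₀ hKpos] at hQ1
        linarith
      nlinarith
    have h2 : 4 * (Q : ℝ) * δ ≤ 8 * K := by
      have h3 : (m : ℝ) / K * δ ≤ K := by
        rw [div_mul_eq_mul_div, div_le_iff₀ hKpos, hKK]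
        nlinarith
      nlinarith
    linarith
  have hY : 2 * (m : ℝ) * (2 * ((m : ℝ) + 1) / (Q + 1) + 4 * Q * δ + 1) ≤ 22 * (m * K) := by
    have : 2 * (m : ℝ) * (2 * ((m : ℝ) + 1) / (Q + 1) + 4 * Q * δ + 1) ≤ 2 * m * (11 * K) :=
      mul_le_mul_of_nonneg_left hB (by positivity)
    linarith
  have hY0 : 0 ≤ 2 * (m : ℝ) * (2 * ((m : ℝ) + 1) / (Q + 1) + 4 * Q * δ + 1) := by positivity
  have hs : Real.sqrt (2 * (m : ℝ) * (2 * ((m : ℝ) + 1) / (Q + 1) + 4 * Q * δ + 1)) *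
      Real.sqrt Q ≤ 7 * m := by
    rw [← Real.sqrt_mul hY0]
    rw [Real.sqrt_le_left (by positivity)]
    calc 2 * (m : ℝ) * (2 * ((m : ℝ) + 1) / (Q + 1) + 4 * Q * δ + 1) * Q
        ≤ 22 * (m * K) * (2 * (m / K)) := by
          apply mul_le_mul hY hQ3 (by positivity) (by positivity)
      _ = 44 * m ^ 2 := by field_simp; ring
      _ ≤ (7 * m) ^ 2 := by nlinarith
  calc (E.card : ℝ) ≤ _ := hb
    _ = 15 * ((2 * m * (2 * ((m : ℝ) + 1) / (Q + 1) + 4 * Q * δ + 1)) *
      (Real.sqrt (2 * m * (2 * ((m : ℝ) + 1) / (Q + 1) + 4 * Q * δ + 1)) * Real.sqrt Q)) := by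
        ring
    _ ≤ 15 * ((22 * (m * K)) * (7 * m)) := by
        apply mul_le_mul_of_nonneg_left _ (by norm_num)
        apply mul_le_mul hY hs (by positivity) (by positivity)
    _ = 2310 * (m : ℝ) ^ 2 * K := by ring

/-- rotation of the plane by `-90` degrees mapping the square `[0, m-1]²` to itself -/
def rotm (m : ℕ) (p : ℝ × ℝ) : ℝ × ℝ := (p.2, (m : ℝ) - 1 - p.1)

lemma rotm_inj (m : ℕ) : Function.Injective (rotm m) := by
  intro p q h
  unfold rotm at h
  simp only [Prod.mk.injEq] at h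
  exact Prod.ext (by linarith [h.2]) h.1

lemma side_rotm (m : ℕ) (p q r : ℝ × ℝ) :
    side (rotm m p) (rotm m q) (rotm m r) = side p q r := by
  unfold side rotm
  simp only
  ring

lemma gridLike_rotm {m : ℕ} {δ : ℝ} {P : Finset (ℝ × ℝ)} (h : GridLike m δ P) :
    GridLike m δ (P.image (rotm m)) := by
  classical
  obtain ⟨φ, hinj, hbox, hclose⟩ := h
  let inv : ℝ × ℝ → ℝ × ℝ := fun p => ((m : ℝ) - 1 - p.2, p.1)
  have hinv : ∀ p, inv (rotm m p) = p := by
    intro p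
    simp only [inv, rotm]
    exact Prod.ext (by simp) (by simp)
  refine ⟨fun p => ((φ (inv p)).2, (m : ℤ) - 1 - (φ (inv p)).1), ?_, ?_, ?_⟩
  · intro x hx y hy hxy
    simp only [coe_image, Set.mem_image, mem_coe] at hx hy
    obtain ⟨p, hp, rfl⟩ := hx
    obtain ⟨q, hq, rfl⟩ := hy
    simp only [Prod.mk.injEq, hinv] at hxy
    congr 1
    apply hinj hp hq
    exact Prod.ext (by linarith [hxy.2]) hxy.1
  · intro x hx
    simp only [mem_image] at hx
    obtain ⟨p, hp, rfl⟩ := hx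
    obtain ⟨h1, h2, h3, h4⟩ := hbox p hp
    simp only [hinv]
    refine ⟨h3, h4, by omega, by omega⟩
  · intro x hx
    simp only [mem_image] at hx
    obtain ⟨p, hp, rfl⟩ := hx
    obtain ⟨h1, h2⟩ := hclose p hp
    simp only [hinv]
    refine ⟨h2, ?_⟩
    have : (rotm m p).2 - (((m : ℤ) - 1 - (φ p).1 : ℤ) : ℝ) = -(p.1 - (φ p).1) := by
      unfold rotm
      push_cast
      ring
    rw [this, abs_neg]
    exact h1

lemma isKEdge_rotm {m : ℕ} {P : Finset (ℝ × ℝ)} {k : ℕ} {p q : ℝ × ℝ} (h : IsKEdge P k p q) :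
    IsKEdge (P.image (rotm m)) k (rotm m p) (rotm m q) := by
  classical
  obtain ⟨hp, hq, hne, h1, h2⟩ := h
  have hinj := rotm_inj m
  refine ⟨mem_image_of_mem _ hp, mem_image_of_mem _ hq, fun h => hne (hinj h), ?_, ?_⟩
  · rw [Finset.filter_image, Finset.card_image_of_injective _ hinj]
    simp only [side_rotm]
    exact h1
  · rw [Finset.filter_image, Finset.card_image_of_injective _ hinj,
      Finset.card_image_of_injective _ hinj]
    simp only [side_rotm]
    exact h2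

/-- The bound for all ordered `k`-edges. -/
theorem ordered_bound {m : ℕ} {δ : ℝ} {P : Finset (ℝ × ℝ)} {k : ℕ} (hδ : 0 ≤ δ) (hδ1 : δ ≤ 1)
    (hP : GridLike m δ P) (E : Finset ((ℝ × ℝ) × (ℝ × ℝ)))
    (hE : ∀ e ∈ E, IsKEdge P k e.1 e.2) :
    (E.card : ℝ) ≤ 9240 * (m : ℝ) ^ 2 * Real.sqrt (1 + δ * m) := by
  classical
  rcases lt_or_ge m 2 with hm | hm
  · -- at most one point
    have hcard : P.card ≤ 1 := by
      obtain ⟨φ, hinj, hbox, _⟩ := hP
      rw [Finset.card_le_one]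
      intro x hx y hy
      apply hinj hx hy
      obtain ⟨h1, h2, h3, h4⟩ := hbox x hx
      obtain ⟨h1', h2', h3', h4'⟩ := hbox y hy
      exact Prod.ext (by omega) (by omega)
    have : E = ∅ := by
      rw [Finset.eq_empty_iff_forall_notMem]
      intro e he
      obtain ⟨hp, hq, hne, _⟩ := hE e he
      exact hne (Finset.card_le_one.mp hcard _ hp _ hq)
    rw [this]
    simp only [card_empty, Nat.cast_zero]
    positivity
  · set R : (ℝ × ℝ) × (ℝ × ℝ) → (ℝ × ℝ) × (ℝ × ℝ) := fun e => (rotm m e.1, rotm m e.2) with hR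
    have hRinj : Function.Injective R := by
      intro e e' h
      simp only [hR, Prod.mk.injEq] at h
      exact Prod.ext (rotm_inj m h.1) (rotm_inj m h.2)
    -- sectors
    set S0 := E.filter fun e => e.1.1 < e.2.1 ∧ |e.2.2 - e.1.2| ≤ e.2.1 - e.1.1 with hS0
    set S1 := E.filter fun e => e.1.2 < e.2.2 ∧ |e.2.1 - e.1.1| ≤ e.2.2 - e.1.2 with hS1
    set S2 := E.filter fun e => e.2.1 < e.1.1 ∧ |e.2.2 - e.1.2| ≤ e.1.1 - e.2.1 with hS2
    set S3 := E.filter fun e => e.2.2 < e.1.2 ∧ |e.2.1 - e.1.1| ≤ e.1.2 - e.2.2 with hS3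
    have hcover : E ⊆ S0 ∪ S1 ∪ S2 ∪ S3 := by
      intro e he
      have hne := (hE e he).2.2.1
      simp only [hS0, hS1, hS2, hS3, mem_union, mem_filter]
      rcases le_total |e.2.2 - e.1.2| |e.2.1 - e.1.1| with h | h
      · rcases lt_trichotomy e.1.1 e.2.1 with h1 | h1 | h1
        · left; left; left
          rw [abs_of_pos (by linarith : 0 < e.2.1 - e.1.1)] at h
          exact ⟨he, h1, h⟩
        · exfalso
          rw [h1, sub_self, abs_zero] at h
          have h2 : e.2.2 - e.1.2 = 0 := abs_eq_zero.mp (le_antisymm h (abs_nonneg _))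
          exact hne (Prod.ext h1 (by linarith))
        · left; right
          rw [abs_of_neg (by linarith : e.2.1 - e.1.1 < 0)] at h
          exact ⟨he, h1, by linarith⟩
      · rcases lt_trichotomy e.1.2 e.2.2 with h1 | h1 | h1
        · left; left; right
          rw [abs_of_pos (by linarith : 0 < e.2.2 - e.1.2)] at h
          exact ⟨he, h1, h⟩
        · exfalso
          rw [h1, sub_self, abs_zero] at h
          have h2 : e.2.1 - e.1.1 = 0 := abs_eq_zero.mp (le_antisymm h (abs_nonneg _))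
          exact hne (Prod.ext (by linarith) h1)
        · right
          rw [abs_of_neg (by linarith : e.2.2 - e.1.2 < 0)] at h
          exact ⟨he, h1, by linarith⟩
    have hP1 := gridLike_rotm hP
    have hP2 := gridLike_rotm hP1
    have hP3 := gridLike_rotm hP2
    have b0 : (S0.card : ℝ) ≤ 2310 * (m : ℝ) ^ 2 * Real.sqrt (1 + δ * m) := by
      apply sector_bound hδ hδ1 hm hP S0 (k := k)
      intro e he
      simp only [hS0, mem_filter] at he
      exact ⟨hE e he.1, he.2.1, he.2.2⟩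
    have b1 : (S1.card : ℝ) ≤ 2310 * (m : ℝ) ^ 2 * Real.sqrt (1 + δ * m) := by
      rw [← Finset.card_image_of_injective S1 hRinj]
      apply sector_bound hδ hδ1 hm hP1 (S1.image R) (k := k)
      intro e he
      simp only [hS1, mem_image, mem_filter] at he
      obtain ⟨e', ⟨he1, he2, he3⟩, rfl⟩ := he
      refine ⟨isKEdge_rotm (hE e' he1), he2, ?_⟩
      simp only [hR, rotm]
      have : (m : ℝ) - 1 - e'.2.1 - ((m : ℝ) - 1 - e'.1.1) = -(e'.2.1 - e'.1.1) := by ring
      rw [this, abs_neg]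
      exact he3
    have b2 : (S2.card : ℝ) ≤ 2310 * (m : ℝ) ^ 2 * Real.sqrt (1 + δ * m) := by
      rw [← Finset.card_image_of_injective S2 hRinj,
        ← Finset.card_image_of_injective (S2.image R) hRinj]
      apply sector_bound hδ hδ1 hm hP2 ((S2.image R).image R) (k := k)
      intro e he
      simp only [hS2, mem_image, mem_filter] at he
      obtain ⟨e1, ⟨e', ⟨he1, he2, he3⟩, rfl⟩, rfl⟩ := he
      refine ⟨isKEdge_rotm (isKEdge_rotm (hE e' he1)), ?_, ?_⟩
      · simp only [hR, rotm]; linarith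
      · simp only [hR, rotm]
        have : (m : ℝ) - 1 - e'.2.2 - ((m : ℝ) - 1 - e'.1.2) = -(e'.2.2 - e'.1.2) := by ring
        rw [this, abs_neg]
        linarith
    have b3 : (S3.card : ℝ) ≤ 2310 * (m : ℝ) ^ 2 * Real.sqrt (1 + δ * m) := by
      rw [← Finset.card_image_of_injective S3 hRinj,
        ← Finset.card_image_of_injective (S3.image R) hRinj,
        ← Finset.card_image_of_injective ((S3.image R).image R) hRinj]
      apply sector_bound hδ hδ1 hm hP3 (((S3.image R).image R).image R) (k := k)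
      intro e he
      simp only [hS3, mem_image, mem_filter] at he
      obtain ⟨e2, ⟨e1, ⟨e', ⟨he1, he2, he3⟩, rfl⟩, rfl⟩, rfl⟩ := he
      refine ⟨isKEdge_rotm (isKEdge_rotm (isKEdge_rotm (hE e' he1))), ?_, ?_⟩
      · simp only [hR, rotm]; linarith
      · simp only [hR, rotm]
        have : (m : ℝ) - 1 - ((m : ℝ) - 1 - e'.2.1) - ((m : ℝ) - 1 - ((m : ℝ) - 1 - e'.1.1)) =
          e'.2.1 - e'.1.1 := by ring
        rw [this]
        linarith
    have hc : E.card ≤ S0.card + S1.card + S2.card + S3.card := by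
      calc E.card ≤ (S0 ∪ S1 ∪ S2 ∪ S3).card := Finset.card_le_card hcover
        _ ≤ (S0 ∪ S1 ∪ S2).card + S3.card := Finset.card_union_le _ _
        _ ≤ (S0 ∪ S1).card + S2.card + S3.card := by gcongr; exact Finset.card_union_le _ _
        _ ≤ S0.card + S1.card + S2.card + S3.card := by gcongr; exact Finset.card_union_le _ _
    have hc' : (E.card : ℝ) ≤ S0.card + S1.card + S2.card + S3.card := by exact_mod_cast hc
    linarith

end Pool.Agent.Work.MP_e17eac_co
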