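import Pool.Agent.Work.MP_e17eac_co.HLLat

/-!
# The composition step
-/

set_option autoImplicit false

namespace Pool.Agent.Work.MP_e17eac_co.HL

open Finset Filter Topology

/-- A configuration: special lines `i ∈ S` with balanced crossings at the abscissas
`x0 i + ρ i * h j` (`j ∈ Jb`) with non-special parallel lines `lam i j` of slope `m i + σ i`. -/
structure ConfOK {A : Type} [AddCommGroup A] (h : A →+ ℝ) (Jb : Finset A) {ι : Type} [Fintype ι]
    (m c : ι → ℝ) (S : Finset ι) (x0 ρ σ : ι → ℝ) (lam : ι → A → ι) : Prop where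
  ρ_pos : ∀ i ∈ S, 0 < ρ i
  σ_pos : ∀ i ∈ S, 0 < σ i
  lam_not : ∀ i ∈ S, ∀ j ∈ Jb, lam i j ∉ S
  lam_slope : ∀ i ∈ S, ∀ j ∈ Jb, m (lam i j) = m i + σ i
  bal : ∀ i ∈ S, ∀ j ∈ Jb, IsBal m c i (lam i j) (x0 i + ρ i * h j)

section defs

variable (U : UnitArr) {A : Type} [AddCommGroup A] (h : A →+ ℝ) {ι : Type} (m c : ι → ℝ)
  (S : Finset ι) (x0 ρ σ : ι → ℝ) (om : U.K → ℝ) (e η : ℝ)

/-- The shear factor. -/
noncomputable def al (i : ι) (k : U.K) : ℝ := 1 + e / ρ i * (U.X k : ℝ) / (σ i / 2)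

open Classical in
/-- New slopes. -/
noncomputable def mN (p : ι × U.K × A) : ℝ :=
  if p.1 ∈ S then m p.1 + e / ρ p.1 * (U.X p.2.1 : ℝ) / al U ρ σ e p.1 p.2.1 else m p.1

open Classical in
/-- New intercepts. -/
noncomputable def cN (p : ι × U.K × A) : ℝ :=
  if p.1 ∈ S then c p.1 - e / ρ p.1 * (U.X p.2.1 : ℝ) / al U ρ σ e p.1 p.2.1 * x0 p.1 +
    (e * h p.2.2 + η * U.φ p.2.1) / al U ρ σ e p.1 p.2.1
  else c p.1 - e * (h p.2.2 + om p.2.1)

/-- Abscissa of the new crossing in the group `(j, t0)` with local coordinates `(xh, yh)`. -/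
noncomputable def xN (i : ι) (j t0 : A) (xh yh : ℝ) : ℝ :=
  x0 i + (ρ i * h j + η * ρ i / e * xh + (e * h t0 + η * yh) / (σ i / 2))

/-- Ordinate of the new crossing. -/
noncomputable def yN (i : ι) (j t0 : A) (xh yh : ℝ) : ℝ :=
  m i * xN h x0 ρ σ e η i j t0 xh yh + c i + (e * h t0 + η * yh)

/-- Signed height of a new line above the new crossing. -/
noncomputable def FN (i : ι) (j t0 : A) (xh yh : ℝ) (p : ι × U.K × A) : ℝ :=
  mN U m S ρ σ e p * xN h x0 ρ σ e η i j t0 xh yh + cN U h c S x0 ρ σ om e η p -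
    yN h m c x0 ρ σ e η i j t0 xh yh

end defs

section lemmas

variable (U : UnitArr) {A : Type} [AddCommGroup A] (h : A →+ ℝ) {ι : Type} (m c : ι → ℝ)
  (S : Finset ι) (x0 ρ σ : ι → ℝ) (om : U.K → ℝ)

/-- Lines of the same bundle. -/
lemma FN_same {i : ι} (hi : i ∈ S) {e η : ℝ} (he : 0 < e) (hρ : 0 < ρ i) (hσ : 0 < σ i)
    {k : U.K} (hal : 0 < al U ρ σ e i k) (j t0 t : A) (xh yh : ℝ) :
    FN U h m c S x0 ρ σ om e η i j t0 xh yh (i, k, t) =
      (e * h (t + U.X k • j - t0) + η * ((U.X k : ℝ) * xh + U.φ k - yh)) / al U ρ σ e i k := by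
  have hal' : al U ρ σ e i k ≠ 0 := hal.ne'
  rw [eq_div_iff hal']
  unfold FN mN cN yN xN
  simp only [if_pos hi]
  rw [map_sub, map_add, map_zsmul]
  have key : ∀ x : ℝ, ((m i + e / ρ i * (U.X k : ℝ) / al U ρ σ e i k) * x +
      (c i - e / ρ i * (U.X k : ℝ) / al U ρ σ e i k * x0 i +
        (e * h t + η * U.φ k) / al U ρ σ e i k) - (m i * x + c i + (e * h t0 + η * yh))) *
      al U ρ σ e i k = e / ρ i * (U.X k : ℝ) * (x - x0 i) + (e * h t + η * U.φ k) -
        (e * h t0 + η * yh) * al U ρ σ e i k := by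
    intro x
    field_simp
    ring
  rw [key]
  unfold al
  have hρ' : ρ i ≠ 0 := hρ.ne'
  have hσ' : σ i ≠ 0 := hσ.ne'
  have he' : e ≠ 0 := he.ne'
  rw [zsmul_eq_mul]
  field_simp
  ring

/-- Lines of the crossing bundle. -/
lemma FN_cross {i l : ι} (hl : l ∉ S) {e η : ℝ} (he : 0 < e) (hρ : 0 < ρ i) (hσ : 0 < σ i)
    (j : A) (hm : m l = m i + σ i)
    (hv : m l * (x0 i + ρ i * h j) + c l = m i * (x0 i + ρ i * h j) + c i)
    (k : U.K) (t0 t : A) (xh yh : ℝ) :
    FN U h m c S x0 ρ σ om e η i j t0 xh yh (l, k, t) =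
      e * (h (t0 - t) - om k) + η * (yh + σ i * (ρ i / e) * xh) := by
  unfold FN mN cN yN xN
  simp only [if_neg hl]
  rw [map_sub]
  have hc : c l = m i * (x0 i + ρ i * h j) + c i - (m i + σ i) * (x0 i + ρ i * h j) := by
    rw [← hm]; linarith
  rw [hc, hm]
  have hρ' : ρ i ≠ 0 := hρ.ne'
  have hσ' : σ i ≠ 0 := hσ.ne'
  have he' : e ≠ 0 := he.ne'
  field_simp
  ring

/-- All other lines: for small `e` and then small `η` the sign is the old one. -/
lemma FN_far {i i' : ι} (hσ : 0 < σ i) (j t0 t : A) (k : U.K) (xh yh : ℝ)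
    (hne : m i' * (x0 i + ρ i * h j) + c i' - (m i * (x0 i + ρ i * h j) + c i) ≠ 0) :
    ∀ᶠ e in 𝓝[>] (0 : ℝ), ∀ᶠ η in 𝓝[>] (0 : ℝ),
      sg (FN U h m c S x0 ρ σ om e η i j t0 xh yh (i', k, t)) =
        sg (m i' * (x0 i + ρ i * h j) + c i' - (m i * (x0 i + ρ i * h j) + c i)) := by
  have hσ1 : σ i ≠ 0 := hσ.ne'
  -- the limit in `e` at `η = 0`
  have h1 : Tendsto (fun e : ℝ => FN U h m c S x0 ρ σ om e 0 i j t0 xh yh (i', k, t)) (𝓝[>] 0)
      (𝓝 (m i' * (x0 i + ρ i * h j) + c i' - (m i * (x0 i + ρ i * h j) + c i))) := by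
    have h2 : ContinuousAt
        (fun e : ℝ => FN U h m c S x0 ρ σ om e 0 i j t0 xh yh (i', k, t)) 0 := by
      unfold FN mN cN yN xN
      by_cases hi : i' ∈ S
      · have hal : al U ρ σ 0 i' k ≠ 0 := by simp [al]
        have hal2 : ContinuousAt (fun e : ℝ => al U ρ σ e i' k) 0 := by
          unfold al
          fun_prop
        simp only [if_pos hi, zero_mul, zero_div, add_zero]
        fun_prop (disch := assumption)
      · simp only [if_neg hi, zero_mul, zero_div, add_zero]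
        fun_prop (disch := assumption)
    have h3 : FN U h m c S x0 ρ σ om 0 0 i j t0 xh yh (i', k, t) =
        m i' * (x0 i + ρ i * h j) + c i' - (m i * (x0 i + ρ i * h j) + c i) := by
      unfold FN mN cN yN xN
      by_cases hi : i' ∈ S <;> simp [hi]
    rw [← h3]
    exact h2.tendsto.mono_left nhdsWithin_le_nhds
  filter_upwards [eventually_sg_eq h1 hne, self_mem_nhdsWithin] with e he he0
  rw [Set.mem_Ioi] at he0
  have hne2 : FN U h m c S x0 ρ σ om e 0 i j t0 xh yh (i', k, t) ≠ 0 := by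
    intro h0
    rw [h0, sg_zero] at he
    exact hne (sg_eq_zero.mp he.symm)
  have h4 : Tendsto (fun η : ℝ => FN U h m c S x0 ρ σ om e η i j t0 xh yh (i', k, t)) (𝓝[>] 0)
      (𝓝 (FN U h m c S x0 ρ σ om e 0 i j t0 xh yh (i', k, t))) := by
    have h5 : Continuous
        (fun η : ℝ => FN U h m c S x0 ρ σ om e η i j t0 xh yh (i', k, t)) := by
      unfold FN mN cN yN xN
      by_cases hi : i' ∈ S
      · simp only [if_pos hi]
        fun_prop
      · simp only [if_neg hi]
        fun_prop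
    exact h5.continuousAt.tendsto.mono_left nhdsWithin_le_nhds
  filter_upwards [eventually_sg_eq h4 hne2] with η hη
  rw [hη, he]

end lemmas

section local_bal

variable (U : UnitArr) {A : Type} [AddCommGroup A] {h : A →+ ℝ} {rk : A →+ ℤ}
  {T T0 Jb : Finset A} {ι : Type} [Fintype ι] {m c : ι → ℝ}
  {S : Finset ι} {x0 ρ σ : ι → ℝ} {lam : ι → A → ι} {om : U.K → ℝ} {e η : ℝ}

/-- The new crossings are balanced. -/
lemma local_bal (HL : LatOK h rk T T0 Jb U.Xm) (HC : ConfOK h Jb m c S x0 ρ σ lam)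
    (hom : ∑ k, sg (om k) = 0) (hom0 : ∀ k, om k ≠ 0)
    (hom1 : ∀ k, ∀ s ∈ T, ∀ t ∈ T, s ≠ t → sg (h (s - t) - om k) = sg (h (s - t)))
    (he : 0 < e) (hη : 0 < η) (hal : ∀ i ∈ S, ∀ k, 0 < al U ρ σ e i k)
    {i : ι} (hi : i ∈ S) {j : A} (hj : j ∈ Jb) {k : U.K} (hk : k ∈ U.S) {a : ℤ}
    (ha : |a| ≤ (U.J : ℤ)) {t t0 : A} (ht : t ∈ T0) (ht0 : t0 = t + U.X k • j)
    {xh yh : ℝ} (hxh : xh = U.ξ k + U.δ * a) (hyh : yh = U.X k * xh + U.φ k)
    (htT : t ∈ T) (htj : t - j ∈ T)
    (F1 : ∀ i', i' ≠ i → i' ≠ lam i j → ∀ k', ∀ t' ∈ T,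
      sg (FN U h m c S x0 ρ σ om e η i j t0 xh yh (i', k', t')) =
        sg (m i' * (x0 i + ρ i * h j) + c i' - (m i * (x0 i + ρ i * h j) + c i)))
    (F2 : ∀ k' : U.K, ∀ t' ∈ T, h (t' + U.X k' • j - t0) ≠ 0 →
      sg (e * h (t' + U.X k' • j - t0) + η * ((U.X k' : ℝ) * xh + U.φ k' - yh)) =
        sg (h (t' + U.X k' • j - t0)))
    (F3 : ∀ k' : U.K, ∀ t' ∈ T, h (t0 - t') - om k' ≠ 0 →
      sg (e * (h (t0 - t') - om k') + η * (yh + σ i * (ρ i / e) * xh)) =
        sg (h (t0 - t') - om k')) :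
    IsBal (ι := ι × U.K × {t // t ∈ T})
      (fun p => mN U m S ρ σ e (p.1, p.2.1, p.2.2.1))
      (fun p => cN U h c S x0 ρ σ om e η (p.1, p.2.1, p.2.2.1))
      (i, k, ⟨t, htT⟩) (i, U.κ k a, ⟨t - j, htj⟩) (xN h x0 ρ σ e η i j t0 xh yh) := by
  classical
  have hρ := HC.ρ_pos i hi
  have hσ := HC.σ_pos i hi
  have hbal := HC.bal i hi j hj
  have hlam := HC.lam_not i hi j hj
  have hub := U.bal k hk a ha
  rw [← hxh] at hub
  have hub_zero : ∀ k', (U.X k' : ℝ) * xh + U.φ k' = yh ↔ k' = k ∨ k' = U.κ k a := by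
    intro k'; rw [hyh]; exact hub.zero_iff k'
  have hub_sum : ∑ k', sg ((U.X k' : ℝ) * xh + U.φ k' - yh) = 0 := by
    rw [hyh]; exact hub.sum
  set X0 : ℝ := x0 i + ρ i * h j with hX0
  set l : ι := lam i j with hl
  have hli : l ≠ i := by
    intro h1; exact hlam (h1 ▸ hi)
  have hv : m l * X0 + c l = m i * X0 + c i := (hbal.zero_iff l).mpr (Or.inr rfl)
  -- membership
  have hmem : ∀ k' : U.K, t0 - U.X k' • j ∈ T := by
    intro k'
    have h1 : t0 - U.X k' • j = t + (U.X k - U.X k') • j := by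
      rw [ht0, sub_smul]; abel
    rw [h1]
    apply HL.trans t ht j hj
    have := U.X_le k
    have := U.X_le k'
    calc |U.X k - U.X k'| ≤ |U.X k| + |U.X k'| := abs_sub _ _
      _ ≤ 2 * (U.Xm : ℤ) := by linarith
  have ht0T : t0 ∈ T := by
    have h1 : t0 = t + U.X k • j := ht0
    rw [h1]
    apply HL.trans t ht j hj
    have := U.X_le k
    have h2 : (0 : ℤ) ≤ U.Xm := by positivity
    linarith
  have hκ : U.X (U.κ k a) = U.X k + 1 := U.κ_slope k hk a ha
  have hmemκ : t0 - U.X (U.κ k a) • j = t - j := by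
    rw [hκ, ht0, add_smul, one_smul]; abel
  -- the value at the special line
  have hzero0 : FN U h m c S x0 ρ σ om e η i j t0 xh yh (i, k, t) = 0 := by
    rw [FN_same U h m c S x0 ρ σ om hi he hρ hσ (hal i hi k)]
    have h1 : t + U.X k • j - t0 = 0 := by rw [ht0]; abel
    rw [h1, map_zero, hyh]
    simp
  have hval : ∀ p : ι × U.K × {t // t ∈ T},
      mN U m S ρ σ e (p.1, p.2.1, p.2.2.1) * xN h x0 ρ σ e η i j t0 xh yh +
        cN U h c S x0 ρ σ om e η (p.1, p.2.1, p.2.2.1) -
      (mN U m S ρ σ e (i, k, t) * xN h x0 ρ σ e η i j t0 xh yh +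
        cN U h c S x0 ρ σ om e η (i, k, t)) =
      FN U h m c S x0 ρ σ om e η i j t0 xh yh (p.1, p.2.1, p.2.2.1) := by
    intro p
    have h1 := hzero0
    unfold FN at h1 ⊢
    linarith
  -- signs in the same bundle
  have hsame : ∀ k' : U.K, ∀ t' ∈ T,
      sg (FN U h m c S x0 ρ σ om e η i j t0 xh yh (i, k', t')) =
        -Int.sign (rk ((t0 - U.X k' • j) - t')) +
          (if t' = t0 - U.X k' • j then sg ((U.X k' : ℝ) * xh + U.φ k' - yh) else 0) := by
    intro k' t' ht'
    rw [FN_same U h m c S x0 ρ σ om hi he hρ hσ (hal i hi k'), sg_div_pos (hal i hi k')]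
    by_cases heq : t' = t0 - U.X k' • j
    · have h1 : t' + U.X k' • j - t0 = 0 := by rw [heq]; abel
      rw [h1, map_zero, mul_zero, zero_add, sg_mul_pos hη, if_pos heq, heq, sub_self, map_zero,
        Int.sign_zero, neg_zero, zero_add]
    · have h1 : t' + U.X k' • j - t0 = t' - (t0 - U.X k' • j) := by abel
      have h2 : h (t' + U.X k' • j - t0) ≠ 0 := by
        rw [h1]; exact HL.h_ne ht' (hmem k') heq
      rw [F2 k' t' ht' h2, h1, HL.sg_eq t' ht' _ (hmem k'), if_neg heq, add_zero]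
      have h3 : rk (t' - (t0 - U.X k' • j)) = -rk ((t0 - U.X k' • j) - t') := by
        rw [← map_neg]; congr 1; abel
      rw [h3, Int.sign_neg]
  -- signs in the crossing bundle
  have hcross : ∀ k' : U.K, ∀ t' ∈ T,
      sg (FN U h m c S x0 ρ σ om e η i j t0 xh yh (l, k', t')) =
        Int.sign (rk (t0 - t')) + (if t' = t0 then -sg (om k') else 0) ∧
      sg (FN U h m c S x0 ρ σ om e η i j t0 xh yh (l, k', t')) ≠ 0 := by
    intro k' t' ht'
    rw [FN_cross U h m c S x0 ρ σ om hlam he hρ hσ j (HC.lam_slope i hi j hj) hv]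
    by_cases heq : t' = t0
    · have h1 : h (t0 - t') - om k' = -om k' := by rw [heq, sub_self, map_zero, zero_sub]
      have h2 : h (t0 - t') - om k' ≠ 0 := by rw [h1]; exact neg_ne_zero.mpr (hom0 k')
      rw [F3 k' t' ht' h2, h1, sg_neg, if_pos heq, heq, sub_self, map_zero, Int.sign_zero, zero_add]
      refine ⟨rfl, ?_⟩
      rw [neg_ne_zero]
      intro h3
      exact hom0 k' (sg_eq_zero.mp h3)
    · have h0 : t0 ≠ t' := fun h => heq h.symm
      have h1 := hom1 k' t0 ht0T t' ht' h0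
      have h3 : sg (h (t0 - t')) ≠ 0 := by
        intro h4
        exact HL.h_ne ht0T ht' h0 (sg_eq_zero.mp h4)
      have h2 : h (t0 - t') - om k' ≠ 0 := by
        intro h4
        rw [h4, sg_zero] at h1
        exact h3 h1.symm
      rw [F3 k' t' ht' h2, h1, if_neg heq, add_zero]
      exact ⟨HL.sg_eq t0 ht0T t' ht', h3⟩
  -- sums over a bundle
  have hGsame : ∑ k' : U.K, ∑ t' : {t // t ∈ T},
      sg (FN U h m c S x0 ρ σ om e η i j t0 xh yh (i, k', t'.1)) =
        -((Fintype.card U.K : ℤ) * (2 * rk t0)) := by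
    have h1 : ∀ k' : U.K, ∑ t' : {t // t ∈ T},
        sg (FN U h m c S x0 ρ σ om e η i j t0 xh yh (i, k', t'.1)) =
        -(2 * rk t0) + 2 * rk j * U.X k' + sg ((U.X k' : ℝ) * xh + U.φ k' - yh) := by
      intro k'
      rw [Finset.sum_coe_sort T
        (fun t' => sg (FN U h m c S x0 ρ σ om e η i j t0 xh yh (i, k', t')))]
      rw [sum_congr rfl (hsame k'), sum_add_distrib, sum_neg_distrib, HL.sum _ (hmem k'),
        sum_ite_eq' T, if_pos (hmem k'), map_sub, map_zsmul, smul_eq_mul]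
      ring
    rw [sum_congr rfl (fun k' _ => h1 k'), sum_add_distrib, sum_add_distrib, ← mul_sum, U.X_sum,
      sum_const, card_univ, nsmul_eq_mul]
    have h2 : ∑ k' : U.K, sg ((U.X k' : ℝ) * xh + U.φ k' - yh) = 0 := hub_sum
    rw [h2]
    ring
  have hGcross : ∑ k' : U.K, ∑ t' : {t // t ∈ T},
      sg (FN U h m c S x0 ρ σ om e η i j t0 xh yh (l, k', t'.1)) =
        (Fintype.card U.K : ℤ) * (2 * rk t0) := by
    have h1 : ∀ k' : U.K, ∑ t' : {t // t ∈ T},
        sg (FN U h m c S x0 ρ σ om e η i j t0 xh yh (l, k', t'.1)) =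
        2 * rk t0 + -sg (om k') := by
      intro k'
      rw [Finset.sum_coe_sort T
        (fun t' => sg (FN U h m c S x0 ρ σ om e η i j t0 xh yh (l, k', t')))]
      rw [sum_congr rfl (fun t' ht' => (hcross k' t' ht').1), sum_add_distrib, HL.sum _ ht0T,
        sum_ite_eq' T, if_pos ht0T]
    rw [sum_congr rfl (fun k' _ => h1 k'), sum_add_distrib, sum_neg_distrib, hom,
      sum_const, card_univ, nsmul_eq_mul]
    ring
  refine ⟨?_, ?_, ?_⟩
  · intro heq
    have h1 : k = U.κ k a := by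
      have := congrArg (fun p => p.2.1) heq
      exact this
    have h2 := congrArg U.X h1
    rw [hκ] at h2
    omega
  · rintro ⟨i', k', t', ht'⟩
    have h0 := hval (i', k', ⟨t', ht'⟩)
    simp only at h0 ⊢
    rw [← sub_eq_zero, h0]
    constructor
    · intro hz
      have hsg : sg (FN U h m c S x0 ρ σ om e η i j t0 xh yh (i', k', t')) = 0 := by
        rw [hz, sg_zero]
      by_cases hii : i' = i
      · subst hii
        by_cases heq : t' = t0 - U.X k' • j
        · rw [hsame k' t' ht', if_pos heq, heq, sub_self, map_zero, Int.sign_zero, neg_zero,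
            zero_add] at hsg
          have h1 : (U.X k' : ℝ) * xh + U.φ k' = yh := by
            have := sg_eq_zero.mp hsg
            linarith
          rcases (hub_zero k').mp h1 with h2 | h2
          · left
            subst h2
            have h3 : t' = t := by rw [heq, ht0]; abel
            subst h3
            rfl
          · right
            subst h2
            have h3 : t' = t - j := by rw [heq, hmemκ]
            subst h3
            rfl
        · exfalso
          rw [hsame k' t' ht', if_neg heq, add_zero, neg_eq_zero] at hsg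
          have h1 := Int.sign_eq_zero_iff_zero.mp hsg
          rw [map_sub] at h1
          apply heq
          apply HL.inj t' ht' _ (hmem k')
          linarith
      · exfalso
        by_cases hil : i' = l
        · subst hil
          exact (hcross k' t' ht').2 hsg
        · rw [F1 i' hii hil k' t' ht'] at hsg
          have h1 := sg_eq_zero.mp hsg
          rcases (hbal.zero_iff i').mp (by linarith) with h2 | h2
          · exact hii h2
          · exact hil h2
    · rintro (heq | heq)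
      · simp only [Prod.mk.injEq, Subtype.mk.injEq] at heq
        obtain ⟨rfl, rfl, rfl⟩ := heq
        exact hzero0
      · simp only [Prod.mk.injEq, Subtype.mk.injEq] at heq
        obtain ⟨rfl, rfl, rfl⟩ := heq
        rw [FN_same U h m c S x0 ρ σ om hi he hρ hσ (hal i' hi _)]
        have h1 : t - j + U.X (U.κ k a) • j - t0 = 0 := by
          rw [← hmemκ]; abel
        have h2 : (U.X (U.κ k a) : ℝ) * xh + U.φ (U.κ k a) = yh :=
          (hub_zero _).mpr (Or.inr rfl)
        rw [h1, map_zero, mul_zero, zero_add, h2, sub_self, mul_zero, zero_div]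
  · have h1 : ∀ p : ι × U.K × {t // t ∈ T},
        sg (mN U m S ρ σ e (p.1, p.2.1, p.2.2.1) * xN h x0 ρ σ e η i j t0 xh yh +
          cN U h c S x0 ρ σ om e η (p.1, p.2.1, p.2.2.1) -
        (mN U m S ρ σ e (i, k, t) * xN h x0 ρ σ e η i j t0 xh yh +
          cN U h c S x0 ρ σ om e η (i, k, t))) =
        sg (FN U h m c S x0 ρ σ om e η i j t0 xh yh (p.1, p.2.1, p.2.2.1)) := by
      intro p; rw [hval p]
    rw [sum_congr rfl (fun p _ => h1 p), Fintype.sum_prod_type]
    have h2 : ∀ i' : ι, ∑ q : U.K × {t // t ∈ T},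
        sg (FN U h m c S x0 ρ σ om e η i j t0 xh yh (i', q.1, q.2.1)) =
        ((Fintype.card U.K : ℤ) * T.card) *
          sg (m i' * X0 + c i' - (m i * X0 + c i)) +
        ((if i' = i then -((Fintype.card U.K : ℤ) * (2 * rk t0)) else 0) +
          (if i' = l then (Fintype.card U.K : ℤ) * (2 * rk t0) else 0)) := by
      intro i'
      rw [Fintype.sum_prod_type]
      by_cases hii : i' = i
      · subst hii
        rw [hGsame, if_pos rfl, if_neg (fun h => hli h.symm), sub_self, sg_zero]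
        ring
      · by_cases hil : i' = l
        · subst hil
          rw [hGcross, if_neg hii, if_pos rfl, hv, sub_self, sg_zero]
          ring
        · rw [if_neg hii, if_neg hil]
          have h3 : ∀ k' : U.K, ∑ t' : {t // t ∈ T},
              sg (FN U h m c S x0 ρ σ om e η i j t0 xh yh (i', k', t'.1)) =
              T.card * sg (m i' * X0 + c i' - (m i * X0 + c i)) := by
            intro k'
            rw [Finset.sum_coe_sort T
              (fun t' => sg (FN U h m c S x0 ρ σ om e η i j t0 xh yh (i', k', t')))]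
            rw [sum_congr rfl (fun t' ht' => F1 i' hii hil k' t' ht'), sum_const, nsmul_eq_mul]
          rw [sum_congr rfl (fun k' _ => h3 k'), sum_const, card_univ, nsmul_eq_mul]
          ring
    rw [sum_congr rfl (fun i' _ => h2 i'), sum_add_distrib, ← mul_sum, hbal.sum,
      sum_add_distrib, sum_ite_eq', sum_ite_eq', if_pos (mem_univ _), if_pos (mem_univ _)]
    ring

end local_bal

end Pool.Agent.Work.MP_e17eac_co.HL
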