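import Pool.Agent.Work.MP_e17eac_co.Bd.B05

/-!
# The lattice boxes used in the composition step
-/

set_option autoImplicit false

namespace Pool.Agent.Work.MP_e17eac_co.HL

open Finset Filter Topology

/-- Order and rank properties of the box `T` in the group `A` with respect to the height `h`. -/
structure LatOK {A : Type} [AddCommGroup A] (h : A →+ ℝ) (rk : A →+ ℤ) (T T0 Jb : Finset A)
    (Xm : ℕ) : Prop where
  sg_eq : ∀ s ∈ T, ∀ t ∈ T, sg (h (s - t)) = Int.sign (rk (s - t))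
  inj : ∀ s ∈ T, ∀ t ∈ T, rk s = rk t → s = t
  sum : ∀ s ∈ T, ∑ t ∈ T, Int.sign (rk (s - t)) = 2 * rk s
  trans : ∀ t ∈ T0, ∀ j ∈ Jb, ∀ z : ℤ, |z| ≤ 2 * (Xm : ℤ) → t + z • j ∈ T
  T0_sub : T0 ⊆ T
  Jb_sub : Jb ⊆ T

lemma LatOK.h_ne {A : Type} [AddCommGroup A] {h : A →+ ℝ} {rk : A →+ ℤ} {T T0 Jb : Finset A}
    {Xm : ℕ} (H : LatOK h rk T T0 Jb Xm) {s t : A} (hs : s ∈ T) (ht : t ∈ T) (hst : s ≠ t) :
    h (s - t) ≠ 0 := by
  intro h0
  apply hst
  apply H.inj s hs t ht
  have h1 := H.sg_eq s hs t ht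
  rw [h0, sg_zero] at h1
  have h2 : rk (s - t) = 0 := Int.sign_eq_zero_iff_zero.mp h1.symm
  rw [map_sub] at h2
  linarith

/-- The sum of the signs of `y - z` over `|z| ≤ B`. -/
lemma sum_sign_Icc (B : ℕ) (y : ℤ) (hy : |y| ≤ (B : ℤ)) :
    ∑ z ∈ Icc (-(B : ℤ)) B, Int.sign (y - z) = 2 * y := by
  obtain ⟨hy1, hy2⟩ := abs_le.mp hy
  have hsplit : Icc (-(B : ℤ)) B = Icc (-(B : ℤ)) (y - 1) ∪ ({y} ∪ Icc (y + 1) B) := by
    ext z
    simp only [mem_Icc, mem_union, mem_singleton]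
    omega
  have hd1 : Disjoint ({y} : Finset ℤ) (Icc (y + 1) B) := by
    rw [Finset.disjoint_left]
    intro z
    simp only [mem_Icc, mem_singleton]
    omega
  have hd2 : Disjoint (Icc (-(B : ℤ)) (y - 1)) ({y} ∪ Icc (y + 1) (B : ℤ)) := by
    rw [Finset.disjoint_left]
    intro z
    simp only [mem_Icc, mem_union, mem_singleton]
    omega
  rw [hsplit, sum_union hd2, sum_union hd1]
  have h1 : ∑ z ∈ Icc (-(B : ℤ)) (y - 1), Int.sign (y - z) =
      ∑ _z ∈ Icc (-(B : ℤ)) (y - 1), (1 : ℤ) := by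
    apply sum_congr rfl
    intro z hz
    rw [mem_Icc] at hz
    exact Int.sign_eq_one_of_pos (by omega)
  have h2 : ∑ z ∈ Icc (y + 1) (B : ℤ), Int.sign (y - z) =
      ∑ _z ∈ Icc (y + 1) (B : ℤ), (-1 : ℤ) := by
    apply sum_congr rfl
    intro z hz
    rw [mem_Icc] at hz
    exact Int.sign_eq_neg_one_of_neg (by omega)
  rw [h1, h2]
  simp only [sum_const, Int.card_Icc, sum_singleton, sub_self, Int.sign_zero, nsmul_eq_mul, mul_one,
    mul_neg]
  rw [Int.toNat_of_nonneg (by omega), Int.toNat_of_nonneg (by omega)]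
  ring

/-- The sign of `β r + w` with `|w| < β`. -/
lemma sign_mul_add {β r w : ℤ} (hw : |w| < β) (hr : r ≠ 0) :
    Int.sign (β * r + w) = Int.sign r := by
  obtain ⟨hw1, hw2⟩ := abs_lt.mp hw
  rcases lt_or_gt_of_ne hr with h | h
  · rw [Int.sign_eq_neg_one_of_neg h]
    apply Int.sign_eq_neg_one_of_neg
    nlinarith
  · rw [Int.sign_eq_one_of_pos h]
    apply Int.sign_eq_one_of_pos
    nlinarith

section step

variable {A : Type} [AddCommGroup A]

/-- The new height function on `A × ℤ`. -/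
noncomputable def hNew (h : A →+ ℝ) (d : ℝ) : A × ℤ →+ ℝ where
  toFun p := h p.1 + (p.2 : ℝ) * d
  map_zero' := by simp
  map_add' p q := by simp; ring

/-- The new rank function on `A × ℤ`. -/
def rkNew (rk : A →+ ℤ) (B : ℕ) : A × ℤ →+ ℤ where
  toFun p := (2 * (B : ℤ) + 1) * rk p.1 + p.2
  map_zero' := by simp
  map_add' p q := by simp; ring

@[simp] lemma hNew_apply (h : A →+ ℝ) (d : ℝ) (p : A × ℤ) :
    hNew h d p = h p.1 + (p.2 : ℝ) * d := rfl

@[simp] lemma rkNew_apply (rk : A →+ ℤ) (B : ℕ) (p : A × ℤ) :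
    rkNew rk B p = (2 * (B : ℤ) + 1) * rk p.1 + p.2 := rfl

lemma lat_step {h : A →+ ℝ} {rk : A →+ ℤ} {T T0 Jb : Finset A} {Xm J B : ℕ}
    (H : LatOK h rk T T0 Jb Xm) (hB : 2 * Xm * J ≤ B) (hJ : J ≤ B) :
    ∀ᶠ d in 𝓝[>] (0 : ℝ), LatOK (hNew h d) (rkNew rk B) (T ×ˢ Icc (-(B : ℤ)) B)
      (T0 ×ˢ Icc (-((B - 2 * Xm * J : ℕ) : ℤ)) ((B - 2 * Xm * J : ℕ) : ℤ))
      (Jb ×ˢ Icc (-(J : ℤ)) J) Xm := by
  classical
  have hev : ∀ᶠ d in 𝓝[>] (0 : ℝ), ∀ s ∈ T, ∀ t ∈ T, ∀ w ∈ Icc (-(2 * (B : ℤ))) (2 * B),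
      s ≠ t → sg (h (s - t) + (w : ℝ) * d) = sg (h (s - t)) := by
    refine (eventually_all_finset T).mpr fun s hs => ?_
    refine (eventually_all_finset T).mpr fun t ht => ?_
    refine (eventually_all_finset _).mpr fun w hw => ?_
    by_cases hst : s = t
    · exact Eventually.of_forall fun d hne => absurd hst hne
    · have h1 : Tendsto (fun d : ℝ => h (s - t) + (w : ℝ) * d) (𝓝[>] 0) (𝓝 (h (s - t))) := by
        have : Tendsto (fun d : ℝ => h (s - t) + (w : ℝ) * d) (𝓝 0)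
            (𝓝 (h (s - t) + (w : ℝ) * 0)) := by
          apply Tendsto.const_add
          apply Tendsto.const_mul
          exact tendsto_id
        rw [mul_zero, add_zero] at this
        exact this.mono_left nhdsWithin_le_nhds
      filter_upwards [eventually_sg_eq h1 (H.h_ne hs ht hst)] with d hd _ using hd
  filter_upwards [hev, self_mem_nhdsWithin] with d hd hd0
  rw [Set.mem_Ioi] at hd0
  have hB' : ((B - 2 * Xm * J : ℕ) : ℤ) = (B : ℤ) - 2 * Xm * J := by
    rw [Nat.cast_sub hB]; push_cast; ring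
  refine ⟨?_, ?_, ?_, ?_, ?_, ?_⟩
  · rintro ⟨s, y⟩ hs ⟨t, z⟩ ht
    simp only [mem_product, mem_Icc] at hs ht
    obtain ⟨hs, hy1, hy2⟩ := hs
    obtain ⟨ht, hz1, hz2⟩ := ht
    simp only [hNew_apply, rkNew_apply, Prod.fst_sub, Prod.snd_sub]
    by_cases hst : s = t
    · subst hst
      rw [sub_self, map_zero, map_zero, mul_zero, zero_add, zero_add, mul_comm,
        sg_mul_pos hd0, sg_intCast]
    · have hrk : rk (s - t) ≠ 0 := by
        intro h0
        rw [map_sub] at h0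
        exact hst (H.inj s hs t ht (by linarith))
      rw [hd s hs t ht (y - z) (by rw [mem_Icc]; constructor <;> linarith) hst, H.sg_eq s hs t ht,
        sign_mul_add (by rw [abs_lt]; constructor <;> linarith) hrk]
  · rintro ⟨s, y⟩ hs ⟨t, z⟩ ht heq
    simp only [mem_product, mem_Icc] at hs ht
    obtain ⟨hs, hy1, hy2⟩ := hs
    obtain ⟨ht, hz1, hz2⟩ := ht
    simp only [rkNew_apply] at heq
    have h1 : rk s = rk t := by
      by_contra hne
      have h2 : (2 * (B : ℤ) + 1) * (rk s - rk t) = z - y := by linarith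
      have h3 : 1 ≤ |rk s - rk t| := Int.one_le_abs (sub_ne_zero.mpr hne)
      have h4 : |(2 * (B : ℤ) + 1) * (rk s - rk t)| ≤ 2 * B := by
        rw [h2, abs_le]; constructor <;> linarith
      rw [abs_mul, abs_of_nonneg (by positivity)] at h4
      nlinarith
    have h2 := H.inj s hs t ht h1
    have h3 : y = z := by rw [h1] at heq; linarith
    rw [h2, h3]
  · rintro ⟨s, y⟩ hs
    simp only [mem_product, mem_Icc] at hs
    obtain ⟨hs, hy1, hy2⟩ := hs
    rw [sum_product]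
    have h1 : ∀ t ∈ T, ∑ z ∈ Icc (-(B : ℤ)) B,
        Int.sign (rkNew rk B ((s, y) - (t, z))) =
        (2 * (B : ℤ) + 1) * Int.sign (rk (s - t)) + (if t = s then 2 * y else 0) := by
      intro t ht
      by_cases hst : t = s
      · subst hst
        simp only [rkNew_apply, Prod.mk_sub_mk, sub_self, map_zero, mul_zero, zero_add,
          Int.sign_zero, if_true]
        exact sum_sign_Icc B y (abs_le.mpr ⟨hy1, hy2⟩)
      · have hrk : rk (s - t) ≠ 0 := by
          intro h0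
          rw [map_sub] at h0
          exact hst (H.inj t ht s hs (by linarith))
        have h2 : ∀ z ∈ Icc (-(B : ℤ)) B, Int.sign (rkNew rk B ((s, y) - (t, z))) =
            Int.sign (rk (s - t)) := by
          intro z hz
          rw [mem_Icc] at hz
          simp only [rkNew_apply, Prod.mk_sub_mk]
          exact sign_mul_add (by rw [abs_lt]; constructor <;> linarith) hrk
        rw [sum_congr rfl h2]
        simp only [sum_const, Int.card_Icc, nsmul_eq_mul, if_neg hst, add_zero]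
        rw [Int.toNat_of_nonneg (by omega)]
        ring
    rw [sum_congr rfl h1, sum_add_distrib, ← mul_sum, H.sum s hs, sum_ite_eq' T s]
    simp only [hs, if_true, rkNew_apply]
    ring
  · rintro ⟨t, y⟩ ht ⟨j, a⟩ hj z hz
    simp only [mem_product, mem_Icc] at ht hj
    obtain ⟨ht, hy1, hy2⟩ := ht
    obtain ⟨hj, ha1, ha2⟩ := hj
    simp only [Prod.smul_mk, Prod.mk_add_mk, mem_product, mem_Icc]
    refine ⟨H.trans t ht j hj z hz, ?_⟩
    have h1 : |z • a| ≤ 2 * Xm * J := by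
      rw [smul_eq_mul, abs_mul]
      exact mul_le_mul hz (abs_le.mpr ⟨ha1, ha2⟩) (abs_nonneg _) (by positivity)
    rw [hB'] at hy1 hy2
    obtain ⟨h2, h3⟩ := abs_le.mp h1
    constructor <;> linarith
  · intro p hp
    simp only [mem_product, mem_Icc] at hp ⊢
    rw [hB'] at hp
    refine ⟨H.T0_sub hp.1, ?_, ?_⟩
    · have : (0 : ℤ) ≤ 2 * Xm * J := by positivity
      linarith [hp.2.1]
    · have : (0 : ℤ) ≤ 2 * Xm * J := by positivity
      linarith [hp.2.2]
  · intro p hp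
    simp only [mem_product, mem_Icc] at hp ⊢
    have : (J : ℤ) ≤ B := by exact_mod_cast hJ
    exact ⟨H.Jb_sub hp.1, by linarith [hp.2.1], by linarith [hp.2.2]⟩

end step

end Pool.Agent.Work.MP_e17eac_co.HL
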