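import Pool.Agent.Work.MP_e17eac_co.HLComp

/-!
# The composition theorem
-/

set_option autoImplicit false

namespace Pool.Agent.Work.MP_e17eac_co.HL

open Finset Filter Topology

lemma ev2_finset {D : Type*} (s : Finset D) {P : D → ℝ → ℝ → Prop} {l l' : Filter ℝ}
    (h : ∀ x ∈ s, ∀ᶠ e in l, ∀ᶠ η in l', P x e η) :
    ∀ᶠ e in l, ∀ᶠ η in l', ∀ x ∈ s, P x e η := by
  have h1 : ∀ᶠ e in l, ∀ x ∈ s, ∀ᶠ η in l', P x e η := (eventually_all_finset s).mpr h
  filter_upwards [h1] with e he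
  exact (eventually_all_finset s).mpr he

lemma ev2_all {D : Type*} [Finite D] {P : D → ℝ → ℝ → Prop} {l l' : Filter ℝ}
    (h : ∀ x, ∀ᶠ e in l, ∀ᶠ η in l', P x e η) :
    ∀ᶠ e in l, ∀ᶠ η in l', ∀ x, P x e η := by
  have h1 : ∀ᶠ e in l, ∀ x, ∀ᶠ η in l', P x e η := eventually_all.mpr h
  filter_upwards [h1] with e he
  exact eventually_all.mpr he

lemma ev2_imp {p : Prop} {P : ℝ → ℝ → Prop} {l l' : Filter ℝ}
    (h : p → ∀ᶠ e in l, ∀ᶠ η in l', P e η) :
    ∀ᶠ e in l, ∀ᶠ η in l', p → P e η := by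
  by_cases hp : p
  · filter_upwards [h hp] with e he
    filter_upwards [he] with η hη _ using hη
  · exact Eventually.of_forall fun e => Eventually.of_forall fun η hp' => absurd hp' hp

/-- Signs for the copies of the non-special lines. -/
lemma exists_om {K : Type} [Fintype K] (hK : Even (Fintype.card K)) {A : Type} [AddCommGroup A]
    {h : A →+ ℝ} {rk : A →+ ℤ} {T T0 Jb : Finset A} {Xm : ℕ} (H : LatOK h rk T T0 Jb Xm) :
    ∃ om : K → ℝ, ∑ k, sg (om k) = 0 ∧ (∀ k, om k ≠ 0) ∧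
      ∀ k, ∀ s ∈ T, ∀ t ∈ T, s ≠ t → sg (h (s - t) - om k) = sg (h (s - t)) := by
  classical
  obtain ⟨r, hr⟩ := hK
  obtain ⟨W, -, hW⟩ := Finset.exists_subset_card_eq (s := (univ : Finset K)) (n := r)
    (by rw [card_univ]; omega)
  set τ : K → ℝ := fun k => if k ∈ W then 1 else -1 with hτ
  have hτ0 : ∀ k, τ k ≠ 0 := by
    intro k; simp only [hτ]; split_ifs <;> norm_num
  have hev : ∀ᶠ d in 𝓝[>] (0 : ℝ), ∀ k, ∀ s ∈ T, ∀ t ∈ T, s ≠ t →
      sg (h (s - t) - τ k * d) = sg (h (s - t)) := by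
    refine eventually_all.mpr fun k => ?_
    refine (eventually_all_finset T).mpr fun s hs => ?_
    refine (eventually_all_finset T).mpr fun t ht => ?_
    by_cases hst : s = t
    · exact Eventually.of_forall fun d hne => absurd hst hne
    · have h1 : Tendsto (fun d : ℝ => h (s - t) - τ k * d) (𝓝[>] 0) (𝓝 (h (s - t))) := by
        have : ContinuousAt (fun d : ℝ => h (s - t) - τ k * d) 0 := by fun_prop
        have h2 := this.tendsto
        simp only [mul_zero, sub_zero] at h2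
        exact h2.mono_left nhdsWithin_le_nhds
      filter_upwards [eventually_sg_eq h1 (H.h_ne hs ht hst)] with d hd _ using hd
  obtain ⟨d, hd, hd0⟩ := (hev.and self_mem_nhdsWithin).exists
  replace hd0 : 0 < d := hd0
  refine ⟨fun k => τ k * d, ?_, fun k => mul_ne_zero (hτ0 k) hd0.ne', hd⟩
  have h1 : ∀ k, sg (τ k * d) = if k ∈ W then 1 else -1 := by
    intro k
    simp only [hτ]
    split_ifs with hk
    · rw [sg_of_pos (by linarith)]
    · rw [sg_of_neg (by linarith)]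
  rw [sum_congr rfl (fun k _ => h1 k), sum_ite]
  simp only [sum_const, nsmul_eq_mul, mul_one, mul_neg]
  rw [Finset.filter_mem_eq_inter, univ_inter, hW]
  have h2 : (univ.filter (fun k => k ∉ W)).card = r := by
    rw [Finset.filter_not, Finset.filter_mem_eq_inter, univ_inter,
      card_sdiff_of_subset (subset_univ W), card_univ, hW]
    omega
  rw [h2]
  ring

/-- The data of a configuration of dimension `s`. -/
def StateOK (U : UnitArr) (B s : ℕ) : Prop :=
  ∃ (A : Type) (_ : AddCommGroup A) (h : A →+ ℝ) (rk : A →+ ℤ) (T T0 Jb : Finset A)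
    (ι : Type) (_ : Fintype ι) (m c : ι → ℝ) (S : Finset ι) (x0 ρ σ : ι → ℝ) (lam : ι → A → ι),
    LatOK h rk T T0 Jb U.Xm ∧ ConfOK h Jb m c S x0 ρ σ lam ∧
    T.card = (2 * B + 1) ^ s ∧ T0.card = (2 * (B - 2 * U.Xm * U.J) + 1) ^ s ∧
    Jb.card = (2 * U.J + 1) ^ s ∧
    Fintype.card ι = 2 * Fintype.card U.K ^ s * (2 * B + 1) ^ (s.choose 2) ∧
    S.card = U.S.card ^ s * (2 * (B - 2 * U.Xm * U.J) + 1) ^ (s.choose 2)

/-- The starting configuration: two lines. -/
lemma state_zero (U : UnitArr) (B : ℕ) : StateOK U B 0 := by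
  classical
  refine ⟨Unit, inferInstance, 0, 0, {0}, {0}, {0}, Bool, inferInstance,
    fun b => if b then 1 else 0, fun _ => 0, {false}, fun _ => 0, fun _ => 1, fun _ => 1,
    fun _ _ => true, ?_, ?_, ?_, ?_, ?_, ?_, ?_⟩
  · refine ⟨?_, ?_, ?_, ?_, ?_, ?_⟩
    · intro s _ t _; simp
    · intro s _ t _ _; exact Subsingleton.elim _ _
    · intro s _; simp
    · intro t _ j _ z _; simp
    · exact subset_rfl
    · exact subset_rfl
  · refine ⟨?_, ?_, ?_, ?_, ?_⟩
    · intro i _; norm_num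
    · intro i _; norm_num
    · intro i _ j _; simp
    · intro i hi j _
      rw [mem_singleton] at hi
      subst hi
      simp
    · intro i hi j _
      rw [mem_singleton] at hi
      subst hi
      refine ⟨by simp, ?_, ?_⟩
      · intro k
        cases k <;> simp
      · simp
  · simp
  · simp
  · simp
  · simp
  · simp

lemma ev_lin {e H : ℝ} (he : 0 < e) (hH : H ≠ 0) (C : ℝ) :
    ∀ᶠ η in 𝓝[>] (0 : ℝ), sg (e * H + η * C) = sg H := by
  have h1 : Tendsto (fun η : ℝ => e * H + η * C) (𝓝[>] 0) (𝓝 (e * H)) := by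
    have : ContinuousAt (fun η : ℝ => e * H + η * C) 0 := by fun_prop
    have h2 := this.tendsto
    simp only [zero_mul, add_zero] at h2
    exact h2.mono_left nhdsWithin_le_nhds
  filter_upwards [eventually_sg_eq h1 (mul_ne_zero he.ne' hH)] with η hη
  rw [hη, sg_mul_pos he]

/-- Position of the new crossings. -/
lemma xN_eq (U : UnitArr) {A : Type} [AddCommGroup A] (h : A →+ ℝ) {ι : Type}
    (x0 ρ σ : ι → ℝ) {e η : ℝ} (he : 0 < e) {i : ι} (hρ : 0 < ρ i) (hσ : 0 < σ i)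
    (k : U.K) (j t : A) (a : ℤ) :
    xN h x0 ρ σ e η i j (t + U.X k • j) (U.ξ k + U.δ * a)
      (U.X k * (U.ξ k + U.δ * a) + U.φ k) =
    (x0 i + (e * h t + η * U.φ k) / (σ i / 2) + al U ρ σ e i k * (η * ρ i / e * U.ξ k)) +
      al U ρ σ e i k * ρ i * hNew h (η / e * U.δ) (j, a) := by
  have hρ' : ρ i ≠ 0 := hρ.ne'
  have hσ' : σ i ≠ 0 := hσ.ne'
  have he' : e ≠ 0 := he.ne'
  unfold xN al
  rw [hNew_apply, map_add, map_zsmul, zsmul_eq_mul]
  field_simp
  ring

/-- The slope of the new crossing lines. -/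
lemma mN_slope (U : UnitArr) {ι : Type} {A : Type} (m : ι → ℝ) (S : Finset ι) (ρ σ : ι → ℝ) {e : ℝ}
    {i : ι} (hi : i ∈ S) (hρ : 0 < ρ i) (hσ : 0 < σ i) {k k' : U.K}
    (hX : U.X k' = U.X k + 1) (hal : 0 < al U ρ σ e i k) (hal' : 0 < al U ρ σ e i k') (t t' : A) :
    mN U m S ρ σ e (i, k', t') = mN U m S ρ σ e (i, k, t) +
      e / ρ i / ((1 + e / ρ i * ((U.X k : ℝ) + 1) / (σ i / 2)) * al U ρ σ e i k) := by
  have hX' : (U.X k' : ℝ) = (U.X k : ℝ) + 1 := by rw [hX]; push_cast; ring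
  have h1 : (1 + e / ρ i * ((U.X k : ℝ) + 1) / (σ i / 2)) = al U ρ σ e i k' := by
    unfold al; rw [hX']
  rw [h1]
  unfold mN
  simp only [if_pos hi]
  have h2 := hal.ne'
  have h3 := hal'.ne'
  have hρ' : ρ i ≠ 0 := hρ.ne'
  have hσ' : σ i ≠ 0 := hσ.ne'
  have h4 : e / ρ i * (U.X k' : ℝ) * al U ρ σ e i k - e / ρ i * (U.X k : ℝ) * al U ρ σ e i k' =
      e / ρ i := by
    unfold al; rw [hX']; field_simp; ring
  have h5 : e / ρ i * (U.X k' : ℝ) / al U ρ σ e i k' =
      e / ρ i * (U.X k : ℝ) / al U ρ σ e i k + e / ρ i / (al U ρ σ e i k' * al U ρ σ e i k) := by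
    rw [div_add_div _ _ h2 (mul_ne_zero h3 h2), div_eq_div_iff h3 (mul_ne_zero h2 (mul_ne_zero h3 h2))]
    linear_combination (al U ρ σ e i k' * al U ρ σ e i k) * h4
  rw [h5]
  ring

/-- The composition step. -/
lemma state_step (U : UnitArr) (B s : ℕ) (hB : 2 * U.Xm * U.J ≤ B) (hJ : U.J ≤ B)
    (H : StateOK U B s) : StateOK U B (s + 1) := by
  classical
  obtain ⟨A, _, h, rk, T, T0, Jb, ι, _, m, c, S, x0, ρ, σ, lam, HL, HC, hT, hT0, hJb, hι, hS⟩ := H
  obtain ⟨om, hom, hom0, hom1⟩ := exists_om (K := U.K) U.even HL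
  have hF1 : ∀ᶠ e in 𝓝[>] (0 : ℝ), ∀ᶠ η in 𝓝[>] (0 : ℝ), ∀ i ∈ S, ∀ j ∈ Jb, ∀ k : U.K,
      ∀ a ∈ Icc (-(U.J : ℤ)) U.J, ∀ t ∈ T0, ∀ i', i' ≠ i → i' ≠ lam i j → ∀ k' : U.K, ∀ t' ∈ T,
      sg (FN U h m c S x0 ρ σ om e η i j (t + U.X k • j) (U.ξ k + U.δ * a)
        (U.X k * (U.ξ k + U.δ * a) + U.φ k) (i', k', t')) =
        sg (m i' * (x0 i + ρ i * h j) + c i' - (m i * (x0 i + ρ i * h j) + c i)) := by
    refine ev2_finset S fun i hi => ?_
    refine ev2_finset Jb fun j hj => ?_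
    refine ev2_all fun k => ?_
    refine ev2_finset _ fun a ha => ?_
    refine ev2_finset _ fun t ht => ?_
    refine ev2_all fun i' => ?_
    refine ev2_imp fun h1 => ?_
    refine ev2_imp fun h2 => ?_
    refine ev2_all fun k' => ?_
    refine ev2_finset _ fun t' ht' => ?_
    apply FN_far U h m c S x0 ρ σ om (HC.σ_pos i hi)
    intro h0
    rcases ((HC.bal i hi j hj).zero_iff i').mp (by linarith) with h3 | h3
    · exact h1 h3
    · exact h2 h3
  have hal : ∀ᶠ e in 𝓝[>] (0 : ℝ), ∀ i ∈ S, ∀ k, 0 < al U ρ σ e i k := by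
    refine (eventually_all_finset S).mpr fun i hi => ?_
    refine eventually_all.mpr fun k => ?_
    have hσ : σ i ≠ 0 := (HC.σ_pos i hi).ne'
    have h1 : ContinuousAt (fun e : ℝ => al U ρ σ e i k) 0 := by
      unfold al; fun_prop
    have h2 : al U ρ σ 0 i k = 1 := by simp [al]
    have h3 := h1.tendsto
    rw [h2] at h3
    exact (h3.mono_left nhdsWithin_le_nhds).eventually (lt_mem_nhds one_pos)
  have hF2 : ∀ e : ℝ, 0 < e → ∀ᶠ η in 𝓝[>] (0 : ℝ), ∀ j ∈ Jb, ∀ k : U.K,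
      ∀ a ∈ Icc (-(U.J : ℤ)) U.J, ∀ t ∈ T0, ∀ k' : U.K, ∀ t' ∈ T,
      h (t' + U.X k' • j - (t + U.X k • j)) ≠ 0 →
      sg (e * h (t' + U.X k' • j - (t + U.X k • j)) + η * ((U.X k' : ℝ) * (U.ξ k + U.δ * a) +
        U.φ k' - (U.X k * (U.ξ k + U.δ * a) + U.φ k))) =
        sg (h (t' + U.X k' • j - (t + U.X k • j))) := by
    intro e he
    refine (eventually_all_finset Jb).mpr fun j hj => ?_
    refine eventually_all.mpr fun k => ?_
    refine (eventually_all_finset _).mpr fun a ha => ?_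
    refine (eventually_all_finset _).mpr fun t ht => ?_
    refine eventually_all.mpr fun k' => ?_
    refine (eventually_all_finset _).mpr fun t' ht' => ?_
    by_cases h0 : h (t' + U.X k' • j - (t + U.X k • j)) = 0
    · exact Eventually.of_forall fun η hne => absurd h0 hne
    · filter_upwards [ev_lin he h0 ((U.X k' : ℝ) * (U.ξ k + U.δ * a) +
        U.φ k' - (U.X k * (U.ξ k + U.δ * a) + U.φ k))] with η hη _ using hη
  have hF3 : ∀ e : ℝ, 0 < e → ∀ᶠ η in 𝓝[>] (0 : ℝ), ∀ i ∈ S, ∀ j ∈ Jb, ∀ k : U.K,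
      ∀ a ∈ Icc (-(U.J : ℤ)) U.J, ∀ t ∈ T0, ∀ k' : U.K, ∀ t' ∈ T,
      h ((t + U.X k • j) - t') - om k' ≠ 0 →
      sg (e * (h ((t + U.X k • j) - t') - om k') + η * ((U.X k * (U.ξ k + U.δ * a) + U.φ k) +
        σ i * (ρ i / e) * (U.ξ k + U.δ * a))) =
        sg (h ((t + U.X k • j) - t') - om k') := by
    intro e he
    refine (eventually_all_finset S).mpr fun i hi => ?_
    refine (eventually_all_finset Jb).mpr fun j hj => ?_
    refine eventually_all.mpr fun k => ?_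
    refine (eventually_all_finset _).mpr fun a ha => ?_
    refine (eventually_all_finset _).mpr fun t ht => ?_
    refine eventually_all.mpr fun k' => ?_
    refine (eventually_all_finset _).mpr fun t' ht' => ?_
    by_cases h0 : h ((t + U.X k • j) - t') - om k' = 0
    · exact Eventually.of_forall fun η hne => absurd h0 hne
    · filter_upwards [ev_lin he h0 ((U.X k * (U.ξ k + U.δ * a) + U.φ k) +
        σ i * (ρ i / e) * (U.ξ k + U.δ * a))] with η hη _ using hη
  have hlat : ∀ e : ℝ, 0 < e → ∀ᶠ η in 𝓝[>] (0 : ℝ),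
      LatOK (hNew h (η / e * U.δ)) (rkNew rk B) (T ×ˢ Icc (-(B : ℤ)) B)
      (T0 ×ˢ Icc (-((B - 2 * U.Xm * U.J : ℕ) : ℤ)) ((B - 2 * U.Xm * U.J : ℕ) : ℤ))
      (Jb ×ˢ Icc (-(U.J : ℤ)) U.J) U.Xm := by
    intro e he
    have h1 : Tendsto (fun η : ℝ => η / e * U.δ) (𝓝[>] 0) (𝓝[>] 0) := by
      rw [tendsto_nhdsWithin_iff]
      constructor
      · have : Continuous (fun η : ℝ => η / e * U.δ) := by fun_prop
        have h2 := this.tendsto 0
        simp only [zero_div, zero_mul] at h2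
        exact h2.mono_left nhdsWithin_le_nhds
      · filter_upwards [self_mem_nhdsWithin] with η hη
        have : 0 < η := hη
        have := U.δ_pos
        exact Set.mem_Ioi.mpr (by positivity)
    exact h1.eventually (lat_step HL hB hJ)
  obtain ⟨e, ⟨he1, he2⟩, he⟩ := ((hF1.and hal).and self_mem_nhdsWithin).exists
  replace he : 0 < e := he
  obtain ⟨η, ⟨⟨⟨hη1, hη2⟩, hη3⟩, hη4⟩, hη⟩ :=
    ((((he1.and (hF2 e he)).and (hF3 e he)).and (hlat e he)).and self_mem_nhdsWithin).exists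
  replace hη : 0 < η := hη
  have hmemT : ∀ t ∈ T0, ∀ j ∈ Jb, ∀ k ∈ U.S, t - j ∈ T := by
    intro t ht j hj k hk
    have h0 : |(0 : ℤ)| ≤ (U.J : ℤ) := by simp
    have h1 := U.κ_slope k hk 0 h0
    have h2 : |U.X k - U.X (U.κ k 0)| ≤ 2 * (U.Xm : ℤ) := by
      have := U.X_le k
      have := U.X_le (U.κ k 0)
      calc |U.X k - U.X (U.κ k 0)| ≤ |U.X k| + |U.X (U.κ k 0)| := abs_sub _ _
        _ ≤ 2 * (U.Xm : ℤ) := by linarith
    have h3 := HL.trans t ht j hj _ h2
    rw [h1] at h3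
    have h4 : t + (U.X k - (U.X k + 1)) • j = t - j := by
      rw [show U.X k - (U.X k + 1) = -1 by ring, neg_smul, one_smul]; abel
    rwa [h4] at h3
  refine ⟨A × ℤ, inferInstance, hNew h (η / e * U.δ), rkNew rk B, T ×ˢ Icc (-(B : ℤ)) B,
    T0 ×ˢ Icc (-((B - 2 * U.Xm * U.J : ℕ) : ℤ)) ((B - 2 * U.Xm * U.J : ℕ) : ℤ),
    Jb ×ˢ Icc (-(U.J : ℤ)) U.J, ι × U.K × {t // t ∈ T}, inferInstance,
    fun p => mN U m S ρ σ e (p.1, p.2.1, p.2.2.1),
    fun p => cN U h c S x0 ρ σ om e η (p.1, p.2.1, p.2.2.1),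
    S ×ˢ U.S ×ˢ (T.attach.filter (fun t => t.1 ∈ T0)),
    fun p => x0 p.1 + (e * h p.2.2.1 + η * U.φ p.2.1) / (σ p.1 / 2) +
      al U ρ σ e p.1 p.2.1 * (η * ρ p.1 / e * U.ξ p.2.1),
    fun p => al U ρ σ e p.1 p.2.1 * ρ p.1,
    fun p => e / ρ p.1 / ((1 + e / ρ p.1 * ((U.X p.2.1 : ℝ) + 1) / (σ p.1 / 2)) *
      al U ρ σ e p.1 p.2.1),
    fun p q => if ht : p.2.2.1 - q.1 ∈ T then (p.1, U.κ p.2.1 q.2, ⟨p.2.2.1 - q.1, ht⟩) else p,
    hη4, ?_, ?_, ?_, ?_, ?_, ?_⟩
  · constructor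
    · rintro ⟨i, k, t, ht⟩ hp
      simp only [mem_product, mem_filter, mem_attach, true_and] at hp ⊢
      exact mul_pos (he2 i hp.1 k) (HC.ρ_pos i hp.1)
    · rintro ⟨i, k, t, ht⟩ hp
      simp only [mem_product, mem_filter, mem_attach, true_and] at hp ⊢
      obtain ⟨hi, hk, ht0⟩ := hp
      have hρ := HC.ρ_pos i hi
      have h1 := U.κ_slope k hk 0 (by simp)
      have h2 := he2 i hi (U.κ k 0)
      have h3 : al U ρ σ e i (U.κ k 0) = 1 + e / ρ i * ((U.X k : ℝ) + 1) / (σ i / 2) := by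
        unfold al; rw [h1]; push_cast; ring
      rw [h3] at h2
      exact div_pos (div_pos he hρ) (mul_pos h2 (he2 i hi k))
    · rintro ⟨i, k, t, ht⟩ hp ⟨j, a⟩ hq
      simp only [mem_product, mem_filter, mem_attach, true_and, mem_Icc] at hp hq ⊢
      obtain ⟨hi, hk, ht0⟩ := hp
      obtain ⟨hj, ha⟩ := hq
      rw [dif_pos (hmemT t ht0 j hj k hk)]
      simp only [not_and]
      intro _ h2
      exact absurd h2 (U.κ_not k hk a (abs_le.mpr ha))
    · rintro ⟨i, k, t, ht⟩ hp ⟨j, a⟩ hq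
      simp only [mem_product, mem_filter, mem_attach, true_and, mem_Icc] at hp hq ⊢
      obtain ⟨hi, hk, ht0⟩ := hp
      obtain ⟨hj, ha⟩ := hq
      rw [dif_pos (hmemT t ht0 j hj k hk)]
      exact mN_slope U m S ρ σ hi (HC.ρ_pos i hi) (HC.σ_pos i hi)
        (U.κ_slope k hk a (abs_le.mpr ha)) (he2 i hi k) (he2 i hi _) _ _
    · rintro ⟨i, k, t, ht⟩ hp ⟨j, a⟩ hq
      simp only [mem_product, mem_filter, mem_attach, true_and, mem_Icc] at hp hq ⊢
      obtain ⟨hi, hk, ht0⟩ := hp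
      obtain ⟨hj, ha⟩ := hq
      have ha' : a ∈ Icc (-(U.J : ℤ)) U.J := mem_Icc.mpr ha
      rw [dif_pos (hmemT t ht0 j hj k hk)]
      rw [← xN_eq U h x0 ρ σ he (HC.ρ_pos i hi) (HC.σ_pos i hi) k j t a]
      exact local_bal U HL HC hom hom0 hom1 he hη he2 hi hj hk (abs_le.mpr ha) ht0 rfl rfl rfl
        ht (hmemT t ht0 j hj k hk)
        (fun i' h1 h2 k' t' ht' => hη1 i hi j hj k a ha' t ht0 i' h1 h2 k' t' ht')
        (fun k' t' ht' hne => hη2 j hj k a ha' t ht0 k' t' ht' hne)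
        (fun k' t' ht' hne => hη3 i hi j hj k a ha' t ht0 k' t' ht' hne)
  · rw [card_product, hT, Int.card_Icc, pow_succ]
    congr 1
    omega
  · rw [card_product, hT0, Int.card_Icc, pow_succ]
    congr 1
    omega
  · rw [card_product, hJb, Int.card_Icc, pow_succ]
    congr 1
    omega
  · rw [Fintype.card_prod, Fintype.card_prod, hι, Fintype.card_coe, hT,
      Nat.choose_succ_succ' s 1, Nat.choose_one_right, pow_add, pow_succ]
    ring
  · have h1 : (T.attach.filter (fun t => t.1 ∈ T0)).card = T0.card := by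
      rw [← Finset.card_map (Function.Embedding.subtype _)]
      congr 1
      ext t
      simp only [Finset.mem_map, mem_filter, mem_attach, true_and, Function.Embedding.subtype_apply,
        Subtype.exists, exists_and_left, exists_prop]
      constructor
      · rintro ⟨a, h1, _, rfl⟩; exact h1
      · intro h1; exact ⟨t, h1, HL.T0_sub h1, rfl⟩
    rw [card_product, card_product, h1, hS, hT0,
      Nat.choose_succ_succ' s 1, Nat.choose_one_right, pow_add, pow_succ]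
    ring

/-- Item B. -/
theorem claimComp : ClaimComp := by
  classical
  intro U B hB hJ s
  have H : StateOK U B s := by
    induction s with
    | zero => exact state_zero U B
    | succ s ih => exact state_step U B s hB hJ ih
  obtain ⟨A, _, h, rk, T, T0, Jb, ι, _, m, c, S, x0, ρ, σ, lam, HL, HC, hT, hT0, hJb, hι, hS⟩ := H
  refine ⟨ι, inferInstance, m, c, (S ×ˢ Jb).image (fun p => (p.1, lam p.1 p.2)), hι, ?_, ?_, ?_⟩
  · intro q hq
    simp only [mem_image, mem_product, Prod.exists] at hq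
    obtain ⟨i, j, ⟨hi, hj⟩, rfl⟩ := hq
    exact ⟨_, HC.bal i hi j hj⟩
  · intro q hq
    simp only [mem_image, mem_product, Prod.exists] at hq
    obtain ⟨i, j, ⟨hi, hj⟩, rfl⟩ := hq
    simp only [mem_image, mem_product, Prod.exists, Prod.mk.injEq, not_exists, not_and]
    intro i' j' hi' h1 _
    exact HC.lam_not i hi j hj (h1 ▸ hi'.1)
  · rw [card_image_of_injOn]
    · rw [card_product, hS, hJb, mul_pow]
      apply le_of_eq
      ring
    · rintro ⟨i, j⟩ hp ⟨i', j'⟩ hp' heq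
      simp only [coe_product, Set.mem_prod, mem_coe] at hp hp'
      obtain ⟨hi, hj⟩ := hp
      obtain ⟨hi', hj'⟩ := hp'
      simp only [Prod.mk.injEq] at heq
      obtain ⟨rfl, h2⟩ := heq
      by_contra hne
      have hjj : j ≠ j' := fun h => hne (by rw [h])
      have h3 := HL.h_ne (HL.Jb_sub hj) (HL.Jb_sub hj') hjj
      have h4 := ((HC.bal i hi j hj).zero_iff (lam i j)).mpr (Or.inr rfl)
      have h5 := ((HC.bal i hi j' hj').zero_iff (lam i j')).mpr (Or.inr rfl)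
      rw [← h2, HC.lam_slope i hi j hj] at h5
      rw [HC.lam_slope i hi j hj] at h4
      have hσ := HC.σ_pos i hi
      have hρ := HC.ρ_pos i hi
      apply h3
      rw [map_sub]
      have h6 : σ i * ρ i * (h j - h j') = 0 := by linear_combination h4 - h5
      rcases mul_eq_zero.mp h6 with h7 | h7
      · exact absurd h7 (mul_pos hσ hρ).ne'
      · exact h7

end Pool.Agent.Work.MP_e17eac_co.HL
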