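import Mathlib
import Pool.Agent.Work.MP_e17eac_co.Defs

/-!
Definitions for the smoothed number of `k`-edges.
-/

namespace Pool.Agent.Work.MP_e17eac_co

open MeasureTheory ProbabilityTheory
open scoped NNReal ENNReal

open Classical in
/-- Number of indices `m` with `x m` strictly to the left of the directed line from `x i` to
`x j`. -/
noncomputable def leftCount {n : ℕ} (x : Fin n → ℝ × ℝ) (i j : Fin n) : ℕ :=
  (Finset.univ.filter fun m => 0 < side (x i) (x j) (x m)).card

open Classical in
/-- Number of indices `m` with `x m` strictly to the right of the directed line from `x i` to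
`x j`. -/
noncomputable def rightCount {n : ℕ} (x : Fin n → ℝ × ℝ) (i j : Fin n) : ℕ :=
  (Finset.univ.filter fun m => side (x i) (x j) (x m) < 0).card

/-- The line through `x i` and `x j` has exactly `k` of the `n` points strictly on one side and
exactly `n - 2 - k` strictly on the other side. -/
def KPair {n : ℕ} (x : Fin n → ℝ × ℝ) (k : ℕ) (i j : Fin n) : Prop :=
  (leftCount x i j = k ∧ rightCount x i j + k + 2 = n) ∨
    (rightCount x i j = k ∧ leftCount x i j + k + 2 = n)

open Classical in
/-- The pairs `i < j` spanning a `k`-edge. -/
noncomputable def kPairs {n : ℕ} (k : ℕ) (x : Fin n → ℝ × ℝ) : Finset (Fin n × Fin n) :=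
  Finset.univ.filter fun e => e.1 < e.2 ∧ KPair x k e.1 e.2

/-- The law of a point `p` of the plane perturbed by a centred Gaussian vector with independent
coordinates of variance `v`. -/
noncomputable def gaussAt (v : ℝ≥0) (p : ℝ × ℝ) : Measure (ℝ × ℝ) :=
  (gaussianReal p.1 v).prod (gaussianReal p.2 v)

end Pool.Agent.Work.MP_e17eac_co
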