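import Mathlib
import Pool.Agent.Work.MP_e17eac_co.SmoothDefs
import Pool.Agent.Work.MP_e17eac_co.Lovasz

/-!
Directional Lovász inequality: the total coordinate length of the `k`-edges.
-/

set_option autoImplicit false

namespace Pool.Agent.Work.MP_e17eac_co

open Finset MeasureTheory

namespace SmoothLen

lemma side_neg_swap (p q r : ℝ × ℝ) : side (-q) (-p) (-r) = - side p q r := by
  unfold side
  simp only [Prod.fst_neg, Prod.snd_neg]
  ring

lemma side_swap (p q r : ℝ × ℝ) : side q p r = - side p q r := by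
  unfold side
  ring

lemma side_prod_swap (p q r : ℝ × ℝ) : side p.swap q.swap r.swap = - side p q r := by
  unfold side
  simp only [Prod.fst_swap, Prod.snd_swap]
  ring

/-- Left crossing bound. -/
lemma card_left {C : Finset (ℝ × ℝ)} {k : ℕ} (E : Finset ((ℝ × ℝ) × (ℝ × ℝ)))
    (hE : ∀ e ∈ E, IsKEdge C k e.1 e.2 ∧ e.1.1 < e.2.1) (t : ℝ) :
    (E.filter fun e => e.1.1 ≤ t ∧ t < e.2.1).card ≤ (C.filter fun p => p.1 ≤ t).card := by
  classical
  apply card_cross_le (C := C) (k := k) (Finset.filter_subset _ _)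
  · intro x hx y hy hyA
    simp only [mem_filter, not_and, not_le] at hx hyA
    left
    exact lt_of_le_of_lt hx.2 (hyA hy)
  · intro e he
    rw [mem_filter] at he
    refine ⟨(hE e he.1).1, (hE e he.1).2, ?_, ?_⟩
    · rw [mem_filter]; exact ⟨(hE e he.1).1.1, he.2.1⟩
    · rw [mem_filter, not_and, not_le]; intro _; exact he.2.2

lemma isKEdge_neg {C : Finset (ℝ × ℝ)} {k : ℕ} {p q : ℝ × ℝ} (h : IsKEdge C k p q) :
    IsKEdge (C.image Neg.neg) (C.card - 2 - k) (-q) (-p) := by
  classical
  obtain ⟨hp, hq, hne, h1, h2⟩ := h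
  have hinj : Function.Injective (Neg.neg : ℝ × ℝ → ℝ × ℝ) := neg_injective
  have hcard : (C.image (Neg.neg : ℝ × ℝ → ℝ × ℝ)).card = C.card :=
    Finset.card_image_of_injective _ hinj
  have e1 : ((C.image Neg.neg).filter fun r => 0 < side (-q) (-p) r).card =
      (C.filter fun r => side p q r < 0).card := by
    rw [Finset.filter_image, Finset.card_image_of_injective _ hinj]
    congr 1
    ext r
    simp only [mem_filter, side_neg_swap]
    constructor
    · rintro ⟨ha, hb⟩; exact ⟨ha, by linarith⟩
    · rintro ⟨ha, hb⟩; exact ⟨ha, by linarith⟩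
  have e2 : ((C.image Neg.neg).filter fun r => side (-q) (-p) r < 0).card =
      (C.filter fun r => 0 < side p q r).card := by
    rw [Finset.filter_image, Finset.card_image_of_injective _ hinj]
    congr 1
    ext r
    simp only [mem_filter, side_neg_swap]
    constructor
    · rintro ⟨ha, hb⟩; exact ⟨ha, by linarith⟩
    · rintro ⟨ha, hb⟩; exact ⟨ha, by linarith⟩
  refine ⟨Finset.mem_image_of_mem _ hq, Finset.mem_image_of_mem _ hp, ?_, ?_, ?_⟩
  · intro hh
    exact hne (neg_injective hh).symm
  · rw [e1]; omega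
  · rw [e2, hcard]; omega

/-- Right crossing bound. -/
lemma card_right {C : Finset (ℝ × ℝ)} {k : ℕ} (E : Finset ((ℝ × ℝ) × (ℝ × ℝ)))
    (hE : ∀ e ∈ E, IsKEdge C k e.1 e.2 ∧ e.1.1 < e.2.1) (t : ℝ) :
    (E.filter fun e => e.1.1 ≤ t ∧ t < e.2.1).card ≤ (C.filter fun p => t < p.1).card := by
  classical
  have hinj : Function.Injective (Neg.neg : ℝ × ℝ → ℝ × ℝ) := neg_injective
  set φ : (ℝ × ℝ) × (ℝ × ℝ) → (ℝ × ℝ) × (ℝ × ℝ) := fun e => (-e.2, -e.1) with hφ
  have hφinj : Function.Injective φ := by
    intro e e' h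
    simp only [hφ, Prod.mk.injEq, neg_inj] at h
    exact Prod.ext h.2 h.1
  have h1 : ((E.filter fun e => e.1.1 ≤ t ∧ t < e.2.1).image φ).card ≤
      ((C.filter fun p => t < p.1).image Neg.neg).card := by
    apply card_cross_le (C := C.image Neg.neg) (k := C.card - 2 - k)
    · exact Finset.image_subset_image (Finset.filter_subset _ _)
    · intro x hx y hy hyA
      rw [mem_image] at hx hy
      obtain ⟨x', hx', rfl⟩ := hx
      obtain ⟨y', hy', rfl⟩ := hy
      rw [mem_filter] at hx'
      left
      have : ¬ t < y'.1 := by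
        intro hh
        apply hyA
        exact Finset.mem_image_of_mem _ (by rw [mem_filter]; exact ⟨hy', hh⟩)
      simp only [Prod.fst_neg]
      push Not at this
      linarith [hx'.2]
    · intro e he
      rw [mem_image] at he
      obtain ⟨e', he', rfl⟩ := he
      rw [mem_filter] at he'
      refine ⟨isKEdge_neg (hE e' he'.1).1, ?_, ?_, ?_⟩
      · simp only [hφ, Prod.fst_neg]
        linarith [(hE e' he'.1).2]
      · apply Finset.mem_image_of_mem
        rw [mem_filter]
        exact ⟨(hE e' he'.1).1.2.1, he'.2.2⟩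
      · intro hh
        rw [mem_image] at hh
        obtain ⟨z, hz, hz'⟩ := hh
        rw [mem_filter] at hz
        have : z = e'.1 := neg_injective hz'
        rw [this] at hz
        linarith [hz.2, he'.2.1]
  rwa [Finset.card_image_of_injective _ hφinj, Finset.card_image_of_injective _ hinj] at h1

/-- The length of the interval `[a, b)` as an integral. -/
lemma integral_ind (a b : ℝ) (h : a ≤ b) :
    ∫ t : ℝ, (Set.Ico a b).indicator (fun _ => (1 : ℝ)) t = b - a := by
  rw [integral_indicator measurableSet_Ico]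
  simp [h]

lemma integrable_ind (a b : ℝ) :
    Integrable (fun t : ℝ => (Set.Ico a b).indicator (fun _ => (1 : ℝ)) t) := by
  rw [integrable_indicator_iff measurableSet_Ico]
  simp

/-- The directional Lovász inequality for right-directed `k`-edges. -/
lemma sum_right_le {C : Finset (ℝ × ℝ)} {k : ℕ} (E : Finset ((ℝ × ℝ) × (ℝ × ℝ)))
    (hE : ∀ e ∈ E, IsKEdge C k e.1 e.2 ∧ e.1.1 < e.2.1) (c : ℝ) :
    ∑ e ∈ E, (e.2.1 - e.1.1) ≤ ∑ p ∈ C, |p.1 - c| := by
  classical
  have h1 : ∀ e ∈ E, e.2.1 - e.1.1 =
      ∫ t : ℝ, (Set.Ico e.1.1 e.2.1).indicator (fun _ => (1 : ℝ)) t := by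
    intro e he
    rw [integral_ind _ _ (hE e he).2.le]
  have h2 : ∀ p ∈ C, |p.1 - c| =
      ∫ t : ℝ, ((Set.Ico p.1 c).indicator (fun _ => (1 : ℝ)) t +
        (Set.Ico c p.1).indicator (fun _ => (1 : ℝ)) t) := by
    intro p _
    rw [integral_add (integrable_ind _ _) (integrable_ind _ _)]
    rcases le_total p.1 c with h | h
    · rw [integral_ind _ _ h, Set.Ico_eq_empty (not_lt.mpr h)]
      rw [abs_of_nonpos (by linarith)]
      simp
    · rw [integral_ind _ _ h, Set.Ico_eq_empty (not_lt.mpr h)]
      rw [abs_of_nonneg (by linarith)]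
      simp
  rw [Finset.sum_congr rfl h1, Finset.sum_congr rfl h2]
  have hint : ∀ p ∈ C, Integrable (fun t : ℝ => (Set.Ico p.1 c).indicator (fun _ => (1 : ℝ)) t +
      (Set.Ico c p.1).indicator (fun _ => (1 : ℝ)) t) :=
    fun p _ => (integrable_ind _ _).add (integrable_ind _ _)
  rw [← integral_finsetSum _ (fun e _ => integrable_ind _ _), ← integral_finsetSum _ hint]
  apply integral_mono
  · exact integrable_finsetSum _ (fun e _ => integrable_ind _ _)
  · exact integrable_finsetSum _ hint
  · intro t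
    show ∑ e ∈ E, (Set.Ico e.1.1 e.2.1).indicator (fun _ => (1 : ℝ)) t ≤
      ∑ p ∈ C, ((Set.Ico p.1 c).indicator (fun _ => (1 : ℝ)) t +
        (Set.Ico c p.1).indicator (fun _ => (1 : ℝ)) t)
    have e1 : ∑ e ∈ E, (Set.Ico e.1.1 e.2.1).indicator (fun _ => (1 : ℝ)) t =
        ((E.filter fun e => e.1.1 ≤ t ∧ t < e.2.1).card : ℝ) := by
      rw [Finset.card_filter]
      push_cast
      apply Finset.sum_congr rfl
      intro e _
      rw [Set.indicator_apply]
      simp [Set.mem_Ico]
    rw [e1]
    rcases lt_or_ge t c with h | h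
    · have e2 : ∑ p ∈ C, ((Set.Ico p.1 c).indicator (fun _ => (1 : ℝ)) t +
          (Set.Ico c p.1).indicator (fun _ => (1 : ℝ)) t) =
          ((C.filter fun p => p.1 ≤ t).card : ℝ) := by
        rw [Finset.card_filter]
        push_cast
        apply Finset.sum_congr rfl
        intro p _
        rw [Set.indicator_apply, Set.indicator_apply]
        simp [Set.mem_Ico, h, not_le.mpr h]
      rw [e2]
      exact_mod_cast card_left E hE t
    · have e2 : ∑ p ∈ C, ((Set.Ico p.1 c).indicator (fun _ => (1 : ℝ)) t +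
          (Set.Ico c p.1).indicator (fun _ => (1 : ℝ)) t) =
          ((C.filter fun p => t < p.1).card : ℝ) := by
        rw [Finset.card_filter]
        push_cast
        apply Finset.sum_congr rfl
        intro p _
        rw [Set.indicator_apply, Set.indicator_apply]
        simp [Set.mem_Ico, h, not_lt.mpr h]
      rw [e2]
      exact_mod_cast card_right E hE t

lemma card_filter_image {n : ℕ} {x : Fin n → ℝ × ℝ} (hx : Function.Injective x)
    (P : ℝ × ℝ → Prop) [DecidablePred P] [DecidablePred fun m => P (x m)] :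
    ((Finset.univ.image x).filter P).card = (Finset.univ.filter fun m => P (x m)).card := by
  rw [Finset.filter_image, Finset.card_image_of_injective _ hx]
  congr 1
  ext m
  simp

lemma isKEdge_of_counts {n : ℕ} {x : Fin n → ℝ × ℝ} (hx : Function.Injective x) {i j : Fin n}
    (hij : i ≠ j) {k : ℕ} (h1 : leftCount x i j = k) (h2 : rightCount x i j + k + 2 = n) :
    IsKEdge (Finset.univ.image x) k (x i) (x j) := by
  classical
  refine ⟨Finset.mem_image_of_mem _ (Finset.mem_univ _),
    Finset.mem_image_of_mem _ (Finset.mem_univ _), fun h => hij (hx h), ?_, ?_⟩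
  · rw [← h1, leftCount, card_filter_image hx]
  · rw [Finset.card_image_of_injective _ hx, Finset.card_univ, Fintype.card_fin,
      card_filter_image hx]
    exact h2

lemma leftCount_swap {n : ℕ} (x : Fin n → ℝ × ℝ) (i j : Fin n) :
    leftCount x j i = rightCount x i j := by
  classical
  unfold leftCount rightCount
  congr 1
  ext m
  simp only [mem_filter, mem_univ, true_and]
  rw [side_swap]
  constructor <;> intro h <;> linarith

lemma rightCount_swap {n : ℕ} (x : Fin n → ℝ × ℝ) (i j : Fin n) :
    rightCount x j i = leftCount x i j := (leftCount_swap x j i).symm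

/-- A pair spanning a `k`-edge is an oriented `k`-edge or `(n-2-k)`-edge. -/
lemma isKEdge_of_kPair {n : ℕ} {x : Fin n → ℝ × ℝ} (hx : Function.Injective x) {i j : Fin n}
    (hij : i ≠ j) {k : ℕ} (h : KPair x k i j) :
    IsKEdge (Finset.univ.image x) k (x i) (x j) ∨
      IsKEdge (Finset.univ.image x) (n - 2 - k) (x i) (x j) := by
  rcases h with ⟨h1, h2⟩ | ⟨h1, h2⟩
  · left; exact isKEdge_of_counts hx hij h1 h2
  · right
    apply isKEdge_of_counts hx hij
    · omega
    · omega

lemma kPair_symm {n : ℕ} {x : Fin n → ℝ × ℝ} {i j : Fin n} {k : ℕ} (h : KPair x k i j) :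
    KPair x k j i := by
  unfold KPair at *
  rw [leftCount_swap x i j, rightCount_swap x i j]
  exact h.symm

/-- First coordinates. -/
lemma sum_fst_le {n : ℕ} (k : ℕ) (x : Fin n → ℝ × ℝ) (hx : Function.Injective x) (c : ℝ) :
    ∑ e ∈ kPairs k x, |(x e.1).1 - (x e.2).1| ≤ 2 * ∑ i, |(x i).1 - c| := by
  classical
  set C : Finset (ℝ × ℝ) := Finset.univ.image x with hC
  set φ : Fin n × Fin n → (ℝ × ℝ) × (ℝ × ℝ) := fun e =>
    if (x e.1).1 < (x e.2).1 then (x e.1, x e.2) else (x e.2, x e.1) with hφ
  set K := (kPairs k x).filter fun e => (x e.1).1 ≠ (x e.2).1 with hK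
  have hsum : ∑ e ∈ kPairs k x, |(x e.1).1 - (x e.2).1| = ∑ e ∈ K, |(x e.1).1 - (x e.2).1| := by
    rw [hK, Finset.sum_filter]
    apply Finset.sum_congr rfl
    intro e _
    split_ifs with h
    · rfl
    · push Not at h
      rw [h]; simp
  have hmem : ∀ e ∈ K, e.1 < e.2 ∧ KPair x k e.1 e.2 ∧ (x e.1).1 ≠ (x e.2).1 := by
    intro e he
    rw [hK, mem_filter, kPairs, mem_filter] at he
    exact ⟨he.1.2.1, he.1.2.2, he.2⟩
  have hφinj : Set.InjOn φ (K : Set (Fin n × Fin n)) := by
    intro e he e' he' heq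
    have h1 := hmem e he
    have h2 := hmem e' he'
    simp only [hφ] at heq
    split_ifs at heq with ha hb hb
    · simp only [Prod.mk.injEq] at heq
      exact Prod.ext (hx heq.1) (hx heq.2)
    · simp only [Prod.mk.injEq] at heq
      have h3 := hx heq.1
      have h4 := hx heq.2
      have := h1.1
      rw [h3, h4] at this
      exact absurd this (lt_asymm h2.1)
    · simp only [Prod.mk.injEq] at heq
      have h3 := hx heq.1
      have h4 := hx heq.2
      have := h1.1
      rw [h3, h4] at this
      exact absurd this (lt_asymm h2.1)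
    · simp only [Prod.mk.injEq] at heq
      exact Prod.ext (hx heq.2) (hx heq.1)
  have hsum2 : ∑ e ∈ K, |(x e.1).1 - (x e.2).1| = ∑ e ∈ K.image φ, (e.2.1 - e.1.1) := by
    rw [Finset.sum_image (fun a ha b hb h => hφinj ha hb h)]
    apply Finset.sum_congr rfl
    intro e he
    simp only [hφ]
    split_ifs with h
    · simp only
      rw [abs_of_neg (by linarith)]
      ring
    · simp only
      rw [abs_of_nonneg (by push Not at h; linarith)]
  have hprop : ∀ e ∈ K.image φ, (IsKEdge C k e.1 e.2 ∨ IsKEdge C (n - 2 - k) e.1 e.2) ∧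
      e.1.1 < e.2.1 := by
    intro e he
    rw [mem_image] at he
    obtain ⟨e', he', rfl⟩ := he
    obtain ⟨h1, h2, h3⟩ := hmem e' he'
    simp only [hφ]
    split_ifs with h
    · exact ⟨isKEdge_of_kPair hx h1.ne h2, h⟩
    · refine ⟨isKEdge_of_kPair hx h1.ne' (kPair_symm h2), ?_⟩
      exact lt_of_le_of_ne (not_lt.mp h) (Ne.symm h3)
  have hC2 : ∑ p ∈ C, |p.1 - c| = ∑ i, |(x i).1 - c| := by
    rw [hC, Finset.sum_image (fun a _ b _ h => hx h)]
  have hb1 := sum_right_le ((K.image φ).filter fun e => IsKEdge C k e.1 e.2) (C := C) (k := k)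
    (fun e he => by
      rw [mem_filter] at he
      exact ⟨he.2, (hprop e he.1).2⟩) c
  have hb2 := sum_right_le ((K.image φ).filter fun e => ¬ IsKEdge C k e.1 e.2) (C := C)
    (k := n - 2 - k)
    (fun e he => by
      rw [mem_filter] at he
      refine ⟨?_, (hprop e he.1).2⟩
      rcases (hprop e he.1).1 with h | h
      · exact absurd h he.2
      · exact h) c
  rw [hsum, hsum2, ← Finset.sum_filter_add_sum_filter_not (K.image φ)
    (fun e => IsKEdge C k e.1 e.2)]
  rw [hC2] at hb1 hb2
  linarith

lemma kPairs_swap {n : ℕ} (k : ℕ) (x : Fin n → ℝ × ℝ) :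
    kPairs k (fun i => (x i).swap) = kPairs k x := by
  classical
  have hl : ∀ i j, leftCount (fun i => (x i).swap) i j = rightCount x i j := by
    intro i j
    unfold leftCount rightCount
    congr 1
    ext m
    simp only [mem_filter, mem_univ, true_and, side_prod_swap]
    constructor <;> intro h <;> linarith
  have hr : ∀ i j, rightCount (fun i => (x i).swap) i j = leftCount x i j := by
    intro i j
    unfold leftCount rightCount
    congr 1
    ext m
    simp only [mem_filter, mem_univ, true_and, side_prod_swap]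
    constructor <;> intro h <;> linarith
  unfold kPairs
  apply Finset.filter_congr
  intro e _
  simp only [KPair, hl, hr]
  constructor
  · rintro ⟨h1, h2⟩; exact ⟨h1, h2.symm⟩
  · rintro ⟨h1, h2⟩; exact ⟨h1, h2.symm⟩

end SmoothLen

/-- Directional Lovász inequality, summed over the two coordinates. -/
theorem sum_len_le {n : ℕ} (k : ℕ) (x : Fin n → ℝ × ℝ) (hx : Function.Injective x) (c : ℝ × ℝ) :
    ∑ e ∈ kPairs k x, (|(x e.1).1 - (x e.2).1| + |(x e.1).2 - (x e.2).2|) ≤
      2 * ∑ i, (|(x i).1 - c.1| + |(x i).2 - c.2|) := by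
  have h1 := SmoothLen.sum_fst_le k x hx c.1
  have h2 := SmoothLen.sum_fst_le k (fun i => (x i).swap)
    (fun a b h => hx (Prod.swap_injective h)) c.2
  rw [SmoothLen.kPairs_swap] at h2
  simp only [Prod.fst_swap] at h2
  rw [Finset.sum_add_distrib, Finset.sum_add_distrib]
  linarith

end Pool.Agent.Work.MP_e17eac_co
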