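import Mathlib
import Pool.Agent.Work.MP_e17eac_co.SmoothDefs

/-!
Direction of a random point with bounded strip probabilities, seen from a fixed point.
-/

namespace Pool.Agent.Work.MP_e17eac_co

open MeasureTheory Set
open scoped NNReal ENNReal

/-- `μ` gives mass at most `M w` to every strip of width `w`. -/
def StripBound (M : ℝ) (μ : Measure (ℝ × ℝ)) : Prop :=
  ∀ u : ℝ × ℝ, u.1 ^ 2 + u.2 ^ 2 = 1 → ∀ a w : ℝ, 0 ≤ w →
    μ {x | a ≤ u.1 * x.1 + u.2 * x.2 ∧ u.1 * x.1 + u.2 * x.2 ≤ a + w} ≤ ENNReal.ofReal (M * w)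

namespace Strip

/-- A measure on the line that is at most `C` times the length on half open intervals is at most
`C` times Lebesgue measure. -/
lemma measure_le_of_Ioc (ν : Measure ℝ) (C : ℝ≥0)
    (h : ∀ a b : ℝ, a ≤ b → ν (Ioc a b) ≤ C * ENNReal.ofReal (b - a)) :
    ν ≤ C • (volume : Measure ℝ) := by
  have h1 : C • (volume : Measure ℝ) = (C • StieltjesFunction.id).measure := by
    rw [StieltjesFunction.measure_smul, Real.volume_eq_stieltjes_id]
  rw [h1]
  rw [Measure.le_iff']
  intro s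
  have h2 : ν.toOuterMeasure ≤ (C • StieltjesFunction.id).outer := by
    unfold StieltjesFunction.outer
    rw [OuterMeasure.le_ofFunction]
    intro s
    rw [StieltjesFunction.length_eq]
    refine le_iInf fun a => le_iInf fun b => le_iInf fun hs => ?_
    have hs' : s ⊆ Ioc a b := by
      intro x hx
      apply hs
      refine ⟨hx, ?_⟩
      intro hbot
      have := hbot (x - 1)
      linarith
    have hval : (C • StieltjesFunction.id : StieltjesFunction ℝ) b -
        (C • StieltjesFunction.id : StieltjesFunction ℝ) a = (C : ℝ) * (b - a) := by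
      show (C : ℝ) * b - (C : ℝ) * a = _
      ring
    rw [hval]
    rcases le_or_gt a b with hab | hab
    · calc ν.toOuterMeasure s ≤ ν.toOuterMeasure (Ioc a b) := measure_mono hs'
        _ = ν (Ioc a b) := rfl
        _ ≤ C * ENNReal.ofReal (b - a) := h a b hab
        _ = ENNReal.ofReal ((C : ℝ) * (b - a)) := by
          rw [ENNReal.ofReal_mul C.coe_nonneg, ENNReal.ofReal_coe_nnreal]
    · have : s = ∅ := by
        apply Set.subset_empty_iff.mp
        rw [Ioc_eq_empty (not_lt.mpr hab.le)] at hs'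
        exact hs'
      rw [this]
      simp
  have h3 : (C • StieltjesFunction.id).measure s = (C • StieltjesFunction.id).outer s := by
    rw [StieltjesFunction.measure]
    rfl
  rw [h3]
  exact h2 s

/-- The direction in `(-π/2, π/2)` of the line through `b` and `a`. -/
noncomputable def dir (b a : ℝ × ℝ) : ℝ := Real.arctan ((a.2 - b.2) / (a.1 - b.1))

lemma measurable_dir (b : ℝ × ℝ) : Measurable (dir b) := by
  unfold dir
  apply Real.measurable_arctan.comp
  fun_prop

/-- `a - b` is a multiple of the unit vector in its direction. -/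
lemma dir_spec (b a : ℝ × ℝ) (h : a.1 ≠ b.1) :
    ∃ ρ : ℝ, ρ ≠ 0 ∧ a.1 - b.1 = ρ * Real.cos (dir b a) ∧ a.2 - b.2 = ρ * Real.sin (dir b a) ∧
      ρ ^ 2 = (a.1 - b.1) ^ 2 + (a.2 - b.2) ^ 2 := by
  have h1 : a.1 - b.1 ≠ 0 := sub_ne_zero.mpr h
  have hc : 0 < Real.cos (dir b a) := Real.cos_arctan_pos _
  have ht : Real.tan (dir b a) = (a.2 - b.2) / (a.1 - b.1) := Real.tan_arctan _
  have hs : Real.sin (dir b a) = (a.2 - b.2) / (a.1 - b.1) * Real.cos (dir b a) := by
    rw [← ht, Real.tan_mul_cos hc.ne']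
  refine ⟨(a.1 - b.1) / Real.cos (dir b a), div_ne_zero h1 hc.ne', ?_, ?_, ?_⟩
  · field_simp
  · rw [hs]
    field_simp
  · have h2 := Real.sin_sq_add_cos_sq (dir b a)
    rw [hs] at h2
    have h3 : ((a.1 - b.1) / Real.cos (dir b a)) ^ 2 * Real.cos (dir b a) ^ 2 =
        (a.1 - b.1) ^ 2 := by
      field_simp
    have h4 : Real.cos (dir b a) ^ 2 * ((a.1 - b.1) ^ 2 + (a.2 - b.2) ^ 2) = (a.1 - b.1) ^ 2 := by
      have h5 : ((a.2 - b.2) / (a.1 - b.1) * Real.cos (dir b a)) ^ 2 * (a.1 - b.1) ^ 2 =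
          (a.2 - b.2) ^ 2 * Real.cos (dir b a) ^ 2 := by
        field_simp
      nlinarith [h2, h5]
    have hc2 : Real.cos (dir b a) ^ 2 ≠ 0 := by positivity
    apply mul_right_cancel₀ hc2
    rw [h3, mul_comm, h4]

/-- Vertical lines are null sets. -/
lemma vertical_null {M : ℝ} {μ : Measure (ℝ × ℝ)} (hμ : StripBound M μ) (t : ℝ) :
    μ {a | a.1 = t} = 0 := by
  have h := hμ (1, 0) (by norm_num) t 0 le_rfl
  rw [mul_zero, ENNReal.ofReal_zero, nonpos_iff_eq_zero] at h
  rw [← h]
  congr 1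
  ext x
  simp only [mem_ofPred_eq]
  constructor
  · intro hx
    constructor <;> linarith
  · intro hx
    linarith [hx.1, hx.2]

/-- The direction law of a point close to `b` has density at most `M * lam`. -/
lemma lintegral_dir_le {M lam : ℝ} (hM : 0 ≤ M) (hlam : 0 ≤ lam) {μ : Measure (ℝ × ℝ)}
    (hμ : StripBound M μ) (b : ℝ × ℝ) (F : ℝ → ℝ≥0∞) (hF : Measurable F) :
    ∫⁻ a in {a : ℝ × ℝ | a.1 ≠ b.1 ∧ (a.1 - b.1) ^ 2 + (a.2 - b.2) ^ 2 ≤ lam ^ 2}, F (dir b a) ∂μ ≤
      ENNReal.ofReal (M * lam) * ∫⁻ t in Ioo (-(Real.pi / 2)) (Real.pi / 2), F t := by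
  set S : Set (ℝ × ℝ) := {a : ℝ × ℝ | a.1 ≠ b.1 ∧ (a.1 - b.1) ^ 2 + (a.2 - b.2) ^ 2 ≤ lam ^ 2}
    with hS
  have hSm : MeasurableSet S := by
    have h1 : MeasurableSet {a : ℝ × ℝ | a.1 ≠ b.1} :=
      (measurableSet_eq_fun measurable_fst measurable_const).compl
    have h2 : MeasurableSet {a : ℝ × ℝ | (a.1 - b.1) ^ 2 + (a.2 - b.2) ^ 2 ≤ lam ^ 2} :=
      measurableSet_le (by fun_prop) measurable_const
    exact h1.inter h2
  set ν : Measure ℝ := (μ.restrict S).map (dir b) with hν
  set C : ℝ≥0 := Real.toNNReal (M * lam) with hC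
  have hCr : (C : ℝ≥0∞) = ENNReal.ofReal (M * lam) := rfl
  have hνle : ν ≤ C • (volume : Measure ℝ) := by
    apply measure_le_of_Ioc
    intro α β hαβ
    rw [hν, Measure.map_apply (measurable_dir b) measurableSet_Ioc,
      Measure.restrict_apply ((measurable_dir b) measurableSet_Ioc)]
    set m := (α + β) / 2 with hm
    have hsub : dir b ⁻¹' Ioc α β ∩ S ⊆ {x : ℝ × ℝ |
        (-Real.sin m * b.1 + Real.cos m * b.2 - lam * (β - α) / 2) ≤
          (-Real.sin m) * x.1 + Real.cos m * x.2 ∧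
        (-Real.sin m) * x.1 + Real.cos m * x.2 ≤
          (-Real.sin m * b.1 + Real.cos m * b.2 - lam * (β - α) / 2) + lam * (β - α)} := by
      rintro x ⟨hx1, hx2, hx3⟩
      obtain ⟨ρ, hρ0, e1, e2, e3⟩ := dir_spec b x hx2
      have hd1 : α < dir b x := hx1.1
      have hd2 : dir b x ≤ β := hx1.2
      have key : (-Real.sin m) * x.1 + Real.cos m * x.2 -
          (-Real.sin m * b.1 + Real.cos m * b.2) = ρ * Real.sin (dir b x - m) := by
        rw [Real.sin_sub]
        have : (-Real.sin m) * x.1 + Real.cos m * x.2 -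
          (-Real.sin m * b.1 + Real.cos m * b.2) = -Real.sin m * (x.1 - b.1) +
            Real.cos m * (x.2 - b.2) := by ring
        rw [this, e1, e2]
        ring
      have habs : |ρ * Real.sin (dir b x - m)| ≤ lam * (β - α) / 2 := by
        rw [abs_mul]
        have h1 : |ρ| ≤ lam := by
          apply abs_le_of_sq_le_sq _ hlam
          rw [e3]
          exact hx3
        have h2 : |Real.sin (dir b x - m)| ≤ (β - α) / 2 := by
          refine (Real.abs_sin_le_abs).trans ?_
          rw [abs_le]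
          constructor <;> rw [hm] <;> linarith
        calc |ρ| * |Real.sin (dir b x - m)| ≤ lam * ((β - α) / 2) :=
              mul_le_mul h1 h2 (abs_nonneg _) hlam
          _ = lam * (β - α) / 2 := by ring
      rw [← key, abs_le] at habs
      constructor <;> linarith [habs.1, habs.2]
    calc μ (dir b ⁻¹' Ioc α β ∩ S) ≤ _ := measure_mono hsub
      _ ≤ ENNReal.ofReal (M * (lam * (β - α))) :=
          hμ (-Real.sin m, Real.cos m) (by
            show (-Real.sin m) ^ 2 + Real.cos m ^ 2 = 1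
            rw [neg_sq]
            exact Real.sin_sq_add_cos_sq m) _ _ (mul_nonneg hlam (by linarith))
      _ = C * ENNReal.ofReal (β - α) := by
          rw [hCr, ← ENNReal.ofReal_mul (mul_nonneg hM hlam)]
          congr 1
          ring
  have hνI : ν (Ioo (-(Real.pi / 2)) (Real.pi / 2))ᶜ = 0 := by
    rw [hν, Measure.map_apply (measurable_dir b) measurableSet_Ioo.compl]
    have : dir b ⁻¹' (Ioo (-(Real.pi / 2)) (Real.pi / 2))ᶜ = ∅ := by
      ext x
      simp only [mem_preimage, mem_compl_iff, mem_Ioo, not_and, not_lt, mem_empty_iff_false,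
        iff_false, not_forall, not_le]
      exact ⟨Real.neg_pi_div_two_lt_arctan _, Real.arctan_lt_pi_div_two _⟩
    rw [this]
    simp
  have h1 : ∫⁻ a in S, F (dir b a) ∂μ = ∫⁻ t, F t ∂ν := by
    rw [hν, lintegral_map hF (measurable_dir b)]
  have h2 : ∫⁻ t, F t ∂ν = ∫⁻ t in Ioo (-(Real.pi / 2)) (Real.pi / 2), F t ∂ν := by
    rw [← lintegral_add_compl F (measurableSet_Ioo (a := -(Real.pi / 2)) (b := Real.pi / 2))
      (μ := ν)]
    have : ∫⁻ t in (Ioo (-(Real.pi / 2)) (Real.pi / 2))ᶜ, F t ∂ν = 0 :=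
      setLIntegral_measure_zero _ _ hνI
    rw [this, add_zero]
  rw [h1, h2]
  calc ∫⁻ t in Ioo (-(Real.pi / 2)) (Real.pi / 2), F t ∂ν ≤
      ∫⁻ t in Ioo (-(Real.pi / 2)) (Real.pi / 2), F t ∂(C • (volume : Measure ℝ)) :=
        lintegral_mono' (Measure.restrict_mono le_rfl hνle) le_rfl
    _ = ENNReal.ofReal (M * lam) * ∫⁻ t in Ioo (-(Real.pi / 2)) (Real.pi / 2), F t := by
        rw [Measure.restrict_smul, lintegral_smul_measure]
        rfl

end Strip

end Pool.Agent.Work.MP_e17eac_co
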