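import Mathlib
import Pool.Agent.Work.MP_e17eac_co.SmoothLen
import Pool.Agent.Work.MP_e17eac_co.StripPolar

/-!
The expected number of `k`-edges of independent random points with bounded strip probabilities.
-/

namespace Pool.Agent.Work.MP_e17eac_co

open MeasureTheory Set
open scoped NNReal ENNReal

namespace Strip

variable {n : ℕ}

/-- Signed distance of `p` to the line through the origin with direction `t`. -/
noncomputable def proj (t : ℝ) (p : ℝ × ℝ) : ℝ := Real.cos t * p.2 - Real.sin t * p.1

open Classical in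
/-- Number of indices other than `i` with value greater than that of `j`. -/
noncomputable def upN (h : Fin n → ℝ) (i j : Fin n) : ℕ :=
  (Finset.univ.filter fun m => m ≠ i ∧ h j < h m).card

open Classical in
/-- Number of indices other than `i` with value smaller than that of `j`. -/
noncomputable def downN (h : Fin n → ℝ) (i j : Fin n) : ℕ :=
  (Finset.univ.filter fun m => m ≠ i ∧ h m < h j).card

/-- The value of `j` has rank `k` from above or from below among the indices other than `i`. -/
def Rank (h : Fin n → ℝ) (k : ℕ) (i j : Fin n) : Prop :=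
  (upN h i j = k ∧ downN h i j + k + 2 = n) ∨ (downN h i j = k ∧ upN h i j + k + 2 = n)

lemma unique_up (h : Fin n → ℝ) {i j j' : Fin n} (hj : j ≠ i) (hj' : j' ≠ i) {k : ℕ}
    (h1 : upN h i j = k) (h2 : downN h i j + k + 2 = n)
    (h3 : upN h i j' = k) (h4 : downN h i j' + k + 2 = n) : j = j' := by
  classical
  by_contra hne
  have strict : ∀ a b : Fin n, b ≠ i → h a < h b → upN h i b < upN h i a := by
    intro a b hb hab
    unfold upN
    apply Finset.card_lt_card
    rw [Finset.ssubset_iff_of_subset]
    · refine ⟨b, ?_, ?_⟩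
      · simp [hb, hab]
      · simp
    · intro m hm
      simp only [Finset.mem_filter, Finset.mem_univ, true_and] at hm ⊢
      exact ⟨hm.1, hab.trans hm.2⟩
  rcases lt_trichotomy (h j) (h j') with hlt | heq | hgt
  · have := strict j j' hj' hlt
    omega
  · have hdisj : (Finset.univ.filter fun m => m ≠ i ∧ h j < h m).card +
        (Finset.univ.filter fun m => m ≠ i ∧ h m < h j).card +
        ({i, j, j'} : Finset (Fin n)).card ≤ n := by
      have hd1 : Disjoint (Finset.univ.filter fun m => m ≠ i ∧ h j < h m)
          (Finset.univ.filter fun m => m ≠ i ∧ h m < h j) := by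
        rw [Finset.disjoint_left]
        intro m hm hm'
        simp only [Finset.mem_filter, Finset.mem_univ, true_and] at hm hm'
        linarith [hm.2, hm'.2]
      have hd2 : Disjoint ((Finset.univ.filter fun m => m ≠ i ∧ h j < h m) ∪
          (Finset.univ.filter fun m => m ≠ i ∧ h m < h j)) ({i, j, j'} : Finset (Fin n)) := by
        rw [Finset.disjoint_left]
        intro m hm hm'
        simp only [Finset.mem_union, Finset.mem_filter, Finset.mem_univ, true_and] at hm
        simp only [Finset.mem_insert, Finset.mem_singleton] at hm'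
        rcases hm' with rfl | rfl | rfl
        · rcases hm with hm | hm <;> exact hm.1 rfl
        · rcases hm with hm | hm <;> exact lt_irrefl _ hm.2
        · rcases hm with hm | hm
          · linarith [hm.2]
          · linarith [hm.2]
      rw [← Finset.card_union_of_disjoint hd1, ← Finset.card_union_of_disjoint hd2]
      calc _ ≤ (Finset.univ : Finset (Fin n)).card := Finset.card_le_univ _
        _ = n := by simp
    have hc : ({i, j, j'} : Finset (Fin n)).card = 3 := by
      rw [Finset.card_eq_three]
      exact ⟨i, j, j', hj.symm, hj'.symm, hne, rfl⟩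
    unfold upN at h1
    unfold downN at h2
    omega
  · have := strict j' j hj hgt
    omega

lemma upN_neg (h : Fin n → ℝ) (i j : Fin n) : upN (fun m => - h m) i j = downN h i j := by
  unfold upN downN
  simp only [neg_lt_neg_iff]

lemma downN_neg (h : Fin n → ℝ) (i j : Fin n) : downN (fun m => - h m) i j = upN h i j := by
  unfold upN downN
  simp only [neg_lt_neg_iff]

open Classical in
lemma card_rank_le (h : Fin n → ℝ) (k : ℕ) (i : Fin n) :
    (Finset.univ.filter fun j => j ≠ i ∧ Rank h k i j).card ≤ 2 := by
  have hsub : (Finset.univ.filter fun j => j ≠ i ∧ Rank h k i j) ⊆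
      (Finset.univ.filter fun j => j ≠ i ∧ (upN h i j = k ∧ downN h i j + k + 2 = n)) ∪
      (Finset.univ.filter fun j => j ≠ i ∧ (downN h i j = k ∧ upN h i j + k + 2 = n)) := by
    intro j hj
    rw [Finset.mem_filter] at hj
    obtain ⟨-, hji, hr⟩ := hj
    rw [Finset.mem_union, Finset.mem_filter, Finset.mem_filter]
    rcases hr with hr | hr
    · exact Or.inl ⟨Finset.mem_univ _, hji, hr⟩
    · exact Or.inr ⟨Finset.mem_univ _, hji, hr⟩
  have c1 : (Finset.univ.filter fun j => j ≠ i ∧
      (upN h i j = k ∧ downN h i j + k + 2 = n)).card ≤ 1 := by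
    rw [Finset.card_le_one]
    intro a ha b hb
    simp only [Finset.mem_filter, Finset.mem_univ, true_and] at ha hb
    exact unique_up h ha.1 hb.1 ha.2.1 ha.2.2 hb.2.1 hb.2.2
  have c2 : (Finset.univ.filter fun j => j ≠ i ∧
      (downN h i j = k ∧ upN h i j + k + 2 = n)).card ≤ 1 := by
    rw [Finset.card_le_one]
    intro a ha b hb
    simp only [Finset.mem_filter, Finset.mem_univ, true_and] at ha hb
    apply unique_up (fun m => - h m) ha.1 hb.1 (k := k)
    · rw [upN_neg]; exact ha.2.1
    · rw [downN_neg]; exact ha.2.2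
    · rw [upN_neg]; exact hb.2.1
    · rw [downN_neg]; exact hb.2.2
  calc _ ≤ _ := Finset.card_le_card hsub
    _ ≤ _ := Finset.card_union_le _ _
    _ ≤ 1 + 1 := add_le_add c1 c2

/-- A `k`-edge gives a rank condition for the projection orthogonal to its direction. -/
lemma rank_of_KPair (x : Fin n → ℝ × ℝ) (k : ℕ) {i j : Fin n} (hx : (x i).1 ≠ (x j).1)
    (hK : KPair x k i j) : Rank (fun m => proj (dir (x j) (x i)) (x m)) k i j := by
  classical
  obtain ⟨ρ, hρ, e1, e2, -⟩ := dir_spec (x j) (x i) hx
  set t := dir (x j) (x i) with ht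
  have hpi : proj t (x i) = proj t (x j) := by
    unfold proj
    have h1 : (x i).1 = (x j).1 + ρ * Real.cos t := by linarith
    have h2 : (x i).2 = (x j).2 + ρ * Real.sin t := by linarith
    rw [h1, h2]
    ring
  have key : ∀ m, side (x i) (x j) (x m) = -ρ * (proj t (x m) - proj t (x j)) := by
    intro m
    rw [← hpi]
    unfold side proj
    have h1 : (x j).1 = (x i).1 - ρ * Real.cos t := by linarith
    have h2 : (x j).2 = (x i).2 - ρ * Real.sin t := by linarith
    rw [h1, h2]
    ring
  rcases lt_or_gt_of_ne hρ with hneg | hpos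
  · have hL : leftCount x i j = upN (fun m => proj t (x m)) i j := by
      unfold leftCount upN
      congr 1
      ext m
      simp only [Finset.mem_filter, Finset.mem_univ, true_and]
      rw [key m]
      constructor
      · intro h
        have h3 : 0 < proj t (x m) - proj t (x j) := by
          by_contra hcon
          push Not at hcon
          nlinarith
        refine ⟨?_, by linarith⟩
        rintro rfl
        rw [hpi] at h3
        linarith
      · rintro ⟨-, h⟩
        have : 0 < proj t (x m) - proj t (x j) := by linarith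
        have h4 : 0 < -ρ := by linarith
        positivity
    have hR : rightCount x i j = downN (fun m => proj t (x m)) i j := by
      unfold rightCount downN
      congr 1
      ext m
      simp only [Finset.mem_filter, Finset.mem_univ, true_and]
      rw [key m]
      constructor
      · intro h
        have h3 : proj t (x m) - proj t (x j) < 0 := by
          by_contra hcon
          push Not at hcon
          nlinarith
        refine ⟨?_, by linarith⟩
        rintro rfl
        rw [hpi] at h3
        linarith
      · rintro ⟨-, h⟩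
        have : proj t (x m) - proj t (x j) < 0 := by linarith
        nlinarith
    unfold KPair at hK
    unfold Rank
    rw [← hL, ← hR]
    exact hK
  · have hL : leftCount x i j = downN (fun m => proj t (x m)) i j := by
      unfold leftCount downN
      congr 1
      ext m
      simp only [Finset.mem_filter, Finset.mem_univ, true_and]
      rw [key m]
      constructor
      · intro h
        have h3 : proj t (x m) - proj t (x j) < 0 := by
          by_contra hcon
          push Not at hcon
          nlinarith
        refine ⟨?_, by linarith⟩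
        rintro rfl
        rw [hpi] at h3
        linarith
      · rintro ⟨-, h⟩
        have : proj t (x m) - proj t (x j) < 0 := by linarith
        nlinarith
    have hR : rightCount x i j = upN (fun m => proj t (x m)) i j := by
      unfold rightCount upN
      congr 1
      ext m
      simp only [Finset.mem_filter, Finset.mem_univ, true_and]
      rw [key m]
      constructor
      · intro h
        have h3 : 0 < proj t (x m) - proj t (x j) := by
          by_contra hcon
          push Not at hcon
          nlinarith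
        refine ⟨?_, by linarith⟩
        rintro rfl
        rw [hpi] at h3
        linarith
      · rintro ⟨-, h⟩
        have : 0 < proj t (x m) - proj t (x j) := by linarith
        nlinarith
    unfold KPair at hK
    unfold Rank
    rw [← hL, ← hR]
    exact hK.symm

lemma KPair_symm (x : Fin n → ℝ × ℝ) (k : ℕ) (i j : Fin n) : KPair x k i j ↔ KPair x k j i := by
  classical
  have e : ∀ m, side (x j) (x i) (x m) = - side (x i) (x j) (x m) := by
    intro m
    unfold side
    ring
  have h1 : leftCount x j i = rightCount x i j := by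
    unfold leftCount rightCount
    congr 1
    ext m
    simp only [Finset.mem_filter, Finset.mem_univ, true_and]
    rw [e m]
    constructor <;> intro h <;> linarith
  have h2 : rightCount x j i = leftCount x i j := by
    unfold leftCount rightCount
    congr 1
    ext m
    simp only [Finset.mem_filter, Finset.mem_univ, true_and]
    rw [e m]
    constructor <;> intro h <;> linarith
  unfold KPair
  rw [h1, h2]
  tauto

/-! ### Measurability -/

lemma measurable_proj (m : Fin n) :
    Measurable (fun z : (Fin n → ℝ × ℝ) × ℝ => proj z.2 (z.1 m)) := by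
  unfold proj
  have h1 : Measurable (fun z : (Fin n → ℝ × ℝ) × ℝ => z.1 m) :=
    (measurable_pi_apply m).comp measurable_fst
  exact ((Real.measurable_cos.comp measurable_snd).mul (measurable_snd.comp h1)).sub
    ((Real.measurable_sin.comp measurable_snd).mul (measurable_fst.comp h1))

lemma measurable_upN (i j : Fin n) :
    Measurable (fun z : (Fin n → ℝ × ℝ) × ℝ => upN (fun m => proj z.2 (z.1 m)) i j) := by
  classical
  have h : (fun z : (Fin n → ℝ × ℝ) × ℝ => upN (fun m => proj z.2 (z.1 m)) i j) =
      fun z => ∑ m, if m ≠ i ∧ proj z.2 (z.1 j) < proj z.2 (z.1 m) then 1 else 0 := by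
    funext z
    unfold upN
    rw [Finset.card_filter]
  rw [h]
  apply Finset.measurable_sum
  intro m _
  apply Measurable.ite _ measurable_const measurable_const
  by_cases hm : m = i
  · simp [hm]
  · simp only [ne_eq, hm, not_false_eq_true, true_and]
    exact measurableSet_lt (measurable_proj j) (measurable_proj m)

lemma measurable_downN (i j : Fin n) :
    Measurable (fun z : (Fin n → ℝ × ℝ) × ℝ => downN (fun m => proj z.2 (z.1 m)) i j) := by
  classical
  have h : (fun z : (Fin n → ℝ × ℝ) × ℝ => downN (fun m => proj z.2 (z.1 m)) i j) =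
      fun z => ∑ m, if m ≠ i ∧ proj z.2 (z.1 m) < proj z.2 (z.1 j) then 1 else 0 := by
    funext z
    unfold downN
    rw [Finset.card_filter]
  rw [h]
  apply Finset.measurable_sum
  intro m _
  apply Measurable.ite _ measurable_const measurable_const
  by_cases hm : m = i
  · simp [hm]
  · simp only [ne_eq, hm, not_false_eq_true, true_and]
    exact measurableSet_lt (measurable_proj m) (measurable_proj j)

lemma measurableSet_Rank (k : ℕ) (i j : Fin n) :
    MeasurableSet {z : (Fin n → ℝ × ℝ) × ℝ | Rank (fun m => proj z.2 (z.1 m)) k i j} := by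
  unfold Rank
  apply MeasurableSet.union
  · apply MeasurableSet.inter
    · exact measurableSet_eq_fun (measurable_upN i j) measurable_const
    · exact measurableSet_eq_fun (((measurable_downN i j).add_const k).add_const 2)
        measurable_const
  · apply MeasurableSet.inter
    · exact measurableSet_eq_fun (measurable_downN i j) measurable_const
    · exact measurableSet_eq_fun (((measurable_upN i j).add_const k).add_const 2)
        measurable_const

/-- Indicator of the rank event. -/
noncomputable def rk (k : ℕ) (i j : Fin n) (z : (Fin n → ℝ × ℝ) × ℝ) : ℝ≥0∞ :=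
  {z : (Fin n → ℝ × ℝ) × ℝ | Rank (fun m => proj z.2 (z.1 m)) k i j}.indicator 1 z

lemma measurable_rk (k : ℕ) (i j : Fin n) : Measurable (rk (n := n) k i j) :=
  measurable_one.indicator (measurableSet_Rank k i j)

/-- The rank event does not depend on the point `i`. -/
lemma rk_update (k : ℕ) {i j : Fin n} (hij : i ≠ j) (x : Fin n → ℝ × ℝ) (a : ℝ × ℝ) (t : ℝ) :
    rk k i j (Function.update x i a, t) = rk k i j (x, t) := by
  classical
  have h1 : upN (fun m => proj t (Function.update x i a m)) i j =
      upN (fun m => proj t (x m)) i j := by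
    unfold upN
    congr 1
    ext m
    simp only [Finset.mem_filter, Finset.mem_univ, true_and]
    rw [Function.update_of_ne hij.symm]
    constructor
    · rintro ⟨hm, h⟩
      rw [Function.update_of_ne hm] at h
      exact ⟨hm, h⟩
    · rintro ⟨hm, h⟩
      rw [Function.update_of_ne hm]
      exact ⟨hm, h⟩
  have h2 : downN (fun m => proj t (Function.update x i a m)) i j =
      downN (fun m => proj t (x m)) i j := by
    unfold downN
    congr 1
    ext m
    simp only [Finset.mem_filter, Finset.mem_univ, true_and]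
    rw [Function.update_of_ne hij.symm]
    constructor
    · rintro ⟨hm, h⟩
      rw [Function.update_of_ne hm] at h
      exact ⟨hm, h⟩
    · rintro ⟨hm, h⟩
      rw [Function.update_of_ne hm]
      exact ⟨hm, h⟩
  unfold rk
  simp only [Set.indicator_apply, Set.mem_ofPred_eq, Rank, h1, h2, Pi.one_apply]

/-- Integral over all directions of the rank indicator. -/
noncomputable def rkI (k : ℕ) (i j : Fin n) (x : Fin n → ℝ × ℝ) : ℝ≥0∞ :=
  ∫⁻ t in Ioo (-(Real.pi / 2)) (Real.pi / 2), rk k i j (x, t)

lemma measurable_rkI (k : ℕ) (i j : Fin n) : Measurable (rkI (n := n) k i j) :=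
  Measurable.lintegral_prod_right' (measurable_rk k i j)

lemma rkI_update (k : ℕ) {i j : Fin n} (hij : i ≠ j) (x : Fin n → ℝ × ℝ) (a : ℝ × ℝ) :
    rkI k i j (Function.update x i a) = rkI k i j x := by
  unfold rkI
  simp only [rk_update k hij]

/-- Sum of the rank indicators. -/
lemma sum_rk_le (k : ℕ) (z : (Fin n → ℝ × ℝ) × ℝ) :
    ∑ e ∈ Finset.univ.filter (fun e : Fin n × Fin n => e.1 ≠ e.2), rk k e.1 e.2 z ≤ 2 * n := by
  classical
  rw [Finset.sum_filter, Fintype.sum_prod_type]
  have h : ∀ i : Fin n, ∑ j : Fin n, (if i ≠ j then rk k i j z else 0) ≤ 2 := by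
    intro i
    have h1 := card_rank_le (fun m => proj z.2 (z.1 m)) k i
    calc ∑ j : Fin n, (if i ≠ j then rk k i j z else 0) =
        ∑ j : Fin n, (if j ≠ i ∧ Rank (fun m => proj z.2 (z.1 m)) k i j then (1 : ℝ≥0∞) else 0) := by
          apply Finset.sum_congr rfl
          intro j _
          unfold rk
          simp only [Set.indicator_apply, Set.mem_ofPred_eq, Pi.one_apply]
          by_cases hij : i = j
          · subst hij
            simp
          · have hji : j ≠ i := fun h => hij h.symm
            simp [hij, hji]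
      _ = ((Finset.univ.filter fun j => j ≠ i ∧ Rank (fun m => proj z.2 (z.1 m)) k i j).card :
          ℝ≥0∞) := by
          rw [Finset.sum_ite, Finset.sum_const_zero, add_zero, Finset.sum_const, nsmul_eq_mul,
            mul_one]
      _ ≤ 2 := by exact_mod_cast h1
  calc ∑ i : Fin n, ∑ j : Fin n, (if i ≠ j then rk k i j z else 0) ≤ ∑ i : Fin n, (2 : ℝ≥0∞) :=
        Finset.sum_le_sum fun i _ => h i
    _ = 2 * n := by
        rw [Finset.sum_const, Finset.card_univ, Fintype.card_fin, nsmul_eq_mul, mul_comm]

lemma measurable_side' (i j m : Fin n) :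
    Measurable (fun x : Fin n → ℝ × ℝ => side (x i) (x j) (x m)) := by
  unfold side
  fun_prop

lemma measurable_leftCount' (i j : Fin n) :
    Measurable (fun x : Fin n → ℝ × ℝ => leftCount x i j) := by
  classical
  have h : (fun x : Fin n → ℝ × ℝ => leftCount x i j) =
      fun x => ∑ m, if 0 < side (x i) (x j) (x m) then 1 else 0 := by
    funext x
    unfold leftCount
    rw [Finset.card_filter]
  rw [h]
  apply Finset.measurable_sum
  intro m _
  apply Measurable.ite _ measurable_const measurable_const
  exact measurableSet_lt measurable_const (measurable_side' i j m)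

lemma measurable_rightCount' (i j : Fin n) :
    Measurable (fun x : Fin n → ℝ × ℝ => rightCount x i j) := by
  classical
  have h : (fun x : Fin n → ℝ × ℝ => rightCount x i j) =
      fun x => ∑ m, if side (x i) (x j) (x m) < 0 then 1 else 0 := by
    funext x
    unfold rightCount
    rw [Finset.card_filter]
  rw [h]
  apply Finset.measurable_sum
  intro m _
  apply Measurable.ite _ measurable_const measurable_const
  exact measurableSet_lt (measurable_side' i j m) measurable_const

lemma measurableSet_KPair' (k : ℕ) (i j : Fin n) :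
    MeasurableSet {x : Fin n → ℝ × ℝ | KPair x k i j} := by
  unfold KPair
  apply MeasurableSet.union
  · apply MeasurableSet.inter
    · exact measurableSet_eq_fun (measurable_leftCount' i j) measurable_const
    · exact measurableSet_eq_fun (((measurable_rightCount' i j).add_const k).add_const 2)
        measurable_const
  · apply MeasurableSet.inter
    · exact measurableSet_eq_fun (measurable_rightCount' i j) measurable_const
    · exact measurableSet_eq_fun (((measurable_leftCount' i j).add_const k).add_const 2)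
        measurable_const

/-- `i` and `j` span a `k`-edge of length at most `lam`. -/
def Short (lam : ℝ) (k : ℕ) (i j : Fin n) : Set (Fin n → ℝ × ℝ) :=
  {x | KPair x k i j ∧ ((x i).1 - (x j).1) ^ 2 + ((x i).2 - (x j).2) ^ 2 ≤ lam ^ 2}

lemma measurableSet_Short (lam : ℝ) (k : ℕ) (i j : Fin n) :
    MeasurableSet (Short (n := n) lam k i j) := by
  have h1 : MeasurableSet {x : Fin n → ℝ × ℝ |
      ((x i).1 - (x j).1) ^ 2 + ((x i).2 - (x j).2) ^ 2 ≤ lam ^ 2} :=
    measurableSet_le (by fun_prop) measurable_const
  exact (measurableSet_KPair' k i j).inter h1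

/-- The exchange inequality for one pair. -/
lemma short_bound {M lam : ℝ} (hM : 0 ≤ M) (hlam : 0 ≤ lam) (μ : Fin n → Measure (ℝ × ℝ))
    [∀ i, IsProbabilityMeasure (μ i)] (hμ : ∀ i, StripBound M (μ i)) (k : ℕ) {i j : Fin n}
    (hij : i ≠ j) :
    ∫⁻ x, (Short lam k i j).indicator 1 x ∂(Measure.pi μ) ≤
      ∫⁻ x, ENNReal.ofReal (M * lam) * rkI k i j x ∂(Measure.pi μ) := by
  classical
  have hm1 : Measurable ((Short lam k i j).indicator (1 : (Fin n → ℝ × ℝ) → ℝ≥0∞)) :=
    measurable_one.indicator (measurableSet_Short lam k i j)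
  have hm2 : Measurable (fun x : Fin n → ℝ × ℝ => ENNReal.ofReal (M * lam) * rkI k i j x) :=
    (measurable_rkI k i j).const_mul _
  apply lintegral_le_of_lmarginal_le {i} hm1 hm2
  intro x
  simp only [lmarginal_singleton, rkI_update k hij]
  rw [lintegral_const, measure_univ, mul_one]
  set b := x j with hb
  set S : Set (ℝ × ℝ) := {a : ℝ × ℝ | a.1 ≠ b.1 ∧ (a.1 - b.1) ^ 2 + (a.2 - b.2) ^ 2 ≤ lam ^ 2}
    with hS
  have hSm : MeasurableSet S := by
    have h1 : MeasurableSet {a : ℝ × ℝ | a.1 ≠ b.1} :=
      (measurableSet_eq_fun measurable_fst measurable_const).compl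
    have h2 : MeasurableSet {a : ℝ × ℝ | (a.1 - b.1) ^ 2 + (a.2 - b.2) ^ 2 ≤ lam ^ 2} :=
      measurableSet_le (by fun_prop) measurable_const
    exact h1.inter h2
  have hV : MeasurableSet {a : ℝ × ℝ | a.1 = b.1} :=
    measurableSet_eq_fun measurable_fst measurable_const
  have hpt : ∀ a : ℝ × ℝ, (Short lam k i j).indicator (1 : (Fin n → ℝ × ℝ) → ℝ≥0∞)
      (Function.update x i a) ≤ {a : ℝ × ℝ | a.1 = b.1}.indicator 1 a +
        S.indicator (fun a => rk k i j (x, dir b a)) a := by
    intro a
    by_cases hmem : Function.update x i a ∈ Short lam k i j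
    · by_cases ha : a.1 = b.1
      · rw [Set.indicator_of_mem hmem, Set.indicator_of_mem (show a ∈ {a : ℝ × ℝ | a.1 = b.1}
          from ha)]
        exact le_self_add
      · obtain ⟨hK, hd⟩ := hmem
        have hmem' : Function.update x i a ∈ Short lam k i j := ⟨hK, hd⟩
        rw [Function.update_self, Function.update_of_ne hij.symm] at hd
        have haS : a ∈ S := ⟨ha, hd⟩
        rw [Set.indicator_of_mem hmem', Set.indicator_of_mem haS]
        have h1 : Rank (fun m => proj (dir b a) (Function.update x i a m)) k i j := by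
          have h2 := rank_of_KPair (Function.update x i a) k (i := i) (j := j) (by
            rw [Function.update_self, Function.update_of_ne hij.symm]
            exact ha) hK
          rw [Function.update_self, Function.update_of_ne hij.symm] at h2
          exact h2
        have h3 : rk k i j (Function.update x i a, dir b a) = 1 := by
          unfold rk
          rw [Set.indicator_of_mem]
          · rfl
          · exact h1
        rw [rk_update k hij] at h3
        rw [h3]
        exact le_add_self
    · rw [Set.indicator_of_notMem hmem]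
      exact zero_le
  calc ∫⁻ a, (Short lam k i j).indicator (1 : (Fin n → ℝ × ℝ) → ℝ≥0∞)
        (Function.update x i a) ∂(μ i) ≤
      ∫⁻ a, ({a : ℝ × ℝ | a.1 = b.1}.indicator 1 a +
        S.indicator (fun a => rk k i j (x, dir b a)) a) ∂(μ i) := lintegral_mono hpt
    _ = (μ i) {a : ℝ × ℝ | a.1 = b.1} + ∫⁻ a in S, rk k i j (x, dir b a) ∂(μ i) := by
        rw [lintegral_add_left (measurable_one.indicator hV), lintegral_indicator_one hV,
          lintegral_indicator hSm]
    _ ≤ ENNReal.ofReal (M * lam) * rkI k i j x := by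
        rw [vertical_null (hμ i), zero_add]
        exact lintegral_dir_le hM hlam (hμ i) b (fun t => rk k i j (x, t))
          ((measurable_rk k i j).comp measurable_prodMk_left)

/-- The expected number of ordered pairs spanning a short `k`-edge. -/
lemma sum_short {M lam : ℝ} (hM : 0 ≤ M) (hlam : 0 ≤ lam) (μ : Fin n → Measure (ℝ × ℝ))
    [∀ i, IsProbabilityMeasure (μ i)] (hμ : ∀ i, StripBound M (μ i)) (k : ℕ) :
    ∑ e ∈ Finset.univ.filter (fun e : Fin n × Fin n => e.1 ≠ e.2),
      ∫⁻ x, (Short lam k e.1 e.2).indicator 1 x ∂(Measure.pi μ) ≤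
      ENNReal.ofReal (2 * Real.pi * M * lam * n) := by
  classical
  have hsumI : ∀ x : Fin n → ℝ × ℝ,
      ∑ e ∈ Finset.univ.filter (fun e : Fin n × Fin n => e.1 ≠ e.2), rkI k e.1 e.2 x ≤
      ENNReal.ofReal (2 * n * Real.pi) := by
    intro x
    have h1 : ∑ e ∈ Finset.univ.filter (fun e : Fin n × Fin n => e.1 ≠ e.2), rkI k e.1 e.2 x =
        ∫⁻ t in Ioo (-(Real.pi / 2)) (Real.pi / 2),
            ∑ e ∈ Finset.univ.filter (fun e : Fin n × Fin n => e.1 ≠ e.2), rk k e.1 e.2 (x, t) := by
      unfold rkI
      rw [lintegral_finsetSum]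
      intro e _
      exact (measurable_rk k e.1 e.2).comp measurable_prodMk_left
    rw [h1]
    calc _ ≤ ∫⁻ _t in Ioo (-(Real.pi / 2)) (Real.pi / 2), (2 * (n : ℝ≥0∞)) :=
          lintegral_mono fun t => sum_rk_le k (x, t)
      _ = ENNReal.ofReal (2 * n * Real.pi) := by
          rw [lintegral_const, Measure.restrict_apply MeasurableSet.univ, Set.univ_inter,
            Real.volume_Ioo]
          have e1 : (2 : ℝ≥0∞) * n = ENNReal.ofReal (2 * n) := by
            rw [ENNReal.ofReal_mul (by norm_num)]
            norm_num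
          rw [e1, ← ENNReal.ofReal_mul (by positivity)]
          congr 1
          ring
  calc ∑ e ∈ Finset.univ.filter (fun e : Fin n × Fin n => e.1 ≠ e.2),
      ∫⁻ x, (Short lam k e.1 e.2).indicator 1 x ∂(Measure.pi μ) ≤
      ∑ e ∈ Finset.univ.filter (fun e : Fin n × Fin n => e.1 ≠ e.2),
        ∫⁻ x, ENNReal.ofReal (M * lam) * rkI k e.1 e.2 x ∂(Measure.pi μ) := by
        apply Finset.sum_le_sum
        intro e he
        exact short_bound hM hlam μ hμ k (Finset.mem_filter.mp he).2
    _ = ENNReal.ofReal (M * lam) * ∫⁻ x,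
        ∑ e ∈ Finset.univ.filter (fun e : Fin n × Fin n => e.1 ≠ e.2), rkI k e.1 e.2 x
          ∂(Measure.pi μ) := by
        rw [lintegral_finsetSum _ (fun e _ => measurable_rkI k e.1 e.2), Finset.mul_sum]
        apply Finset.sum_congr rfl
        intro e _
        rw [lintegral_const_mul _ (measurable_rkI k e.1 e.2)]
    _ ≤ ENNReal.ofReal (M * lam) * ∫⁻ _x, ENNReal.ofReal (2 * n * Real.pi)
          ∂(Measure.pi μ) := by
        gcongr with x
        exact hsumI x
    _ = ENNReal.ofReal (2 * Real.pi * M * lam * n) := by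
        rw [lintegral_const, measure_univ, mul_one, ← ENNReal.ofReal_mul (by positivity)]
        congr 1
        ring

lemma Short_symm (lam : ℝ) (k : ℕ) (i j : Fin n) (x : Fin n → ℝ × ℝ) :
    x ∈ Short lam k i j ↔ x ∈ Short lam k j i := by
  unfold Short
  simp only [Set.mem_ofPred_eq]
  rw [KPair_symm]
  have : ((x i).1 - (x j).1) ^ 2 + ((x i).2 - (x j).2) ^ 2 =
      ((x j).1 - (x i).1) ^ 2 + ((x j).2 - (x i).2) ^ 2 := by ring
  rw [this]

open Classical in
lemma card_short (lam : ℝ) (k : ℕ) (x : Fin n → ℝ × ℝ) :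
    2 * ((kPairs k x).filter fun e => x ∈ Short lam k e.1 e.2).card =
      ((Finset.univ.filter (fun e : Fin n × Fin n => e.1 ≠ e.2)).filter
        fun e => x ∈ Short lam k e.1 e.2).card := by
  have hA : ((kPairs k x).filter fun e => x ∈ Short lam k e.1 e.2) =
      Finset.univ.filter fun e : Fin n × Fin n => e.1 < e.2 ∧ x ∈ Short lam k e.1 e.2 := by
    ext e
    unfold kPairs
    rw [Finset.mem_filter, Finset.mem_filter, Finset.mem_filter]
    constructor
    · rintro ⟨⟨h1, h2, h3⟩, h4⟩
      exact ⟨h1, h2, h4⟩
    · rintro ⟨h1, h2, h4⟩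
      exact ⟨⟨h1, h2, h4.1⟩, h4⟩
  have hB : ((Finset.univ.filter (fun e : Fin n × Fin n => e.1 ≠ e.2)).filter
        fun e => x ∈ Short lam k e.1 e.2) =
      (Finset.univ.filter fun e : Fin n × Fin n => e.1 < e.2 ∧ x ∈ Short lam k e.1 e.2) ∪
      (Finset.univ.filter fun e : Fin n × Fin n => e.2 < e.1 ∧ x ∈ Short lam k e.1 e.2) := by
    ext e
    rw [Finset.mem_union, Finset.mem_filter, Finset.mem_filter, Finset.mem_filter,
      Finset.mem_filter]
    constructor
    · rintro ⟨⟨h1, h2⟩, h3⟩
      rcases lt_or_gt_of_ne h2 with h | h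
      · exact Or.inl ⟨h1, h, h3⟩
      · exact Or.inr ⟨h1, h, h3⟩
    · rintro (⟨h1, h2, h3⟩ | ⟨h1, h2, h3⟩)
      · exact ⟨⟨h1, h2.ne⟩, h3⟩
      · exact ⟨⟨h1, h2.ne'⟩, h3⟩
  have hd : Disjoint (Finset.univ.filter fun e : Fin n × Fin n => e.1 < e.2 ∧
      x ∈ Short lam k e.1 e.2) (Finset.univ.filter fun e : Fin n × Fin n => e.2 < e.1 ∧
      x ∈ Short lam k e.1 e.2) := by
    rw [Finset.disjoint_left]
    intro e he he'
    rw [Finset.mem_filter] at he he'
    exact absurd he.2.1 (not_lt.mpr he'.2.1.le)
  have hc : (Finset.univ.filter fun e : Fin n × Fin n => e.1 < e.2 ∧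
      x ∈ Short lam k e.1 e.2).card = (Finset.univ.filter fun e : Fin n × Fin n => e.2 < e.1 ∧
      x ∈ Short lam k e.1 e.2).card := by
    apply Finset.card_nbij' Prod.swap Prod.swap
    · intro e he
      simp only [Finset.coe_filter, Finset.mem_univ, true_and, Set.mem_ofPred_eq] at he ⊢
      exact ⟨he.1, (Short_symm lam k _ _ x).mp he.2⟩
    · intro e he
      simp only [Finset.coe_filter, Finset.mem_univ, true_and, Set.mem_ofPred_eq] at he ⊢
      exact ⟨he.1, (Short_symm lam k _ _ x).mp he.2⟩
    · intro e _
      exact Prod.swap_swap e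
    · intro e _
      exact Prod.swap_swap e
  rw [hA, hB, Finset.card_union_of_disjoint hd, ← hc]
  ring

open Classical in
lemma card_long {lam : ℝ} (hlam : 0 < lam) (k : ℕ) (x : Fin n → ℝ × ℝ)
    (hx : Function.Injective x) (c : ℝ × ℝ) :
    (((kPairs k x).filter fun e => x ∉ Short lam k e.1 e.2).card : ℝ) ≤
      2 / lam * ∑ i, (|(x i).1 - c.1| + |(x i).2 - c.2|) := by
  have h1 := sum_len_le k x hx c
  have h2 : lam * (((kPairs k x).filter fun e => x ∉ Short lam k e.1 e.2).card : ℝ) ≤
      ∑ e ∈ kPairs k x, (|(x e.1).1 - (x e.2).1| + |(x e.1).2 - (x e.2).2|) := by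
    calc lam * (((kPairs k x).filter fun e => x ∉ Short lam k e.1 e.2).card : ℝ) =
        ∑ e ∈ (kPairs k x).filter fun e => x ∉ Short lam k e.1 e.2, lam := by
          rw [Finset.sum_const, nsmul_eq_mul, mul_comm]
      _ ≤ ∑ e ∈ (kPairs k x).filter fun e => x ∉ Short lam k e.1 e.2,
          (|(x e.1).1 - (x e.2).1| + |(x e.1).2 - (x e.2).2|) := by
          apply Finset.sum_le_sum
          intro e he
          rw [Finset.mem_filter] at he
          have hK : KPair x k e.1 e.2 := by
            have := he.1
            unfold kPairs at this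
            exact (Finset.mem_filter.mp this).2.2
          by_contra hcon
          push Not at hcon
          apply he.2
          refine ⟨hK, ?_⟩
          have ha := abs_nonneg ((x e.1).1 - (x e.2).1)
          have hb := abs_nonneg ((x e.1).2 - (x e.2).2)
          rw [← sq_abs ((x e.1).1 - (x e.2).1), ← sq_abs ((x e.1).2 - (x e.2).2)]
          nlinarith
      _ ≤ _ := by
          apply Finset.sum_le_sum_of_subset_of_nonneg (Finset.filter_subset _ _)
          intro e _ _
          positivity
  rw [div_mul_eq_mul_div, le_div_iff₀ hlam]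
  linarith

/-- Almost surely the points are distinct. -/
lemma ae_inj {M : ℝ} (μ : Fin n → Measure (ℝ × ℝ)) [∀ i, IsProbabilityMeasure (μ i)]
    (hμ : ∀ i, StripBound M (μ i)) : ∀ᵐ x ∂(Measure.pi μ), Function.Injective x := by
  classical
  have h : ∀ i j : Fin n, i ≠ j → ∀ᵐ x ∂(Measure.pi μ), x i ≠ x j := by
    intro i j hij
    have hS : MeasurableSet {x : Fin n → ℝ × ℝ | x i = x j} :=
      measurableSet_eq_fun (measurable_pi_apply i) (measurable_pi_apply j)
    have hz : ∫⁻ x, {x : Fin n → ℝ × ℝ | x i = x j}.indicator 1 x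
        ∂(Measure.pi μ) ≤ ∫⁻ x, 0 ∂(Measure.pi μ) := by
      apply lintegral_le_of_lmarginal_le {j} (measurable_one.indicator hS) measurable_const
      intro x
      simp only [lmarginal_singleton]
      have e1 : ∀ b, {x : Fin n → ℝ × ℝ | x i = x j}.indicator (1 : (Fin n → ℝ × ℝ) → ℝ≥0∞)
          (Function.update x j b) ≤ ({a | a.1 = (x i).1} : Set (ℝ × ℝ)).indicator 1 b := by
        intro b
        by_cases hb : x i = b
        · rw [Set.indicator_of_mem (show b ∈ ({a | a.1 = (x i).1} : Set (ℝ × ℝ)) from by
              rw [← hb]; rfl),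
            Set.indicator_of_mem (by simp [hij, hb])]
          rfl
        · rw [Set.indicator_of_notMem (show Function.update x j b ∉
            {x : Fin n → ℝ × ℝ | x i = x j} from by simp [hij, hb])]
          exact zero_le
      calc _ ≤ ∫⁻ b, ({a | a.1 = (x i).1} : Set (ℝ × ℝ)).indicator 1 b ∂(μ j) :=
            lintegral_mono e1
        _ = 0 := by
            rw [lintegral_indicator_one (measurableSet_eq_fun measurable_fst measurable_const)]
            exact vertical_null (hμ j) _
        _ ≤ _ := zero_le
    rw [lintegral_zero, nonpos_iff_eq_zero, lintegral_indicator_one hS] at hz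
    rw [ae_iff]
    simpa using hz
  have h2 : ∀ᵐ x ∂(Measure.pi μ), ∀ i j : Fin n, i ≠ j → x i ≠ x j := by
    rw [ae_all_iff]
    intro i
    rw [ae_all_iff]
    intro j
    by_cases hij : i = j
    · filter_upwards with x h
      exact absurd hij h
    · filter_upwards [h i j hij] with x hx _
      exact hx
  filter_upwards [h2] with x hx i j hij
  by_contra hne
  exact hx i j hne hij

lemma measurable_card (k : ℕ) :
    Measurable (fun x : Fin n → ℝ × ℝ => (kPairs k x).card) := by
  classical
  have h : (fun x : Fin n → ℝ × ℝ => (kPairs k x).card) =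
      fun x => ∑ e ∈ Finset.univ.filter (fun e : Fin n × Fin n => e.1 < e.2),
        if KPair x k e.1 e.2 then 1 else 0 := by
    funext x
    have h1 : kPairs k x = (Finset.univ.filter (fun e : Fin n × Fin n => e.1 < e.2)).filter
        (fun e => KPair x k e.1 e.2) := by
      unfold kPairs
      rw [Finset.filter_filter]
    rw [h1, Finset.card_filter]
  rw [h]
  apply Finset.measurable_sum
  intro e _
  apply Measurable.ite _ measurable_const measurable_const
  exact measurableSet_KPair' k e.1 e.2

/-- Main bound, with the `l^1` norm and lower integrals. -/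
lemma main {M R lam : ℝ} (hM : 0 < M) (hlam : 0 < lam) (k : ℕ)
    (μ : Fin n → Measure (ℝ × ℝ)) [∀ i, IsProbabilityMeasure (μ i)]
    (hμ : ∀ i, StripBound M (μ i)) (c : ℝ × ℝ)
    (hc : ∑ i, ∫⁻ a, ENNReal.ofReal (|a.1 - c.1| + |a.2 - c.2|) ∂(μ i) ≤
      ENNReal.ofReal (n * R)) :
    2 * ∫⁻ x, ((kPairs k x).card : ℝ≥0∞) ∂(Measure.pi μ) ≤
      ENNReal.ofReal (2 * Real.pi * M * lam * n) + ENNReal.ofReal (4 / lam) *
        ENNReal.ofReal (n * R) := by
  classical
  have hpt : ∀ x : Fin n → ℝ × ℝ, Function.Injective x → (2 : ℝ≥0∞) * (kPairs k x).card ≤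
      ∑ e ∈ Finset.univ.filter (fun e : Fin n × Fin n => e.1 ≠ e.2),
        (Short lam k e.1 e.2).indicator 1 x + ENNReal.ofReal (4 / lam) *
        ∑ i, ENNReal.ofReal (|(x i).1 - c.1| + |(x i).2 - c.2|) := by
    intro x hx
    have h1 := card_short lam k x
    have h2 := card_long hlam k x hx c
    have h3 := Finset.card_filter_add_card_filter_not (s := kPairs k x)
      (fun e => x ∈ Short lam k e.1 e.2)
    have h4 : ∑ e ∈ Finset.univ.filter (fun e : Fin n × Fin n => e.1 ≠ e.2),
        (Short lam k e.1 e.2).indicator (1 : (Fin n → ℝ × ℝ) → ℝ≥0∞) x =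
        ((((Finset.univ.filter (fun e : Fin n × Fin n => e.1 ≠ e.2)).filter
        fun e => x ∈ Short lam k e.1 e.2).card : ℕ) : ℝ≥0∞) := by
      rw [Finset.card_filter]
      push_cast
      apply Finset.sum_congr rfl
      intro e _
      simp only [Set.indicator_apply, Pi.one_apply]
    rw [h4, ← h1, ← h3, ← ENNReal.ofReal_sum_of_nonneg (fun i _ => by positivity),
      ← ENNReal.ofReal_mul (by positivity)]
    push_cast
    rw [mul_add]
    gcongr
    have h5 : (2 : ℝ≥0∞) * (((kPairs k x).filter fun e => x ∉ Short lam k e.1 e.2).card : ℝ≥0∞) =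
        ENNReal.ofReal (2 * (((kPairs k x).filter fun e => x ∉ Short lam k e.1 e.2).card : ℝ)) := by
      rw [ENNReal.ofReal_mul (by norm_num)]
      norm_num
    rw [h5]
    apply ENNReal.ofReal_le_ofReal
    calc 2 * (((kPairs k x).filter fun e => x ∉ Short lam k e.1 e.2).card : ℝ) ≤
        2 * (2 / lam * ∑ i, (|(x i).1 - c.1| + |(x i).2 - c.2|)) := by linarith
      _ = _ := by ring
  have hmc : Measurable (fun x : Fin n → ℝ × ℝ => ((kPairs k x).card : ℝ≥0∞)) :=
    (measurable_from_nat (f := fun m : ℕ => (m : ℝ≥0∞))).comp (measurable_card k)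
  have hms : ∀ e : Fin n × Fin n, Measurable ((Short lam k e.1 e.2).indicator
      (1 : (Fin n → ℝ × ℝ) → ℝ≥0∞)) := fun e =>
    measurable_one.indicator (measurableSet_Short lam k e.1 e.2)
  have hmi : ∀ i : Fin n, Measurable (fun x : Fin n → ℝ × ℝ =>
      ENNReal.ofReal (|(x i).1 - c.1| + |(x i).2 - c.2|)) := fun i => by
    apply Measurable.ennreal_ofReal
    fun_prop
  have hmS : Measurable (fun x : Fin n → ℝ × ℝ =>
      ∑ e ∈ Finset.univ.filter (fun e : Fin n × Fin n => e.1 ≠ e.2),
        (Short lam k e.1 e.2).indicator (1 : (Fin n → ℝ × ℝ) → ℝ≥0∞) x) :=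
    Finset.measurable_sum _ (fun e _ => hms e)
  have hmL : Measurable (fun x : Fin n → ℝ × ℝ =>
      ∑ i, ENNReal.ofReal (|(x i).1 - c.1| + |(x i).2 - c.2|)) :=
    Finset.measurable_sum _ (fun i _ => hmi i)
  calc 2 * ∫⁻ x, ((kPairs k x).card : ℝ≥0∞) ∂(Measure.pi μ) =
      ∫⁻ x, 2 * ((kPairs k x).card : ℝ≥0∞) ∂(Measure.pi μ) := (lintegral_const_mul _ hmc).symm
    _ ≤ ∫⁻ x, (∑ e ∈ Finset.univ.filter (fun e : Fin n × Fin n => e.1 ≠ e.2),
        (Short lam k e.1 e.2).indicator 1 x + ENNReal.ofReal (4 / lam) *
        ∑ i, ENNReal.ofReal (|(x i).1 - c.1| + |(x i).2 - c.2|)) ∂(Measure.pi μ) := by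
        apply lintegral_mono_ae
        filter_upwards [ae_inj μ hμ] with x hx
        exact hpt x hx
    _ = ∑ e ∈ Finset.univ.filter (fun e : Fin n × Fin n => e.1 ≠ e.2),
        ∫⁻ x, (Short lam k e.1 e.2).indicator 1 x ∂(Measure.pi μ) + ENNReal.ofReal (4 / lam) *
        ∑ i, ∫⁻ x, ENNReal.ofReal (|(x i).1 - c.1| + |(x i).2 - c.2|) ∂(Measure.pi μ) := by
        rw [lintegral_add_left hmS, lintegral_finsetSum _ (fun e _ => hms e),
          lintegral_const_mul _ hmL, lintegral_finsetSum _ (fun i _ => hmi i)]
    _ = ∑ e ∈ Finset.univ.filter (fun e : Fin n × Fin n => e.1 ≠ e.2),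
        ∫⁻ x, (Short lam k e.1 e.2).indicator 1 x ∂(Measure.pi μ) + ENNReal.ofReal (4 / lam) *
        ∑ i, ∫⁻ a, ENNReal.ofReal (|a.1 - c.1| + |a.2 - c.2|) ∂(μ i) := by
        congr 2
        apply Finset.sum_congr rfl
        intro i _
        exact (measurePreserving_eval μ i).lintegral_comp
          (f := fun a : ℝ × ℝ => ENNReal.ofReal (|a.1 - c.1| + |a.2 - c.2|)) (by
            apply Measurable.ennreal_ofReal
            fun_prop)
    _ ≤ _ := by
        gcongr
        exact sum_short hM.le hlam.le μ hμ k

end Strip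

namespace Strip

variable {n : ℕ}

/-- Lines are null sets. -/
lemma line_null {M : ℝ} {μ : Measure (ℝ × ℝ)} (hμ : StripBound M μ) {p q : ℝ × ℝ} (hpq : p ≠ q) :
    μ {a | side p q a = 0} = 0 := by
  set d : ℝ := Real.sqrt ((q.1 - p.1) ^ 2 + (q.2 - p.2) ^ 2) with hd
  have hpos : 0 < (q.1 - p.1) ^ 2 + (q.2 - p.2) ^ 2 := by
    by_contra hcon
    push Not at hcon
    have h1 : (q.1 - p.1) ^ 2 = 0 := le_antisymm (by nlinarith [sq_nonneg (q.2 - p.2)])
      (sq_nonneg _)
    have h2 : (q.2 - p.2) ^ 2 = 0 := le_antisymm (by nlinarith [sq_nonneg (q.1 - p.1)])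
      (sq_nonneg _)
    apply hpq
    apply Prod.ext
    · have := pow_eq_zero_iff (two_ne_zero) |>.mp h1
      linarith
    · have := pow_eq_zero_iff (two_ne_zero) |>.mp h2
      linarith
  have hd0 : 0 < d := Real.sqrt_pos.mpr hpos
  have hdd : d ^ 2 = (q.1 - p.1) ^ 2 + (q.2 - p.2) ^ 2 := Real.sq_sqrt hpos.le
  have h := hμ (-(q.2 - p.2) / d, (q.1 - p.1) / d) (by
    show (-(q.2 - p.2) / d) ^ 2 + ((q.1 - p.1) / d) ^ 2 = 1
    rw [div_pow, div_pow, ← add_div, div_eq_one_iff_eq (by positivity), hdd]
    ring) (-(q.2 - p.2) / d * p.1 + (q.1 - p.1) / d * p.2) 0 le_rfl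
  rw [mul_zero, ENNReal.ofReal_zero, nonpos_iff_eq_zero] at h
  apply measure_mono_null _ h
  intro a ha
  have ha' : (q.1 - p.1) * (a.2 - p.2) - (q.2 - p.2) * (a.1 - p.1) = 0 := ha
  have key : -(q.2 - p.2) / d * a.1 + (q.1 - p.1) / d * a.2 =
      -(q.2 - p.2) / d * p.1 + (q.1 - p.1) / d * p.2 := by
    field_simp
    linarith
  show _ ∧ _
  simp only [add_zero]
  exact ⟨key.symm.le, key.le⟩

/-- Almost surely no three of the points are collinear. -/
lemma ae_general {M : ℝ} (μ : Fin n → Measure (ℝ × ℝ)) [∀ i, IsProbabilityMeasure (μ i)]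
    (hμ : ∀ i, StripBound M (μ i)) : ∀ᵐ x ∂(Measure.pi μ), ∀ i j m : Fin n,
      i ≠ j → i ≠ m → j ≠ m → side (x i) (x j) (x m) ≠ 0 := by
  classical
  have h : ∀ i j m : Fin n, i ≠ m → j ≠ m →
      ∀ᵐ x ∂(Measure.pi μ), x i ≠ x j → side (x i) (x j) (x m) ≠ 0 := by
    intro i j m him hjm
    have hS : MeasurableSet {x : Fin n → ℝ × ℝ | x i ≠ x j ∧ side (x i) (x j) (x m) = 0} := by
      have h1 : MeasurableSet {x : Fin n → ℝ × ℝ | x i ≠ x j} :=
        (measurableSet_eq_fun (measurable_pi_apply i) (measurable_pi_apply j)).compl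
      have h2 : MeasurableSet {x : Fin n → ℝ × ℝ | side (x i) (x j) (x m) = 0} :=
        measurableSet_eq_fun (measurable_side' i j m) measurable_const
      exact h1.inter h2
    have hz : ∫⁻ x, {x : Fin n → ℝ × ℝ | x i ≠ x j ∧ side (x i) (x j) (x m) = 0}.indicator 1 x
        ∂(Measure.pi μ) ≤ ∫⁻ x, 0 ∂(Measure.pi μ) := by
      apply lintegral_le_of_lmarginal_le {m} (measurable_one.indicator hS) measurable_const
      intro x
      simp only [lmarginal_singleton]
      have e1 : ∀ b, {x : Fin n → ℝ × ℝ | x i ≠ x j ∧ side (x i) (x j) (x m) = 0}.indicator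
          (1 : (Fin n → ℝ × ℝ) → ℝ≥0∞) (Function.update x m b) =
          ({a | x i ≠ x j ∧ side (x i) (x j) a = 0} : Set (ℝ × ℝ)).indicator 1 b := by
        intro b
        simp only [Set.indicator_apply, Set.mem_ofPred_eq, Function.update_self,
          Function.update_of_ne him, Function.update_of_ne hjm, Pi.one_apply]
      simp only [e1]
      have hnull : μ m {a | x i ≠ x j ∧ side (x i) (x j) a = 0} = 0 := by
        by_cases hne : x i = x j
        · simp [hne]
        · refine measure_mono_null ?_ (line_null (hμ m) hne)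
          intro a ha
          exact ha.2
      rw [lintegral_zero]
      have hle : ∀ b, ({a | x i ≠ x j ∧ side (x i) (x j) a = 0} : Set (ℝ × ℝ)).indicator
          (1 : ℝ × ℝ → ℝ≥0∞) b = ({a | x i ≠ x j ∧ side (x i) (x j) a = 0} :
            Set (ℝ × ℝ)).indicator (fun _ => 1) b := fun b => rfl
      have := lintegral_indicator_const_le (μ := μ m)
        ({a | x i ≠ x j ∧ side (x i) (x j) a = 0} : Set (ℝ × ℝ)) 1
      rw [hnull, mul_zero] at this
      exact this
    rw [lintegral_zero, nonpos_iff_eq_zero, lintegral_indicator_one hS] at hz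
    rw [ae_iff]
    rw [← hz]
    congr 1
    ext x
    simp only [Set.mem_ofPred_eq, Classical.not_imp, not_not]
  have h2 : ∀ᵐ x ∂(Measure.pi μ), ∀ i j m : Fin n, i ≠ m → j ≠ m → x i ≠ x j →
      side (x i) (x j) (x m) ≠ 0 := by
    rw [ae_all_iff]
    intro i
    rw [ae_all_iff]
    intro j
    rw [ae_all_iff]
    intro m
    by_cases him : i = m
    · filter_upwards with x h
      exact absurd him h
    by_cases hjm : j = m
    · filter_upwards with x _ h
      exact absurd hjm h
    filter_upwards [h i j m him hjm] with x hx _ _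
    exact hx
  filter_upwards [h2, ae_inj μ hμ] with x hx hinj i j m hij him hjm
  exact hx i j m him hjm (fun h => hij (hinj h))

end Strip

open Strip in
/-- Expected number of `k`-edges of independent random points: `l^1` version. -/
theorem strip_kEdges (n k : ℕ) (μ : Fin n → Measure (ℝ × ℝ)) [∀ i, IsProbabilityMeasure (μ i)]
    {M R : ℝ} (hM : 0 < M) (hR : 0 < R) (hμ : ∀ i, StripBound M (μ i)) (c : ℝ × ℝ)
    (hc : ∑ i, ∫⁻ a, ENNReal.ofReal (|a.1 - c.1| + |a.2 - c.2|) ∂(μ i) ≤
      ENNReal.ofReal (n * R)) :
    ∫ x, ((kPairs k x).card : ℝ) ∂(Measure.pi μ) ≤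
      2 * n * Real.sqrt (2 * Real.pi * M * R) := by
  have hpi := Real.pi_pos
  set lam := Real.sqrt (2 * R / (Real.pi * M)) with hlamdef
  have hlam : 0 < lam := Real.sqrt_pos.mpr (by positivity)
  have h := main hM hlam k μ hμ c hc
  have hs0 : (0 : ℝ) ≤ Real.sqrt (2 * Real.pi * M * R) := Real.sqrt_nonneg _
  have hlam2 : lam * lam = 2 * R / (Real.pi * M) := Real.mul_self_sqrt (by positivity)
  have e1 : Real.pi * M * lam = Real.sqrt (2 * Real.pi * M * R) := by
    symm
    rw [Real.sqrt_eq_iff_mul_self_eq (by positivity) (by positivity)]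
    have e0 : Real.pi * M * lam * (Real.pi * M * lam) = 2 * Real.pi * M * R := by
      calc Real.pi * M * lam * (Real.pi * M * lam) = (Real.pi * M) ^ 2 * (lam * lam) := by ring
        _ = 2 * Real.pi * M * R := by
            rw [hlam2]
            field_simp
    exact e0.symm
  have e2 : 2 / lam * R = Real.sqrt (2 * Real.pi * M * R) := by
    rw [← e1, div_mul_eq_mul_div, div_eq_iff hlam.ne']
    calc 2 * R = Real.pi * M * (2 * R / (Real.pi * M)) := by field_simp
      _ = Real.pi * M * (lam * lam) := by rw [hlam2]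
      _ = Real.pi * M * lam * lam := by ring
  have h2 : ENNReal.ofReal (2 * Real.pi * M * lam * n) + ENNReal.ofReal (4 / lam) *
        ENNReal.ofReal (n * R) =
      ENNReal.ofReal (2 * (2 * n * Real.sqrt (2 * Real.pi * M * R))) := by
    rw [← ENNReal.ofReal_mul (by positivity), ← ENNReal.ofReal_add (by positivity)
      (by positivity)]
    congr 1
    calc 2 * Real.pi * M * lam * n + 4 / lam * (n * R) =
        2 * n * (Real.pi * M * lam) + 2 * n * (2 / lam * R) := by ring
      _ = _ := by
        rw [e1, e2]
        ring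
  rw [h2, ENNReal.ofReal_mul (by norm_num)] at h
  have h3 : ∫⁻ x, ((kPairs k x).card : ℝ≥0∞) ∂(Measure.pi μ) ≤
      ENNReal.ofReal (2 * n * Real.sqrt (2 * Real.pi * M * R)) := by
    have e3 : ENNReal.ofReal 2 = 2 := by norm_num
    rw [e3] at h
    exact (ENNReal.mul_le_mul_iff_right (by norm_num) (by norm_num)).mp h
  have hmc : Measurable (fun x : Fin n → ℝ × ℝ => ((kPairs k x).card : ℝ)) :=
    (measurable_from_nat (f := fun m : ℕ => (m : ℝ))).comp (measurable_card k)
  rw [integral_eq_lintegral_of_nonneg_ae (Filter.Eventually.of_forall fun x => by positivity)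
    hmc.aestronglyMeasurable]
  apply ENNReal.toReal_le_of_le_ofReal (by positivity)
  refine le_trans (le_of_eq ?_) h3
  apply lintegral_congr
  intro x
  rw [ENNReal.ofReal_natCast]

end Pool.Agent.Work.MP_e17eac_co
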