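import Pool.Agent.Work.MP_e17eac_co.Bd.B05

/-!
# Nested composition: the basic configuration and the basic pattern
-/

set_option autoImplicit false

namespace Pool.Agent.Work.MP_e17eac_co.NC

open Finset Pool.Agent.Work.MP_e17eac_co.HL
open scoped Classical

/-! ### The basic configuration -/

/-- Two points (`0` is the target, `1` is the source) and one edge. -/
noncomputable def bCfg : Cfg where
  V := Fin 2
  E := Unit
  Q := Unit
  x := fun v => (v : ℕ)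
  y := fun _ => 0
  ρ := fun v => if v = 0 then 1 / 32 else 1
  σ := fun v => if v = 0 then 1 else -1
  isT := fun v => v = 0
  src := fun _ => 1
  tgt := fun _ => 0
  slot := fun _ => ()
  lam := 1 / 32

theorem bCfg_g (e : bCfg.E) (z : bCfg.V) : bCfg.g e z = 0 := by
  show (0 : ℝ) - 0 - _ * ((0 : ℝ) - 0) = 0
  ring

theorem fin2_cases (z : Fin 2) (h1 : z ≠ 1) (h0 : z ≠ 0) : False := by
  revert z
  decide

theorem bCfg_good : bCfg.Good where
  σ_or := by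
    show ∀ v : Fin 2, (if v = 0 then (1 : ℤ) else -1) = 1 ∨ (if v = 0 then (1 : ℤ) else -1) = -1
    intro v
    split_ifs
    · exact Or.inl rfl
    · exact Or.inr rfl
  σ_sum := by
    show ∑ v : Fin 2, (if v = (0 : Fin 2) then (1 : ℤ) else -1) = 0
    rw [Fin.sum_univ_two]
    simp
  slot_inj := fun _ _ _ _ => rfl
  edge_inj := fun _ _ _ _ => rfl
  isT_src := by
    intro _
    show ¬ ((1 : Fin 2) = 0)
    decide
  isT_tgt := by
    intro _
    show (0 : Fin 2) = 0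
    rfl
  x_ne := by
    intro _
    show (((1 : Fin 2) : ℕ) : ℝ) ≠ (((0 : Fin 2) : ℕ) : ℝ)
    norm_num
  ρ_nonneg := by
    show ∀ v : Fin 2, (0 : ℝ) ≤ if v = 0 then 1 / 32 else 1
    intro v
    split_ifs <;> norm_num
  ρ_le := by
    show ∀ v : Fin 2, (if v = 0 then (1 : ℝ) / 32 else 1) ≤ 1
    intro v
    split_ifs <;> norm_num
  ρ_pos := by
    intro _
    show (0 : ℝ) < if (1 : Fin 2) = 0 then 1 / 32 else 1
    split_ifs <;> norm_num
  lam_pos := by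
    show (0 : ℝ) < 1 / 32
    norm_num
  lam_le := le_refl _
  ρ_tgt := by
    intro _
    show (if (0 : Fin 2) = 0 then (1 : ℝ) / 32 else 1) =
      1 / 32 * (if (1 : Fin 2) = 0 then (1 : ℝ) / 32 else 1)
    rw [if_pos rfl, if_neg (by decide), mul_one]
  bal := by
    intro e
    refine Finset.sum_eq_zero (fun z _ => ?_)
    rw [bCfg_g, sg_zero]
  R := fun _ z h1 h0 => (fin2_cases z h1 h0).elim
  H := fun _ _ _ h => (h rfl).elim

theorem claimBaseCfg : ClaimBaseCfg := by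
  refine ⟨bCfg, bCfg_good, ⟨?_, ?_, ?_, ?_⟩, rfl, ?_, ?_, ?_⟩
  · intro _
    show (1 : ℝ) ≤ |(((1 : Fin 2) : ℕ) : ℝ) - (((0 : Fin 2) : ℕ) : ℝ)|
    norm_num
  · intro _
    show (1 : ℝ) / 32 ≤ if (0 : Fin 2) = 0 then 1 / 32 else 1
    rw [if_pos rfl]
  · show ∀ v : Fin 2, |((v : ℕ) : ℝ)| ≤ 1
    intro v
    rw [Nat.abs_cast]
    exact_mod_cast Nat.lt_succ_iff.mp v.2
  · intro _
    show |(0 : ℝ)| ≤ 1
    norm_num
  · exact Fintype.card_fin 2
  · exact Fintype.card_unit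
  · exact Fintype.card_unit

/-! ### The basic pattern -/

/-- Abscissas. -/
def bK : Fin 8 → ℤ := ![-5, 3, -29, -45, 11, 35, 43, -13]
/-- Ordinates, times `6`. -/
def bO : Fin 8 → ℤ := ![0, -1, 2, 3, 3, -6, 5, 2]
/-- Signs. -/
def bS : Fin 8 → ℤ := ![1, -1, 1, -1, 1, -1, 1, -1]
/-- Sources. -/
def bSrc : Fin 9 → Fin 8 := ![0, 5, 7, 0, 3, 7, 0, 6, 7]
/-- Targets. -/
def bTgt : Fin 9 → Fin 8 := ![1, 1, 1, 2, 2, 2, 4, 4, 4]
/-- Slots. -/
def bSlot : Fin 9 → Fin 3 := ![0, 1, 2, 0, 1, 2, 0, 1, 2]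
/-- Difference of the abscissas of an edge. -/
def bD (e : Fin 9) : ℤ := bK (bSrc e) - bK (bTgt e)
/-- Numerators of the heights. -/
def bG (e : Fin 9) (k : Fin 8) : ℤ :=
  (bO k - bO (bTgt e)) * bD e - (bK k - bK (bTgt e)) * (bO (bSrc e) - bO (bTgt e))

/-- The basic pattern. -/
noncomputable def bPat : Pat where
  K := Fin 8
  E := Fin 9
  Q := Fin 3
  κ := bK
  δ := fun k => (bO k : ℝ) / 6
  σ := bS
  isT := fun k => k = 1 ∨ k = 2 ∨ k = 4
  src := bSrc
  tgt := bTgt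
  slot := bSlot
  X := 45

theorem bD_ne (e : Fin 9) : bD e ≠ 0 := by
  revert e
  decide

theorem bPat_g (e : Fin 9) (k : Fin 8) : bPat.g e k = (bG e k : ℝ) / (6 * (bD e : ℝ)) := by
  have h : (bD e : ℝ) ≠ 0 := by exact_mod_cast bD_ne e
  have h1 : bPat.g e k = (bO k : ℝ) / 6 - (bO (bTgt e) : ℝ) / 6 -
      ((bK k : ℝ) - (bK (bTgt e) : ℝ)) / ((bK (bSrc e) : ℝ) - (bK (bTgt e) : ℝ)) *
        ((bO (bSrc e) : ℝ) / 6 - (bO (bTgt e) : ℝ) / 6) := rfl
  have h2 : (bK (bSrc e) : ℝ) - (bK (bTgt e) : ℝ) = (bD e : ℝ) := by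
    unfold bD
    push_cast
    ring
  rw [h1, h2]
  unfold bG
  push_cast
  field_simp

theorem bPat_sg (e : Fin 9) (k : Fin 8) : sg (bPat.g e k) = Int.sign (bG e k * bD e) := by
  have h : (bD e : ℝ) ≠ 0 := by exact_mod_cast bD_ne e
  have h1 : (bG e k : ℝ) / (6 * (bD e : ℝ)) =
      ((bG e k * bD e : ℤ) : ℝ) / (6 * (bD e : ℝ) ^ 2) := by
    push_cast
    field_simp
  rw [bPat_g, h1, sg_div_pos (by positivity), sg_intCast]

theorem bPat_good : bPat.Good where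
  X_pos := by
    show 1 ≤ 45
    norm_num
  σ_or := by
    show ∀ v : Fin 8, bS v = 1 ∨ bS v = -1
    decide
  σ_sum := by
    show ∑ v : Fin 8, bS v = 0
    decide
  slot_inj := by
    show ∀ e e' : Fin 9, bTgt e = bTgt e' → bSlot e = bSlot e' → e = e'
    decide
  edge_inj := by
    show ∀ e e' : Fin 9, bSrc e = bSrc e' → bTgt e = bTgt e' → e = e'
    decide
  isT_src := by
    show ∀ e : Fin 9, ¬ (bSrc e = 1 ∨ bSrc e = 2 ∨ bSrc e = 4)
    decide
  isT_tgt := by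
    show ∀ e : Fin 9, (bTgt e = 1 ∨ bTgt e = 2 ∨ bTgt e = 4)
    decide
  κ_ne := by
    show ∀ e : Fin 9, bK (bSrc e) ≠ bK (bTgt e)
    decide
  κ_le := by
    show ∀ k : Fin 8, |bK k| ≤ ((45 : ℕ) : ℤ)
    decide
  κ_sum := by
    show ∑ k : Fin 8, bK k = 0
    decide
  δ_le := by
    intro k
    show |(bO k : ℝ) / 6| ≤ 1
    have h : ∀ k : Fin 8, |bO k| ≤ 6 := by decide
    have h1 : ((|bO k| : ℤ) : ℝ) ≤ 6 := by exact_mod_cast h k
    rw [abs_div, ← Int.cast_abs, div_le_one (by norm_num)]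
    refine h1.trans (le_abs_self _)
  bal := by
    have h : ∀ e : Fin 9, ∑ k : Fin 8, Int.sign (bG e k * bD e) = 0 := by decide
    intro e
    refine Eq.trans (Finset.sum_congr rfl (fun k _ => bPat_sg e k)) (h e)
  margin := by
    have h : ∀ (e : Fin 9) (k : Fin 8), k ≠ bSrc e → k ≠ bTgt e →
        6 * |bD e| ≤ 90 * |bG e k| := by decide
    show ∀ (e : Fin 9) (k : Fin 8), k ≠ bSrc e → k ≠ bTgt e →
      1 ≤ 2 * ((45 : ℕ) : ℝ) * |bPat.g e k|
    intro e k h1 h2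
    have h3 : ((6 * |bD e| : ℤ) : ℝ) ≤ ((90 * |bG e k| : ℤ) : ℝ) := by
      exact_mod_cast h e k h1 h2
    push_cast at h3
    have h4 : (0 : ℝ) < |(bD e : ℝ)| := by
      rw [abs_pos]
      exact_mod_cast bD_ne e
    rw [bPat_g, abs_div, abs_mul, abs_of_pos (show (0 : ℝ) < 6 by norm_num), ← mul_div_assoc,
      le_div_iff₀ (by positivity)]
    push_cast
    linarith

theorem claimBasePat : ClaimBasePat := by
  have c8 : Fintype.card bPat.K = 8 := Fintype.card_fin 8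
  have c9 : Fintype.card bPat.E = 9 := Fintype.card_fin 9
  have c3 : Fintype.card bPat.Q = 3 := Fintype.card_fin 3
  refine ⟨bPat, bPat_good, ?_, ?_, ?_, ?_, ?_, ?_⟩
  · rw [c8]
    norm_num
  · rw [c3]
    norm_num
  · rw [c8]
    norm_num
  · show 45 ≤ 2 ^ 6
    norm_num
  · rw [c3]
    norm_num
  · rw [c8, c9]
    have h1 : (2 : ℝ) ^ ((1 : ℝ) / 6) ≤ 9 / 8 := by
      have h2 : ((9 : ℝ) / 8) = ((9 / 8 : ℝ) ^ (6 : ℝ)) ^ ((1 : ℝ) / 6) := by
        rw [← Real.rpow_mul (by norm_num)]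
        norm_num
      rw [h2]
      refine Real.rpow_le_rpow (by norm_num) ?_ (by norm_num)
      have h3 : ((9 / 8 : ℝ) ^ (6 : ℝ)) = (9 / 8 : ℝ) ^ (6 : ℕ) := by
        rw [← Real.rpow_natCast]
        norm_num
      rw [h3]
      norm_num
    push_cast
    linarith

end Pool.Agent.Work.MP_e17eac_co.NC
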