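import Pool.Agent.Work.MP_e17eac_co.Bd.B05

/-!
# Nested composition: the final statement
-/

set_option autoImplicit false

namespace Pool.Agent.Work.MP_e17eac_co.NC

open Finset Pool.Agent.Work.MP_e17eac_co.HL
open scoped Classical

/-- Facts about the iterated logarithms for large `n`. -/
private lemma ncf_logs {n : ℕ} {X : ℝ} (hn : ⌈Real.exp (Real.exp X)⌉₊ ≤ n) :
    0 < n ∧ 0 < Real.log n ∧ X ≤ Real.log (Real.log n) := by
  have h1 : Real.exp (Real.exp X) ≤ n := (Nat.le_ceil _).trans (by exact_mod_cast hn)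
  have h2 : (0 : ℝ) < n := (Real.exp_pos _).trans_le h1
  have h3 : Real.exp X ≤ Real.log n := (Real.le_log_iff_exp_le h2).2 h1
  have h4 : 0 < Real.log n := (Real.exp_pos _).trans_le h3
  exact ⟨by exact_mod_cast h2, h4, (Real.le_log_iff_exp_le h4).2 h3⟩

/-- The choice of the parameters. -/
private lemma ncf_params (t : ℝ) (ht : 20 ≤ t) :
    ∃ r K : ℕ, 1 ≤ r ∧ 100 ≤ K ∧ ((2000 * (K : ℝ)) ^ (r + 1)) ≤ Real.exp (t ^ 2) ∧
      Real.exp (t ^ 2 - 13 * t) ≤ ((K : ℝ) / 10) ^ r := by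
  set K : ℕ := ⌊Real.exp t⌋₊ with hK
  have hKle : (K : ℝ) ≤ Real.exp t := Nat.floor_le (Real.exp_pos t).le
  have hKlt : Real.exp t < K + 1 := Nat.lt_floor_add_one _
  have he1 : (2.7 : ℝ) < Real.exp 1 := by have := Real.exp_one_gt_d9; linarith
  have he5 : (140 : ℝ) ≤ Real.exp 5 := by
    have h : Real.exp 5 = Real.exp 1 ^ 5 := by rw [← Real.exp_nat_mul]; norm_num
    rw [h]
    have : (2.7 : ℝ) ^ 5 ≤ Real.exp 1 ^ 5 := pow_le_pow_left₀ (by norm_num) he1.le 5
    norm_num at this ⊢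
    linarith
  have het : (140 : ℝ) ≤ Real.exp t := he5.trans (Real.exp_le_exp.2 (by linarith))
  have hK100' : (100 : ℝ) ≤ K := by linarith
  have hK100 : 100 ≤ K := by exact_mod_cast hK100'
  -- logarithm of `2000`
  set a : ℝ := Real.log 2000 with ha
  have ha0 : 0 < a := Real.log_pos (by norm_num)
  have ha8 : a ≤ 8 := by
    rw [ha, Real.log_le_iff_le_exp (by norm_num)]
    have h : Real.exp 8 = Real.exp 1 ^ 8 := by rw [← Real.exp_nat_mul]; norm_num
    rw [h]
    have : (2.7 : ℝ) ^ 8 ≤ Real.exp 1 ^ 8 := pow_le_pow_left₀ (by norm_num) he1.le 8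
    norm_num at this ⊢
    linarith
  have hq0 : 0 < t + a := by linarith
  set m : ℕ := ⌊t ^ 2 / (t + a)⌋₊ with hm
  have hmle : (m : ℝ) ≤ t ^ 2 / (t + a) := Nat.floor_le (by positivity)
  have hmlt : t ^ 2 / (t + a) < m + 1 := Nat.lt_floor_add_one _
  have hta : t - a ≤ t ^ 2 / (t + a) := by
    rw [le_div_iff₀ hq0]
    nlinarith [sq_nonneg a]
  have hm10 : (11 : ℝ) < m := by linarith
  have hm10' : 11 < m := by exact_mod_cast hm10
  obtain ⟨r, hr⟩ : ∃ r, m = r + 1 := ⟨m - 1, by omega⟩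
  have hrR : (m : ℝ) = r + 1 := by rw [hr]; push_cast; ring
  refine ⟨r, K, by omega, hK100, ?_, ?_⟩
  · -- upper bound
    have h1 : (2000 * (K : ℝ)) ≤ Real.exp (t + a) := by
      rw [Real.exp_add, ha, Real.exp_log (by norm_num), mul_comm]
      exact mul_le_mul_of_nonneg_right hKle (by norm_num)
    calc (2000 * (K : ℝ)) ^ (r + 1) ≤ Real.exp (t + a) ^ (r + 1) :=
          pow_le_pow_left₀ (by positivity) h1 _
      _ = Real.exp (((r + 1 : ℕ) : ℝ) * (t + a)) := by rw [Real.exp_nat_mul]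
      _ ≤ Real.exp (t ^ 2) := by
          apply Real.exp_le_exp.2
          rw [← hr]
          calc (m : ℝ) * (t + a) ≤ t ^ 2 / (t + a) * (t + a) :=
                mul_le_mul_of_nonneg_right hmle hq0.le
            _ = t ^ 2 := div_mul_cancel₀ _ hq0.ne'
  · -- lower bound
    have h20 : Real.log 20 ≤ 3 := by
      rw [Real.log_le_iff_le_exp (by norm_num)]
      have h : Real.exp 3 = Real.exp 1 ^ 3 := by rw [← Real.exp_nat_mul]; norm_num
      rw [h]
      have h2 : (2.718 : ℝ) < Real.exp 1 := by have := Real.exp_one_gt_d9; linarith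
      have : (2.718 : ℝ) ^ 3 ≤ Real.exp 1 ^ 3 := pow_le_pow_left₀ (by norm_num) h2.le 3
      norm_num at this ⊢
      linarith
    have h1 : Real.exp (t - 3) ≤ (K : ℝ) / 10 := by
      have h2 : Real.exp (t - 3) ≤ Real.exp t / 20 := by
        rw [Real.exp_sub]
        apply div_le_div_of_nonneg_left (Real.exp_pos t).le (by norm_num)
        rw [← Real.log_le_iff_le_exp (by norm_num)]
        exact h20
      linarith
    have hr2 : t - 10 ≤ (r : ℝ) := by linarith
    calc Real.exp (t ^ 2 - 13 * t) ≤ Real.exp ((r : ℝ) * (t - 3)) := by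
          apply Real.exp_le_exp.2
          have h3 : (t - 10) * (t - 3) ≤ (r : ℝ) * (t - 3) :=
            mul_le_mul_of_nonneg_right hr2 (by linarith)
          nlinarith
      _ = Real.exp (t - 3) ^ r := Real.exp_nat_mul _ _
      _ ≤ ((K : ℝ) / 10) ^ r := pow_le_pow_left₀ (Real.exp_pos _).le h1 _

/-- Item B8. -/
theorem claimFinal2 (h1 : ClaimSparse2) (h2 : HL.ClaimPad) (h3 : HL.ClaimPoints) :
    ClaimFinal2 := by
  refine ⟨14, by norm_num, ⌈Real.exp (Real.exp 400)⌉₊, ?_⟩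
  intro n hn hev
  obtain ⟨hn0, hL0, hT⟩ := ncf_logs hn
  set L : ℝ := Real.log n with hL
  set t : ℝ := Real.sqrt (Real.log L) with ht
  have ht2 : t ^ 2 = Real.log L := Real.sq_sqrt (by linarith)
  have ht20 : 20 ≤ t := by
    rw [ht]
    apply Real.le_sqrt_of_sq_le
    norm_num
    exact hT
  obtain ⟨r, K, hr, hK, hup, hlow⟩ := ncf_params t ht20
  have hexpL : Real.exp (t ^ 2) = L := by rw [ht2, Real.exp_log hL0]
  obtain ⟨N, M, hR, hNev, hN0, hNle, hNM⟩ := h1 r K hr hK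
  have hexpn : (6 * 2000 ^ r * K ^ (r + 1) : ℕ) ≤ (2000 * K) ^ (r + 1) := by
    rw [mul_pow]
    apply Nat.mul_le_mul_right
    rw [pow_succ, mul_comm (2000 ^ r) 2000]
    exact Nat.mul_le_mul_right _ (by norm_num)
  have hn0R : (0 : ℝ) < n := by exact_mod_cast hn0
  have hNn : N ≤ n := by
    have h4 : (N : ℝ) ≤ n := by
      calc (N : ℝ) ≤ ((2 ^ (6 * 2000 ^ r * K ^ (r + 1)) : ℕ) : ℝ) := by exact_mod_cast hNle
        _ ≤ ((2 ^ ((2000 * K) ^ (r + 1)) : ℕ) : ℝ) := by
            exact_mod_cast Nat.pow_le_pow_right (by norm_num) hexpn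
        _ = Real.exp ((((2000 * K) ^ (r + 1) : ℕ) : ℝ) * Real.log 2) := by
            rw [Real.exp_nat_mul, Real.exp_log (by norm_num)]
            push_cast
            rfl
        _ ≤ Real.exp L := by
            apply Real.exp_le_exp.2
            have h5 : Real.log 2 ≤ 1 := by
              have := Real.log_two_lt_d9
              linarith
            have h6 : ((((2000 * K) ^ (r + 1) : ℕ)) : ℝ) ≤ L := by
              push_cast
              rw [← hexpL]
              exact hup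
            have h7 : (0 : ℝ) ≤ (((2000 * K) ^ (r + 1) : ℕ) : ℝ) := Nat.cast_nonneg _
            nlinarith
        _ = n := Real.exp_log hn0R
    exact_mod_cast h4
  set a := n / N with ha
  have hdm : N * a + n % N = n := Nat.div_add_mod n N
  have hmod : n % N < N := Nat.mod_lt _ hN0
  have ha1 : 1 ≤ a := Nat.div_pos hNn hN0
  have hmev : Even (n % N) := by
    have h4 : Even (N * a) := hNev.mul_right a
    obtain ⟨k, hk⟩ := h4
    obtain ⟨l, hl⟩ := hev
    exact ⟨l - k, by omega⟩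
  obtain ⟨b, hb⟩ := hmev
  have hR2 : Realizable n (a * M) := by
    have h4 := h2 N M a b hR
    have h5 : a * N + 2 * b = n := by
      rw [mul_comm a N, two_mul, ← hb]
      exact hdm
    rwa [h5] at h4
  obtain ⟨P, hPc, hPg, hPf, hPM⟩ := h3 n (a * M) hR2
  refine ⟨P, hPc, hPg, hPf, ?_⟩
  have h6 : n ≤ 2 * (N * a) := by
    have : N * 1 ≤ N * a := Nat.mul_le_mul_left _ ha1
    omega
  set G : ℝ := ((K : ℝ) / 10) ^ r with hG
  have h6R : (n : ℝ) ≤ 2 * (N * a) := by exact_mod_cast h6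
  have h2G : (0 : ℝ) < 2 ^ G := Real.rpow_pos_of_pos (by norm_num) _
  have h7 : (n : ℝ) * 2 ^ G ≤ 2 * ((a * M : ℕ) : ℝ) := by
    calc (n : ℝ) * 2 ^ G ≤ 2 * (N * a) * 2 ^ G := mul_le_mul_of_nonneg_right h6R h2G.le
      _ = 2 * a * (2 ^ G * N) := by ring
      _ ≤ 2 * a * M := mul_le_mul_of_nonneg_left hNM (by positivity)
      _ = 2 * ((a * M : ℕ) : ℝ) := by push_cast; ring
  -- the gain
  have hKR : (100 : ℝ) ≤ K := by exact_mod_cast hK
  have hG2 : 2 ≤ G := by
    have h8 : (10 : ℝ) ≤ (K : ℝ) / 10 := by linarith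
    calc (2 : ℝ) ≤ (10 : ℝ) ^ 1 := by norm_num
      _ ≤ (10 : ℝ) ^ r := pow_le_pow_right₀ (by norm_num) hr
      _ ≤ G := pow_le_pow_left₀ (by norm_num) h8 _
  have h2G' : (2 : ℝ) ^ G = Real.exp (G * Real.log 2) := by
    rw [Real.rpow_def_of_pos (by norm_num), mul_comm]
  have hlog2 : (1 / 2 : ℝ) ≤ Real.log 2 := by
    have := Real.log_two_gt_d9
    linarith
  have hgain : L / Real.exp (14 * t) ≤ (G - 1) * Real.log 2 := by
    have h9 : L / Real.exp (14 * t) = Real.exp (t ^ 2 - 13 * t) / Real.exp t := by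
      rw [← hexpL, ← Real.exp_sub, ← Real.exp_sub]
      congr 1
      ring
    have h10 : (4 : ℝ) ≤ Real.exp t := by
      have := Real.add_one_le_exp t
      linarith
    rw [h9]
    calc Real.exp (t ^ 2 - 13 * t) / Real.exp t ≤ G / 4 :=
          div_le_div₀ (by linarith) hlow (by norm_num) h10
      _ ≤ (G - 1) * (1 / 2) := by linarith
      _ ≤ (G - 1) * Real.log 2 := mul_le_mul_of_nonneg_left hlog2 (by linarith)
  have h11 : Real.exp (L / Real.exp (14 * t)) * 2 ≤ 2 ^ G := by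
    have h12 : (2 : ℝ) = Real.exp (Real.log 2) := (Real.exp_log (by norm_num)).symm
    calc Real.exp (L / Real.exp (14 * t)) * 2
        = Real.exp (L / Real.exp (14 * t)) * Real.exp (Real.log 2) := by rw [← h12]
      _ = Real.exp (L / Real.exp (14 * t) + Real.log 2) := (Real.exp_add _ _).symm
      _ ≤ Real.exp (G * Real.log 2) := Real.exp_le_exp.2 (by linarith)
      _ = 2 ^ G := h2G'.symm
  have h13 : (n : ℝ) * (Real.exp (L / Real.exp (14 * t)) * 2) ≤ 2 * ((a * M : ℕ) : ℝ) :=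
    (mul_le_mul_of_nonneg_left h11 hn0R.le).trans h7
  have h14 : (n : ℝ) * Real.exp (L / Real.exp (14 * t)) ≤ ((a * M : ℕ) : ℝ) := by linarith
  exact h14.trans (by exact_mod_cast hPM)

/-- Item B8'. -/
theorem claimFinalEps (h : ClaimFinal2) : ClaimFinalEps := by
  intro ε hε
  obtain ⟨C, hC, n₀, hn₀⟩ := h
  refine ⟨max n₀ ⌈Real.exp (Real.exp ((C / ε) ^ 2))⌉₊, ?_⟩
  intro n hn hev
  obtain ⟨P, hPc, hPg, hPf, hPM⟩ := hn₀ n ((le_max_left _ _).trans hn) hev
  refine ⟨P, hPc, hPg, hPf, le_trans ?_ hPM⟩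
  obtain ⟨hn0, hL0, hT⟩ := ncf_logs ((le_max_right _ _).trans hn)
  set L : ℝ := Real.log n with hL
  set t : ℝ := Real.sqrt (Real.log L) with ht
  have hT0 : 0 ≤ Real.log L := (sq_nonneg _).trans hT
  have ht2 : t ^ 2 = Real.log L := Real.sq_sqrt hT0
  have ht1 : C / ε ≤ t := Real.le_sqrt_of_sq_le hT
  apply mul_le_mul_of_nonneg_left _ (Nat.cast_nonneg _)
  apply Real.exp_le_exp.2
  have h1 : L ^ (1 - ε) = Real.exp (t ^ 2 * (1 - ε)) := by
    rw [Real.rpow_def_of_pos hL0, ht2]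
  have h2 : L / Real.exp (C * t) = Real.exp (t ^ 2 - C * t) := by
    rw [Real.exp_sub, ht2, Real.exp_log hL0]
  rw [h1, h2]
  apply Real.exp_le_exp.2
  have h3 : C ≤ t * ε := by rwa [div_le_iff₀ hε] at ht1
  have h4 : 0 ≤ t := Real.sqrt_nonneg _
  nlinarith

end Pool.Agent.Work.MP_e17eac_co.NC
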