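import Pool.Agent.Work.MP_e17eac_co.Bd.B05

/-!
# Nested composition: the stages and the tower
-/

set_option autoImplicit false

namespace Pool.Agent.Work.MP_e17eac_co.NC

open Finset Pool.Agent.Work.MP_e17eac_co.HL
open scoped Classical

lemma PatEx.mono {S Q S' Q' : ℕ} {G G' : ℝ} (h : PatEx S Q G) (hS : S ≤ S') (hQ : Q ≤ Q')
    (hG : G' ≤ G) : PatEx S' Q' G' := by
  obtain ⟨p, hp, h1, h2, h3, h4, h5, h6⟩ := h
  refine ⟨p, hp, h1, h2, h3.trans (Nat.pow_le_pow_right two_pos hS),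
    h4.trans (Nat.pow_le_pow_right two_pos hS), h5.trans (Nat.pow_le_pow_right two_pos hQ), ?_⟩
  refine le_trans (mul_le_mul_of_nonneg_right ?_ (Nat.cast_nonneg _)) h6
  exact Real.rpow_le_rpow_of_exponent_le (by norm_num) hG

lemma stage_exp {S Q K : ℕ} (hS : 1 ≤ S) (hK : 1 ≤ K) :
    9 + (1 + 30 * S * K + 10 * Q * K ^ 2) + 3 * K + (2 * (90 * S * K + 20 * Q * K ^ 2)) +
      (5 + 170 * S * K + 40 * Q * K ^ 2) ≤ 500 * (S * K + Q * K ^ 2) := by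
  have h1 : K ≤ S * K := Nat.le_mul_of_pos_left K hS
  have h2 : 1 ≤ S * K := hK.trans h1
  have h3 : 9 + (1 + 30 * S * K + 10 * Q * K ^ 2) + 3 * K + (2 * (90 * S * K + 20 * Q * K ^ 2)) +
      (5 + 170 * S * K + 40 * Q * K ^ 2) = 15 + 3 * K + 380 * (S * K) + 90 * (Q * K ^ 2) := by ring
  rw [h3]
  omega

lemma rate_aux : ((101 : ℝ) / 100) ^ 2 ≤ (2 : ℝ) ^ ((3 : ℝ) / 100) := by
  have h1 : ((101 : ℝ) / 100) ^ 200 ≤ 8 := by norm_num
  have h2 : (((101 : ℝ) / 100) ^ 2) ^ (100 : ℕ) ≤ ((2 : ℝ) ^ ((3 : ℝ) / 100)) ^ (100 : ℕ) := by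
    rw [← pow_mul, ← Real.rpow_natCast ((2 : ℝ) ^ ((3 : ℝ) / 100)), ← Real.rpow_mul (by norm_num)]
    refine h1.trans (le_of_eq ?_)
    have : (3 : ℝ) / 100 * ((100 : ℕ) : ℝ) = (3 : ℕ) := by norm_num
    rw [this, Real.rpow_natCast]
    norm_num
  exact le_of_pow_le_pow_left₀ (by norm_num) (by positivity) h2

lemma rate_stage {K : ℕ} {G n s m m' : ℝ} (hn : 0 ≤ n) (hs : 0 < s)
    (hm : (2 : ℝ) ^ G * s ≤ m)
    (h : (100 ^ (2 * K) : ℝ) * m ^ K * n ≤ 2 * (101 ^ (2 * K) : ℝ) * s ^ K * m') :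
    (2 : ℝ) ^ (K * (G - 3 / 100) - 1) * n ≤ m' := by
  have h1 : ((2 : ℝ) ^ G * s) ^ K ≤ m ^ K := pow_le_pow_left₀ (by positivity) hm K
  have h2 : (100 ^ (2 * K) : ℝ) * ((2 : ℝ) ^ G * s) ^ K * n ≤
      2 * (101 ^ (2 * K) : ℝ) * s ^ K * m' := by
    refine le_trans ?_ h
    refine mul_le_mul_of_nonneg_right ?_ hn
    exact mul_le_mul_of_nonneg_left h1 (by positivity)
  have h3 : (100 ^ (2 * K) : ℝ) * ((2 : ℝ) ^ G) ^ K * n ≤ 2 * (101 ^ (2 * K) : ℝ) * m' := by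
    have hsK : 0 < s ^ K := by positivity
    refine le_of_mul_le_mul_right ?_ hsK
    calc _ = (100 ^ (2 * K) : ℝ) * ((2 : ℝ) ^ G * s) ^ K * n := by rw [mul_pow]; ring
      _ ≤ _ := h2
      _ = _ := by ring
  have h4 : (101 ^ (2 * K) : ℝ) ≤ 100 ^ (2 * K) * (2 : ℝ) ^ ((K : ℝ) * (3 / 100)) := by
    have h5 : (((101 : ℝ) / 100) ^ 2) ^ K ≤ ((2 : ℝ) ^ ((3 : ℝ) / 100)) ^ K :=
      pow_le_pow_left₀ (by positivity) rate_aux K
    rw [← Real.rpow_natCast ((2 : ℝ) ^ ((3 : ℝ) / 100)), ← Real.rpow_mul (by norm_num),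
      ← pow_mul, div_pow, div_le_iff₀ (by positivity)] at h5
    rw [mul_comm (K : ℝ), mul_comm (100 ^ (2 * K) : ℝ)]
    exact h5
  have h6 : (2 : ℝ) ^ (K * (G - 3 / 100) - 1) * ((2 : ℝ) ^ ((K : ℝ) * (3 / 100)) * 2) =
      ((2 : ℝ) ^ G) ^ K := by
    rw [← Real.rpow_natCast ((2 : ℝ) ^ G), ← Real.rpow_mul (by norm_num)]
    nth_rewrite 3 [← Real.rpow_one (2 : ℝ)]
    rw [← Real.rpow_add (by norm_num), ← Real.rpow_add (by norm_num)]
    congr 1
    ring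
  rw [← h6] at h3
  have hm' : 0 ≤ m' := by
    by_contra hneg
    push Not at hneg
    have : 2 * (101 ^ (2 * K) : ℝ) * m' < 0 := mul_neg_of_pos_of_neg (by positivity) hneg
    have h7 : 0 ≤ (100 ^ (2 * K) : ℝ) * ((2 : ℝ) ^ (K * (G - 3 / 100) - 1) *
      ((2 : ℝ) ^ ((K : ℝ) * (3 / 100)) * 2)) * n := by positivity
    linarith
  have h8 : 2 * (101 ^ (2 * K) : ℝ) * m' ≤
      2 * (100 ^ (2 * K) * (2 : ℝ) ^ ((K : ℝ) * (3 / 100))) * m' := by
    refine mul_le_mul_of_nonneg_right ?_ hm'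
    exact mul_le_mul_of_nonneg_left h4 (by norm_num)
  have h9 : 0 < 2 * (100 ^ (2 * K) * (2 : ℝ) ^ ((K : ℝ) * (3 / 100))) := by positivity
  refine le_of_mul_le_mul_left ?_ h9
  calc _ = (100 ^ (2 * K) : ℝ) * ((2 : ℝ) ^ (K * (G - 3 / 100) - 1) *
      ((2 : ℝ) ^ ((K : ℝ) * (3 / 100)) * 2)) * n := by ring
    _ ≤ _ := h3
    _ ≤ _ := h8

theorem claimStage (h1 : ClaimIter) (h2 : ClaimRound) : ClaimStage := by
  intro S Q K G hS hQ hK hP
  obtain ⟨p, hp, hK0, hQ0, hpK, hpX, hpQ, hpE⟩ := hP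
  obtain ⟨c, hc, hV0, hcQ0, hcQ, hcV, hlam, hmeas, hrate⟩ :=
    h1 p S Q hp hS hQ hK0 hQ0 hpK hpX hpQ K
  have one_div_pow_le (a : ℕ) : (1 : ℝ) / 2 ^ a ≤ 1 :=
    div_le_one_of_le₀ (one_le_pow₀ (by norm_num)) (by positivity)
  obtain ⟨p', hp', eK, eE, eQ, hX⟩ := h2 c hc hV0 _ _ _ (by positivity) (one_div_pow_le _)
    (by positivity) (one_div_pow_le _) (one_le_pow₀ (by norm_num)) hmeas
  refine ⟨p', hp', ?_, ?_, ?_, ?_, ?_, ?_⟩
  · rw [eK]; exact hV0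
  · rw [eQ]; exact hcQ0
  · rw [eK]
    refine hcV.trans (Nat.pow_le_pow_right two_pos ?_)
    have := stage_exp (Q := Q) hS hK
    omega
  · have hVR : (Fintype.card c.V : ℝ) ≤ 2 ^ (1 + 30 * S * K + 10 * Q * K ^ 2) := by
      exact_mod_cast hcV
    have h3 : (p'.X : ℝ) ≤ 2 ^ (500 * (S * K + Q * K ^ 2)) := by
      refine hX.trans ?_
      rw [div_pow, one_pow, one_div_mul_one_div_rev, div_div_eq_mul_div, div_one, ← pow_mul,
        ← pow_mul, ← pow_add]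
      calc (2 : ℝ) ^ 9 * Fintype.card c.V * 2 ^ (K * 3) *
            2 ^ (5 + 170 * S * K + 40 * Q * K ^ 2 + (90 * S * K + 20 * Q * K ^ 2) * 2)
          ≤ 2 ^ 9 * 2 ^ (1 + 30 * S * K + 10 * Q * K ^ 2) * 2 ^ (K * 3) *
            2 ^ (5 + 170 * S * K + 40 * Q * K ^ 2 + (90 * S * K + 20 * Q * K ^ 2) * 2) := by
            gcongr
        _ = 2 ^ (9 + (1 + 30 * S * K + 10 * Q * K ^ 2) + K * 3 +
            (5 + 170 * S * K + 40 * Q * K ^ 2 + (90 * S * K + 20 * Q * K ^ 2) * 2)) := by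
            rw [← pow_add, ← pow_add, ← pow_add]
        _ ≤ _ := by
            refine pow_le_pow_right₀ (by norm_num) ?_
            have := stage_exp (Q := Q) hS hK
            omega
    exact_mod_cast h3
  · rw [eQ]
    refine hcQ.trans (le_of_eq ?_)
    congr 1
  · rw [eK, eE]
    exact rate_stage (Nat.cast_nonneg _) (by exact_mod_cast hK0) hpE hrate

theorem claimTower (h1 : ClaimStage) (h2 : ClaimBasePat) : ClaimTower := by
  intro r K hr hK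
  have hKR : (100 : ℝ) ≤ K := by exact_mod_cast hK
  induction r, hr using Nat.le_induction with
  | base =>
    refine (h1 6 2 K (1 / 6) (by norm_num) (by norm_num) (by omega) h2).mono ?_ ?_ ?_
    · have e1 : 500 * (6 * K + 2 * K ^ 2) ≤ 500 * (6 * K ^ 2 + 2 * K ^ 2) := by
        have : K ≤ K ^ 2 := Nat.le_self_pow (by norm_num) K
        omega
      refine e1.trans ?_
      have : 6 * 2000 ^ 1 * K ^ (1 + 1) = 12000 * K ^ 2 := by norm_num
      rw [this]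
      omega
    · rw [pow_one]
      have : 2 * (10 * K) = 10 * 2 * K := by ring
      omega
    · rw [pow_one]
      nlinarith
  | succ r hr ih =>
    have hS1 : 1 ≤ 6 * 2000 ^ r * K ^ (r + 1) := Nat.succ_le_of_lt (by positivity)
    have hQ1 : 1 ≤ 2 * (10 * K) ^ r := Nat.succ_le_of_lt (by positivity)
    refine (h1 _ _ K _ hS1 hQ1 (by omega) ih).mono ?_ ?_ ?_
    · have e1 : 2 * (10 * K) ^ r * K ^ 2 ≤ 6 * 2000 ^ r * K ^ (r + 1) * K := by
        have e2 : 2 * (10 * K) ^ r * K ^ 2 = 2 * 10 ^ r * K ^ (r + 2) := by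
          rw [mul_pow]; ring
        have e3 : 6 * 2000 ^ r * K ^ (r + 1) * K = 6 * 2000 ^ r * K ^ (r + 2) := by ring
        rw [e2, e3]
        refine Nat.mul_le_mul_right _ (Nat.mul_le_mul (by norm_num) ?_)
        exact Nat.pow_le_pow_left (by norm_num) r
      have e4 : 6 * 2000 ^ (r + 1) * K ^ (r + 1 + 1) =
          2000 * (6 * 2000 ^ r * K ^ (r + 1) * K) := by ring
      rw [e4]
      omega
    · have : 10 * (2 * (10 * K) ^ r) * K = 2 * (10 * K) ^ (r + 1) := by ring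
      rw [this]
    · have e5 : (10 : ℝ) ≤ ((K : ℝ) / 10) ^ r := by
        have : (10 : ℝ) ≤ (K : ℝ) / 10 := by linarith
        calc (10 : ℝ) = 10 ^ 1 := by norm_num
          _ ≤ 10 ^ r := pow_le_pow_right₀ (by norm_num) hr
          _ ≤ _ := pow_le_pow_left₀ (by norm_num) this r
      rw [pow_succ]
      nlinarith

end Pool.Agent.Work.MP_e17eac_co.NC
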