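import Mathlib
import Pool.Agent.Work.MP_e17eac_co.SmoothDefs

/-!
Gaussian exchange inequality for a pair of independently perturbed points.
-/

namespace Pool.Agent.Work.MP_e17eac_co

open MeasureTheory ProbabilityTheory
open scoped NNReal ENNReal

namespace PairGauss

/-- Density of the perturbed point. -/
noncomputable def dens (v : ℝ≥0) (p a : ℝ × ℝ) : ℝ≥0∞ :=
  gaussianPDF p.1 v a.1 * gaussianPDF p.2 v a.2

lemma measurable_dens (v : ℝ≥0) (p : ℝ × ℝ) : Measurable (dens v p) := by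
  unfold dens
  fun_prop

lemma gaussAt_eq {v : ℝ≥0} (hv : v ≠ 0) (p : ℝ × ℝ) :
    gaussAt v p = volume.withDensity (dens v p) := by
  unfold gaussAt
  rw [gaussianReal_of_var_ne_zero _ hv, gaussianReal_of_var_ne_zero _ hv,
    prod_withDensity (measurable_gaussianPDF _ _) (measurable_gaussianPDF _ _),
    Measure.volume_eq_prod]
  rfl

/-- Iterated integral against the two Gaussians as an integral over the product. -/
lemma iter_eq {v : ℝ≥0} (hv : v ≠ 0) (p q : ℝ × ℝ) (F : (ℝ × ℝ) × (ℝ × ℝ) → ℝ≥0∞)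
    (hF : Measurable F) :
    ∫⁻ a, ∫⁻ b, F (a, b) ∂(gaussAt v q) ∂(gaussAt v p) =
      ∫⁻ z, (dens v p z.1 * dens v q z.2) * F z ∂(volume.prod volume) := by
  rw [gaussAt_eq hv, gaussAt_eq hv]
  have h1 : ∀ a : ℝ × ℝ, ∫⁻ b, F (a, b) ∂(volume.withDensity (dens v q)) =
      ∫⁻ b, dens v q b * F (a, b) := by
    intro a
    have hFa : Measurable fun b : ℝ × ℝ => F (a, b) := hF.comp (by fun_prop)
    rw [lintegral_withDensity_eq_lintegral_mul _ (measurable_dens v q) hFa]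
    rfl
  simp_rw [h1]
  have hm : Measurable fun z : (ℝ × ℝ) × (ℝ × ℝ) => dens v q z.2 * F z :=
    ((measurable_dens v q).comp measurable_snd).mul hF
  rw [lintegral_withDensity_eq_lintegral_mul _ (measurable_dens v p)
    (Measurable.lintegral_prod_right' (f := fun z => dens v q z.2 * F z) hm)]
  rw [lintegral_prod _ (by
    have := ((measurable_dens v p).comp measurable_fst).mul ((measurable_dens v q).comp measurable_snd)
    exact (this.mul hF).aemeasurable)]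
  refine lintegral_congr fun a => ?_
  simp only [Pi.mul_apply]
  have hma : Measurable fun b : ℝ × ℝ => dens v q b * F (a, b) :=
    hm.comp (f := fun b : ℝ × ℝ => (a, b)) (by fun_prop)
  rw [← lintegral_const_mul _ hma]
  refine lintegral_congr fun b => ?_
  rw [mul_assoc]

/-- The dilation fixing the midpoint. -/
noncomputable def dil (z : (ℝ × ℝ) × (ℝ × ℝ)) : (ℝ × ℝ) × (ℝ × ℝ) :=
  ((3 / 2 : ℝ) • z.1 - (1 / 2 : ℝ) • z.2, (3 / 2 : ℝ) • z.2 - (1 / 2 : ℝ) • z.1)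

lemma lint_smul_two (g : ℝ × ℝ → ℝ≥0∞) (hg : Measurable g) :
    ∫⁻ x, g x = 4 * ∫⁻ x, g ((2 : ℝ) • x) := by
  have h := Measure.map_addHaar_smul (volume : Measure (ℝ × ℝ)) (two_ne_zero (α := ℝ))
  have h2 : ∫⁻ x, g x ∂(Measure.map (fun x => (2 : ℝ) • x) (volume : Measure (ℝ × ℝ))) =
      ∫⁻ x, g ((2 : ℝ) • x) := lintegral_map hg (measurable_const_smul _)
  have h3 : (Measure.map (fun x => (2 : ℝ) • x) (volume : Measure (ℝ × ℝ))) =
      Measure.map (((2 : ℝ) • ·)) (volume : Measure (ℝ × ℝ)) := rfl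
  rw [h3, h, lintegral_smul_measure] at h2
  rw [← h2]
  have hf : Module.finrank ℝ (ℝ × ℝ) = 2 := by simp
  rw [hf, smul_eq_mul, ← mul_assoc]
  have : (4 : ℝ≥0∞) * ENNReal.ofReal |((2 : ℝ) ^ 2)⁻¹| = 1 := by
    have h4 : (4 : ℝ≥0∞) = ENNReal.ofReal 4 := by simp
    rw [h4, ← ENNReal.ofReal_mul (by norm_num)]
    norm_num [abs_of_pos]
  rw [this, one_mul]

lemma lint_dil (g : (ℝ × ℝ) × (ℝ × ℝ) → ℝ≥0∞) (hg : Measurable g) :
    ∫⁻ z, g z ∂(volume.prod volume) = 4 * ∫⁻ z, g (dil z) ∂(volume.prod volume) := by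
  have hdil : Measurable dil := by unfold dil; fun_prop
  have hgd : Measurable fun z => g (dil z) := hg.comp hdil
  rw [lintegral_prod _ hg.aemeasurable, lintegral_prod _ hgd.aemeasurable]
  -- left side: b = a - d, d = 2 d'
  have hL : ∀ a : ℝ × ℝ, ∫⁻ b, g (a, b) = 4 * ∫⁻ d : ℝ × ℝ, g (a, a - (2 : ℝ) • d) := by
    intro a
    rw [← lintegral_sub_left_eq_self (fun b => g (a, b)) a]
    exact lint_smul_two (fun d => g (a, a - d)) (hg.comp (by fun_prop))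
  have hR : ∀ a : ℝ × ℝ, ∫⁻ b, g (dil (a, b)) =
      ∫⁻ d : ℝ × ℝ, g (a + (1 / 2 : ℝ) • d, a - (3 / 2 : ℝ) • d) := by
    intro a
    rw [← lintegral_sub_left_eq_self (fun b => g (dil (a, b))) a]
    refine lintegral_congr fun d => ?_
    congr 1
    unfold dil
    ext <;> simp <;> ring
  simp_rw [hL, hR]
  rw [lintegral_const_mul]
  · congr 1
    have e1 : AEMeasurable (Function.uncurry fun a d : ℝ × ℝ => g (a, a - (2 : ℝ) • d))
        (volume.prod volume) := by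
      have : Measurable fun z : (ℝ × ℝ) × (ℝ × ℝ) => g (z.1, z.1 - (2 : ℝ) • z.2) :=
        hg.comp (by fun_prop)
      exact this.aemeasurable
    have e2 : AEMeasurable (Function.uncurry fun a d : ℝ × ℝ =>
        g (a + (1 / 2 : ℝ) • d, a - (3 / 2 : ℝ) • d)) (volume.prod volume) := by
      have : Measurable fun z : (ℝ × ℝ) × (ℝ × ℝ) =>
          g (z.1 + (1 / 2 : ℝ) • z.2, z.1 - (3 / 2 : ℝ) • z.2) := hg.comp (by fun_prop)
      exact this.aemeasurable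
    have s1 := lintegral_lintegral_swap e1
    have s2 := lintegral_lintegral_swap e2
    rw [s1, s2]
    refine lintegral_congr fun d => ?_
    rw [← lintegral_add_right_eq_self (fun a => g (a, a - (2 : ℝ) • d)) ((1 / 2 : ℝ) • d)]
    refine lintegral_congr fun a => ?_
    congr 1
    ext <;> simp <;> ring
  · exact Measurable.lintegral_prod_right' (f := fun z : (ℝ × ℝ) × (ℝ × ℝ) =>
      g (z.1, z.1 - (2 : ℝ) • z.2)) (hg.comp (by fun_prop))

/-- Joint density, and its symmetrisation. -/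
noncomputable def phi (v : ℝ≥0) (p q : ℝ × ℝ) (z : (ℝ × ℝ) × (ℝ × ℝ)) : ℝ≥0∞ :=
  dens v p z.1 * dens v q z.2

lemma measurable_phi (v : ℝ≥0) (p q : ℝ × ℝ) : Measurable (phi v p q) :=
  ((measurable_dens v p).comp measurable_fst).mul ((measurable_dens v q).comp measurable_snd)

lemma expo (s d : ℝ) :
    Real.exp (-(s + d)) + Real.exp (-(s - d)) = Real.exp (-s) * (2 * Real.cosh d) := by
  rw [Real.cosh_eq, show -(s + d) = -s + -d by ring, show -(s - d) = -s + d by ring,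
    Real.exp_add, Real.exp_add]
  ring

lemma phi_eq (v : ℝ≥0) (p q : ℝ × ℝ) (z : (ℝ × ℝ) × (ℝ × ℝ)) :
    phi v p q z = ENNReal.ofReal (((√(2 * Real.pi * v))⁻¹) ^ 4 *
      Real.exp (-(((z.1.1 - p.1) ^ 2 + (z.1.2 - p.2) ^ 2 + (z.2.1 - q.1) ^ 2 +
        (z.2.2 - q.2) ^ 2) / (2 * v)))) := by
  unfold phi dens gaussianPDF
  rw [← ENNReal.ofReal_mul (gaussianPDFReal_nonneg _ _ _),
    ← ENNReal.ofReal_mul (gaussianPDFReal_nonneg _ _ _),
    ← ENNReal.ofReal_mul (mul_nonneg (gaussianPDFReal_nonneg _ _ _)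
      (gaussianPDFReal_nonneg _ _ _))]
  congr 1
  unfold gaussianPDFReal
  have : Real.exp (-(((z.1.1 - p.1) ^ 2 + (z.1.2 - p.2) ^ 2 + (z.2.1 - q.1) ^ 2 +
        (z.2.2 - q.2) ^ 2) / (2 * v))) =
      Real.exp (-(z.1.1 - p.1) ^ 2 / (2 * v)) * Real.exp (-(z.1.2 - p.2) ^ 2 / (2 * v)) *
      (Real.exp (-(z.2.1 - q.1) ^ 2 / (2 * v)) * Real.exp (-(z.2.2 - q.2) ^ 2 / (2 * v))) := by
    rw [← Real.exp_add, ← Real.exp_add, ← Real.exp_add]
    congr 1
    ring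
  rw [this]
  ring

/-- Exchange inequality for the symmetrised density under the dilation. -/
lemma phis_dil (v : ℝ≥0) (hv : 0 < v) (p q : ℝ × ℝ) (z : (ℝ × ℝ) × (ℝ × ℝ))
    (hz : (z.1.1 - z.2.1) ^ 2 + (z.1.2 - z.2.2) ^ 2 < v) :
    ENNReal.ofReal (Real.exp (-(3 / 4))) * (phi v p q z + phi v p q z.swap) ≤
      phi v p q (dil z) + phi v p q (dil z).swap := by
  have hv' : (0 : ℝ) < v := by exact_mod_cast hv
  rw [phi_eq, phi_eq, phi_eq, phi_eq]
  have hc : 0 ≤ ((√(2 * Real.pi * v))⁻¹) ^ 4 := by positivity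
  rw [← ENNReal.ofReal_add (by positivity) (by positivity),
    ← ENNReal.ofReal_add (by positivity) (by positivity),
    ← ENNReal.ofReal_mul (by positivity)]
  apply ENNReal.ofReal_le_ofReal
  rw [← mul_add, ← mul_add]
  obtain ⟨⟨a1, a2⟩, ⟨b1, b2⟩⟩ := z
  obtain ⟨p1, p2⟩ := p
  obtain ⟨q1, q2⟩ := q
  simp only [dil, Prod.swap, Prod.fst_sub, Prod.snd_sub, Prod.smul_fst, Prod.smul_snd,
    smul_eq_mul] at hz ⊢
  set S : ℝ := ((a1 - p1) ^ 2 + (a2 - p2) ^ 2 + (b1 - q1) ^ 2 + (b2 - q2) ^ 2 +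
    ((b1 - p1) ^ 2 + (b2 - p2) ^ 2 + (a1 - q1) ^ 2 + (a2 - q2) ^ 2)) / (4 * v) with hS
  set D : ℝ := -((a1 - b1) * (p1 - q1) + (a2 - b2) * (p2 - q2)) / (2 * v) with hD
  set N : ℝ := (a1 - b1) ^ 2 + (a2 - b2) ^ 2 with hN
  have k1 : ((a1 - p1) ^ 2 + (a2 - p2) ^ 2 + (b1 - q1) ^ 2 + (b2 - q2) ^ 2) / (2 * v) =
      S + D := by
    rw [hS, hD]; field_simp; ring
  have k2 : ((b1 - p1) ^ 2 + (b2 - p2) ^ 2 + (a1 - q1) ^ 2 + (a2 - q2) ^ 2) / (2 * v) =
      S - D := by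
    rw [hS, hD]; field_simp; ring
  have k3 : ((3 / 2 * a1 - 1 / 2 * b1 - p1) ^ 2 + (3 / 2 * a2 - 1 / 2 * b2 - p2) ^ 2 +
      (3 / 2 * b1 - 1 / 2 * a1 - q1) ^ 2 + (3 / 2 * b2 - 1 / 2 * a2 - q2) ^ 2) / (2 * v) =
      (S + 3 / 4 * (N / v)) + 2 * D := by
    rw [hS, hD, hN]; field_simp; ring
  have k4 : ((3 / 2 * b1 - 1 / 2 * a1 - p1) ^ 2 + (3 / 2 * b2 - 1 / 2 * a2 - p2) ^ 2 +
      (3 / 2 * a1 - 1 / 2 * b1 - q1) ^ 2 + (3 / 2 * a2 - 1 / 2 * b2 - q2) ^ 2) / (2 * v) =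
      (S + 3 / 4 * (N / v)) - 2 * D := by
    rw [hS, hD, hN]; field_simp; ring
  rw [k1, k2, k3, k4, expo, expo, mul_left_comm]
  apply mul_le_mul_of_nonneg_left _ hc
  have hNv : N / v ≤ 1 := (div_le_one hv').mpr hz.le
  have hcosh : Real.cosh D ≤ Real.cosh (2 * D) := by
    rw [Real.cosh_le_cosh, abs_mul]
    have := abs_nonneg D
    rw [abs_two]
    linarith
  have hexp : Real.exp (-(3 / 4)) * Real.exp (-S) ≤ Real.exp (-(S + 3 / 4 * (N / v))) := by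
    rw [← Real.exp_add]
    apply Real.exp_le_exp.mpr
    linarith
  rw [← mul_assoc]
  exact mul_le_mul hexp (by linarith) (by have := Real.cosh_pos D; positivity) (by positivity)

end PairGauss

open PairGauss in
/-- Gaussian exchange inequality: the probability that a pair of independently perturbed points
lies in a swap-invariant, dilation-invariant set is at most `5/(2√v)` times the expected
`ℓ¹`-distance on that set. -/
theorem pair_gauss (v : ℝ≥0) (hv : 0 < v) (p q : ℝ × ℝ) (A : Set ((ℝ × ℝ) × (ℝ × ℝ)))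
    (hA : MeasurableSet A) (hswap : ∀ a b, (a, b) ∈ A → (b, a) ∈ A)
    (hdil : ∀ a b : ℝ × ℝ, (a, b) ∈ A ↔
      ((3 / 2 : ℝ) • a - (1 / 2 : ℝ) • b, (3 / 2 : ℝ) • b - (1 / 2 : ℝ) • a) ∈ A) :
    ∫⁻ a, ∫⁻ b, A.indicator 1 (a, b) ∂(gaussAt v q) ∂(gaussAt v p) ≤
      ENNReal.ofReal (5 / (2 * Real.sqrt v)) * ∫⁻ a, ∫⁻ b, A.indicator
        (fun z => ENNReal.ofReal (|z.1.1 - z.2.1| + |z.1.2 - z.2.2|)) (a, b)
        ∂(gaussAt v q) ∂(gaussAt v p) := by
  have hv0 : v ≠ 0 := hv.ne'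
  have hv' : (0 : ℝ) < v := by exact_mod_cast hv
  set F : (ℝ × ℝ) × (ℝ × ℝ) → ℝ≥0∞ :=
    fun z => ENNReal.ofReal (|z.1.1 - z.2.1| + |z.1.2 - z.2.2|) with hF
  have hFm : Measurable F := by
    rw [hF]
    fun_prop
  have hone : Measurable (1 : (ℝ × ℝ) × (ℝ × ℝ) → ℝ≥0∞) := measurable_one
  rw [iter_eq hv0 p q (A.indicator 1) (hone.indicator hA),
    iter_eq hv0 p q (A.indicator F) (hFm.indicator hA)]
  set μ : Measure ((ℝ × ℝ) × (ℝ × ℝ)) := volume.prod volume with hμ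
  set Φ := phi v p q with hΦ
  have hΦm : Measurable Φ := measurable_phi v p q
  have hΦsm : Measurable fun z : (ℝ × ℝ) × (ℝ × ℝ) => Φ z.swap := hΦm.comp measurable_swap
  have hmem : ∀ z : (ℝ × ℝ) × (ℝ × ℝ), z.swap ∈ A ↔ z ∈ A := by
    rintro ⟨a, b⟩
    exact ⟨fun h => hswap _ _ h, fun h => hswap _ _ h⟩
  -- symmetrisation
  have hsym : ∀ G : (ℝ × ℝ) × (ℝ × ℝ) → ℝ≥0∞, Measurable G → (∀ z, G z.swap = G z) →
      2 * ∫⁻ z, Φ z * G z ∂μ = ∫⁻ z, (Φ z + Φ z.swap) * G z ∂μ := by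
    intro G hG hGs
    have h1 : ∫⁻ z, Φ z.swap * G z ∂μ = ∫⁻ z, Φ z * G z ∂μ := by
      rw [hμ, ← lintegral_prod_swap (fun z => Φ z * G z)]
      refine lintegral_congr fun z => ?_
      rw [hGs]
    simp_rw [add_mul]
    have h2 := lintegral_add_left (μ := μ) (f := fun z => Φ z * G z) (hΦm.mul hG)
      (fun z => Φ z.swap * G z)
    rw [h2, h1, two_mul]
  set Ψ : (ℝ × ℝ) × (ℝ × ℝ) → ℝ≥0∞ := fun z => Φ z + Φ z.swap with hΨ
  have hΨm : Measurable Ψ := hΦm.add hΦsm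
  -- finiteness
  have htot : ∫⁻ z, Ψ z ∂μ ≠ ⊤ := by
    have h1 := iter_eq hv0 p q 1 hone
    have h2 : ∫⁻ a, ∫⁻ b, (1 : (ℝ × ℝ) × (ℝ × ℝ) → ℝ≥0∞) (a, b) ∂(gaussAt v q) ∂(gaussAt v p)
        = 1 := by
      have i1 : IsProbabilityMeasure (gaussAt v p) := by unfold gaussAt; infer_instance
      have i2 : IsProbabilityMeasure (gaussAt v q) := by unfold gaussAt; infer_instance
      simp
    rw [h2] at h1
    have h3 := hsym 1 hone (fun _ => rfl)
    have h4 : ∫⁻ z, Φ z * (1 : (ℝ × ℝ) × (ℝ × ℝ) → ℝ≥0∞) z ∂μ = 1 := h1.symm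
    rw [h4] at h3
    have h5 : ∫⁻ z, Ψ z ∂μ = ∫⁻ z, (Φ z + Φ z.swap) * (1 : (ℝ × ℝ) × (ℝ × ℝ) → ℝ≥0∞) z ∂μ := by
      refine lintegral_congr fun z => ?_
      simp [hΨ]
    rw [h5, ← h3]
    simp
  -- the near sets
  have hNm : Measurable fun z : (ℝ × ℝ) × (ℝ × ℝ) =>
      (z.1.1 - z.2.1) ^ 2 + (z.1.2 - z.2.2) ^ 2 := by fun_prop
  set B1 : Set ((ℝ × ℝ) × (ℝ × ℝ)) :=
    A ∩ {z | (z.1.1 - z.2.1) ^ 2 + (z.1.2 - z.2.2) ^ 2 < v} with hB1
  set B2 : Set ((ℝ × ℝ) × (ℝ × ℝ)) :=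
    A ∩ {z | (z.1.1 - z.2.1) ^ 2 + (z.1.2 - z.2.2) ^ 2 < 4 * v} with hB2
  have hB1m : MeasurableSet B1 := hA.inter (measurableSet_lt hNm measurable_const)
  have hB2m : MeasurableSet B2 := hA.inter (measurableSet_lt hNm measurable_const)
  have hB12 : B1 ⊆ B2 := by
    rintro z ⟨h1, h2⟩
    refine ⟨h1, ?_⟩
    have h2' : (z.1.1 - z.2.1) ^ 2 + (z.1.2 - z.2.2) ^ 2 < v := h2
    show (z.1.1 - z.2.1) ^ 2 + (z.1.2 - z.2.2) ^ 2 < 4 * v
    linarith
  have hdilB : ∀ z, dil z ∈ B2 ↔ z ∈ B1 := by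
    intro z
    have e1 : dil z ∈ A ↔ z ∈ A := (hdil z.1 z.2).symm
    have e2 : ((dil z).1.1 - (dil z).2.1) ^ 2 + ((dil z).1.2 - (dil z).2.2) ^ 2 =
        4 * ((z.1.1 - z.2.1) ^ 2 + (z.1.2 - z.2.2) ^ 2) := by
      simp only [dil, Prod.fst_sub, Prod.snd_sub, Prod.smul_fst, Prod.smul_snd, smul_eq_mul]
      ring
    constructor
    · rintro ⟨h1, h2⟩
      refine ⟨e1.mp h1, ?_⟩
      have h2' : ((dil z).1.1 - (dil z).2.1) ^ 2 + ((dil z).1.2 - (dil z).2.2) ^ 2 < 4 * v := h2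
      rw [e2] at h2'
      show (z.1.1 - z.2.1) ^ 2 + (z.1.2 - z.2.2) ^ 2 < v
      linarith
    · rintro ⟨h1, h2⟩
      refine ⟨e1.mpr h1, ?_⟩
      have h2' : (z.1.1 - z.2.1) ^ 2 + (z.1.2 - z.2.2) ^ 2 < v := h2
      show ((dil z).1.1 - (dil z).2.1) ^ 2 + ((dil z).1.2 - (dil z).2.2) ^ 2 < 4 * v
      rw [e2]
      linarith
  -- near mass is dominated by the mass of the annulus
  have hX : ENNReal.ofReal (5 / 3) * ∫⁻ z in B1, Ψ z ∂μ ≤ ∫⁻ z in B2, Ψ z ∂μ := by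
    rw [← lintegral_indicator hB1m, ← lintegral_indicator hB2m,
      lint_dil (B2.indicator Ψ) (hΨm.indicator hB2m)]
    have hc : ENNReal.ofReal (5 / 3) ≤ 4 * ENNReal.ofReal (Real.exp (-(3 / 4))) := by
      have h4 : (4 : ℝ≥0∞) = ENNReal.ofReal 4 := by simp
      rw [h4, ← ENNReal.ofReal_mul (by norm_num)]
      apply ENNReal.ofReal_le_ofReal
      have hexp : Real.exp (3 / 4) ≤ 12 / 5 := by
        have h1 : Real.exp (3 / 4) = Real.exp 1 ^ ((3 : ℝ) / 4) := by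
          rw [← Real.exp_mul]; norm_num
        have h2 : Real.exp 1 < 2.7182818286 := Real.exp_one_lt_d9
        have h3 : Real.exp (3 / 4) ^ 4 = Real.exp 1 ^ 3 := by
          rw [← Real.exp_nat_mul, ← Real.exp_nat_mul]; norm_num
        have h4 : Real.exp 1 ^ 3 ≤ (12 / 5 : ℝ) ^ 4 := by
          have : Real.exp 1 ^ 3 ≤ (2.72 : ℝ) ^ 3 :=
            pow_le_pow_left₀ (Real.exp_pos _).le (by linarith) 3
          have h5 : (2.72 : ℝ) ^ 3 ≤ (12 / 5 : ℝ) ^ 4 := by norm_num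
          linarith
        rw [← h3] at h4
        exact le_of_pow_le_pow_left₀ (by norm_num) (by norm_num) h4
      rw [Real.exp_neg]
      have hpos := Real.exp_pos (3 / 4)
      rw [← div_eq_mul_inv, le_div_iff₀ hpos]
      linarith
    calc ENNReal.ofReal (5 / 3) * ∫⁻ z, B1.indicator Ψ z ∂μ
        ≤ (4 * ENNReal.ofReal (Real.exp (-(3 / 4)))) * ∫⁻ z, B1.indicator Ψ z ∂μ :=
          mul_le_mul_left hc _
      _ = 4 * ∫⁻ z, ENNReal.ofReal (Real.exp (-(3 / 4))) * B1.indicator Ψ z ∂μ := by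
          rw [lintegral_const_mul _ (hΨm.indicator hB1m), mul_assoc]
      _ ≤ 4 * ∫⁻ z, B2.indicator Ψ (dil z) ∂μ := by
          apply mul_le_mul_right
          apply lintegral_mono
          intro z
          beta_reduce
          by_cases hz : z ∈ B1
          · rw [Set.indicator_of_mem hz, Set.indicator_of_mem ((hdilB z).mpr hz)]
            exact phis_dil v hv p q z hz.2
          · rw [Set.indicator_of_notMem hz, mul_zero]
            exact zero_le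
  have hXfin : ∫⁻ z in B1, Ψ z ∂μ ≠ ⊤ :=
    ne_top_of_le_ne_top htot (setLIntegral_le_lintegral _ _)
  have hsplit2 : ∫⁻ z in B2, Ψ z ∂μ = ∫⁻ z in B1, Ψ z ∂μ + ∫⁻ z in B2 \ B1, Ψ z ∂μ := by
    rw [← lintegral_union (hB2m.diff hB1m) Set.disjoint_sdiff_right, Set.union_sdiff_cancel hB12]
  have hsplitA : ∫⁻ z in A, Ψ z ∂μ = ∫⁻ z in B1, Ψ z ∂μ + ∫⁻ z in A \ B1, Ψ z ∂μ := by
    rw [← lintegral_union (hA.diff hB1m) Set.disjoint_sdiff_right,
      Set.union_sdiff_cancel Set.inter_subset_left]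
  have hYZ : ∫⁻ z in B2 \ B1, Ψ z ∂μ ≤ ∫⁻ z in A \ B1, Ψ z ∂μ :=
    lintegral_mono_set (Set.sdiff_subset_sdiff_left Set.inter_subset_left)
  have hXZ : ENNReal.ofReal (2 / 3) * ∫⁻ z in B1, Ψ z ∂μ ≤ ∫⁻ z in A \ B1, Ψ z ∂μ := by
    refine le_trans ?_ hYZ
    rw [hsplit2, show (5 / 3 : ℝ) = 1 + 2 / 3 by norm_num,
      ENNReal.ofReal_add (by norm_num) (by norm_num), add_mul, ENNReal.ofReal_one, one_mul] at hX
    exact (ENNReal.add_le_add_iff_left hXfin).mp hX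
  have hAZ : ∫⁻ z in A, Ψ z ∂μ ≤ ENNReal.ofReal (5 / 2) * ∫⁻ z in A \ B1, Ψ z ∂μ := by
    have h1 : ∫⁻ z in B1, Ψ z ∂μ ≤ ENNReal.ofReal (3 / 2) * ∫⁻ z in A \ B1, Ψ z ∂μ := by
      calc ∫⁻ z in B1, Ψ z ∂μ
          = ENNReal.ofReal (3 / 2) * (ENNReal.ofReal (2 / 3) * ∫⁻ z in B1, Ψ z ∂μ) := by
            rw [← mul_assoc, ← ENNReal.ofReal_mul (by norm_num)]
            norm_num
        _ ≤ _ := mul_le_mul_right hXZ _
    rw [hsplitA, show (5 / 2 : ℝ) = 3 / 2 + 1 by norm_num,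
      ENNReal.ofReal_add (by norm_num) (by norm_num), add_mul, ENNReal.ofReal_one, one_mul]
    exact add_le_add_left h1 _
  have hZ : ∫⁻ z in A \ B1, Ψ z ∂μ ≤
      ENNReal.ofReal (1 / Real.sqrt v) * ∫⁻ z, Ψ z * A.indicator F z ∂μ := by
    have hm : Measurable fun z => Ψ z * A.indicator F z := hΨm.mul (hFm.indicator hA)
    rw [← lintegral_indicator (hA.diff hB1m), ← lintegral_const_mul _ hm]
    apply lintegral_mono
    intro z
    by_cases hz : z ∈ A \ B1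
    · rw [Set.indicator_of_mem hz]
      show Ψ z ≤ ENNReal.ofReal (1 / Real.sqrt v) * (Ψ z * A.indicator F z)
      rw [Set.indicator_of_mem hz.1]
      have hz2 : (v : ℝ) ≤ (z.1.1 - z.2.1) ^ 2 + (z.1.2 - z.2.2) ^ 2 := by
        by_contra hcon
        exact hz.2 ⟨hz.1, not_le.mp hcon⟩
      have hsq : Real.sqrt v ≤ |z.1.1 - z.2.1| + |z.1.2 - z.2.2| := by
        apply Real.sqrt_le_iff.mpr
        refine ⟨by positivity, hz2.trans ?_⟩
        have e1 := sq_abs (z.1.1 - z.2.1)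
        have e2 := sq_abs (z.1.2 - z.2.2)
        have e3 := mul_nonneg (abs_nonneg (z.1.1 - z.2.1)) (abs_nonneg (z.1.2 - z.2.2))
        nlinarith
      have hsp : 0 < Real.sqrt v := Real.sqrt_pos.mpr hv'
      have h1 : 1 ≤ ENNReal.ofReal (1 / Real.sqrt v) * F z := by
        rw [hF]
        show 1 ≤ ENNReal.ofReal (1 / Real.sqrt v) *
          ENNReal.ofReal (|z.1.1 - z.2.1| + |z.1.2 - z.2.2|)
        rw [← ENNReal.ofReal_mul (by positivity), ← ENNReal.ofReal_one]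
        apply ENNReal.ofReal_le_ofReal
        rw [one_div, ← div_eq_inv_mul, le_div_iff₀ hsp, one_mul]
        exact hsq
      calc Ψ z = 1 * Ψ z := (one_mul _).symm
        _ ≤ (ENNReal.ofReal (1 / Real.sqrt v) * F z) * Ψ z := mul_le_mul_left h1 _
        _ = _ := by ring
    · rw [Set.indicator_of_notMem hz]
      exact zero_le
  -- conclusion
  have hFs : ∀ z, A.indicator F z.swap = A.indicator F z := by
    intro z
    by_cases hz : z ∈ A
    · rw [Set.indicator_of_mem hz, Set.indicator_of_mem ((hmem z).mpr hz)]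
      simp only [hF, Prod.fst_swap, Prod.snd_swap]
      rw [abs_sub_comm, abs_sub_comm z.2.2]
    · rw [Set.indicator_of_notMem hz, Set.indicator_of_notMem (fun h => hz ((hmem z).mp h))]
  have h1s : ∀ z, A.indicator (1 : (ℝ × ℝ) × (ℝ × ℝ) → ℝ≥0∞) z.swap = A.indicator 1 z := by
    intro z
    by_cases hz : z ∈ A
    · rw [Set.indicator_of_mem hz, Set.indicator_of_mem ((hmem z).mpr hz)]
      rfl
    · rw [Set.indicator_of_notMem hz, Set.indicator_of_notMem (fun h => hz ((hmem z).mp h))]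
  have key1 := hsym (A.indicator 1) (hone.indicator hA) h1s
  have key2 := hsym (A.indicator F) (hFm.indicator hA) hFs
  have hA1 : ∫⁻ z in A, Ψ z ∂μ = ∫⁻ z, Ψ z * A.indicator 1 z ∂μ := by
    rw [← lintegral_indicator hA]
    refine lintegral_congr fun z => ?_
    by_cases hz : z ∈ A
    · rw [Set.indicator_of_mem hz, Set.indicator_of_mem hz]
      simp
    · rw [Set.indicator_of_notMem hz, Set.indicator_of_notMem hz, mul_zero]
  have hfinal : 2 * ∫⁻ z, Φ z * A.indicator 1 z ∂μ ≤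
      2 * (ENNReal.ofReal (5 / (2 * Real.sqrt v)) * ∫⁻ z, Φ z * A.indicator F z ∂μ) := by
    calc 2 * ∫⁻ z, Φ z * A.indicator 1 z ∂μ = ∫⁻ z in A, Ψ z ∂μ := by
          rw [key1, hA1]
      _ ≤ ENNReal.ofReal (5 / 2) * ∫⁻ z in A \ B1, Ψ z ∂μ := hAZ
      _ ≤ ENNReal.ofReal (5 / 2) *
          (ENNReal.ofReal (1 / Real.sqrt v) * ∫⁻ z, Ψ z * A.indicator F z ∂μ) :=
          mul_le_mul_right hZ _
      _ = ENNReal.ofReal (5 / (2 * Real.sqrt v)) * ∫⁻ z, Ψ z * A.indicator F z ∂μ := by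
          rw [← mul_assoc, ← ENNReal.ofReal_mul (by norm_num)]
          congr 2
          have hsp : Real.sqrt v ≠ 0 := (Real.sqrt_pos.mpr hv').ne'
          field_simp
      _ = _ := by
          rw [← key2]
          ring
  exact (ENNReal.mul_le_mul_iff_right (by norm_num) (by norm_num)).mp hfinal

end Pool.Agent.Work.MP_e17eac_co
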